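import Pool.Agent.Lib_MP_eedf80_an.Defs

/-!
# Part E2: matched increasing maps which agree somewhere agree everywhere
-/

set_option autoImplicit false

namespace Pool.Agent.CFP

open Set Function

variable {Q : ℝ → ℝ}

theorem agree_right_const (hQ : Continuous Q) {δ₁ δ₂ : ℝ → ℝ} {t' t₁ : ℝ} (ht : t' ≤ t₁)
    (h₁ : IncOn δ₁ t' t₁) (h₂ : IncOn δ₂ t' t₁) (h0 : δ₁ t' = δ₂ t')
    (hlt : ∀ t ∈ Ioc t' t₁, δ₁ t < δ₂ t) (hQQ : ∀ u ∈ Icc t' t₁, Q (δ₁ u) = Q (δ₂ u)) :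
    ∀ v ∈ Icc (δ₂ t') (δ₂ t₁), Q v = Q (δ₂ t') := by
  intro v hv
  have hcomp : IsCompact {w ∈ Icc (δ₂ t') v | Q w = Q v} :=
    isCompact_Icc.inter_right (isClosed_eq hQ continuous_const)
  obtain ⟨s, hs, hmin⟩ := hcomp.exists_isLeast ⟨v, ⟨hv.1, le_rfl⟩, rfl⟩
  rcases hs.1.1.eq_or_lt with h | h
  · rw [← hs.2, ← h]
  · exfalso
    obtain ⟨t, ht1, ht2⟩ := intermediate_value_Icc ht h₂.2 ⟨h.le, hs.1.2.trans hv.2⟩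
    have htt : t' < t := by
      rcases ht1.1.eq_or_lt with e | e
      · rw [← e] at ht2; exact absurd ht2 h.ne
      · exact e
    have e1 := hlt t ⟨htt, ht1.2⟩
    have e2 : δ₂ t' ≤ δ₁ t := by
      rw [← h0]; exact (h₁.1 (left_mem_Icc.mpr ht) ht1 htt).le
    have e3 : Q (δ₁ t) = Q v := by rw [hQQ t ht1, ht2, hs.2]
    have e4 : s ≤ δ₁ t := hmin ⟨⟨e2, (e1.le.trans ht2.le).trans hs.1.2⟩, e3⟩
    rw [ht2] at e1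
    exact absurd e1 (not_lt.mpr e4)

theorem agree_left_const (hQ : Continuous Q) {δ₁ δ₂ : ℝ → ℝ} {t' t₁ : ℝ} (ht : t₁ ≤ t')
    (h₁ : IncOn δ₁ t₁ t') (h₂ : IncOn δ₂ t₁ t') (h0 : δ₁ t' = δ₂ t')
    (hlt : ∀ t ∈ Ico t₁ t', δ₁ t < δ₂ t) (hQQ : ∀ u ∈ Icc t₁ t', Q (δ₁ u) = Q (δ₂ u)) :
    ∀ v ∈ Icc (δ₁ t₁) (δ₁ t'), Q v = Q (δ₁ t') := by
  intro v hv
  have hcomp : IsCompact {w ∈ Icc v (δ₁ t') | Q w = Q v} :=
    isCompact_Icc.inter_right (isClosed_eq hQ continuous_const)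
  obtain ⟨s, hs, hmax⟩ := hcomp.exists_isGreatest ⟨v, ⟨le_rfl, hv.2⟩, rfl⟩
  rcases hs.1.2.eq_or_lt with h | h
  · rw [← hs.2, ← h]
  · exfalso
    obtain ⟨t, ht1, ht2⟩ := intermediate_value_Icc ht h₁.2 ⟨hv.1.trans hs.1.1, h.le⟩
    have htt : t < t' := by
      rcases ht1.2.eq_or_lt with e | e
      · rw [e] at ht2; exact absurd ht2 h.ne'
      · exact e
    have e1 := hlt t ⟨ht1.1, htt⟩
    have e2 : δ₂ t ≤ δ₁ t' := by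
      rw [h0]; exact (h₂.1 ht1 (right_mem_Icc.mpr ht) htt).le
    have e3 : Q (δ₂ t) = Q v := by rw [← hQQ t ht1, ht2, hs.2]
    have e4 : δ₂ t ≤ s := hmax ⟨⟨(hs.1.1.trans ht2.ge).trans e1.le, e2⟩, e3⟩
    rw [ht2] at e1
    exact absurd e1 (not_lt.mpr e4)

theorem IncOn.sub {γ : ℝ → ℝ} {a b a' b' : ℝ} (h : IncOn γ a b) (ha : a ≤ a') (hb : b' ≤ b) :
    IncOn γ a' b' :=
  ⟨h.1.mono (Icc_subset_Icc ha hb), h.2.mono (Icc_subset_Icc ha hb)⟩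

/-- If two continuous functions differ on `(t', t₁]` then the sign of the difference is constant. -/
theorem sign_const_right {δ₁ δ₂ : ℝ → ℝ} {t' t₁ : ℝ} (h₁ : ContinuousOn δ₁ (Icc t' t₁))
    (h₂ : ContinuousOn δ₂ (Icc t' t₁)) (hne : ∀ t ∈ Ioc t' t₁, δ₁ t ≠ δ₂ t)
    (h : δ₁ t₁ < δ₂ t₁) : ∀ t ∈ Ioc t' t₁, δ₁ t < δ₂ t := by
  intro t ht
  by_contra hc
  have hlt : δ₂ t < δ₁ t := lt_of_le_of_ne (not_lt.mp hc) (hne t ht).symm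
  have hsub : Icc t t₁ ⊆ Icc t' t₁ := Icc_subset_Icc ht.1.le le_rfl
  have hcont : ContinuousOn (fun x => δ₂ x - δ₁ x) (Icc t t₁) :=
    (h₂.mono hsub).sub (h₁.mono hsub)
  obtain ⟨x, hx, hx0⟩ := intermediate_value_Icc ht.2 hcont
    (show (0 : ℝ) ∈ Icc (δ₂ t - δ₁ t) (δ₂ t₁ - δ₁ t₁) from ⟨by linarith, by linarith⟩)
  have : δ₂ x - δ₁ x = 0 := hx0
  exact hne x ⟨ht.1.trans_le hx.1, hx.2⟩ (by linarith)

theorem sign_const_left {δ₁ δ₂ : ℝ → ℝ} {t' t₁ : ℝ} (h₁ : ContinuousOn δ₁ (Icc t₁ t'))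
    (h₂ : ContinuousOn δ₂ (Icc t₁ t')) (hne : ∀ t ∈ Ico t₁ t', δ₁ t ≠ δ₂ t)
    (h : δ₁ t₁ < δ₂ t₁) : ∀ t ∈ Ico t₁ t', δ₁ t < δ₂ t := by
  intro t ht
  by_contra hc
  have hlt : δ₂ t < δ₁ t := lt_of_le_of_ne (not_lt.mp hc) (hne t ht).symm
  have hsub : Icc t₁ t ⊆ Icc t₁ t' := Icc_subset_Icc le_rfl ht.2.le
  have hcont : ContinuousOn (fun x => δ₁ x - δ₂ x) (Icc t₁ t) :=
    (h₁.mono hsub).sub (h₂.mono hsub)
  obtain ⟨x, hx, hx0⟩ := intermediate_value_Icc ht.1 hcont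
    (show (0 : ℝ) ∈ Icc (δ₁ t₁ - δ₂ t₁) (δ₁ t - δ₂ t) from ⟨by linarith, by linarith⟩)
  have : δ₁ x - δ₂ x = 0 := hx0
  exact hne x ⟨hx.1, hx.2.trans_lt ht.2⟩ (by linarith)

theorem agree_aux (hQ : Continuous Q) {lo α β : ℝ}
    (nc : ∀ a b, lo < a → a < b → ∃ t ∈ Icc a b, Q t ≠ Q a) {δ₁ δ₂ : ℝ → ℝ}
    (h₁ : IncOn δ₁ α β) (h₂ : IncOn δ₂ α β) (hlo₁ : ∀ u ∈ Icc α β, lo < δ₁ u)
    (hlo₂ : ∀ u ∈ Icc α β, lo < δ₂ u) (hQQ : ∀ u ∈ Icc α β, Q (δ₁ u) = Q (δ₂ u))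
    {t₀ : ℝ} (ht₀ : t₀ ∈ Icc α β) (h0 : δ₁ t₀ = δ₂ t₀) : ∀ u ∈ Icc α β, ¬ δ₁ u < δ₂ u := by
  intro u hu hlt
  rcases lt_trichotomy t₀ u with htu | htu | htu
  · have hsub : Icc t₀ u ⊆ Icc α β := Icc_subset_Icc ht₀.1 hu.2
    have hcomp : IsCompact {w ∈ Icc t₀ u | δ₁ w = δ₂ w} := by
      have : IsClosed {w ∈ Icc t₀ u | δ₁ w = δ₂ w} :=
        ((h₁.2.mono hsub).prodMk (h₂.2.mono hsub)).preimage_isClosed_of_isClosed isClosed_Icc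
          isClosed_diagonal
      exact isCompact_Icc.of_isClosed_subset this fun x hx => hx.1
    obtain ⟨t', ht', hmax⟩ := hcomp.exists_isGreatest ⟨t₀, ⟨le_rfl, htu.le⟩, h0⟩
    have htlt : t' < u := by
      rcases ht'.1.2.eq_or_lt with e | e
      · rw [← e, ht'.2] at hlt; exact absurd hlt (lt_irrefl _)
      · exact e
    have hα : α ≤ t' := ht₀.1.trans ht'.1.1
    have g₁ : IncOn δ₁ t' u := h₁.sub hα hu.2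
    have g₂ : IncOn δ₂ t' u := h₂.sub hα hu.2
    have hne : ∀ t ∈ Ioc t' u, δ₁ t ≠ δ₂ t := fun t ht e =>
      absurd (hmax ⟨⟨ht'.1.1.trans ht.1.le, ht.2⟩, e⟩) (not_le.mpr ht.1)
    have hsg := sign_const_right g₁.2 g₂.2 hne hlt
    have hc := agree_right_const hQ htlt.le g₁ g₂ ht'.2 hsg
      (fun x hx => hQQ x ⟨hα.trans hx.1, hx.2.trans hu.2⟩)
    obtain ⟨w, hw, hwne⟩ := nc (δ₂ t') (δ₂ u) (hlo₂ t' ⟨hα, ht'.1.2.trans hu.2⟩)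
      (g₂.1 (left_mem_Icc.mpr htlt.le) (right_mem_Icc.mpr htlt.le) htlt)
    exact hwne (hc w hw)
  · rw [← htu, h0] at hlt; exact lt_irrefl _ hlt
  · have hsub : Icc u t₀ ⊆ Icc α β := Icc_subset_Icc hu.1 ht₀.2
    have hcomp : IsCompact {w ∈ Icc u t₀ | δ₁ w = δ₂ w} := by
      have : IsClosed {w ∈ Icc u t₀ | δ₁ w = δ₂ w} :=
        ((h₁.2.mono hsub).prodMk (h₂.2.mono hsub)).preimage_isClosed_of_isClosed isClosed_Icc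
          isClosed_diagonal
      exact isCompact_Icc.of_isClosed_subset this fun x hx => hx.1
    obtain ⟨t', ht', hmin⟩ := hcomp.exists_isLeast ⟨t₀, ⟨htu.le, le_rfl⟩, h0⟩
    have htlt : u < t' := by
      rcases ht'.1.1.eq_or_lt with e | e
      · rw [e, ht'.2] at hlt; exact absurd hlt (lt_irrefl _)
      · exact e
    have hβ : t' ≤ β := ht'.1.2.trans ht₀.2
    have g₁ : IncOn δ₁ u t' := h₁.sub hu.1 hβ
    have g₂ : IncOn δ₂ u t' := h₂.sub hu.1 hβ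
    have hne : ∀ t ∈ Ico u t', δ₁ t ≠ δ₂ t := fun t ht e =>
      absurd (hmin ⟨⟨ht.1, ht.2.le.trans ht'.1.2⟩, e⟩) (not_le.mpr ht.2)
    have hsg := sign_const_left g₁.2 g₂.2 hne hlt
    have hc := agree_left_const hQ htlt.le g₁ g₂ ht'.2 hsg
      (fun x hx => hQQ x ⟨hu.1.trans hx.1, hx.2.trans hβ⟩)
    have hlt' := g₁.1 (left_mem_Icc.mpr htlt.le) (right_mem_Icc.mpr htlt.le) htlt
    obtain ⟨w, hw, hwne⟩ := nc (δ₁ u) (δ₁ t') (hlo₁ u hu) hlt'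
    exact hwne ((hc w hw).trans (hc _ (left_mem_Icc.mpr hlt'.le)).symm)

/-- PART E2 (Fact F): matched increasing maps which agree somewhere agree everywhere. -/
theorem agree (hQ : Continuous Q) {lo α β : ℝ}
    (nc : ∀ a b, lo < a → a < b → ∃ t ∈ Icc a b, Q t ≠ Q a) {δ₁ δ₂ : ℝ → ℝ}
    (h₁ : IncOn δ₁ α β) (h₂ : IncOn δ₂ α β) (hlo₁ : ∀ u ∈ Icc α β, lo < δ₁ u)
    (hlo₂ : ∀ u ∈ Icc α β, lo < δ₂ u) (hQQ : ∀ u ∈ Icc α β, Q (δ₁ u) = Q (δ₂ u))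
    {t₀ : ℝ} (ht₀ : t₀ ∈ Icc α β) (h0 : δ₁ t₀ = δ₂ t₀) : ∀ u ∈ Icc α β, δ₁ u = δ₂ u := by
  intro u hu
  have e1 := agree_aux hQ nc h₁ h₂ hlo₁ hlo₂ hQQ ht₀ h0 u hu
  have e2 := agree_aux hQ nc h₂ h₁ hlo₂ hlo₁ (fun x hx => (hQQ x hx).symm) ht₀ h0.symm u hu
  exact le_antisymm (not_lt.mp e2) (not_lt.mp e1)

end Pool.Agent.CFP
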