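import Pool.Agent.Lib_MP_eedf80_an.Defs

/-!
PART S: one-sided germs.
-/

set_option autoImplicit false

namespace Pool.Agent.CFP

open Set Function

section Sides

variable {f g F G : ℝ → ℝ} {y₁ y₂ s₁ s₂ c s s' s'' : ℝ}

private lemma sq_one (hs : s = 1 ∨ s = -1) : s * s = 1 := by
  rcases hs with rfl | rfl <;> norm_num

/-- PART S. -/
theorem Push.unique (hs' : s' = 1 ∨ s' = -1) (hs'' : s'' = 1 ∨ s'' = -1)
    (h : Push F c s s') (h' : Push F c s s'') : s' = s'' := by
  obtain ⟨ε₁, h1, h2⟩ := h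
  obtain ⟨ε₂, h3, h4⟩ := h'
  have hm : 0 < min ε₁ ε₂ := lt_min h1 h3
  have a1 := h2 (left_mem_Icc.2 h1.le) ⟨hm.le, min_le_left _ _⟩ hm
  have a2 := h4 (left_mem_Icc.2 h3.le) ⟨hm.le, min_le_right _ _⟩ hm
  simp only at a1 a2
  rcases hs' with rfl | rfl <;> rcases hs'' with rfl | rfl
  · rfl
  · exfalso; linarith
  · exfalso; linarith
  · rfl

theorem Push.comp (hF : Continuous F) (hs : s = 1 ∨ s = -1) (hs' : s' = 1 ∨ s' = -1)
    (h : Push F c s s') (h' : Push G (F c) s' s'') : Push (G ∘ F) c s s'' := by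
  obtain ⟨ε₁, h1, h2⟩ := h
  obtain ⟨ε₂, h3, h4⟩ := h'
  have hsq := sq_one hs'
  have hcont : Continuous fun r => s' * (F (c + s * r) - F c) := by fun_prop
  have h0 : s' * (F (c + s * 0) - F c) = 0 := by simp
  have hev : ∀ᶠ r in nhds (0 : ℝ), s' * (F (c + s * r) - F c) < ε₂ := by
    have := hcont.tendsto 0
    rw [h0] at this
    exact this.eventually (gt_mem_nhds h3)
  obtain ⟨η, hη, hη'⟩ := Metric.eventually_nhds_iff.1 hev
  refine ⟨min ε₁ (η / 2), lt_min h1 (by linarith), ?_⟩
  have hmem : ∀ r ∈ Icc (0 : ℝ) (min ε₁ (η / 2)), r ∈ Icc 0 ε₁ ∧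
      s' * (F (c + s * r) - F c) ∈ Icc 0 ε₂ := by
    intro r hr
    have hr1 : r ∈ Icc 0 ε₁ := ⟨hr.1, hr.2.trans (min_le_left _ _)⟩
    refine ⟨hr1, ?_, ?_⟩
    · have := h2.monotoneOn (left_mem_Icc.2 h1.le) hr1 hr.1
      simp only [mul_zero, add_zero] at this
      rw [mul_sub]; linarith
    · refine (hη' ?_).le
      have := hr.2.trans (min_le_right _ _)
      rw [Real.dist_eq, sub_zero, abs_of_nonneg hr.1]
      linarith
  intro r hr t ht hrt
  obtain ⟨r1, r2⟩ := hmem r hr
  obtain ⟨t1, t2⟩ := hmem t ht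
  have h5 := h2 r1 t1 hrt
  have h6 : s' * (F (c + s * r) - F c) < s' * (F (c + s * t) - F c) := by
    simp only at h5
    rw [mul_sub, mul_sub]; linarith
  have h7 := h4 r2 t2 h6
  simp only at h7
  have e1 : ∀ r, F c + s' * (s' * (F (c + s * r) - F c)) = F (c + s * r) := by
    intro r
    rw [← mul_assoc, hsq]; ring
  rw [e1, e1] at h7
  exact h7

private lemma push_id (hs : s = 1 ∨ s = -1) : Push id c s s := by
  refine ⟨1, one_pos, ?_⟩
  intro r _ t _ hrt
  have hsq := sq_one hs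
  simp only [id]
  have e1 : ∀ r, s * (c + s * r) = s * c + r := by
    intro r
    rw [mul_add, ← mul_assoc, hsq, one_mul]
  rw [e1, e1]
  linarith

/-- The germ at a side of a word is pushed by a commuting map. -/
private lemma push_step {w u : ℝ → ℝ} (hw : Continuous w) (hu : Continuous u)
    (hu01 : ∀ x, u x ∈ Icc (0 : ℝ) 1) (hcomm : ∀ x, w (u x) = u (w x)) (hs : s = 1 ∨ s = -1)
    (h : Side w c s) (hinj : ∃ ε > 0, InjOn u ((fun r => c + s * r) '' Icc (0 : ℝ) ε)) :
    ∃ s' : ℝ, (s' = 1 ∨ s' = -1) ∧ Push u c s s' ∧ Side w (u c) s' := by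
  obtain ⟨hfix, ε₀, hε₀, hside⟩ := h
  obtain ⟨ε, hε, hinj⟩ := hinj
  have hsq := sq_one hs
  have hs0 : s ≠ 0 := by rcases hs with rfl | rfl <;> norm_num
  have hinj' : InjOn (fun r => u (c + s * r)) (Icc 0 ε) := by
    intro r hr t ht hrt
    have := hinj ⟨r, hr, rfl⟩ ⟨t, ht, rfl⟩ hrt
    simp only at this
    exact mul_left_cancel₀ hs0 (by linarith)
  have hcont : Continuous fun r => u (c + s * r) := by fun_prop
  obtain ⟨s', hs', hmono⟩ : ∃ s' : ℝ, (s' = 1 ∨ s' = -1) ∧
      StrictMonoOn (fun r => s' * u (c + s * r)) (Icc 0 ε) := by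
    rcases ContinuousOn.strictMonoOn_of_injOn_Icc' hε.le hcont.continuousOn hinj' with h1 | h1
    · refine ⟨1, Or.inl rfl, ?_⟩
      intro r hr t ht hrt
      have := h1 hr ht hrt
      simpa using this
    · refine ⟨-1, Or.inr rfl, ?_⟩
      intro r hr t ht hrt
      have := h1 hr ht hrt
      simp only at this ⊢
      linarith
  have hsq' := sq_one hs'
  refine ⟨s', hs', ⟨ε, hε, hmono⟩, ?_, ?_⟩
  · rw [hcomm, hfix]
  · -- choose a small range
    have hc2 : Continuous fun r => s * (w (c + s * r) - c) := by fun_prop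
    have h0 : s * (w (c + s * 0) - c) = 0 := by simp [hfix]
    have hev : ∀ᶠ r in nhds (0 : ℝ), s * (w (c + s * r) - c) < ε := by
      have := hc2.tendsto 0
      rw [h0] at this
      exact this.eventually (gt_mem_nhds hε)
    obtain ⟨η, hη, hη'⟩ := Metric.eventually_nhds_iff.1 hev
    set ε₁ := min ε (min (ε₀ / 2) (η / 2)) with hε₁
    have hε₁pos : 0 < ε₁ := lt_min hε (lt_min (by linarith) (by linarith))
    have l1 : ε₁ ≤ ε := min_le_left _ _
    have l2 : ε₁ ≤ ε₀ / 2 := (min_le_right _ _).trans (min_le_left _ _)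
    have l3 : ε₁ ≤ η / 2 := (min_le_right _ _).trans (min_le_right _ _)
    have hcψ : Continuous fun r => s' * (u (c + s * r) - u c) := by fun_prop
    have hψmono : ∀ r ∈ Icc (0 : ℝ) ε, ∀ t ∈ Icc (0 : ℝ) ε, r < t →
        s' * (u (c + s * r) - u c) < s' * (u (c + s * t) - u c) := by
      intro r hr t ht hrt
      have := hmono hr ht hrt
      simp only at this
      rw [mul_sub, mul_sub]; linarith
    have hψ0 : s' * (u (c + s * 0) - u c) = 0 := by simp
    have hψ1 : 0 < s' * (u (c + s * ε₁) - u c) := by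
      have := hψmono 0 (left_mem_Icc.2 hε.le) ε₁ ⟨hε₁pos.le, l1⟩ hε₁pos
      rwa [hψ0] at this
    refine ⟨s' * (u (c + s * ε₁) - u c), hψ1, ?_⟩
    intro ρ hρ
    have hivt := intermediate_value_Ioo hε₁pos.le hcψ.continuousOn
    simp only [hψ0] at hivt
    obtain ⟨r, hr, hrρ⟩ := hivt hρ
    simp only at hrρ
    have hval : u c + s' * ρ = u (c + s * r) := by
      rw [← hrρ, ← mul_assoc, hsq']; ring
    rw [hval]
    refine ⟨hu01 _, ?_⟩
    rw [hcomm]
    obtain ⟨-, hside2⟩ := hside r ⟨hr.1, by linarith [hr.2]⟩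
    set r₂ := s * (w (c + s * r) - c) with hr₂
    have hw2 : w (c + s * r) = c + s * r₂ := by
      rw [hr₂, ← mul_assoc, hsq]; ring
    have hrr₂ : r < r₂ := by
      rw [hw2] at hside2
      have : s * (c + s * r₂ - (c + s * r)) = (s * s) * (r₂ - r) := by ring
      rw [this, hsq] at hside2
      linarith
    have hr₂ε : r₂ < ε := by
      apply hη'
      rw [Real.dist_eq, sub_zero, abs_of_pos hr.1]
      linarith [hr.2]
    rw [hw2]
    have := hmono ⟨hr.1.le, hr.2.le.trans l1⟩ ⟨(hr.1.trans hrr₂).le, hr₂ε.le⟩ hrr₂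
    simp only at this
    rw [mul_sub]; linarith

private lemma commfW (hc : ∀ x, f (g x) = g (f x)) (p q : ℕ) (x : ℝ) :
    W f g p q (f x) = f (W f g p q x) := by
  have h1 : Function.Commute f g := fun x => hc x
  have h2 : Function.Commute f (g^[q]) := h1.iterate_right q
  have h3 : Function.Commute f (f^[p]) := (Function.Commute.refl f).iterate_right p
  unfold W
  simp only [Function.comp_apply]
  rw [← h2 x, ← h3 (g^[q] x)]

private lemma commgW (hc : ∀ x, f (g x) = g (f x)) (p q : ℕ) (x : ℝ) :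
    W f g p q (g x) = g (W f g p q x) := by
  have h1 : Function.Commute g f := fun x => (hc x).symm
  have h2 : Function.Commute g (g^[q]) := (Function.Commute.refl g).iterate_right q
  have h3 : Function.Commute g (f^[p]) := h1.iterate_right p
  unfold W
  simp only [Function.comp_apply]
  rw [← h2 x, ← h3 (g^[q] x)]

private lemma contWord (R : Red f g y₁ y₂ s₁ s₂) (p q : ℕ) : Continuous (W f g p q) :=
  (R.contf.iterate p).comp (R.contg.iterate q)

/-- Every word maps every sided point of every positive word to a sided point of that word. -/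
theorem Red.pushW (R : Red f g y₁ y₂ s₁ s₂) {p q : ℕ} (hp : 1 ≤ p) (hq : 1 ≤ q)
    (hs : s = 1 ∨ s = -1) (h : Side (W f g p q) c s) (i j : ℕ) :
    ∃ s' : ℝ, (s' = 1 ∨ s' = -1) ∧ Push (W f g i j) c s s' ∧
      Side (W f g p q) (W f g i j c) s' := by
  induction i with
  | zero =>
    induction j with
    | zero => exact ⟨s, hs, push_id hs, h⟩
    | succ j ih =>
      obtain ⟨s', hs', h1, h2⟩ := ih
      obtain ⟨s'', hs'', h3, h4⟩ := push_step (contWord R p q) R.contg R.mapg
        (fun x => commgW R.comm p q x) hs' h2 (by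
          obtain ⟨ε, hε, -, h5⟩ := R.hon p q hp hq _ _ hs' h2
          exact ⟨ε, hε, h5⟩)
      have e : W f g 0 (j + 1) = g ∘ W f g 0 j := by
        unfold W
        rw [Function.iterate_zero, Function.id_comp, Function.id_comp, Function.iterate_succ']
      rw [e]
      exact ⟨s'', hs'', Push.comp (contWord R 0 j) hs hs' h1 h3, h4⟩
  | succ i ih =>
    obtain ⟨s', hs', h1, h2⟩ := ih
    obtain ⟨s'', hs'', h3, h4⟩ := push_step (contWord R p q) R.contf R.mapf
      (fun x => commfW R.comm p q x) hs' h2 (by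
        obtain ⟨ε, hε, h5, -⟩ := R.hon p q hp hq _ _ hs' h2
        exact ⟨ε, hε, h5⟩)
    have e : W f g (i + 1) j = f ∘ W f g i j := by
      unfold W
      rw [Function.iterate_succ', Function.comp_assoc]
    rw [e]
    exact ⟨s'', hs'', Push.comp (contWord R i j) hs hs' h1 h3, h4⟩

theorem Red.push_self (R : Red f g y₁ y₂ s₁ s₂) {p q : ℕ} (hp : 1 ≤ p) (hq : 1 ≤ q)
    (hs : s = 1 ∨ s = -1) (h : Side (W f g p q) c s) : Push (W f g p q) c s s := by
  obtain ⟨s', hs', h1, -⟩ := R.pushW hp hq hs h p q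
  obtain ⟨ε₁, hε₁, hmono⟩ := id h1
  obtain ⟨hfix, ε₀, hε₀, hside⟩ := h
  have hsq := sq_one hs
  have hm : 0 < min ε₁ (ε₀ / 2) := lt_min hε₁ (by linarith)
  set r := min ε₁ (ε₀ / 2) with hr
  have l1 : r ≤ ε₁ := min_le_left _ _
  have l2 : r ≤ ε₀ / 2 := min_le_right _ _
  have a1 := hmono (left_mem_Icc.2 hε₁.le) ⟨hm.le, l1⟩ hm
  obtain ⟨-, a2⟩ := hside r ⟨hm, by linarith⟩
  simp only [mul_zero, add_zero] at a1
  rw [hfix] at a1
  have e1 : s * (W f g p q (c + s * r) - (c + s * r)) =
      s * (W f g p q (c + s * r) - c) - (s * s) * r := by ring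
  rw [e1, hsq, one_mul] at a2
  have hss : s' = s := by
    rcases hs' with rfl | rfl <;> rcases hs with rfl | rfl
    · rfl
    · exfalso; nlinarith
    · exfalso; nlinarith
    · rfl
  rw [hss] at h1
  exact h1

theorem Red.side_mul (R : Red f g y₁ y₂ s₁ s₂) {p q n : ℕ} (hp : 1 ≤ p) (hq : 1 ≤ q) (hn : 1 ≤ n)
    (hs : s = 1 ∨ s = -1) (h : Side (W f g p q) c s) : Side (W f g (n * p) (n * q)) c s := by
  have hsq := sq_one hs
  induction n, hn using Nat.le_induction with
  | base => rwa [one_mul, one_mul]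
  | succ n _ ih =>
    obtain ⟨hfix, ε₀, hε₀, hside⟩ := h
    obtain ⟨hfix', ε₁, hε₁, hside'⟩ := ih
    have e : ∀ x, W f g ((n + 1) * p) ((n + 1) * q) x = W f g p q (W f g (n * p) (n * q) x) := by
      intro x
      have h1 : Function.Commute g f := fun x => (R.comm x).symm
      have h2 : Function.Commute (g^[q]) (f^[n * p]) := (h1.iterate_left q).iterate_right (n * p)
      unfold W
      simp only [Function.comp_apply]
      rw [show (n + 1) * p = p + n * p by ring, show (n + 1) * q = q + n * q by ring,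
        Function.iterate_add_apply, Function.iterate_add_apply, h2 (g^[n * q] x)]
    refine ⟨?_, ?_⟩
    · rw [e, hfix', hfix]
    · have hc2 : Continuous fun r => s * (W f g (n * p) (n * q) (c + s * r) - c) := by
        have := contWord R (n * p) (n * q)
        fun_prop
      have h0 : s * (W f g (n * p) (n * q) (c + s * 0) - c) = 0 := by simp [hfix']
      have hev : ∀ᶠ r in nhds (0 : ℝ), s * (W f g (n * p) (n * q) (c + s * r) - c) < ε₀ := by
        have := hc2.tendsto 0
        rw [h0] at this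
        exact this.eventually (gt_mem_nhds hε₀)
      obtain ⟨η, hη, hη'⟩ := Metric.eventually_nhds_iff.1 hev
      refine ⟨min ε₁ η, lt_min hε₁ hη, ?_⟩
      intro r hr
      have l1 := hr.2.trans_le (min_le_left ε₁ η)
      have l2 := hr.2.trans_le (min_le_right ε₁ η)
      obtain ⟨a0, a1⟩ := hside' r ⟨hr.1, l1⟩
      refine ⟨a0, ?_⟩
      rw [e]
      set r₂ := s * (W f g (n * p) (n * q) (c + s * r) - c) with hr₂
      have hw2 : W f g (n * p) (n * q) (c + s * r) = c + s * r₂ := by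
        rw [hr₂, ← mul_assoc, hsq]; ring
      have hr₂ε : r₂ < ε₀ := by
        apply hη'
        rw [Real.dist_eq, sub_zero, abs_of_pos hr.1]
        exact l2
      rw [hw2] at a1 ⊢
      have e1 : s * (c + s * r₂ - (c + s * r)) = (s * s) * (r₂ - r) := by ring
      rw [e1, hsq, one_mul] at a1
      obtain ⟨-, a2⟩ := hside r₂ ⟨by linarith [hr.1], hr₂ε⟩
      have e2 : s * (W f g p q (c + s * r₂) - (c + s * r)) =
          s * (W f g p q (c + s * r₂) - (c + s * r₂)) + (s * s) * (r₂ - r) := by ring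
      rw [e2, hsq, one_mul]
      linarith

end Sides

end Pool.Agent.CFP
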