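import Pool.Agent.Lib_MP_eedf80_an.Defs

/-!
Counting sign changes of a continuous function with finitely many zeros.
-/

set_option autoImplicit false

namespace Pool.Agent.CFP

open Set Function

theorem sgn_const_pos {D : ℝ → ℝ} (hD : Continuous D) {a b : ℝ}
    (h0 : ∀ x ∈ Icc a b, D x ≠ 0) {t : ℝ} (ht : t ∈ Icc a b) (hp : 0 < D t) :
    ∀ x ∈ Icc a b, 0 < D x := by
  intro x hx
  by_contra hlt
  push Not at hlt
  have hpc : IsPreconnected (D '' Icc a b) := isPreconnected_Icc.image _ hD.continuousOn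
  obtain ⟨z, hz, hz0⟩ := hpc.Icc_subset (mem_image_of_mem _ hx) (mem_image_of_mem _ ht)
    (show (0 : ℝ) ∈ Icc (D x) (D t) from ⟨hlt, hp.le⟩)
  exact h0 z hz hz0

theorem sgn_const_neg {D : ℝ → ℝ} (hD : Continuous D) {a b : ℝ}
    (h0 : ∀ x ∈ Icc a b, D x ≠ 0) {t : ℝ} (ht : t ∈ Icc a b) (hp : D t < 0) :
    ∀ x ∈ Icc a b, D x < 0 := by
  intro x hx
  have := sgn_const_pos (D := fun x => -D x) hD.neg (a := a) (b := b)
    (fun x hx h => h0 x hx (by simpa using h)) ht (by simpa using hp) x hx
  simpa using this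

theorem sign_count (D : ℝ → ℝ) (hD : Continuous D) (Z : Finset ℝ) (hZ : ∀ x, x ∈ Z ↔ D x = 0)
    (hl : ∀ x < 0, 0 < D x) (hr : ∀ x > 1, D x < 0) :
    {c ∈ (Z : Set ℝ) | (∃ ε > 0, ∀ t ∈ Ioo (c - ε) c, 0 < D t) ∧
        ∃ ε > 0, ∀ t ∈ Ioo c (c + ε), D t < 0}.ncard =
      {c ∈ (Z : Set ℝ) | (∃ ε > 0, ∀ t ∈ Ioo (c - ε) c, D t < 0) ∧
        ∃ ε > 0, ∀ t ∈ Ioo c (c + ε), 0 < D t}.ncard + 1 := by
  classical
  set LP : ℝ → Prop := fun c => ∃ ε > 0, ∀ t ∈ Ioo (c - ε) c, 0 < D t with hLP
  set LN : ℝ → Prop := fun c => ∃ ε > 0, ∀ t ∈ Ioo (c - ε) c, D t < 0 with hLN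
  set RP : ℝ → Prop := fun c => ∃ ε > 0, ∀ t ∈ Ioo c (c + ε), 0 < D t with hRP
  set RN : ℝ → Prop := fun c => ∃ ε > 0, ∀ t ∈ Ioo c (c + ε), D t < 0 with hRN
  have exL : ∀ c, LP c → LN c → False := by
    rintro c ⟨ε, hε, h⟩ ⟨ε', hε', h'⟩
    have hm : 0 < min ε ε' := lt_min hε hε'
    have h1 := h (c - min ε ε' / 2) ⟨by linarith [min_le_left ε ε'], by linarith⟩
    have h2 := h' (c - min ε ε' / 2) ⟨by linarith [min_le_right ε ε'], by linarith⟩
    linarith
  have exR : ∀ c, RP c → RN c → False := by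
    rintro c ⟨ε, hε, h⟩ ⟨ε', hε', h'⟩
    have hm : 0 < min ε ε' := lt_min hε hε'
    have h1 := h (c + min ε ε' / 2) ⟨by linarith, by linarith [min_le_left ε ε']⟩
    have h2 := h' (c + min ε ε' / 2) ⟨by linarith, by linarith [min_le_right ε ε']⟩
    linarith
  have key : ∀ n : ℕ, ∀ τ : ℝ, D τ ≠ 0 → (Z.filter (· < τ)).card = n →
      (0 < D τ → ((Z.filter (· < τ)).filter (fun c => LP c ∧ RN c)).card =
        ((Z.filter (· < τ)).filter (fun c => LN c ∧ RP c)).card) ∧
      (D τ < 0 → ((Z.filter (· < τ)).filter (fun c => LP c ∧ RN c)).card =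
        ((Z.filter (· < τ)).filter (fun c => LN c ∧ RP c)).card + 1) := by
    intro n
    induction n with
    | zero =>
      intro τ hτ hcard
      rw [Finset.card_eq_zero] at hcard
      have hno : ∀ x ∈ Icc (min τ (-1)) τ, D x ≠ 0 := by
        intro x hx h0
        rcases eq_or_lt_of_le hx.2 with h1 | h1
        · rw [h1] at h0; exact hτ h0
        · have : x ∈ Z.filter (· < τ) := Finset.mem_filter.2 ⟨(hZ x).2 h0, h1⟩
          rw [hcard] at this
          simp at this
      have hpos : 0 < D τ := by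
        refine sgn_const_pos hD hno (t := min τ (-1)) ⟨le_rfl, min_le_left _ _⟩
          (hl _ ?_) τ ⟨min_le_left _ _, le_rfl⟩
        exact (min_le_right _ _).trans_lt (by norm_num)
      rw [hcard]
      exact ⟨fun _ => by simp, fun h => absurd h (not_lt.2 hpos.le)⟩
    | succ n ih =>
      intro τ hτ hcard
      have hne : (Z.filter (· < τ)).Nonempty := by
        rw [← Finset.card_pos, hcard]; omega
      set c := (Z.filter (· < τ)).max' hne with hc
      have hcm : c ∈ Z.filter (· < τ) := Finset.max'_mem _ _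
      have hcZ : c ∈ Z := (Finset.mem_filter.1 hcm).1
      have hcτ : c < τ := (Finset.mem_filter.1 hcm).2
      -- the previous cut
      obtain ⟨τ', hτ'c, hτ'⟩ : ∃ τ' < c, ∀ x ∈ Z, x < c → x < τ' := by
        rcases ((Z.filter (· < c))).eq_empty_or_nonempty with h | h
        · refine ⟨c - 1, by linarith, fun x hx hxc => ?_⟩
          have : x ∈ Z.filter (· < c) := Finset.mem_filter.2 ⟨hx, hxc⟩
          rw [h] at this
          simp at this
        · set c' := (Z.filter (· < c)).max' h with hc'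
          have hc'm : c' ∈ Z.filter (· < c) := Finset.max'_mem _ _
          have hc'c : c' < c := (Finset.mem_filter.1 hc'm).2
          refine ⟨(c' + c) / 2, by linarith, fun x hx hxc => ?_⟩
          have : x ≤ c' := Finset.le_max' _ _ (Finset.mem_filter.2 ⟨hx, hxc⟩)
          linarith
      have hins : Z.filter (· < τ) = insert c (Z.filter (· < τ')) := by
        ext x
        simp only [Finset.mem_filter, Finset.mem_insert]
        constructor
        · rintro ⟨h1, h2⟩
          have hle : x ≤ c := Finset.le_max' _ _ (Finset.mem_filter.2 ⟨h1, h2⟩)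
          rcases eq_or_lt_of_le hle with h3 | h3
          · exact Or.inl h3
          · exact Or.inr ⟨h1, hτ' x h1 h3⟩
        · rintro (h1 | ⟨h1, h2⟩)
          · rw [h1]; exact ⟨hcZ, hcτ⟩
          · exact ⟨h1, h2.trans (hτ'c.trans hcτ)⟩
      have hcnot : c ∉ Z.filter (· < τ') := by
        intro h
        have := (Finset.mem_filter.1 h).2
        linarith
      have hcard' : (Z.filter (· < τ')).card = n := by
        rw [hins, Finset.card_insert_of_notMem hcnot] at hcard
        omega
      have hD1 : ∀ x ∈ Ico τ' c, D x ≠ 0 := by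
        intro x hx h0
        have := hτ' x ((hZ x).2 h0) hx.2
        linarith [hx.1]
      have hD2 : ∀ x ∈ Ioc c τ, D x ≠ 0 := by
        intro x hx h0
        rcases eq_or_lt_of_le hx.2 with h1 | h1
        · rw [h1] at h0; exact hτ h0
        · have : x ≤ c := Finset.le_max' _ _ (Finset.mem_filter.2 ⟨(hZ x).2 h0, h1⟩)
          linarith [hx.1]
      have hτ'0 : D τ' ≠ 0 := hD1 τ' ⟨le_rfl, hτ'c⟩
      have lp : 0 < D τ' → LP c := by
        intro h
        refine ⟨c - τ', by linarith, fun t ht => ?_⟩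
        refine sgn_const_pos hD (a := τ') (b := t) (fun x hx => hD1 x ⟨hx.1, hx.2.trans_lt ht.2⟩)
          (t := τ') ⟨le_rfl, by linarith [ht.1]⟩ h t ⟨by linarith [ht.1], le_rfl⟩
      have ln : D τ' < 0 → LN c := by
        intro h
        refine ⟨c - τ', by linarith, fun t ht => ?_⟩
        refine sgn_const_neg hD (a := τ') (b := t) (fun x hx => hD1 x ⟨hx.1, hx.2.trans_lt ht.2⟩)
          (t := τ') ⟨le_rfl, by linarith [ht.1]⟩ h t ⟨by linarith [ht.1], le_rfl⟩
      have rp : 0 < D τ → RP c := by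
        intro h
        refine ⟨τ - c, by linarith, fun t ht => ?_⟩
        refine sgn_const_pos hD (a := t) (b := τ) (fun x hx => hD2 x ⟨ht.1.trans_le hx.1, hx.2⟩)
          (t := τ) ⟨by linarith [ht.2], le_rfl⟩ h t ⟨le_rfl, by linarith [ht.2]⟩
      have rn : D τ < 0 → RN c := by
        intro h
        refine ⟨τ - c, by linarith, fun t ht => ?_⟩
        refine sgn_const_neg hD (a := t) (b := τ) (fun x hx => hD2 x ⟨ht.1.trans_le hx.1, hx.2⟩)
          (t := τ) ⟨by linarith [ht.2], le_rfl⟩ h t ⟨le_rfl, by linarith [ht.2]⟩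
      obtain ⟨ih1, ih2⟩ := ih τ' hτ'0 hcard'
      have hcn1 : c ∉ (Z.filter (· < τ')).filter (fun c => LP c ∧ RN c) := fun h =>
        hcnot (Finset.mem_filter.1 h).1
      have hcn2 : c ∉ (Z.filter (· < τ')).filter (fun c => LN c ∧ RP c) := fun h =>
        hcnot (Finset.mem_filter.1 h).1
      rw [hins, Finset.filter_insert, Finset.filter_insert]
      constructor
      · intro hpos
        have hR := rp hpos
        have hR' : ¬ RN c := fun h => exR c hR h
        rcases lt_or_gt_of_ne hτ'0 with h | h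
        · have hL := ln h
          rw [if_neg (fun h' => hR' h'.2), if_pos ⟨hL, hR⟩, Finset.card_insert_of_notMem hcn2,
            ih2 h]
        · have hL := lp h
          have hL' : ¬ LN c := fun h => exL c hL h
          rw [if_neg (fun h' => hR' h'.2), if_neg (fun h' => hL' h'.1), ih1 h]
      · intro hneg
        have hR := rn hneg
        have hR' : ¬ RP c := fun h => exR c h hR
        rcases lt_or_gt_of_ne hτ'0 with h | h
        · have hL := ln h
          have hL' : ¬ LP c := fun h => exL c h hL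
          rw [if_neg (fun h' => hL' h'.1), if_neg (fun h' => hR' h'.2), ih2 h]
        · have hL := lp h
          rw [if_pos ⟨hL, hR⟩, if_neg (fun h' => hR' h'.2), Finset.card_insert_of_notMem hcn1,
            ih1 h]
  have h2 : D 2 < 0 := hr 2 (by norm_num)
  have h3 := (key _ 2 h2.ne rfl).2 h2
  have hall : Z.filter (· < (2 : ℝ)) = Z := by
    refine Finset.filter_true_of_mem fun x hx => ?_
    have h0 := (hZ x).1 hx
    by_contra hlt
    push Not at hlt
    have := hr x (by linarith)
    linarith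
  rw [hall] at h3
  have e1 : {c ∈ (Z : Set ℝ) | LP c ∧ RN c} = (Z.filter (fun c => LP c ∧ RN c) : Set ℝ) := by
    ext x; simp
  have e2 : {c ∈ (Z : Set ℝ) | LN c ∧ RP c} = (Z.filter (fun c => LN c ∧ RP c) : Set ℝ) := by
    ext x; simp
  rw [e1, e2, Set.ncard_coe_finset, Set.ncard_coe_finset]
  exact h3

end Pool.Agent.CFP
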