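import Pool.Agent.Lib_MP_eedf80_an.Basic
import Pool.Agent.Lib_MP_eedf80_an.Sides
import Pool.Agent.Lib_MP_eedf80_an.SignCount

/-!
PART R of the common fixed point blueprint: `f^A = g^B` is impossible.
-/

set_option autoImplicit false

namespace Pool.Agent.CFP

open Set Function

namespace CR

variable {f g : ℝ → ℝ} {y₁ y₂ s₁ s₂ : ℝ}

/-- The sided points of the word `f^p g^q`. -/
def QT (f g : ℝ → ℝ) (p q : ℕ) : Type :=
  {z : ℝ × ℝ // (z.2 = 1 ∨ z.2 = -1) ∧ Side (W f g p q) z.1 z.2}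

theorem finite_QT (R : Red f g y₁ y₂ s₁ s₂) {p q : ℕ} (hp : 1 ≤ p) (hq : 1 ≤ q) :
    Finite (QT f g p q) := by
  have h1 := R.fin p q hp hq
  have h2 : ({x | W f g p q x = x} ×ˢ ({1, -1} : Set ℝ)).Finite := h1.prod (by simp)
  have h3 : {z : ℝ × ℝ | (z.2 = 1 ∨ z.2 = -1) ∧ Side (W f g p q) z.1 z.2}.Finite := by
    refine h2.subset ?_
    rintro ⟨c, s⟩ ⟨hs, h⟩
    exact ⟨h.1, by simpa using hs⟩
  exact h3.to_subtype

/-- The action of words on sided points. -/
noncomputable def pw (R : Red f g y₁ y₂ s₁ s₂) {p q : ℕ} (hp : 1 ≤ p) (hq : 1 ≤ q) (i j : ℕ)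
    (z : QT f g p q) : QT f g p q :=
  ⟨(W f g i j z.1.1, (R.pushW hp hq z.2.1 z.2.2 i j).choose),
    (R.pushW hp hq z.2.1 z.2.2 i j).choose_spec.1,
    (R.pushW hp hq z.2.1 z.2.2 i j).choose_spec.2.2⟩

variable (R : Red f g y₁ y₂ s₁ s₂) {p q : ℕ} (hp : 1 ≤ p) (hq : 1 ≤ q)

include R

theorem pw_fst (i j : ℕ) (z : QT f g p q) : (pw R hp hq i j z).1.1 = W f g i j z.1.1 := rfl

theorem pw_push (i j : ℕ) (z : QT f g p q) :
    Push (W f g i j) z.1.1 z.1.2 (pw R hp hq i j z).1.2 :=
  (R.pushW hp hq z.2.1 z.2.2 i j).choose_spec.2.1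

theorem pw_unique (i j : ℕ) (z z' : QT f g p q) (h1 : z'.1.1 = W f g i j z.1.1)
    (h2 : Push (W f g i j) z.1.1 z.1.2 z'.1.2) : pw R hp hq i j z = z' := by
  apply Subtype.ext
  apply Prod.ext
  · rw [h1]; rfl
  · exact Push.unique (pw R hp hq i j z).2.1 z'.2.1 (pw_push R hp hq i j z) h2

theorem W_comp (i j i' j' : ℕ) : W f g i j ∘ W f g i' j' = W f g (i + i') (j + j') := by
  funext x
  exact W_W R.comm i j i' j' x

theorem pw_comp (i j i' j' : ℕ) (z : QT f g p q) :
    pw R hp hq i j (pw R hp hq i' j' z) = pw R hp hq (i + i') (j + j') z := by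
  symm
  apply pw_unique
  · rw [pw_fst, pw_fst]
    exact W_W R.comm i j i' j' _
  · rw [← W_comp R i j i' j']
    exact Push.comp (R.contW i' j') z.2.1 (pw R hp hq i' j' z).2.1 (pw_push R hp hq i' j' z)
      (pw_push R hp hq i j (pw R hp hq i' j' z))

theorem pw_zero (z : QT f g p q) : pw R hp hq 0 0 z = z := by
  apply pw_unique
  · simp [W_apply]
  · refine ⟨1, one_pos, ?_⟩
    intro a _ b _ hab
    have hs := z.2.1
    simp only [W_apply, iterate_zero, id]
    rcases hs with hs | hs <;> rw [hs] <;> linarith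

theorem pw_per (n : ℕ) (z : QT f g p q) : pw R hp hq (n * p) (n * q) z = z := by
  rcases Nat.eq_zero_or_pos n with h | h
  · subst h; simpa using pw_zero R hp hq z
  · have h1 : Side (W f g (n * p) (n * q)) z.1.1 z.1.2 := R.side_mul hp hq h z.2.1 z.2.2
    have h2 : 1 ≤ n * p := Nat.mul_pos h hp
    have h3 : 1 ≤ n * q := Nat.mul_pos h hq
    apply pw_unique
    · exact h1.1.symm
    · exact R.push_self h2 h3 z.2.1 h1

theorem pw_inj (i j : ℕ) : Injective (pw R hp hq i j) := by
  intro z z' h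
  have h1 : i ≤ (i + j) * p := by nlinarith
  have h2 : j ≤ (i + j) * q := by nlinarith
  have h3 := congrArg (pw R hp hq ((i + j) * p - i) ((i + j) * q - j)) h
  rw [pw_comp, pw_comp, Nat.sub_add_cancel h1, Nat.sub_add_cancel h2, pw_per, pw_per] at h3
  exact h3

theorem W_fix {c : ℝ} (hc : W f g p q c = c) (n : ℕ) : W f g (n * p) (n * q) c = c := by
  rw [← W_iter R.comm]
  exact Function.iterate_fixed hc n

include hp hq in
theorem W_inj {c d : ℝ} (hc : W f g p q c = c) (hd : W f g p q d = d) (i j : ℕ)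
    (h : W f g i j c = W f g i j d) : c = d := by
  have h1 : i ≤ (i + j) * p := by nlinarith
  have h2 : j ≤ (i + j) * q := by nlinarith
  have h3 := congrArg (W f g ((i + j) * p - i) ((i + j) * q - j)) h
  rw [W_W R.comm, W_W R.comm, Nat.sub_add_cancel h1, Nat.sub_add_cancel h2, W_fix R hc,
    W_fix R hd] at h3
  exact h3

theorem W_comm_apply (i j i' j' : ℕ) (x : ℝ) :
    W f g i j (W f g i' j' x) = W f g i' j' (W f g i j x) := by
  rw [W_W R.comm, W_W R.comm, Nat.add_comm i, Nat.add_comm j]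

theorem W_maps_fix {c : ℝ} (hc : W f g p q c = c) (i j : ℕ) :
    W f g p q (W f g i j c) = W f g i j c := by
  rw [W_comm_apply R, hc]

/-- Both sides of `c` are repelling. -/
def Both (f g : ℝ → ℝ) (p q : ℕ) (c : ℝ) : Prop := Side (W f g p q) c 1 ∧ Side (W f g p q) c (-1)

/-- No side of the fixed point `c` is repelling. -/
def None (f g : ℝ → ℝ) (p q : ℕ) (c : ℝ) : Prop :=
  W f g p q c = c ∧ ¬ Side (W f g p q) c 1 ∧ ¬ Side (W f g p q) c (-1)

theorem both_W (hp : 1 ≤ p) (hq : 1 ≤ q) {c : ℝ} (h : Both f g p q c) (i j : ℕ) :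
    Both f g p q (W f g i j c) := by
  set z₁ : QT f g p q := ⟨(c, 1), Or.inl rfl, h.1⟩
  set z₂ : QT f g p q := ⟨(c, -1), Or.inr rfl, h.2⟩
  have hne : z₁ ≠ z₂ := by
    intro h0
    have := congrArg (fun z : QT f g p q => z.1.2) h0
    simp [z₁, z₂] at this
    norm_num at this
  have hne' : pw R hp hq i j z₁ ≠ pw R hp hq i j z₂ := fun h0 => hne (pw_inj R hp hq i j h0)
  have e1 : (pw R hp hq i j z₁).1.1 = W f g i j c := rfl
  have e2 : (pw R hp hq i j z₂).1.1 = W f g i j c := rfl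
  have p1 := (pw R hp hq i j z₁).2
  have p2 := (pw R hp hq i j z₂).2
  rw [e1] at p1
  rw [e2] at p2
  rcases p1.1 with s1 | s1 <;> rcases p2.1 with s2 | s2
  · exact absurd (Subtype.ext (Prod.ext (e1.trans e2.symm) (s1.trans s2.symm))) hne'
  · rw [s1] at p1; rw [s2] at p2; exact ⟨p1.2, p2.2⟩
  · rw [s1] at p1; rw [s2] at p2; exact ⟨p2.2, p1.2⟩
  · exact absurd (Subtype.ext (Prod.ext (e1.trans e2.symm) (s1.trans s2.symm))) hne'

theorem side_back (hp : 1 ≤ p) (hq : 1 ≤ q) {c s : ℝ} (hc : W f g p q c = c)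
    (hs : s = 1 ∨ s = -1) (i j : ℕ) (h : Side (W f g p q) (W f g i j c) s) :
    Side (W f g p q) c 1 ∨ Side (W f g p q) c (-1) := by
  have := finite_QT R hp hq
  have hsur : Surjective (pw R hp hq i j) := Finite.surjective_of_injective (pw_inj R hp hq i j)
  obtain ⟨z, hz⟩ := hsur ⟨(W f g i j c, s), hs, h⟩
  have h1 : W f g i j z.1.1 = W f g i j c := congrArg (fun z : QT f g p q => z.1.1) hz
  have h2 : z.1.1 = c := W_inj R hp hq z.2.2.1 hc i j h1
  have h3 := z.2
  rw [h2] at h3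
  rcases h3.1 with h4 | h4
  · rw [h4] at h3; exact Or.inl h3.2
  · rw [h4] at h3; exact Or.inr h3.2

theorem none_W (hp : 1 ≤ p) (hq : 1 ≤ q) {c : ℝ} (h : None f g p q c) (i j : ℕ) :
    None f g p q (W f g i j c) := by
  refine ⟨W_maps_fix R h.1 i j, fun h1 => ?_, fun h1 => ?_⟩
  · rcases side_back R hp hq h.1 (Or.inl rfl) i j h1 with h2 | h2
    · exact h.2.1 h2
    · exact h.2.2 h2
  · rcases side_back R hp hq h.1 (Or.inr rfl) i j h1 with h2 | h2
    · exact h.2.1 h2
    · exact h.2.2 h2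

omit R in
/-- One-sided continuity of a germ. -/
theorem germ_small {F : ℝ → ℝ} (hF : Continuous F) {c s : ℝ} {η : ℝ} (hη : 0 < η)
    (hs : s = 1 ∨ s = -1) : ∃ ε > 0, ∀ r ∈ Icc (0 : ℝ) ε, |F (c + s * r) - F c| < η := by
  obtain ⟨ε, hε, h⟩ := Metric.continuous_iff.mp hF c η hη
  refine ⟨ε / 2, by positivity, fun r hr => ?_⟩
  have h1 : dist (c + s * r) c < ε := by
    rw [Real.dist_eq]
    have : |c + s * r - c| = r := by
      rcases hs with rfl | rfl
      · rw [show c + 1 * r - c = r by ring, abs_of_nonneg hr.1]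
      · rw [show c + -1 * r - c = -r by ring, abs_neg, abs_of_nonneg hr.1]
    rw [this]
    linarith [hr.2]
  have := h _ h1
  rwa [Real.dist_eq] at this

/-- If two words push a germ alike and have the same `l`-th powers then they agree. -/
theorem agree_of_push {a b l : ℕ} (hl : 1 ≤ l) (z : QT f g p q)
    (hz : pw R hp hq a 0 z = pw R hp hq 0 b z)
    (hpow : ∀ x ∈ Icc (0 : ℝ) 1, W f g (l * a) 0 x = W f g 0 (l * b) x) :
    ∀ x ∈ Icc (0 : ℝ) 1, W f g a 0 x = W f g 0 b x := by
  set z' := pw R hp hq a 0 z with hz'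
  -- the common target
  have htar : ∀ j, j ≤ l → pw R hp hq (j * a) ((l - j) * b) z = pw R hp hq 0 (l * b) z := by
    intro j
    induction j with
    | zero => intro _; simp
    | succ j ih =>
      intro hj
      rw [← ih (by omega)]
      have e1 : (j + 1) * a = j * a + a := by ring
      have e2 : (l - j) * b = (l - (j + 1)) * b + b := by
        have : l - j = (l - (j + 1)) + 1 := by omega
        rw [this]; ring
      have e3 : pw R hp hq (j * a) ((l - (j + 1)) * b) (pw R hp hq a 0 z) =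
          pw R hp hq (j * a + a) ((l - (j + 1)) * b) z := pw_comp R hp hq _ _ a 0 z
      have e4 : pw R hp hq (j * a) ((l - (j + 1)) * b) (pw R hp hq 0 b z) =
          pw R hp hq (j * a) ((l - (j + 1)) * b + b) z := pw_comp R hp hq _ _ 0 b z
      rw [e1, e2, ← e3, ← e4, ← hz]
  set zl := pw R hp hq 0 (l * b) z with hzl
  have hmid : ∀ j, j < l → pw R hp hq (j * a) ((l - 1 - j) * b) z' = zl := by
    intro j hj
    have e3 : pw R hp hq (j * a) ((l - 1 - j) * b) (pw R hp hq a 0 z) =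
        pw R hp hq (j * a + a) ((l - 1 - j) * b) z := pw_comp R hp hq _ _ a 0 z
    have e5 : l - 1 - j = l - (j + 1) := by omega
    have e6 : j * a + a = (j + 1) * a := by ring
    rw [hz', e3, ← htar (j + 1) (by omega), e5, e6]
  have hpush : ∀ j, ∃ ε > 0, j < l → StrictMonoOn
      (fun r => zl.1.2 * W f g (j * a) ((l - 1 - j) * b) (z'.1.1 + z'.1.2 * r))
      (Icc (0 : ℝ) ε) := by
    intro j
    by_cases hj : j < l
    · obtain ⟨ε, hε, h⟩ := pw_push R hp hq (j * a) ((l - 1 - j) * b) z'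
      rw [hmid j hj] at h
      exact ⟨ε, hε, fun _ => h⟩
    · exact ⟨1, one_pos, fun h => absurd h hj⟩
  choose E hE hmono using hpush
  obtain ⟨η, hη, hηE⟩ : ∃ η > 0, ∀ j < l, η ≤ E j := by
    have hne : (Finset.range l).Nonempty := ⟨0, Finset.mem_range.mpr (by omega)⟩
    refine ⟨(Finset.range l).inf' hne E, ?_, ?_⟩
    · rw [gt_iff_lt, Finset.lt_inf'_iff]
      intro j _
      exact hE j
    · intro j hj
      exact Finset.inf'_le _ (Finset.mem_range.mpr hj)
  obtain ⟨εu, hεu, hu⟩ := pw_push R hp hq a 0 z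
  obtain ⟨εv, hεv, hv⟩ := pw_push R hp hq 0 b z
  rw [← hz'] at hu
  rw [← hz] at hv
  have hfu : W f g a 0 z.1.1 = z'.1.1 := rfl
  have hfv : W f g 0 b z.1.1 = z'.1.1 := by
    have : (pw R hp hq 0 b z).1.1 = z'.1.1 := by rw [← hz]
    exact this
  obtain ⟨δu, hδu, hcu⟩ := germ_small (R.contW a 0) (c := z.1.1) hη z.2.1
  obtain ⟨δv, hδv, hcv⟩ := germ_small (R.contW 0 b) (c := z.1.1) hη z.2.1
  obtain ⟨εs, hεs, hside⟩ := z.2.2.2
  set ε := min (min εu εv) (min (min δu δv) (εs / 2)) with hε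
  have hε0 : 0 < ε := by
    simp only [hε, lt_min_iff]
    exact ⟨⟨hεu, hεv⟩, ⟨hδu, hδv⟩, by positivity⟩
  have hs := z.2.1
  have hs' := z'.2.1
  have hc01 : z.1.1 ∈ Icc (0 : ℝ) 1 := by
    have := R.mapW' (p := p) (q := q) (by omega) z.1.1
    rwa [z.2.2.1] at this
  have hin : ∀ r ∈ Icc (0 : ℝ) ε, z.1.1 + z.1.2 * r ∈ Icc (0 : ℝ) 1 := by
    intro r hr
    rcases eq_or_lt_of_le hr.1 with h0 | h0
    · rw [← h0]; simpa using hc01
    · refine (hside r ⟨h0, ?_⟩).1
      have : ε ≤ εs / 2 := le_trans (min_le_right _ _) (min_le_right _ _)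
      linarith [hr.2]
  have hsq : ∀ s : ℝ, s = 1 ∨ s = -1 → s * s = 1 := by
    intro s hs; rcases hs with rfl | rfl <;> norm_num
  have hagree : ∀ r ∈ Icc (0 : ℝ) ε,
      W f g a 0 (z.1.1 + z.1.2 * r) = W f g 0 b (z.1.1 + z.1.2 * r) := by
    intro r hr
    set t := z.1.1 + z.1.2 * r with ht
    -- coordinates in the target germ
    have hr1 : r ∈ Icc (0 : ℝ) εu := ⟨hr.1, hr.2.trans ((min_le_left _ _).trans (min_le_left _ _))⟩
    have hr2 : r ∈ Icc (0 : ℝ) εv := ⟨hr.1, hr.2.trans ((min_le_left _ _).trans (min_le_right _ _))⟩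
    have hr3 : r ∈ Icc (0 : ℝ) δu := ⟨hr.1, hr.2.trans ((min_le_right _ _).trans
      ((min_le_left _ _).trans (min_le_left _ _)))⟩
    have hr4 : r ∈ Icc (0 : ℝ) δv := ⟨hr.1, hr.2.trans ((min_le_right _ _).trans
      ((min_le_left _ _).trans (min_le_right _ _)))⟩
    set ru := z'.1.2 * (W f g a 0 t - z'.1.1) with hru
    set rv := z'.1.2 * (W f g 0 b t - z'.1.1) with hrv
    have hru0 : 0 ≤ ru := by
      have h1 : z'.1.2 * W f g a 0 (z.1.1 + z.1.2 * 0) ≤ z'.1.2 * W f g a 0 t :=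
        hu.monotoneOn ⟨le_refl _, hεu.le⟩ hr1 hr.1
      rw [mul_zero, add_zero, hfu] at h1
      rw [hru]; nlinarith
    have hrv0 : 0 ≤ rv := by
      have h1 : z'.1.2 * W f g 0 b (z.1.1 + z.1.2 * 0) ≤ z'.1.2 * W f g 0 b t :=
        hv.monotoneOn ⟨le_refl _, hεv.le⟩ hr2 hr.1
      rw [mul_zero, add_zero, hfv] at h1
      rw [hrv]; nlinarith
    have hruη : ru < η := by
      have h1 := hcu r hr3
      rw [hfu] at h1
      refine lt_of_le_of_lt (le_abs_self _) ?_
      rw [hru, abs_mul]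
      rcases hs' with h | h <;> rw [h] <;> simpa using h1
    have hrvη : rv < η := by
      have h1 := hcv r hr4
      rw [hfv] at h1
      refine lt_of_le_of_lt (le_abs_self _) ?_
      rw [hrv, abs_mul]
      rcases hs' with h | h <;> rw [h] <;> simpa using h1
    have hut : z'.1.1 + z'.1.2 * ru = W f g a 0 t := by
      have := hsq _ hs'
      rw [hru]; linear_combination (W f g a 0 t - z'.1.1) * this
    have hvt : z'.1.1 + z'.1.2 * rv = W f g 0 b t := by
      have := hsq _ hs'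
      rw [hrv]; linear_combination (W f g 0 b t - z'.1.1) * this
    have ht01 := hin r hr
    rw [← ht] at ht01
    have hend := hpow t ht01
    -- the chain of words
    let X : ℕ → ℝ := fun j => zl.1.2 * W f g (j * a) ((l - j) * b) t
    have hXu : ∀ j, j < l → zl.1.2 * W f g (j * a) ((l - 1 - j) * b) (W f g a 0 t) = X (j + 1) := by
      intro j hj
      have e3 := W_W R.comm (j * a) ((l - 1 - j) * b) a 0 t
      rw [e3]
      have e1 : j * a + a = (j + 1) * a := by ring
      have e2 : (l - 1 - j) * b + 0 = (l - (j + 1)) * b := by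
        rw [Nat.add_zero]; congr 1; omega
      rw [e1, e2]
    have hXv : ∀ j, j < l → zl.1.2 * W f g (j * a) ((l - 1 - j) * b) (W f g 0 b t) = X j := by
      intro j hj
      have e3 := W_W R.comm (j * a) ((l - 1 - j) * b) 0 b t
      rw [e3]
      have e2 : (l - 1 - j) * b + b = (l - j) * b := by
        have : l - j = (l - 1 - j) + 1 := by omega
        rw [this]; ring
      rw [Nat.add_zero, e2]
    have hX0 : X l = X 0 := by
      simp only [X, Nat.sub_self, zero_mul, Nat.sub_zero]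
      rw [hend]
    rcases lt_trichotomy ru rv with hlt | heq | hgt
    · exfalso
      have hstep : ∀ j, j < l → X (j + 1) < X j := by
        intro j hj
        have h1 := hmono j hj ⟨hru0, hruη.le.trans (hηE j hj)⟩ ⟨hrv0, hrvη.le.trans (hηE j hj)⟩ hlt
        simp only at h1
        rw [hut, hvt, hXu j hj, hXv j hj] at h1
        exact h1
      have hle : ∀ j, j ≤ l → 1 ≤ j → X j < X 0 := by
        intro j
        induction j with
        | zero => intro _ h; omega
        | succ j ih =>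
          intro h1 _
          rcases Nat.eq_zero_or_pos j with h | h
          · subst h; exact hstep 0 (by omega)
          · exact (hstep j (by omega)).trans (ih (by omega) h)
      exact absurd hX0 (hle l le_rfl hl).ne
    · rw [← hut, ← hvt, heq]
    · exfalso
      have hstep : ∀ j, j < l → X j < X (j + 1) := by
        intro j hj
        have h1 := hmono j hj ⟨hrv0, hrvη.le.trans (hηE j hj)⟩ ⟨hru0, hruη.le.trans (hηE j hj)⟩ hgt
        simp only at h1
        rw [hut, hvt, hXu j hj, hXv j hj] at h1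
        exact h1
      have hle : ∀ j, j ≤ l → 1 ≤ j → X 0 < X j := by
        intro j
        induction j with
        | zero => intro _ h; omega
        | succ j ih =>
          intro h1 _
          rcases Nat.eq_zero_or_pos j with h | h
          · subst h; exact hstep 0 (by omega)
          · exact (ih (by omega) h).trans (hstep j (by omega))
      exact absurd hX0.symm (hle l le_rfl hl).ne
  -- spread
  rcases hs with h1 | h1
  · rw [h1] at hin hagree
    have e0 := hin ε ⟨hε0.le, le_rfl⟩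
    refine R.spread (a := z.1.1) (b := z.1.1 + ε) hc01.1 (by linarith) (by linarith [e0.2]) ?_
    intro x hx
    have := hagree (x - z.1.1) ⟨by linarith [hx.1], by linarith [hx.2]⟩
    rwa [show z.1.1 + 1 * (x - z.1.1) = x by ring] at this
  · rw [h1] at hin hagree
    have e0 := hin ε ⟨hε0.le, le_rfl⟩
    refine R.spread (a := z.1.1 - ε) (b := z.1.1) (by linarith [e0.1]) (by linarith) hc01.2 ?_
    intro x hx
    have := hagree (z.1.1 - x) ⟨by linarith [hx.2], by linarith [hx.1]⟩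
    rwa [show z.1.1 + -1 * (z.1.1 - x) = x by ring] at this

/-! ### Counting -/

omit R in
theorem end_pow {α : Type} (F : Function.End α) (n : ℕ) (x : α) :
    (F ^ n) x = (show α → α from F)^[n] x := by
  induction n with
  | zero => rfl
  | succ n ih =>
    rw [Function.iterate_succ_apply', ← ih, pow_succ']
    rfl

omit R in
/-- A root of unity of prime order without fixed points. -/
theorem dvd_card_of_free {α : Type} [Finite α] (ρ : α → α) {l : ℕ} (hl : l.Prime)
    (h1 : ∀ x, ρ^[l] x = x) (h2 : ∀ x, ρ x ≠ x) : l ∣ Nat.card α := by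
  classical
  have := Fintype.ofFinite α
  have : Fact l.Prime := ⟨hl⟩
  let F : Function.End α := ρ
  have h3 : F ^ l ^ 1 = 1 := by
    rw [pow_one]
    funext x
    rw [end_pow]
    exact h1 x
  have h5 := Equiv.Perm.card_fixedPoints_modEq h3
  have h6 : Fintype.card (Function.fixedPoints ρ) = 0 := by
    rw [Fintype.card_eq_zero_iff]
    exact ⟨fun x => h2 x.1 x.2⟩
  rw [Nat.card_eq_fintype_card]
  have h7 : Fintype.card α ≡ 0 [MOD l] := by
    rw [← h6]; exact h5
  exact (Nat.modEq_zero_iff_dvd).mp h7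

omit R in
theorem card_fix_mod_two {α : Type} [Finite α] (ρ : α → α) {m : ℕ}
    (h1 : ∀ x, ρ^[2 ^ m] x = x) :
    Nat.card α ≡ Nat.card {x // ρ x = x} [MOD 2] := by
  classical
  have := Fintype.ofFinite α
  let F : Function.End α := ρ
  have h3 : F ^ 2 ^ m = 1 := by
    funext x
    rw [end_pow]
    exact h1 x
  have h5 := Equiv.Perm.card_fixedPoints_modEq h3
  rw [Nat.card_eq_fintype_card, Nat.card_eq_fintype_card]
  exact h5

omit R in
/-- Two commuting permutations of order a power of two on a set of odd size have a common fixed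
point. -/
theorem exists_common_fix {α : Type} [Finite α] (ρ σ : α → α) {m : ℕ}
    (h1 : ∀ x, ρ^[2 ^ m] x = x) (h2 : ∀ x, σ^[2 ^ m] x = x) (hc : ∀ x, ρ (σ x) = σ (ρ x))
    (hodd : ¬ 2 ∣ Nat.card α) : ∃ x, ρ x = x ∧ σ x = x := by
  have h3 := card_fix_mod_two ρ h1
  let σ' : {x // ρ x = x} → {x // ρ x = x} := fun x => ⟨σ x.1, by rw [hc, x.2]⟩
  have h4 : ∀ n x, ((σ'^[n]) x).1 = σ^[n] x.1 := by
    intro n x
    induction n with
    | zero => rfl
    | succ n ih => rw [Function.iterate_succ_apply', Function.iterate_succ_apply', ← ih]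
  have h5 := card_fix_mod_two σ' (m := m) (fun x => Subtype.ext (by rw [h4, h2]))
  by_contra hno
  push Not at hno
  have h6 : Nat.card {x // σ' x = x} = 0 := by
    rw [Nat.card_eq_zero]
    left
    exact ⟨fun x => hno x.1.1 x.1.2 (congrArg Subtype.val x.2)⟩
  have h7 := h3.trans h5
  rw [h6] at h7
  exact hodd ((Nat.modEq_zero_iff_dvd).mp h7)

/-! ### Signs -/

omit R in
theorem const_right {D : ℝ → ℝ} (hD : Continuous D) (hZ : {x | D x = 0}.Finite) (c : ℝ) :
    ∃ ε > 0, (∀ t ∈ Ioo c (c + ε), D t < 0) ∨ ∀ t ∈ Ioo c (c + ε), 0 < D t := by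
  obtain ⟨ε, hε, h⟩ : ∃ ε > 0, ∀ t ∈ Ioo c (c + ε), D t ≠ 0 := by
    have h1 : ({x | D x = 0} \ {c}).Finite := hZ.subset sdiff_subset
    have h2 : ({x | D x = 0} \ {c})ᶜ ∈ nhds c := h1.isClosed.isOpen_compl.mem_nhds (by simp)
    obtain ⟨ε, hε, h3⟩ := Metric.mem_nhds_iff.mp h2
    refine ⟨ε, hε, fun t ht h0 => ?_⟩
    have h4 : t ∈ Metric.ball c ε := by
      rw [Metric.mem_ball, Real.dist_eq, abs_of_pos (by linarith [ht.1])]
      linarith [ht.2]
    exact h3 h4 ⟨h0, by simp; linarith [ht.1]⟩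
  refine ⟨ε, hε, ?_⟩
  by_contra hcon
  push Not at hcon
  obtain ⟨⟨t, ht, h1⟩, t', ht', h2⟩ := hcon
  have h3 : (0 : ℝ) ∈ D '' Ioo c (c + ε) :=
    (isPreconnected_Ioo.image D hD.continuousOn).ordConnected.out ⟨t', ht', rfl⟩ ⟨t, ht, rfl⟩
      ⟨h2, h1⟩
  obtain ⟨x, hx, h4⟩ := h3
  exact h x hx h4

omit R in
theorem const_left {D : ℝ → ℝ} (hD : Continuous D) (hZ : {x | D x = 0}.Finite) (c : ℝ) :
    ∃ ε > 0, (∀ t ∈ Ioo (c - ε) c, D t < 0) ∨ ∀ t ∈ Ioo (c - ε) c, 0 < D t := by
  have h1 : {x | D (-x) = 0}.Finite := by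
    have : {x | D (-x) = 0} = (fun x => -x) ⁻¹' {x | D x = 0} := rfl
    rw [this]
    exact hZ.preimage (neg_injective.injOn)
  obtain ⟨ε, hε, h⟩ := const_right (D := fun x => D (-x)) (hD.comp continuous_neg) h1 (-c)
  refine ⟨ε, hε, ?_⟩
  rcases h with h | h
  · left
    intro t ht
    have := h (-t) ⟨by linarith [ht.2], by linarith [ht.1]⟩
    simpa using this
  · right
    intro t ht
    have := h (-t) ⟨by linarith [ht.2], by linarith [ht.1]⟩
    simpa using this

include hp hq in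
theorem side_right {c : ℝ} (hc : W f g p q c = c) {ε : ℝ} (hε : 0 < ε)
    (h : ∀ t ∈ Ioo c (c + ε), 0 < W f g p q t - t) : Side (W f g p q) c 1 := by
  refine ⟨hc, ε, hε, fun r hr => ?_⟩
  have h1 := h (c + 1 * r) ⟨by linarith [hr.1], by linarith [hr.2]⟩
  have h2 := R.mapW' (p := p) (q := q) (by omega) (c + 1 * r)
  have h3 := R.mapW' (p := p) (q := q) (by omega) c
  rw [hc] at h3
  refine ⟨⟨?_, ?_⟩, by linarith⟩
  · linarith [h3.1, hr.1]
  · linarith [h2.2]

include hp hq in
theorem side_left {c : ℝ} (hc : W f g p q c = c) {ε : ℝ} (hε : 0 < ε)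
    (h : ∀ t ∈ Ioo (c - ε) c, W f g p q t - t < 0) : Side (W f g p q) c (-1) := by
  refine ⟨hc, ε, hε, fun r hr => ?_⟩
  have h1 := h (c + -1 * r) ⟨by linarith [hr.2], by linarith [hr.1]⟩
  have h2 := R.mapW' (p := p) (q := q) (by omega) (c + -1 * r)
  have h3 := R.mapW' (p := p) (q := q) (by omega) c
  rw [hc] at h3
  refine ⟨⟨?_, ?_⟩, by linarith⟩
  · linarith [h2.1]
  · linarith [h3.2, hr.1]

omit R in
theorem side_right_pos {F : ℝ → ℝ} {c : ℝ} (h : Side F c 1) :
    ∃ ε > 0, ∀ t ∈ Ioo c (c + ε), 0 < F t - t := by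
  obtain ⟨_, ε, hε, h1⟩ := h
  refine ⟨ε, hε, fun t ht => ?_⟩
  have := (h1 (t - c) ⟨by linarith [ht.1], by linarith [ht.2]⟩).2
  rw [show c + 1 * (t - c) = t by ring] at this
  linarith

omit R in
theorem side_left_neg {F : ℝ → ℝ} {c : ℝ} (h : Side F c (-1)) :
    ∃ ε > 0, ∀ t ∈ Ioo (c - ε) c, F t - t < 0 := by
  obtain ⟨_, ε, hε, h1⟩ := h
  refine ⟨ε, hε, fun t ht => ?_⟩
  have := (h1 (c - t) ⟨by linarith [ht.2], by linarith [ht.1]⟩).2
  rw [show c + -1 * (c - t) = t by ring] at this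
  linarith

omit R in
theorem clash {P Q : ℝ → Prop} {c ε ε' : ℝ} (hε : 0 < ε) (hε' : 0 < ε')
    (h : ∀ t ∈ Ioo c (c + ε), P t) (h' : ∀ t ∈ Ioo c (c + ε'), Q t) : ∃ t, P t ∧ Q t := by
  have h0 : 0 < min ε ε' := lt_min hε hε'
  have h1 : min ε ε' ≤ ε := min_le_left _ _
  have h2 : min ε ε' ≤ ε' := min_le_right _ _
  exact ⟨c + min ε ε' / 2, h _ ⟨by linarith, by linarith⟩, h' _ ⟨by linarith, by linarith⟩⟩

omit R in
theorem clash' {P Q : ℝ → Prop} {c ε ε' : ℝ} (hε : 0 < ε) (hε' : 0 < ε')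
    (h : ∀ t ∈ Ioo (c - ε) c, P t) (h' : ∀ t ∈ Ioo (c - ε') c, Q t) : ∃ t, P t ∧ Q t := by
  have h0 : 0 < min ε ε' := lt_min hε hε'
  have h1 : min ε ε' ≤ ε := min_le_left _ _
  have h2 : min ε ε' ≤ ε' := min_le_right _ _
  exact ⟨c - min ε ε' / 2, h _ ⟨by linarith, by linarith⟩, h' _ ⟨by linarith, by linarith⟩⟩

include hp hq in
/-- The count of fixed points by their type. -/
theorem count : {c | None f g p q c}.ncard = {c | Both f g p q c}.ncard + 1 := by
  set D : ℝ → ℝ := fun t => W f g p q t - t with hDdef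
  have hD : Continuous D := (R.contW p q).sub continuous_id
  have hfin := R.fin p q hp hq
  have hZset : {x | D x = 0} = {x | W f g p q x = x} := by
    ext x; simp [hDdef, sub_eq_zero]
  have hfin' : {x | D x = 0}.Finite := by rw [hZset]; exact hfin
  have hsc := sign_count D hD hfin'.toFinset (by intro x; simp) (by
      intro x hx
      have := (R.mapW' (p := p) (q := q) (by omega) x).1
      simp only [hDdef]; linarith) (by
      intro x hx
      have := (R.mapW' (p := p) (q := q) (by omega) x).2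
      simp only [hDdef]; linarith)
  have e1 : {c ∈ (hfin'.toFinset : Set ℝ) | (∃ ε > 0, ∀ t ∈ Ioo (c - ε) c, 0 < D t) ∧
        ∃ ε > 0, ∀ t ∈ Ioo c (c + ε), D t < 0} = {c | None f g p q c} := by
    ext c
    simp only [Finite.coe_toFinset, mem_ofPred_eq, None]
    constructor
    · rintro ⟨h0, ⟨ε, hε, hl⟩, ε', hε', hr⟩
      have h0' : W f g p q c = c := by
        have : D c = 0 := h0
        simp only [hDdef] at this; linarith
      refine ⟨h0', fun hs => ?_, fun hs => ?_⟩
      · obtain ⟨ε1, hε1, h1⟩ := side_right_pos hs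
        obtain ⟨t, ht1, ht2⟩ := clash hε' hε1 hr h1
        simp only [hDdef] at ht1; linarith
      · obtain ⟨ε1, hε1, h1⟩ := side_left_neg hs
        obtain ⟨t, ht1, ht2⟩ := clash' hε hε1 hl h1
        simp only [hDdef] at ht1; linarith
    · rintro ⟨h0, hn1, hn2⟩
      refine ⟨by simp only [hDdef]; linarith, ?_, ?_⟩
      · obtain ⟨ε, hε, h | h⟩ := const_left hD hfin' c
        · exact absurd (side_left R hp hq h0 hε h) hn2
        · exact ⟨ε, hε, h⟩
      · obtain ⟨ε, hε, h | h⟩ := const_right hD hfin' c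
        · exact ⟨ε, hε, h⟩
        · exact absurd (side_right R hp hq h0 hε h) hn1
  have e2 : {c ∈ (hfin'.toFinset : Set ℝ) | (∃ ε > 0, ∀ t ∈ Ioo (c - ε) c, D t < 0) ∧
        ∃ ε > 0, ∀ t ∈ Ioo c (c + ε), 0 < D t} = {c | Both f g p q c} := by
    ext c
    simp only [Finite.coe_toFinset, mem_ofPred_eq, Both]
    constructor
    · rintro ⟨h0, ⟨ε, hε, hl⟩, ε', hε', hr⟩
      have h0' : W f g p q c = c := by
        have : D c = 0 := h0
        simp only [hDdef] at this; linarith
      exact ⟨side_right R hp hq h0' hε' hr, side_left R hp hq h0' hε hl⟩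
    · rintro ⟨h1, h2⟩
      refine ⟨by have := h1.1; simp only [hDdef]; linarith, side_left_neg h2, side_right_pos h1⟩
  rw [e1, e2] at hsc
  exact hsc

include hp hq in
/-- Points without sides lie in `(0, 1)` and are topologically attracting in the sense of `odd`. -/
theorem none_interior {c : ℝ} (h : None f g p q c) : c ∈ Ioo (0 : ℝ) 1 ∧
    ∃ ε > 0, (∀ t ∈ Ioo c (c + ε), W f g p q t < t) ∧ ∀ t ∈ Ioo (c - ε) c, t < W f g p q t := by
  set D : ℝ → ℝ := fun t => W f g p q t - t with hDdef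
  have hD : Continuous D := (R.contW p q).sub continuous_id
  have hfin := R.fin p q hp hq
  have hZset : {x | D x = 0} = {x | W f g p q x = x} := by
    ext x; simp [hDdef, sub_eq_zero]
  have hfin' : {x | D x = 0}.Finite := by rw [hZset]; exact hfin
  obtain ⟨h0, hn1, hn2⟩ := h
  obtain ⟨ε1, hε1, hl⟩ : ∃ ε > 0, ∀ t ∈ Ioo (c - ε) c, 0 < D t := by
    obtain ⟨ε, hε, h | h⟩ := const_left hD hfin' c
    · exact absurd (side_left R hp hq h0 hε h) hn2
    · exact ⟨ε, hε, h⟩
  obtain ⟨ε2, hε2, hr⟩ : ∃ ε > 0, ∀ t ∈ Ioo c (c + ε), D t < 0 := by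
    obtain ⟨ε, hε, h | h⟩ := const_right hD hfin' c
    · exact ⟨ε, hε, h⟩
    · exact absurd (side_right R hp hq h0 hε h) hn1
  have hy : y₁ < y₂ := (R.y1s1.trans R.s1s2).trans R.s2y2
  have hy2 : 0 < y₂ := lt_of_le_of_lt R.y1 hy
  have hy1 : y₁ < 1 := lt_of_lt_of_le hy R.y2
  have hc01 := R.mapW' (p := p) (q := q) (by omega) c
  rw [h0] at hc01
  -- an invariant small interval contradicts activity
  have hact : ∀ a b : ℝ, 0 ≤ a → a < b → b ≤ 1 → MapsTo (W f g p q) (Icc a b) (Icc a b) →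
      Icc y₁ y₂ ⊆ Icc a b := by
    intro a b ha hab hb hm
    obtain ⟨n, hn⟩ := R.act ha hab hb
    have h1 : Icc y₁ y₂ ⊆ W f g (n * p) (n * q) '' Icc a b :=
      hn (n * p) (n * q) (by nlinarith) (by nlinarith)
    intro y hyy
    obtain ⟨x, hx, hxy⟩ := h1 hyy
    rw [← W_iter R.comm] at hxy
    rw [← hxy]
    exact hm.iterate n hx
  have hc0 : 0 < c := by
    rcases eq_or_lt_of_le hc01.1 with h1 | h1
    · exfalso
      have hb : 0 < min (ε2 / 2) (min (y₂ / 2) 1) := by
        simp only [lt_min_iff]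
        exact ⟨by positivity, by positivity, one_pos⟩
      set b := min (ε2 / 2) (min (y₂ / 2) 1)
      have hb1 : b ≤ ε2 / 2 := min_le_left _ _
      have hb2 : b ≤ y₂ / 2 := (min_le_right _ _).trans (min_le_left _ _)
      have hb3 : b ≤ 1 := (min_le_right _ _).trans (min_le_right _ _)
      have hm : MapsTo (W f g p q) (Icc 0 b) (Icc 0 b) := by
        intro x hx
        refine ⟨(R.mapW' (p := p) (q := q) (by omega) x).1, ?_⟩
        rcases eq_or_lt_of_le hx.1 with h2 | h2
        · rw [← h2, h1, h0, ← h1]; exact hb.le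
        · have := hr x ⟨by rw [← h1]; exact h2, by rw [← h1]; linarith [hx.2]⟩
          simp only [hDdef] at this
          linarith [hx.2]
      have h3 := (hact 0 b le_rfl hb hb3 hm) ⟨hy.le, le_rfl⟩
      linarith [h3.2]
    · exact h1
  have hc1 : c < 1 := by
    rcases eq_or_lt_of_le hc01.2 with h1 | h1
    · exfalso
      have hb : 0 < min (ε1 / 2) (min ((1 - y₁) / 2) 1) := by
        simp only [lt_min_iff]
        exact ⟨by positivity, by linarith, one_pos⟩
      set b := min (ε1 / 2) (min ((1 - y₁) / 2) 1)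
      have hb1 : b ≤ ε1 / 2 := min_le_left _ _
      have hb2 : b ≤ (1 - y₁) / 2 := (min_le_right _ _).trans (min_le_left _ _)
      have hb3 : b ≤ 1 := (min_le_right _ _).trans (min_le_right _ _)
      have hm : MapsTo (W f g p q) (Icc (1 - b) 1) (Icc (1 - b) 1) := by
        intro x hx
        refine ⟨?_, (R.mapW' (p := p) (q := q) (by omega) x).2⟩
        rcases eq_or_lt_of_le hx.2 with h2 | h2
        · rw [h2, ← h1, h0, h1]; linarith
        · have := hl x ⟨by rw [h1]; linarith [hx.1], by rw [h1]; exact h2⟩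
          simp only [hDdef] at this
          linarith [hx.1]
      have h3 := (hact (1 - b) 1 (by linarith) (by linarith) le_rfl hm) ⟨le_rfl, hy.le⟩
      linarith [h3.1]
    · exact h1
  refine ⟨⟨hc0, hc1⟩, min ε1 ε2, lt_min hε1 hε2, fun t ht => ?_, fun t ht => ?_⟩
  · have := hr t ⟨ht.1, by linarith [ht.2, min_le_right ε1 ε2]⟩
    simp only [hDdef] at this; linarith
  · have := hl t ⟨by linarith [ht.1, min_le_left ε1 ε2], ht.2⟩
    simp only [hDdef] at this; linarith

/-! ### Part (1): no odd prime divides both exponents -/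

section One

variable {A B l : ℕ}

/-- The quotient permutation of the sided points. -/
noncomputable def rho (b : ℕ) (a : ℕ) (z : QT f g p q) : QT f g p q :=
  pw R hp hq (a + b * p) (b * (q - 1)) z

theorem rho_v (a b : ℕ) (z : QT f g p q) :
    rho R hp hq b a (pw R hp hq 0 b z) = pw R hp hq a 0 z := by
  have h1 : rho R hp hq b a (pw R hp hq 0 b z) = pw R hp hq (a + b * p) (b * (q - 1) + b) z :=
    pw_comp R hp hq _ _ 0 b z
  have h2 : pw R hp hq a 0 (pw R hp hq (b * p) (b * q) z) = pw R hp hq (a + b * p) (0 + b * q) z :=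
    pw_comp R hp hq _ _ _ _ z
  have h3 : b * (q - 1) + b = 0 + b * q := by
    obtain ⟨q', rfl⟩ : ∃ q', q = q' + 1 := ⟨q - 1, by omega⟩
    simp only [Nat.add_sub_cancel]; ring
  rw [h1, h3, ← h2, pw_per]

theorem rho_iter (a b n : ℕ) (z : QT f g p q) :
    (rho R hp hq b a)^[n] z = pw R hp hq (n * (a + b * p)) (n * (b * (q - 1))) z := by
  induction n with
  | zero => simp [pw_zero]
  | succ n ih =>
    rw [Function.iterate_succ_apply', ih]
    have h1 := pw_comp R hp hq (a + b * p) (b * (q - 1)) (n * (a + b * p)) (n * (b * (q - 1))) z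
    rw [show (n + 1) * (a + b * p) = a + b * p + n * (a + b * p) by ring,
      show (n + 1) * (b * (q - 1)) = b * (q - 1) + n * (b * (q - 1)) by ring, ← h1]
    rfl

/-- Two words agreeing on `[0, 1]` push alike. -/
theorem pw_congr {i j i' j' : ℕ}
    (h : ∀ x ∈ Icc (0 : ℝ) 1, W f g i j x = W f g i' j' x) (z : QT f g p q) :
    pw R hp hq i j z = pw R hp hq i' j' z := by
  symm
  have hc01 : z.1.1 ∈ Icc (0 : ℝ) 1 := by
    have := R.mapW' (p := p) (q := q) (by omega) z.1.1
    rwa [z.2.2.1] at this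
  apply pw_unique
  · rw [pw_fst]; exact h _ hc01
  · obtain ⟨ε, hε, h1⟩ := pw_push R hp hq i j z
    obtain ⟨εs, hεs, hside⟩ := z.2.2.2
    have hm : 0 < min ε (εs / 2) := lt_min hε (by positivity)
    refine ⟨min ε (εs / 2), hm, ?_⟩
    have h2 : StrictMonoOn (fun r => (pw R hp hq i j z).1.2 * W f g i j (z.1.1 + z.1.2 * r))
        (Icc 0 (min ε (εs / 2))) := h1.mono (Icc_subset_Icc le_rfl (min_le_left _ _))
    have hin : ∀ r ∈ Icc (0 : ℝ) (min ε (εs / 2)), z.1.1 + z.1.2 * r ∈ Icc (0 : ℝ) 1 := by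
      intro r hr
      rcases eq_or_lt_of_le hr.1 with h0 | h0
      · rw [← h0]; simpa using hc01
      · refine (hside r ⟨h0, ?_⟩).1
        have : min ε (εs / 2) ≤ εs / 2 := min_le_right _ _
        linarith [hr.2]
    intro r hr r' hr' hrr
    have h3 := h2 hr hr' hrr
    simp only at h3 ⊢
    rw [← h _ (hin r hr), ← h _ (hin r' hr')]
    exact h3

theorem rho_pow (hA : l ∣ A) (hB : l ∣ B)
    (h : ∀ x ∈ Icc (0 : ℝ) 1, f^[A] x = g^[B] x) (z : QT f g p q) :
    (rho R hp hq (B / l) (A / l))^[l] z = z := by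
  have := finite_QT R hp hq
  have hsur : Surjective (pw R hp hq 0 B) := Finite.surjective_of_injective (pw_inj R hp hq 0 B)
  obtain ⟨y, rfl⟩ := hsur z
  have hAl : l * (A / l) = A := Nat.mul_div_cancel' hA
  have hBl : l * (B / l) = B := Nat.mul_div_cancel' hB
  rw [rho_iter]
  have e1 : l * (A / l + B / l * p) = A + B * p := by
    calc l * (A / l + B / l * p) = l * (A / l) + l * (B / l) * p := by ring
      _ = _ := by rw [hAl, hBl]
  have e2 : l * (B / l * (q - 1)) = B * (q - 1) := by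
    rw [← mul_assoc, hBl]
  rw [e1, e2]
  have h1 : pw R hp hq (A + B * p) (B * (q - 1)) (pw R hp hq 0 B y) =
      pw R hp hq (A + B * p) (B * (q - 1) + B) y := pw_comp R hp hq _ _ 0 B y
  have h2 : pw R hp hq A 0 (pw R hp hq (B * p) (B * q) y) = pw R hp hq (A + B * p) (0 + B * q) y :=
    pw_comp R hp hq _ _ _ _ y
  have h3 : B * (q - 1) + B = 0 + B * q := by
    obtain ⟨q', rfl⟩ : ∃ q', q = q' + 1 := ⟨q - 1, by omega⟩
    simp only [Nat.add_sub_cancel]; ring
  rw [h1, h3, ← h2, pw_per]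
  exact pw_congr R hp hq (i := A) (j := 0) (i' := 0) (j' := B) h y

theorem rho_free (hl : l.Prime) (hA : l ∣ A) (hB : l ∣ B)
    (h : ∀ x ∈ Icc (0 : ℝ) 1, f^[A] x = g^[B] x)
    (hmin : ¬ ∀ x ∈ Icc (0 : ℝ) 1, f^[A / l] x = g^[B / l] x) (z : QT f g p q) :
    rho R hp hq (B / l) (A / l) z ≠ z := by
  intro hz
  have := finite_QT R hp hq
  have hsur : Surjective (pw R hp hq 0 (B / l)) :=
    Finite.surjective_of_injective (pw_inj R hp hq 0 (B / l))
  obtain ⟨y, rfl⟩ := hsur z
  rw [rho_v] at hz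
  apply hmin
  refine agree_of_push R hp hq hl.one_lt.le y hz ?_
  rw [Nat.mul_div_cancel' hA, Nat.mul_div_cancel' hB]
  exact h

include hp hq in
/-- An invariant set of sided points closed under changing sides contributes a multiple of
`2 l`. -/
theorem dvd_of_inv (hl : l.Prime) (hl2 : l ≠ 2) (hA : l ∣ A) (hB : l ∣ B)
    (h : ∀ x ∈ Icc (0 : ℝ) 1, f^[A] x = g^[B] x)
    (hmin : ¬ ∀ x ∈ Icc (0 : ℝ) 1, f^[A / l] x = g^[B / l] x) (S : Set ℝ)
    (hS : ∀ c ∈ S, Both f g p q c) (hinv : ∀ c ∈ S, ∀ i j, W f g i j c ∈ S) :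
    l ∣ S.ncard := by
  have := finite_QT R hp hq
  have hSfin : S.Finite := (R.fin p q hp hq).subset (fun c hc => (hS c hc).1.1)
  let E : Type := {z : QT f g p q // z.1.1 ∈ S}
  have : Finite E := Subtype.finite
  let ρ : E → E := fun z => ⟨rho R hp hq (B / l) (A / l) z.1, hinv _ z.2 _ _⟩
  have h4 : ∀ n z, ((ρ^[n]) z).1 = (rho R hp hq (B / l) (A / l))^[n] z.1 := by
    intro n z
    induction n with
    | zero => rfl
    | succ n ih => rw [Function.iterate_succ_apply', Function.iterate_succ_apply', ← ih]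
  have h5 : l ∣ Nat.card E := dvd_card_of_free ρ hl
    (fun z => Subtype.ext (by rw [h4]; exact rho_pow R hp hq hA hB h z.1))
    (fun z hz => rho_free R hp hq hl hA hB h hmin z.1 (congrArg Subtype.val hz))
  have h6 : Nat.card E = S.ncard * 2 := by
    let e : E ≃ S × Bool := {
      toFun := fun z => (⟨z.1.1.1, z.2⟩, decide (z.1.1.2 = 1))
      invFun := fun w => ⟨⟨(w.1.1, if w.2 then 1 else -1), by
        refine ⟨?_, ?_⟩
        · simp only; split_ifs <;> simp
        · simp only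
          split_ifs
          · exact (hS _ w.1.2).1
          · exact (hS _ w.1.2).2⟩, w.1.2⟩
      left_inv := by
        rintro ⟨⟨⟨c, s⟩, hs, h⟩, hc⟩
        apply Subtype.ext
        apply Subtype.ext
        apply Prod.ext
        · rfl
        · rcases hs with h | h
          · simp only at h; subst h; simp
          · simp only at h; subst h
            have : ¬ ((-1 : ℝ) = 1) := by norm_num
            simp [this]
      right_inv := by
        rintro ⟨c, b⟩
        apply Prod.ext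
        · rfl
        · cases b
          · have : ¬ ((-1 : ℝ) = 1) := by norm_num
            simp [this]
          · simp }
    rw [Nat.card_congr e, Nat.card_prod, Nat.card_coe_set_eq]
    simp
  rw [h6] at h5
  rcases (Nat.Prime.dvd_mul hl).mp h5 with h7 | h7
  · exact h7
  · exact absurd ((Nat.prime_dvd_prime_iff_eq hl Nat.prime_two).mp h7) hl2

/-- No odd prime divides both exponents of a minimal relation. -/
theorem no_odd_prime (hl : l.Prime) (hl2 : l ≠ 2) (hA : l ∣ A) (hB : l ∣ B)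
    (h : ∀ x ∈ Icc (0 : ℝ) 1, f^[A] x = g^[B] x)
    (hmin : ¬ ∀ x ∈ Icc (0 : ℝ) 1, f^[A / l] x = g^[B / l] x) : False := by
  have h1 : l ∣ {c | Both f g 1 1 c}.ncard :=
    dvd_of_inv R le_rfl le_rfl hl hl2 hA hB h hmin _ (fun c hc => hc)
      (fun c hc i j => both_W R le_rfl le_rfl hc i j)
  have h2 : l ∣ {c | None f g 1 1 c}.ncard := by
    refine dvd_of_inv R (p := 2 * 1) (q := 2 * 1) (by norm_num) (by norm_num) hl hl2 hA hB h hmin _
      (fun c hc => ?_) (fun c hc i j => none_W R le_rfl le_rfl hc i j)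
    obtain ⟨hc1, ε, hε, h3⟩ := none_interior R le_rfl le_rfl hc
    exact R.odd 1 1 le_rfl le_rfl c hc1 hc.1 ⟨ε, hε, h3⟩
  have h3 := count R (p := 1) (q := 1) le_rfl le_rfl
  rw [h3] at h2
  have h4 : l ∣ 1 := (Nat.dvd_add_right h1).mp h2
  exact hl.one_lt.ne' (Nat.dvd_one.mp h4)

end One

/-! ### Part (2): the exponents have a power of two as gcd -/

/-- Parity: an invariant finite set without common fixed points has an even number of elements. -/
theorem even_of_inv {A B m : ℕ} (h : ∀ x ∈ Icc (0 : ℝ) 1, f^[A] x = g^[B] x)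
    (hpq : p * B + q * A = 2 ^ m) (S : Set ℝ) (hp : 1 ≤ p) (hq : 1 ≤ q)
    (hS : ∀ c ∈ S, W f g p q c = c) (hinv : ∀ c ∈ S, ∀ i j, W f g i j c ∈ S) :
    2 ∣ S.ncard := by
  have hSfin : S.Finite := (R.fin p q hp hq).subset hS
  have hS01 : ∀ c ∈ S, c ∈ Icc (0 : ℝ) 1 := by
    intro c hc
    have := R.mapW' (p := p) (q := q) (by omega) c
    rwa [hS c hc] at this
  by_contra hodd
  rw [← Nat.card_coe_set_eq] at hodd
  have : Finite S := hSfin.to_subtype
  let ρ : S → S := fun c => ⟨W f g 1 0 c.1, hinv _ c.2 1 0⟩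
  let σ : S → S := fun c => ⟨W f g 0 1 c.1, hinv _ c.2 0 1⟩
  have hρ : ∀ n c, ((ρ^[n]) c).1 = W f g n 0 c.1 := by
    intro n c
    induction n with
    | zero => rfl
    | succ n ih =>
      rw [Function.iterate_succ_apply']
      have h1 : (ρ (ρ^[n] c)).1 = W f g 1 0 ((ρ^[n]) c).1 := rfl
      rw [h1, ih, W_W R.comm, Nat.add_comm 1 n]
  have hσ : ∀ n c, ((σ^[n]) c).1 = W f g 0 n c.1 := by
    intro n c
    induction n with
    | zero => rfl
    | succ n ih =>
      rw [Function.iterate_succ_apply']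
      have h1 : (σ (σ^[n] c)).1 = W f g 0 1 ((σ^[n]) c).1 := rfl
      rw [h1, ih, W_W R.comm, Nat.add_comm 1 n]
  -- the relation as an identity of words
  have hrel : ∀ x ∈ Icc (0 : ℝ) 1, W f g A 0 x = W f g 0 B x := h
  have hrelpow : ∀ n, ∀ x ∈ Icc (0 : ℝ) 1, W f g (n * A) 0 x = W f g 0 (n * B) x := by
    intro n x hx
    induction n with
    | zero => simp
    | succ n ih =>
      have e1 : W f g A 0 (W f g (n * A) 0 x) = W f g ((n + 1) * A) 0 x := by
        rw [W_W R.comm]; congr 1; ring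
      have e2 : W f g 0 B (W f g 0 (n * B) x) = W f g 0 ((n + 1) * B) x := by
        rw [W_W R.comm]; congr 1; ring
      rw [← e1, ← e2, ih]
      exact hrel _ (R.mapW _ _ hx)
  have h1 : ∀ c : S, (ρ^[2 ^ m]) c = c := by
    intro c
    apply Subtype.ext
    rw [hρ, ← hpq]
    have hc := hS c.1 c.2
    have hc01 := hS01 c.1 c.2
    have e1 : W f g (p * B + q * A) 0 c.1 = W f g (p * B) 0 (W f g (q * A) 0 c.1) := by
      rw [W_W R.comm]
    rw [e1, hrelpow q c.1 hc01, W_W R.comm, Nat.add_zero, Nat.zero_add, Nat.mul_comm p,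
      Nat.mul_comm q]
    exact W_fix R hc B
  have h2 : ∀ c : S, (σ^[2 ^ m]) c = c := by
    intro c
    apply Subtype.ext
    rw [hσ, ← hpq]
    have hc := hS c.1 c.2
    have hc01 := hS01 c.1 c.2
    have e1 : W f g 0 (p * B + q * A) c.1 = W f g 0 (q * A) (W f g 0 (p * B) c.1) := by
      rw [W_W R.comm, Nat.add_comm (p * B)]
    rw [e1, ← hrelpow p c.1 hc01, W_W R.comm, Nat.add_zero, Nat.zero_add, Nat.mul_comm p,
      Nat.mul_comm q]
    exact W_fix R hc A
  obtain ⟨c, hc1, hc2⟩ := exists_common_fix ρ σ h1 h2 (fun c => Subtype.ext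
    (W_comm_apply R 1 0 0 1 c.1)) hodd
  have e1 : f c.1 = c.1 := congrArg Subtype.val hc1
  have e2 : g c.1 = c.1 := congrArg Subtype.val hc2
  exact R.no_common e1 e2

omit R in
/-- Arithmetic: a power of two is represented. -/
theorem exists_pq {A B : ℕ} (hAB : 0 < A + B) {e : ℕ} (hgcd : Nat.gcd A B = 2 ^ e) :
    ∃ p q m, 1 ≤ p ∧ 1 ≤ q ∧ p * B + q * A = 2 ^ m := by
  rcases Nat.eq_zero_or_pos A with hA | hA
  · subst hA
    refine ⟨1, 1, e, le_rfl, le_rfl, ?_⟩
    rw [Nat.gcd_zero_left] at hgcd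
    rw [← hgcd]; ring
  rcases Nat.eq_zero_or_pos B with hB | hB
  · subst hB
    refine ⟨1, 1, e, le_rfl, le_rfl, ?_⟩
    rw [Nat.gcd_zero_right] at hgcd
    rw [← hgcd]; ring
  obtain ⟨k, hk⟩ : ∃ k, 2 * (A * B) < 2 ^ k := ⟨2 * (A * B), Nat.lt_two_pow_self⟩
  have hbez := Nat.gcd_eq_gcd_ab A B
  rw [hgcd] at hbez
  push_cast at hbez
  set X : ℤ := Nat.gcdA A B * 2 ^ k with hX
  set Y : ℤ := Nat.gcdB A B * 2 ^ k with hY
  have h1 : (2 : ℤ) ^ (e + k) = A * X + B * Y := by
    rw [pow_add, hbez, hX, hY]; ring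
  have hBZ : (0 : ℤ) < B := by exact_mod_cast hB
  have hAZ : (0 : ℤ) < A := by exact_mod_cast hA
  have h2 : (B : ℤ) * (X / B) + X % B = X := Int.mul_ediv_add_emod X B
  have h3 : 0 ≤ X % B := Int.emod_nonneg _ hBZ.ne'
  have h4 : X % B < B := Int.emod_lt_of_pos _ hBZ
  set q : ℤ := X % B + B with hq
  set p : ℤ := Y + A * (X / B) - A with hp
  have h5 : p * B + q * A = 2 ^ (e + k) := by
    rw [h1, hp, hq]
    linear_combination (A : ℤ) * h2
  have hkZ : 2 * ((A : ℤ) * B) < 2 ^ k := by exact_mod_cast hk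
  have hek : (2 : ℤ) ^ k ≤ 2 ^ (e + k) := pow_le_pow_right₀ (by norm_num) (by omega)
  have hq0 : 0 < q := by omega
  have h6 : q * A < 2 * B * A := by
    apply mul_lt_mul_of_pos_right _ hAZ
    omega
  have h7 : 0 < p * B := by nlinarith
  have hp0 : 0 < p := by
    by_contra hcon
    have : p * B ≤ 0 := mul_nonpos_of_nonpos_of_nonneg (by omega) hBZ.le
    omega
  refine ⟨p.toNat, q.toNat, e + k, by omega, by omega, ?_⟩
  zify
  rw [Int.toNat_of_nonneg hp0.le, Int.toNat_of_nonneg hq0.le]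
  exact h5

end CR

/-- PART R. -/
theorem Red.caseR {f g : ℝ → ℝ} {y₁ y₂ s₁ s₂ : ℝ} (R : Red f g y₁ y₂ s₁ s₂) {A B : ℕ}
    (hAB : 0 < A + B) (h : ∀ x ∈ Icc (0 : ℝ) 1, f^[A] x = g^[B] x) : False := by
  suffices H : ∀ n, ∀ A B : ℕ, A + B = n → 0 < n →
      (∀ x ∈ Icc (0 : ℝ) 1, f^[A] x = g^[B] x) → False from H (A + B) A B rfl hAB h
  clear hAB h A B
  intro n
  induction n using Nat.strong_induction_on with
  | _ n ih =>
    intro A B hn hpos h
    have hgpos : 0 < Nat.gcd A B := by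
      rcases Nat.eq_zero_or_pos A with h0 | h0
      · exact Nat.gcd_pos_of_pos_right _ (by omega)
      · exact Nat.gcd_pos_of_pos_left _ h0
    have hprime : ∀ {d : ℕ}, d.Prime → d ∣ Nat.gcd A B → d = 2 := by
      intro l hl hdvd
      by_contra hl2
      have hA : l ∣ A := hdvd.trans (Nat.gcd_dvd_left A B)
      have hB : l ∣ B := hdvd.trans (Nat.gcd_dvd_right A B)
      refine CR.no_odd_prime R hl hl2 hA hB h ?_
      intro hmin
      have e1 : l * (A / l) = A := Nat.mul_div_cancel' hA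
      have e2 : l * (B / l) = B := Nat.mul_div_cancel' hB
      have hl1 := hl.two_le
      have h1 : 0 < A / l + B / l := by
        by_contra hcon
        have h3 : A / l = 0 := Nat.le_zero.mp (by
          have := Nat.zero_le (B / l)
          generalize A / l = u at *
          generalize B / l = v at *
          omega)
        have h4 : B / l = 0 := Nat.le_zero.mp (by
          generalize A / l = u at *
          generalize B / l = v at *
          omega)
        rw [h3] at e1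
        rw [h4] at e2
        omega
      have h2 : A / l + B / l < n := by
        have : l * (A / l + B / l) = n := by rw [mul_add, e1, e2, hn]
        nlinarith
      exact ih _ h2 (A / l) (B / l) rfl h1 hmin
    have hgcd := Nat.eq_prime_pow_of_unique_prime_dvd hgpos.ne' hprime
    obtain ⟨p, q, m, hp, hq, hpq⟩ := CR.exists_pq (by omega) hgcd
    have h1 : 2 ∣ {c | CR.Both f g p q c}.ncard :=
      CR.even_of_inv R h hpq _ hp hq (fun c hc => hc.1.1)
        (fun c hc i j => CR.both_W R hp hq hc i j)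
    have h2 : 2 ∣ {c | CR.None f g p q c}.ncard :=
      CR.even_of_inv R h hpq _ hp hq (fun c hc => hc.1)
        (fun c hc i j => CR.none_W R hp hq hc i j)
    have h3 := CR.count R hp hq
    omega

end Pool.Agent.CFP
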