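import Pool.Agent.Lib_MP_eedf80_an.Defs

/-!
PART E4 of the common fixed point problem (MP_eedf80_an): the ordered group generated by the two
commuting lifts, chains of positive words, small elements.
-/

set_option autoImplicit false

namespace Pool.Agent.CFP

open Set Function

namespace Core

variable {y₁ y₂ : ℝ} {P : ℝ → ℝ} {Φ Ψ : ℝ ≃o ℝ}

/-- The action is a homomorphism. -/
theorem act_add (C : Core y₁ y₂ P Φ Ψ) (a b a' b' : ℤ) (u : ℝ) :
    act Φ Ψ (a + a') (b + b') u = act Φ Ψ a b (act Φ Ψ a' b' u) := by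
  have hc : Commute Φ Ψ := C.comm
  have h1 : act Φ Ψ (a + a') (b + b') = act Φ Ψ a b * act Φ Ψ a' b' := by
    unfold act
    rw [zpow_add, zpow_add]
    have h2 : Φ ^ a' * Ψ ^ b = Ψ ^ b * Φ ^ a' := (hc.zpow_zpow a' b).eq
    calc Φ ^ a * Φ ^ a' * (Ψ ^ b * Ψ ^ b') = Φ ^ a * (Φ ^ a' * Ψ ^ b) * Ψ ^ b' := by
          simp only [mul_assoc]
      _ = Φ ^ a * (Ψ ^ b * Φ ^ a') * Ψ ^ b' := by rw [h2]
      _ = Φ ^ a * Ψ ^ b * (Φ ^ a' * Ψ ^ b') := by simp only [mul_assoc]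
  rw [h1]
  rfl

theorem act_zero (Φ Ψ : ℝ ≃o ℝ) (u : ℝ) : act Φ Ψ 0 0 u = u := by
  simp [act]

theorem act_nonpos (C : Core y₁ y₂ P Φ Ψ) (a b : ℤ) {u : ℝ} (hu : u ≤ 0) :
    act Φ Ψ a b u = u := by
  have hn : ∀ (T : ℝ ≃o ℝ), T u = u → ∀ n : ℕ, (T ^ n) u = u := by
    intro T hT n
    induction n with
    | zero => simp
    | succ n ih => rw [pow_succ]; show (T ^ n) (T u) = u; rw [hT, ih]
  have hz : ∀ (T : ℝ ≃o ℝ), T u = u → ∀ n : ℤ, (T ^ n) u = u := by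
    intro T hT n
    cases n with
    | ofNat n => rw [Int.ofNat_eq_natCast, zpow_natCast]; exact hn T hT n
    | negSucc n =>
      rw [zpow_negSucc]
      have h1 := hn T hT (n + 1)
      have h2 : (T ^ (n + 1))⁻¹ ((T ^ (n + 1)) u) = u := by
        show ((T ^ (n + 1))⁻¹ * T ^ (n + 1)) u = u
        rw [inv_mul_cancel]; rfl
      rw [h1] at h2
      exact h2
  show (Φ ^ a) ((Ψ ^ b) u) = u
  rw [hz Ψ (C.Ψ0 u hu) b, hz Φ (C.Φ0 u hu) a]

theorem act_pos (C : Core y₁ y₂ P Φ Ψ) (a b : ℤ) {u : ℝ} (hu : 0 < u) :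
    0 < act Φ Ψ a b u := by
  have h := (act Φ Ψ a b).strictMono hu
  rwa [C.act_nonpos a b le_rfl] at h

/-- A group element is trivial, or moves every positive point to the right, or to the left. -/
theorem trich (C : Core y₁ y₂ P Φ Ψ) (a b : ℤ) :
    (a = 0 ∧ b = 0) ∨ (∀ u > 0, u < act Φ Ψ a b u) ∨ ∀ u > 0, act Φ Ψ a b u < u := by
  by_cases h0 : a = 0 ∧ b = 0
  · exact Or.inl h0
  right
  have hne : ∀ u > 0, act Φ Ψ a b u ≠ u := fun u hu h => h0 (C.free a b ⟨u, hu, h⟩)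
  by_contra hcon
  push Not at hcon
  obtain ⟨⟨u, hu, h1⟩, v, hv, h2⟩ := hcon
  have h1' : act Φ Ψ a b u < u := lt_of_le_of_ne h1 (hne u hu)
  have h2' : v < act Φ Ψ a b v := lt_of_le_of_ne h2 (Ne.symm (hne v hv))
  have hcont : Continuous fun t => act Φ Ψ a b t - t :=
    (act Φ Ψ a b).continuous.sub continuous_id
  have hpre : IsPreconnected (Set.Ioi (0 : ℝ)) := isPreconnected_Ioi
  have := hpre.intermediate_value₂ (a := u) (b := v) hu hv
    (f := fun t => act Φ Ψ a b t) (g := fun t => t)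
    (act Φ Ψ a b).continuous.continuousOn continuous_id.continuousOn h1'.le h2'.le
  obtain ⟨w, hw, hw2⟩ := this
  exact hne w hw hw2

/-- Group elements can be compared at a single point. -/
theorem le_of_le (C : Core y₁ y₂ P Φ Ψ) {a b a' b' : ℤ} {w : ℝ} (hw : 0 < w)
    (h : act Φ Ψ a b w ≤ act Φ Ψ a' b' w) : ∀ u > 0, act Φ Ψ a b u ≤ act Φ Ψ a' b' u := by
  intro u hu
  have key : ∀ t, act Φ Ψ a' b' t = act Φ Ψ a b (act Φ Ψ (a' - a) (b' - b) t) := by
    intro t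
    rw [← C.act_add]
    congr 2 <;> ring_nf
  rw [key] at h ⊢
  rw [(act Φ Ψ a b).le_iff_le] at h ⊢
  rcases C.trich (a' - a) (b' - b) with h0 | h0 | h0
  · rw [h0.1, h0.2, act_zero]
  · exact (h0 u hu).le
  · exact absurd (h0 w hw) (not_lt.mpr h)

theorem lt_of_lt (C : Core y₁ y₂ P Φ Ψ) {a b a' b' : ℤ} {w : ℝ} (hw : 0 < w)
    (h : act Φ Ψ a b w < act Φ Ψ a' b' w) : ∀ u > 0, act Φ Ψ a b u < act Φ Ψ a' b' u := by
  intro u hu
  by_contra hcon
  push Not at hcon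
  exact absurd (C.le_of_le hu hcon w hw) (not_le.mpr h)

/-- Iterates of a map without positive fixed points tend to infinity. -/
theorem unbounded {T : ℝ → ℝ} (hT : StrictMono T) (hs : Surjective T) (h0 : T 0 = 0)
    (hp : ∀ u > 0, u < T u) {u : ℝ} (hu : 0 < u) (M : ℝ) : ∃ n : ℕ, M ≤ T^[n] u := by
  by_contra hcon
  push Not at hcon
  have hbdd : BddAbove (Set.range fun n : ℕ => T^[n] u) := ⟨M, by
    rintro _ ⟨n, rfl⟩
    exact (hcon n).le⟩
  set s := sSup (Set.range fun n : ℕ => T^[n] u) with hsdef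
  have hus : u ≤ s := le_csSup hbdd ⟨0, rfl⟩
  obtain ⟨r, hr⟩ := hs s
  have hr0 : 0 < r := by
    by_contra h
    push Not at h
    have := hT.monotone h
    rw [h0, hr] at this
    linarith
  have hrs : r < s := by
    have := hp r hr0
    rwa [hr] at this
  obtain ⟨_, ⟨n, rfl⟩, hn⟩ := exists_lt_of_lt_csSup (Set.range_nonempty _) hrs
  have h2 : s < T^[n + 1] u := by
    rw [Function.iterate_succ_apply', ← hr]
    exact hT hn
  have h3 : T^[n + 1] u ≤ s := le_csSup hbdd ⟨n + 1, rfl⟩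
  linarith

theorem mono_iter {T : ℝ → ℝ} (hT : StrictMono T) (h0 : T 0 = 0)
    (hp : ∀ u > 0, u < T u) {u : ℝ} (hu : 0 < u) {n m : ℕ} (hnm : n ≤ m) :
    T^[n] u ≤ T^[m] u := by
  have hpos : ∀ n, 0 < T^[n] u := by
    intro n
    induction n with
    | zero => exact hu
    | succ n ih =>
      rw [Function.iterate_succ_apply']
      have := hT ih
      rwa [h0] at this
  induction m, hnm using Nat.le_induction with
  | base => exact le_rfl
  | succ m _ ih =>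
    refine ih.trans ?_
    rw [Function.iterate_succ_apply']
    exact (hp _ (hpos m)).le

/-- Powers of a group element. -/
theorem act_nsmul (C : Core y₁ y₂ P Φ Ψ) (a b : ℤ) (n : ℕ) (u : ℝ) :
    act Φ Ψ (n * a) (n * b) u = (act Φ Ψ a b)^[n] u := by
  induction n with
  | zero => simp [act_zero]
  | succ n ih =>
    rw [Function.iterate_succ_apply', ← ih, ← C.act_add]
    congr 2 <;> push_cast <;> ring

theorem act_one_one (Φ Ψ : ℝ ≃o ℝ) (u : ℝ) : act Φ Ψ 1 1 u = (Φ * Ψ) u := by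
  simp [act]

theorem act_nat (C : Core y₁ y₂ P Φ Ψ) (n : ℕ) (u : ℝ) :
    act Φ Ψ n n u = ((Φ * Ψ) ^ n) u := by
  induction n with
  | zero => simp [act_zero]
  | succ n ih =>
    rw [pow_succ']
    show _ = (Φ * Ψ) (((Φ * Ψ) ^ n) u)
    rw [← ih, ← act_one_one, ← C.act_add]
    congr 2 <;> push_cast <;> ring

theorem pos_one_one (C : Core y₁ y₂ P Φ Ψ) : ∀ u > 0, u < act Φ Ψ 1 1 u := by
  intro u hu
  rw [act_one_one]
  show u < Φ (Ψ u)
  have h1 := C.posΨ u hu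
  have h2 := C.posΦ (Ψ u) (hu.trans h1)
  exact h1.trans h2

/-- Small elements of the group. -/
theorem exists_small (C : Core y₁ y₂ P Φ Ψ) (S : Finset (ℝ × ℝ))
    (hS : ∀ z ∈ S, 0 < z.1 ∧ z.1 < z.2) :
    ∃ a b : ℤ, (∀ u > 0, u < act Φ Ψ a b u) ∧ ∀ z ∈ S, act Φ Ψ a b z.1 < z.2 := by
  induction S using Finset.induction_on with
  | empty => exact ⟨1, 1, C.pos_one_one, by simp⟩
  | insert z S _ ih =>
    obtain ⟨a, b, h1, h2⟩ := ih fun w hw => hS w (Finset.mem_insert_of_mem hw)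
    obtain ⟨hz1, hz2⟩ := hS z (Finset.mem_insert_self z S)
    obtain ⟨a', b', h3, h4⟩ := C.dense z.1 z.2 hz1 hz2
    have h5 : ∀ u > 0, u < act Φ Ψ a' b' u := by
      have := C.lt_of_lt (a := 0) (b := 0) (a' := a') (b' := b') hz1 (by rwa [act_zero])
      intro u hu
      have h6 := this u hu
      rwa [act_zero] at h6
    rcases le_total (act Φ Ψ a b z.1) (act Φ Ψ a' b' z.1) with hle | hle
    · refine ⟨a, b, h1, ?_⟩
      intro w hw
      rcases Finset.mem_insert.mp hw with rfl | hw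
      · exact hle.trans_lt h4
      · exact h2 w hw
    · refine ⟨a', b', h5, ?_⟩
      intro w hw
      rcases Finset.mem_insert.mp hw with rfl | hw
      · exact h4
      · exact (C.le_of_le hz1 hle w.1 (hS w (Finset.mem_insert_of_mem hw)).1).trans_lt (h2 w hw)

/-- PART E4: chains of positive words. -/
theorem exists_chain (C : Core y₁ y₂ P Φ Ψ) (a₀ b₀ : ℤ)
    (h₀ : ∀ u > 0, u < act Φ Ψ a₀ b₀ u) (n₁ : ℤ) :
    ∃ A B : ℕ → ℤ, (∀ l, n₁ ≤ A l ∧ n₁ ≤ B l) ∧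
      (∀ l, ∀ u > 0, act Φ Ψ (A l) (B l) u ≤ act Φ Ψ (A (l + 1)) (B (l + 1)) u ∧
        act Φ Ψ (A (l + 1)) (B (l + 1)) u ≤ act Φ Ψ (A l) (B l) (act Φ Ψ a₀ b₀ u)) ∧
      (∀ (u v : ℝ) (m : ℕ), 0 < u → u < v → ∃ l₀, ∀ l ≥ l₀,
        Alt y₁ y₂ P (act Φ Ψ (A l) (B l) u) (act Φ Ψ (A l) (B l) v) m) ∧
      ∀ M u : ℝ, 0 < u → ∃ l₀, ∀ l ≥ l₀, M ≤ act Φ Ψ (A l) (B l) u := by
  classical
  have e0 : act Φ Ψ a₀ b₀ 0 = 0 := C.act_nonpos a₀ b₀ le_rfl
  have H0 : act Φ Ψ 1 1 0 = 0 := C.act_nonpos 1 1 le_rfl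
  -- the power of `e₀` just below `H`
  have hex : ∃ k : ℕ, act Φ Ψ 1 1 1 < act Φ Ψ ((k + 1 : ℕ) * a₀) ((k + 1 : ℕ) * b₀) 1 := by
    obtain ⟨n, hn⟩ := unbounded (act Φ Ψ a₀ b₀).strictMono (act Φ Ψ a₀ b₀).surjective e0 h₀
      one_pos (act Φ Ψ 1 1 1)
    refine ⟨n, ?_⟩
    rw [C.act_nsmul, Function.iterate_succ_apply']
    refine hn.trans_lt (h₀ _ ?_)
    exact (C.act_pos 1 1 one_pos).trans_le hn
  set k := Nat.find hex with hk
  have hk1 : ∀ u > 0, act Φ Ψ 1 1 u ≤ act Φ Ψ ((k + 1 : ℕ) * a₀) ((k + 1 : ℕ) * b₀) u :=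
    C.le_of_le one_pos (Nat.find_spec hex).le
  have hk2 : ∀ u > 0, act Φ Ψ ((k : ℕ) * a₀) ((k : ℕ) * b₀) u ≤ act Φ Ψ 1 1 u := by
    rcases Nat.eq_zero_or_pos k with h | h
    · rw [h]
      intro u hu
      have := (C.pos_one_one u hu).le
      simpa [act_zero] using this
    · have h2 := Nat.find_min hex (m := k - 1) (by omega)
      rw [not_lt] at h2
      have h3 : k - 1 + 1 = k := by omega
      rw [h3] at h2
      exact C.le_of_le one_pos h2
  -- the chain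
  set n₀ : ℤ := |n₁| + k * (|a₀| + |b₀|) with hn₀
  have hn₀0 : 0 ≤ n₀ := by positivity
  set A : ℕ → ℤ := fun l => n₀ + (l / (k + 1) : ℕ) + (l % (k + 1) : ℕ) * a₀ with hA
  set B : ℕ → ℤ := fun l => n₀ + (l / (k + 1) : ℕ) + (l % (k + 1) : ℕ) * b₀ with hB
  have hmod : ∀ l, l % (k + 1) ≤ k := fun l => Nat.lt_succ_iff.mp (Nat.mod_lt l (Nat.succ_pos k))
  have hform : ∀ l u, act Φ Ψ (A l) (B l) u =
      ((Φ * Ψ) ^ (n₀.toNat + l / (k + 1))) ((act Φ Ψ a₀ b₀)^[l % (k + 1)] u) := by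
    intro l u
    rw [← C.act_nat, ← C.act_nsmul, ← C.act_add]
    have h1 : ((n₀.toNat + l / (k + 1) : ℕ) : ℤ) = n₀ + (l / (k + 1) : ℕ) := by
      push_cast [Int.toNat_of_nonneg hn₀0]
      ring
    rw [h1]
  have habs : ∀ (c : ℤ) (j : ℕ), j ≤ k → -(k * |c| : ℤ) ≤ j * c := by
    intro c j hj
    have h1 : (j : ℤ) ≤ k := by exact_mod_cast hj
    have h2 : -|c| ≤ c := neg_abs_le c
    have h3 : 0 ≤ |c| := abs_nonneg c
    have h4 : (0 : ℤ) ≤ j := by positivity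
    nlinarith
  refine ⟨A, B, ?_, ?_, ?_, ?_⟩
  · intro l
    have h1 := habs a₀ _ (hmod l)
    have h2 := habs b₀ _ (hmod l)
    have h3 : 0 ≤ (k : ℤ) * |a₀| := by positivity
    have h4 : 0 ≤ (k : ℤ) * |b₀| := by positivity
    have h5 := le_abs_self n₁
    have h6 : (0 : ℤ) ≤ (l / (k + 1) : ℕ) := by positivity
    constructor
    · show n₁ ≤ n₀ + (l / (k + 1) : ℕ) + (l % (k + 1) : ℕ) * a₀
      rw [hn₀, mul_add]
      linarith
    · show n₁ ≤ n₀ + (l / (k + 1) : ℕ) + (l % (k + 1) : ℕ) * b₀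
      rw [hn₀, mul_add]
      linarith
  · intro l u hu
    rcases (hmod l).lt_or_eq with h | h
    · have hd : (l + 1) / (k + 1) = l / (k + 1) ∧ (l + 1) % (k + 1) = l % (k + 1) + 1 := by
        have h1 := Nat.div_add_mod l (k + 1)
        have h2 : l + 1 = (l % (k + 1) + 1) + (k + 1) * (l / (k + 1)) := by omega
        constructor
        · rw [h2, Nat.add_mul_div_left _ _ (Nat.succ_pos k), Nat.div_eq_of_lt (by omega)]
          simp
        · rw [h2, Nat.add_mul_mod_self_left, Nat.mod_eq_of_lt (by omega)]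
      have hA1 : A (l + 1) = A l + a₀ := by
        simp only [hA, hd.1, hd.2]
        push_cast
        ring
      have hB1 : B (l + 1) = B l + b₀ := by
        simp only [hB, hd.1, hd.2]
        push_cast
        ring
      rw [hA1, hB1, C.act_add (A l) (B l) a₀ b₀ u]
      refine ⟨?_, le_rfl⟩
      rw [(act Φ Ψ (A l) (B l)).le_iff_le]
      exact (h₀ u hu).le
    · have hd : (l + 1) / (k + 1) = l / (k + 1) + 1 ∧ (l + 1) % (k + 1) = 0 := by
        have h1 := Nat.div_add_mod l (k + 1)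
        have h2 : l + 1 = (k + 1) * (l / (k + 1) + 1) := by
          rw [h] at h1
          rw [mul_add]
          omega
        constructor
        · rw [h2, Nat.mul_div_cancel_left _ (Nat.succ_pos k)]
        · rw [h2, Nat.mul_mod_right]
      have hA1 : A (l + 1) = A l + (1 - k * a₀) := by
        simp only [hA, hd.1, hd.2, h]
        push_cast
        ring
      have hB1 : B (l + 1) = B l + (1 - k * b₀) := by
        simp only [hB, hd.1, hd.2, h]
        push_cast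
        ring
      rw [hA1, hB1, C.act_add (A l) (B l) (1 - k * a₀) (1 - k * b₀) u,
        (act Φ Ψ (A l) (B l)).le_iff_le, (act Φ Ψ (A l) (B l)).le_iff_le]
      have h5 : act Φ Ψ (1 - k * a₀) (1 - k * b₀) u =
          act Φ Ψ (-(k * a₀)) (-(k * b₀)) (act Φ Ψ 1 1 u) := by
        rw [← C.act_add]
        congr 2 <;> ring_nf
      rw [h5]
      have h6 : ∀ t, act Φ Ψ (-(k * a₀)) (-(k * b₀)) (act Φ Ψ (k * a₀) (k * b₀) t) = t := by
        intro t
        rw [← C.act_add, neg_add_cancel, neg_add_cancel, act_zero]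
      constructor
      · calc u = act Φ Ψ (-(k * a₀)) (-(k * b₀)) (act Φ Ψ (k * a₀) (k * b₀) u) := (h6 u).symm
          _ ≤ _ := (act Φ Ψ (-(k * a₀)) (-(k * b₀))).monotone (hk2 u hu)
      · calc act Φ Ψ (-(k * a₀)) (-(k * b₀)) (act Φ Ψ 1 1 u) ≤
            act Φ Ψ (-(k * a₀)) (-(k * b₀)) (act Φ Ψ ((k + 1 : ℕ) * a₀) ((k + 1 : ℕ) * b₀) u) :=
              (act Φ Ψ (-(k * a₀)) (-(k * b₀))).monotone (hk1 u hu)
          _ = act Φ Ψ a₀ b₀ u := by
              rw [← C.act_add]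
              congr 2 <;> push_cast <;> ring
  · intro u v m hu huv
    have hj : ∀ j : ℕ, ∃ n, ∀ n' ≥ n, Alt y₁ y₂ P (((Φ * Ψ) ^ n') ((act Φ Ψ a₀ b₀)^[j] u))
        (((Φ * Ψ) ^ n') ((act Φ Ψ a₀ b₀)^[j] v)) m := by
      intro j
      refine C.grow _ _ m ?_ ?_
      · rw [← C.act_nsmul]
        exact C.act_pos _ _ hu
      · rw [← C.act_nsmul, ← C.act_nsmul]
        exact (act Φ Ψ _ _).strictMono huv
    choose N hN using hj
    set M := (Finset.range (k + 1)).sup N with hM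
    refine ⟨M * (k + 1), ?_⟩
    intro l hl
    rw [hform, hform]
    apply hN
    have h1 : N (l % (k + 1)) ≤ M :=
      Finset.le_sup (f := N) (Finset.mem_range.mpr (Nat.lt_succ_of_le (hmod l)))
    have h2 : M ≤ l / (k + 1) := (Nat.le_div_iff_mul_le (Nat.succ_pos k)).mpr hl
    omega
  · intro M u hu
    obtain ⟨n, hn⟩ := unbounded (act Φ Ψ 1 1).strictMono (act Φ Ψ 1 1).surjective H0
      C.pos_one_one hu M
    refine ⟨n * (k + 1), ?_⟩
    intro l hl
    rw [hform, ← C.act_nat]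
    have h1 : n ≤ l / (k + 1) := (Nat.le_div_iff_mul_le (Nat.succ_pos k)).mpr hl
    have h2 : act Φ Ψ (n₀.toNat + l / (k + 1) : ℕ) (n₀.toNat + l / (k + 1) : ℕ)
        ((act Φ Ψ a₀ b₀)^[l % (k + 1)] u) =
        (act Φ Ψ 1 1)^[n₀.toNat + l / (k + 1)] ((act Φ Ψ a₀ b₀)^[l % (k + 1)] u) := by
      rw [← C.act_nsmul 1 1]
      simp
    rw [h2]
    have h3 : u ≤ (act Φ Ψ a₀ b₀)^[l % (k + 1)] u :=
      mono_iter (act Φ Ψ a₀ b₀).strictMono e0 h₀ hu (Nat.zero_le _)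
    calc M ≤ (act Φ Ψ 1 1)^[n] u := hn
      _ ≤ (act Φ Ψ 1 1)^[n₀.toNat + l / (k + 1)] u :=
          mono_iter (act Φ Ψ 1 1).strictMono H0 C.pos_one_one hu (by omega)
      _ ≤ _ := (act Φ Ψ 1 1).monotone.iterate _ h3

end Core

end Pool.Agent.CFP
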