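import Pool.Agent.Lib_MP_eedf80_an.Defs

/-!
PART E3a: enumeration of the starting points of up-crossings.
-/

set_option autoImplicit false

namespace Pool.Agent.CFP

open Set Function

variable {y₁ y₂ : ℝ} {Q : ℝ → ℝ}

/-- an up-crossing exists between a low point and a high point -/
theorem exists_upX (hy : y₁ < y₂) (hQ : Continuous Q) {u v : ℝ} (huv : u ≤ v) (hu : Q u ≤ y₁)
    (hv : y₂ ≤ Q v) : ∃ d e, u ≤ d ∧ e ≤ v ∧ UpX y₁ y₂ Q d e := by
  -- the first high point
  have hc1 : IsCompact (Icc u v ∩ {t | y₂ ≤ Q t}) :=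
    isCompact_Icc.inter_right (isClosed_le continuous_const hQ)
  obtain ⟨e, ⟨he1, he2⟩, he3⟩ := hc1.exists_isLeast ⟨v, ⟨huv, le_rfl⟩, hv⟩
  have he2' : y₂ ≤ Q e := he2
  have hlt : ∀ t ∈ Ico u e, Q t < y₂ := by
    intro t ht
    by_contra hcon
    have := he3 ⟨⟨ht.1, ht.2.le.trans he1.2⟩, not_lt.1 hcon⟩
    exact absurd ht.2 (not_lt.2 this)
  have hue : u < e := lt_of_le_of_ne he1.1 (by rintro rfl; linarith)
  have hQe : Q e = y₂ := by
    apply le_antisymm _ he2'
    have hcl : e ∈ closure (Ico u e) := by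
      rw [closure_Ico hue.ne]
      exact right_mem_Icc.2 hue.le
    have : closure (Ico u e) ⊆ {t | Q t ≤ y₂} := by
      apply closure_minimal
      · intro t ht
        exact (hlt t ht).le
      · exact isClosed_le hQ continuous_const
    exact this hcl
  -- the last low point before
  have hc2 : IsCompact (Icc u e ∩ {t | Q t ≤ y₁}) :=
    isCompact_Icc.inter_right (isClosed_le hQ continuous_const)
  obtain ⟨d, ⟨hd1, hd2⟩, hd3⟩ := hc2.exists_isGreatest ⟨u, ⟨le_rfl, hue.le⟩, hu⟩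
  have hd2' : Q d ≤ y₁ := hd2
  have hgt : ∀ t ∈ Ioc d e, y₁ < Q t := by
    intro t ht
    by_contra hcon
    have := hd3 ⟨⟨hd1.1.trans ht.1.le, ht.2⟩, not_lt.1 hcon⟩
    exact absurd ht.1 (not_lt.2 this)
  have hde : d < e := lt_of_le_of_ne hd1.2 (by rintro rfl; linarith)
  have hQd : Q d = y₁ := by
    apply le_antisymm hd2'
    have hcl : d ∈ closure (Ioc d e) := by
      rw [closure_Ioc hde.ne]
      exact left_mem_Icc.2 hde.le
    have : closure (Ioc d e) ⊆ {t | y₁ ≤ Q t} := by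
      apply closure_minimal
      · intro t ht
        exact (hgt t ht).le
      · exact isClosed_le continuous_const hQ
    exact this hcl
  exact ⟨d, e, hd1.1, he1.2, hde, hQd, hQe, fun t ht =>
    ⟨hgt t ⟨ht.1, ht.2.le⟩, hlt t ⟨hd1.1.trans ht.1.le, ht.2⟩⟩⟩

theorem UpX.sep {d e d' : ℝ} (h : UpX y₁ y₂ Q d e) (h' : Q d' ≤ y₁) (hd : d < d') :
    e ≤ d' := by
  by_contra hcon
  exact absurd (h.2.2.2 d' ⟨hd, not_le.1 hcon⟩).1 (not_lt.2 h')

/-- the starting points are locally finite -/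
theorem starts_finite (hy : y₁ < y₂) (hQ : Continuous Q) (a b : ℝ) :
    (Starts y₁ y₂ Q ∩ Icc a b).Finite := by
  have huc : UniformContinuousOn Q (Icc a b) :=
    isCompact_Icc.uniformContinuousOn_of_continuous hQ.continuousOn
  rw [Metric.uniformContinuousOn_iff] at huc
  obtain ⟨δ, hδ, hδ'⟩ := huc (y₂ - y₁) (by linarith)
  have hsep : ∀ d ∈ Starts y₁ y₂ Q ∩ Icc a b, ∀ d' ∈ Starts y₁ y₂ Q ∩ Icc a b, d < d' →
      δ ≤ d' - d := by
    rintro d ⟨⟨e, he⟩, hd⟩ d' ⟨⟨e', he'⟩, hd'⟩ hlt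
    have h1 : e ≤ d' := he.sep he'.2.1.le hlt
    have h2 : e ∈ Icc a b := ⟨hd.1.trans he.1.le, h1.trans hd'.2⟩
    by_contra hcon
    have h3 : dist e d < δ := by
      rw [Real.dist_eq, abs_of_pos (by linarith [he.1])]
      linarith
    have h4 := hδ' e h2 d hd h3
    rw [he.2.1, he.2.2.1, Real.dist_eq, abs_of_pos (by linarith)] at h4
    exact lt_irrefl _ h4
  apply Set.Finite.of_finite_image (f := fun t => ⌊(t - a) / δ⌋)
  · apply (Set.finite_Icc (0 : ℤ) ⌊(b - a) / δ⌋).subset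
    rintro _ ⟨t, ht, rfl⟩
    constructor
    · apply Int.floor_nonneg.2
      apply div_nonneg _ hδ.le
      linarith [ht.2.1]
    · apply Int.floor_le_floor
      apply div_le_div_of_nonneg_right _ hδ.le
      linarith [ht.2.2]
  · intro s hs t ht hst
    dsimp only at hst
    by_contra hne
    rcases lt_or_gt_of_ne hne with hlt | hlt
    · have h1 := hsep s hs t ht hlt
      have h2 : (s - a) / δ + 1 ≤ (t - a) / δ := by
        rw [← sub_nonneg]
        have : (t - a) / δ - ((s - a) / δ + 1) = (t - s - δ) / δ := by field_simp; ring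
        rw [this]
        apply div_nonneg _ hδ.le
        linarith
      have h3 := Int.floor_le_floor h2
      rw [Int.floor_add_one] at h3
      omega
    · have h1 := hsep t ht s hs hlt
      have h2 : (t - a) / δ + 1 ≤ (s - a) / δ := by
        rw [← sub_nonneg]
        have : (s - a) / δ - ((t - a) / δ + 1) = (s - t - δ) / δ := by field_simp; ring
        rw [this]
        apply div_nonneg _ hδ.le
        linarith
      have h3 := Int.floor_le_floor h2
      rw [Int.floor_add_one] at h3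
      omega

/-- enumeration of a locally finite unbounded set -/
theorem exists_enum_set (S : Set ℝ) (hfin : ∀ M, (S ∩ Icc 0 M).Finite)
    (hunb : ∀ M, ∃ x ∈ S, M < x) :
    ∃ d : ℕ → ℝ, StrictMono d ∧ (∀ i, 0 < d i) ∧ (∀ x, 0 < x → (x ∈ S ↔ ∃ i, d i = x)) ∧
      Filter.Tendsto d Filter.atTop Filter.atTop := by
  have hnext : ∀ x, 0 ≤ x → ∃ y, IsLeast (S ∩ Ioi x) y := by
    intro x hx
    obtain ⟨M, hMS, hM⟩ := hunb x
    have hf : (S ∩ Ioi x ∩ Iic M).Finite := by
      apply (hfin M).subset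
      rintro t ⟨⟨ht1, ht2⟩, ht3⟩
      exact ⟨ht1, hx.trans (le_of_lt ht2), ht3⟩
    obtain ⟨y, hy, hy'⟩ := hf.exists_minimal ⟨M, ⟨hMS, hM⟩, mem_Iic.2 le_rfl⟩
    refine ⟨y, hy.1, ?_⟩
    intro t ht
    by_contra hcon
    have hty : t < y := not_le.1 hcon
    have := hy' (y := t) ⟨ht, hty.le.trans hy.2⟩ hty.le
    exact absurd hty (not_lt.2 this)
  choose! nx hnx using hnext
  have hnx_pos : ∀ x, 0 ≤ x → 0 ≤ nx x := fun x hx => hx.trans (le_of_lt (hnx x hx).1.2)
  let d : ℕ → ℝ := fun n => nx^[n + 1] 0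
  have hd0 : ∀ n, 0 ≤ nx^[n] 0 := by
    intro n
    induction n with
    | zero => simp
    | succ n ih =>
      rw [Function.iterate_succ_apply']
      exact hnx_pos _ ih
  have hds : ∀ n, IsLeast (S ∩ Ioi (nx^[n] 0)) (nx^[n + 1] 0) := by
    intro n
    rw [Function.iterate_succ_apply']
    exact hnx _ (hd0 n)
  have hlt : ∀ n, nx^[n] 0 < nx^[n + 1] 0 := fun n => (hds n).1.2
  have hmono : StrictMono d := strictMono_nat_of_lt_succ (fun n => hlt (n + 1))
  have hposd : ∀ i, 0 < d i := fun i => (hd0 i).trans_lt (hlt i)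
  have htop : ∀ M, ∃ i, M < d i := by
    intro M
    by_contra hcon
    push Not at hcon
    have hinf : (Set.range d).Infinite := Set.infinite_range_of_injective hmono.injective
    apply hinf
    apply (hfin M).subset
    rintro _ ⟨i, rfl⟩
    exact ⟨(hds i).1.1, (hposd i).le, hcon i⟩
  refine ⟨d, hmono, hposd, ?_, ?_⟩
  · intro x hx
    constructor
    · intro hxS
      have hex : ∃ i, x ≤ d i := by
        obtain ⟨i, hi⟩ := htop x
        exact ⟨i, hi.le⟩
      classical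
      refine ⟨Nat.find hex, ?_⟩
      have h1 := Nat.find_spec hex
      apply le_antisymm _ h1
      apply (hds (Nat.find hex)).2
      refine ⟨hxS, ?_⟩
      rw [mem_Ioi]
      rcases Nat.eq_zero_or_pos (Nat.find hex) with h0 | h0
      · rw [h0]
        simpa using hx
      · have h2 := Nat.find_min hex (m := Nat.find hex - 1) (by omega)
        have h3 : Nat.find hex - 1 + 1 = Nat.find hex := by omega
        have h4 : d (Nat.find hex - 1) = nx^[Nat.find hex] 0 := by
          simp only [d]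
          rw [h3]
        rw [← h4]
        exact not_le.1 h2
    · rintro ⟨i, rfl⟩
      exact (hds i).1.1
  · apply Filter.tendsto_atTop_atTop_of_monotone hmono.monotone
    intro M
    obtain ⟨i, hi⟩ := htop M
    exact ⟨i, hi.le⟩

/-- PART E3: enumeration of the starting points. -/
theorem exists_enum (hy : y₁ < y₂) (hQ : Continuous Q)
    (hunb : ∀ M : ℝ, ∃ u v, M < u ∧ u < v ∧ Q u ≤ y₁ ∧ y₂ ≤ Q v) :
    ∃ d : ℕ → ℝ, Enum y₁ y₂ Q d := by
  obtain ⟨d, h1, h2, h3, h4⟩ := exists_enum_set (Starts y₁ y₂ Q)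
    (fun M => starts_finite hy hQ 0 M) (by
      intro M
      obtain ⟨u, v, hMu, huv, hu, hv⟩ := hunb M
      obtain ⟨d, e, hd, he, hX⟩ := exists_upX hy hQ huv.le hu hv
      exact ⟨d, ⟨e, hX⟩, hMu.trans_le hd⟩)
  exact ⟨d, h1, h2, h3, h4⟩

open Classical in
/-- index of the first starting point `≥ u`. -/
noncomputable def Enum.idx {d : ℕ → ℝ} (hd : Enum y₁ y₂ Q d) (u : ℝ) : ℕ :=
  Nat.find (p := fun i => u ≤ d i) (by
    obtain ⟨i, hi⟩ := (hd.top.eventually_ge_atTop u).exists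
    exact ⟨i, hi⟩)

section idx
variable {d : ℕ → ℝ} (hd : Enum y₁ y₂ Q d)
include hd

theorem Enum.idx_le_iff {u : ℝ} {i : ℕ} : hd.idx u ≤ i ↔ u ≤ d i := by
  unfold Enum.idx
  constructor
  · intro h
    rw [Nat.find_le_iff] at h
    obtain ⟨m, hm, hm'⟩ := h
    exact hm'.trans (hd.mono.monotone hm)
  · intro h
    exact Nat.find_min' _ h

theorem Enum.lt_idx_iff {u : ℝ} {i : ℕ} : i < hd.idx u ↔ d i < u := by
  rw [← not_le, ← not_le, hd.idx_le_iff]

theorem Enum.le_d_idx (u : ℝ) : u ≤ d (hd.idx u) := hd.idx_le_iff.1 le_rfl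

theorem Enum.idx_d (i : ℕ) : hd.idx (d i) = i := by
  apply le_antisymm
  · exact hd.idx_le_iff.2 le_rfl
  · have := hd.le_d_idx (d i)
    exact hd.mono.le_iff_le.1 this

theorem Enum.idx_mono : Monotone hd.idx := by
  intro u v huv
  rw [hd.idx_le_iff]
  exact huv.trans (hd.le_d_idx v)

theorem Enum.mem_Ico_iff {a b : ℝ} {i : ℕ} : i ∈ Finset.Ico (hd.idx a) (hd.idx b) ↔
    a ≤ d i ∧ d i < b := by
  rw [Finset.mem_Ico, hd.idx_le_iff, hd.lt_idx_iff]

/-- a start with positive position is a value of the enumeration at its own index -/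
theorem Enum.d_idx_of_start {x : ℝ} (hx : 0 < x) (hs : x ∈ Starts y₁ y₂ Q) : d (hd.idx x) = x := by
  obtain ⟨i, rfl⟩ := (hd.mem x hx).1 hs
  rw [hd.idx_d]

theorem Enum.d_start (i : ℕ) : d i ∈ Starts y₁ y₂ Q := (hd.mem _ (hd.pos i)).2 ⟨i, rfl⟩

/-- a crossing increases the index -/
theorem Enum.idx_cross (hy : y₁ < y₂) (hQ : Continuous Q) {u v : ℝ} (hu0 : 0 < u) (huv : u ≤ v)
    (hu : Q u ≤ y₁) (hv : y₂ ≤ Q v) : hd.idx u + 1 ≤ hd.idx v := by
  obtain ⟨D, E, hD, hE, hX⟩ := exists_upX hy hQ huv hu hv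
  obtain ⟨i, hi⟩ := (hd.mem D (hu0.trans_le hD)).1 ⟨E, hX⟩
  have h1 : hd.idx u ≤ i := hd.idx_le_iff.2 (hi ▸ hD)
  have h2 : i < hd.idx v := hd.lt_idx_iff.2 (hi ▸ (hX.1.trans_le hE))
  omega

end idx

theorem Enum.idx_alt (hy : y₁ < y₂) (hQ : Continuous Q) {d : ℕ → ℝ} (hd : Enum y₁ y₂ Q d)
    {a b : ℝ} (ha : 0 < a) {m : ℕ} (h : Alt y₁ y₂ Q a b (2 * m + 1)) :
    hd.idx a + m ≤ hd.idx b := by
  obtain ⟨t, e, ht, hlt, hv⟩ := h
  -- offset
  have key : ∀ o, o ≤ 1 → Even (o + e) → ∀ j, j ≤ m → hd.idx (t o) + j ≤ hd.idx (t (2 * j + o)) := by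
    intro o ho hoe j
    induction j with
    | zero => intro _; simp
    | succ j ih =>
      intro hj
      have h1 := ih (by omega)
      have hle1 : 2 * j + o ≤ 2 * m + 1 := by omega
      have hle2 : 2 * j + o + 1 ≤ 2 * m + 1 := by omega
      have hlow : Q (t (2 * j + o)) ≤ y₁ := by
        apply (hv (2 * j + o) hle1).1
        have : 2 * j + o + e = 2 * j + (o + e) := by ring
        rw [this]
        exact (even_two_mul j).add hoe
      have hhigh : y₂ ≤ Q (t (2 * j + o + 1)) := by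
        apply (hv (2 * j + o + 1) hle2).2
        have : 2 * j + o + 1 + e = 2 * j + (o + e) + 1 := by ring
        rw [this]
        exact Nat.not_even_iff_odd.2 (((even_two_mul j).add hoe).add_one)
      have hpos : 0 < t (2 * j + o) := ha.trans_le (ht _ hle1).1
      have h2 := hd.idx_cross hy hQ hpos (hlt (2 * j + o) (by omega)).le hlow hhigh
      have h3 : hd.idx (t (2 * j + o + 1)) ≤ hd.idx (t (2 * (j + 1) + o)) := by
        have : 2 * (j + 1) + o = 2 * j + o + 1 + 1 := by ring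
        rw [this]
        exact hd.idx_mono (hlt (2 * j + o + 1) (by omega)).le
      omega
  by_cases he : Even e
  · have h1 := key 0 (by norm_num) (by simpa using he) m le_rfl
    have h2 : hd.idx a ≤ hd.idx (t 0) := hd.idx_mono (ht 0 (by omega)).1
    have h3 : hd.idx (t (2 * m + 0)) ≤ hd.idx b := hd.idx_mono (ht _ (by omega)).2
    omega
  · have h1 := key 1 le_rfl (by
      rw [Nat.not_even_iff_odd] at he
      rw [add_comm]
      exact he.add_one) m le_rfl
    have h2 : hd.idx a ≤ hd.idx (t 1) := hd.idx_mono (ht 1 (by omega)).1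
    have h3 : hd.idx (t (2 * m + 1)) ≤ hd.idx b := hd.idx_mono (ht _ (by omega)).2
    omega

end Pool.Agent.CFP
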