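import Pool.Agent.Lib_MP_eedf80_an.Defs

/-!
Basic lemmas: words, alternations, sections.
-/

set_option autoImplicit false

namespace Pool.Agent.CFP

open Set Function

section Basic

variable {f g F Q : ℝ → ℝ} {y₁ y₂ s₁ s₂ a b c : ℝ} {m m' n p q p' q' : ℕ}

theorem W_apply (f g : ℝ → ℝ) (p q : ℕ) (x : ℝ) : W f g p q x = f^[p] (g^[q] x) := rfl

theorem comm_iter_left (hc : ∀ x, f (g x) = g (f x)) (p : ℕ) (x : ℝ) :
    f^[p] (g x) = g (f^[p] x) := by
  have h : Function.Commute f g := hc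
  exact (h.iterate_left p) x

theorem comm_iter (hc : ∀ x, f (g x) = g (f x)) (p q : ℕ) (x : ℝ) :
    f^[p] (g^[q] x) = g^[q] (f^[p] x) := by
  have h : Function.Commute f g := hc
  exact (h.iterate_iterate p q) x

theorem W_W (hc : ∀ x, f (g x) = g (f x)) (p q p' q' : ℕ) (x : ℝ) :
    W f g p q (W f g p' q' x) = W f g (p + p') (q + q') x := by
  simp only [W_apply]
  rw [← comm_iter hc p' q, ← iterate_add_apply, ← iterate_add_apply]

theorem W_iter (hc : ∀ x, f (g x) = g (f x)) (p q n : ℕ) (x : ℝ) :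
    (W f g p q)^[n] x = W f g (n * p) (n * q) x := by
  induction n generalizing x with
  | zero => simp [W_apply]
  | succ n ih =>
    rw [iterate_succ_apply, ih, W_W hc]
    congr 1 <;> ring

theorem W_f (hc : ∀ x, f (g x) = g (f x)) (p q : ℕ) (x : ℝ) :
    W f g p q (f x) = f (W f g p q x) := by
  have h1 := W_W hc p q 1 0 x
  have h2 := W_W hc 1 0 p q x
  simp only [W_apply, iterate_one, iterate_zero, id] at h1 h2 ⊢
  rw [h1, h2, add_comm p 1, add_comm q 0]

theorem W_g (hc : ∀ x, f (g x) = g (f x)) (p q : ℕ) (x : ℝ) :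
    W f g p q (g x) = g (W f g p q x) := by
  have h1 := W_W hc p q 0 1 x
  have h2 := W_W hc 0 1 p q x
  simp only [W_apply, iterate_one, iterate_zero, id] at h1 h2 ⊢
  rw [h1, h2, add_comm p 0, add_comm q 1]

theorem Red.contW (R : Red f g y₁ y₂ s₁ s₂) (p q : ℕ) : Continuous (W f g p q) :=
  (R.contf.iterate p).comp (R.contg.iterate q)

theorem Red.mapfi (R : Red f g y₁ y₂ s₁ s₂) (p : ℕ) {x : ℝ} (hx : x ∈ Icc (0 : ℝ) 1) :
    f^[p] x ∈ Icc (0 : ℝ) 1 := by
  cases p with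
  | zero => exact hx
  | succ p => rw [iterate_succ_apply']; exact R.mapf _

theorem Red.mapgi (R : Red f g y₁ y₂ s₁ s₂) (p : ℕ) {x : ℝ} (hx : x ∈ Icc (0 : ℝ) 1) :
    g^[p] x ∈ Icc (0 : ℝ) 1 := by
  cases p with
  | zero => exact hx
  | succ p => rw [iterate_succ_apply']; exact R.mapg _

theorem Red.mapW (R : Red f g y₁ y₂ s₁ s₂) (p q : ℕ) {x : ℝ} (hx : x ∈ Icc (0 : ℝ) 1) :
    W f g p q x ∈ Icc (0 : ℝ) 1 := R.mapfi p (R.mapgi q hx)

theorem Red.mapW' (R : Red f g y₁ y₂ s₁ s₂) {p q : ℕ} (h : 1 ≤ p + q) (x : ℝ) :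
    W f g p q x ∈ Icc (0 : ℝ) 1 := by
  cases p with
  | zero =>
    cases q with
    | zero => omega
    | succ q =>
      rw [W_apply, iterate_succ_apply']
      exact R.mapfi 0 (R.mapg _)
  | succ p =>
    rw [W_apply, iterate_succ_apply']
    exact R.mapf _

theorem Red.y12 (R : Red f g y₁ y₂ s₁ s₂) : y₁ < y₂ :=
  R.y1s1.trans (R.s1s2.trans R.s2y2)

theorem Red.covfi (R : Red f g y₁ y₂ s₁ s₂) (p : ℕ) : Icc y₁ y₂ ⊆ f^[p] '' Icc y₁ y₂ := by
  induction p with
  | zero => simp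
  | succ p ih =>
    intro x hx
    obtain ⟨z, hz, rfl⟩ := R.covf hx
    obtain ⟨w, hw, rfl⟩ := ih hz
    exact ⟨w, hw, by rw [iterate_succ_apply']⟩

theorem Red.covgi (R : Red f g y₁ y₂ s₁ s₂) (p : ℕ) : Icc y₁ y₂ ⊆ g^[p] '' Icc y₁ y₂ := by
  induction p with
  | zero => simp
  | succ p ih =>
    intro x hx
    obtain ⟨z, hz, rfl⟩ := R.covg hx
    obtain ⟨w, hw, rfl⟩ := ih hz
    exact ⟨w, hw, by rw [iterate_succ_apply']⟩

theorem Red.covW (R : Red f g y₁ y₂ s₁ s₂) (p q : ℕ) : Icc y₁ y₂ ⊆ W f g p q '' Icc y₁ y₂ := by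
  intro x hx
  obtain ⟨z, hz, rfl⟩ := R.covfi p hx
  obtain ⟨w, hw, rfl⟩ := R.covgi q hz
  exact ⟨w, hw, rfl⟩

theorem Red.cov_mono (R : Red f g y₁ y₂ s₁ s₂) {S : Set ℝ}
    (h : Icc y₁ y₂ ⊆ W f g n n '' S) (hp : n ≤ p) (hq : n ≤ q) :
    Icc y₁ y₂ ⊆ W f g p q '' S := by
  intro x hx
  obtain ⟨z, hz, rfl⟩ := R.covW (p - n) (q - n) hx
  obtain ⟨w, hw, rfl⟩ := h hz
  refine ⟨w, hw, ?_⟩
  rw [W_W R.comm]
  congr 1 <;> omega

/-- Long words expand every nondegenerate interval over `[y₁, y₂]`. -/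
theorem Red.act (R : Red f g y₁ y₂ s₁ s₂) (ha : 0 ≤ a) (hab : a < b) (hb : b ≤ 1) :
    ∃ n, ∀ p q, n ≤ p → n ≤ q → Icc y₁ y₂ ⊆ W f g p q '' Icc a b := by
  obtain ⟨n, hn⟩ := R.active a b ha hab hb
  exact ⟨n, fun p q hp hq => R.cov_mono hn hp hq⟩

theorem Red.fill0 (R : Red f g y₁ y₂ s₁ s₂) :
    (∀ a' > 0, ∃ n, ∃ x ∈ Icc y₁ y₂, W f g n n x < a') ∧
      (∀ b' < 1, ∃ n, ∃ x ∈ Icc y₁ y₂, b' < W f g n n x) := by
  -- the union of the images of `[y₁, y₂]`
  set U : Set ℝ := {z | ∃ n, ∃ x ∈ Icc y₁ y₂, W f g n n x = z} with hU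
  have hUne : U.Nonempty := ⟨y₁, 0, y₁, ⟨le_rfl, R.y12.le⟩, rfl⟩
  have hI : ∀ x ∈ Icc y₁ y₂, x ∈ Icc (0 : ℝ) 1 := fun x hx =>
    ⟨R.y1.trans hx.1, hx.2.trans R.y2⟩
  have hU01 : U ⊆ Icc 0 1 := by
    rintro z ⟨n, x, hx, rfl⟩
    exact R.mapW n n (hI x hx)
  have hbb : BddBelow U := ⟨0, fun z hz => (hU01 hz).1⟩
  have hba : BddAbove U := ⟨1, fun z hz => (hU01 hz).2⟩
  have hUf : ∀ z ∈ U, f z ∈ U := by
    rintro z ⟨n, x, hx, rfl⟩
    obtain ⟨w, hw, rfl⟩ := R.covg hx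
    refine ⟨n + 1, w, hw, ?_⟩
    rw [W_g R.comm]
    have h1 := W_W R.comm 1 1 n n w
    rw [add_comm n 1, ← h1]
    simp [W_apply]
  have hUg : ∀ z ∈ U, g z ∈ U := by
    rintro z ⟨n, x, hx, rfl⟩
    obtain ⟨w, hw, rfl⟩ := R.covf hx
    refine ⟨n + 1, w, hw, ?_⟩
    rw [W_f R.comm, ← R.comm]
    have h1 := W_W R.comm 1 1 n n w
    rw [add_comm n 1, ← h1]
    simp [W_apply]
  have hUint : ∀ z ∈ U, ∀ z' ∈ U, ∀ w, z ≤ w → w ≤ z' → w ∈ U := by
    rintro z ⟨n, x, hx, rfl⟩ z' ⟨n', x', hx', rfl⟩ w hw hw'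
    -- move to the common level
    have key : ∀ n₁ n₂ x₁, n₁ ≤ n₂ → x₁ ∈ Icc y₁ y₂ → ∃ x₂ ∈ Icc y₁ y₂, W f g n₂ n₂ x₂ = W f g n₁ n₁ x₁ := by
      intro n₁ n₂ x₁ h12 hx₁
      obtain ⟨x₂, hx₂, rfl⟩ := R.covW (n₂ - n₁) (n₂ - n₁) hx₁
      refine ⟨x₂, hx₂, ?_⟩
      rw [W_W R.comm]
      congr 1 <;> omega
    obtain ⟨u, hu, hu'⟩ := key n (max n n') x (le_max_left _ _) hx
    obtain ⟨v, hv, hv'⟩ := key n' (max n n') x' (le_max_right _ _) hx'
    have hpc : IsPreconnected (W f g (max n n') (max n n') '' Icc y₁ y₂) :=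
      isPreconnected_Icc.image _ (R.contW _ _).continuousOn
    have := hpc.Icc_subset (mem_image_of_mem _ hu) (mem_image_of_mem _ hv)
    rw [hu', hv'] at this
    obtain ⟨t, ht, htw⟩ := this ⟨hw, hw'⟩
    exact ⟨_, t, ht, htw⟩
  -- closure of U is an invariant interval
  have hmap : ∀ F : ℝ → ℝ, Continuous F → (∀ z ∈ U, F z ∈ U) →
      MapsTo F (Icc (sInf U) (sSup U)) (Icc (sInf U) (sSup U)) := by
    intro F hF hFU
    have hcl : Icc (sInf U) (sSup U) ⊆ closure U := by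
      intro z hz
      rcases eq_or_lt_of_le hz.1 with h1 | h1
      · rw [← h1]; exact csInf_mem_closure hUne hbb
      rcases eq_or_lt_of_le hz.2 with h2 | h2
      · rw [h2]; exact csSup_mem_closure hUne hba
      obtain ⟨u, hu, hu'⟩ := exists_lt_of_csInf_lt hUne h1
      obtain ⟨v, hv, hv'⟩ := exists_lt_of_lt_csSup hUne h2
      exact subset_closure (hUint u hu v hv z hu'.le hv'.le)
    have hsub : U ⊆ Icc (sInf U) (sSup U) := fun z hz => ⟨csInf_le hbb hz, le_csSup hba hz⟩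
    intro z hz
    have h1 : F z ∈ closure U := map_mem_closure hF (hcl hz) hFU
    exact closure_minimal hsub isClosed_Icc h1
  have hmin := R.minimal (sInf U) (sSup U) (le_csInf hUne fun z hz => (hU01 hz).1)
    (csInf_le_csSup hUne hbb hba) (csSup_le hUne fun z hz => (hU01 hz).2)
    (hmap f R.contf hUf) (hmap g R.contg hUg)
  constructor
  · intro a' ha'
    have : sInf U < a' := by rw [hmin.1]; exact ha'
    obtain ⟨z, ⟨n, x, hx, rfl⟩, hz⟩ := exists_lt_of_csInf_lt hUne this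
    exact ⟨n, x, hx, hz⟩
  · intro b' hb'
    have : b' < sSup U := by rw [hmin.2]; exact hb'
    obtain ⟨z, ⟨n, x, hx, rfl⟩, hz⟩ := exists_lt_of_lt_csSup hUne this
    exact ⟨n, x, hx, hz⟩

/-- Long words expand `[y₁, y₂]` over every compact part of `(0, 1)`. -/
theorem Red.fill1 (R : Red f g y₁ y₂ s₁ s₂) {a' b' : ℝ} (ha' : 0 < a') (hb' : b' < 1) :
    ∃ n, ∀ p q, n ≤ p → n ≤ q → Icc a' b' ⊆ W f g p q '' Icc y₁ y₂ := by
  obtain ⟨n₁, x₁, hx₁, h₁⟩ := R.fill0.1 a' ha'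
  obtain ⟨n₂, x₂, hx₂, h₂⟩ := R.fill0.2 b' hb'
  refine ⟨max n₁ n₂, fun p q hp hq => ?_⟩
  have key : ∀ n₁, n₁ ≤ p → n₁ ≤ q → ∀ x₁ ∈ Icc y₁ y₂, ∃ x₂ ∈ Icc y₁ y₂,
      W f g p q x₂ = W f g n₁ n₁ x₁ := by
    intro n₁ h1 h2 x₁ hx₁
    obtain ⟨x₂, hx₂, rfl⟩ := R.covW (p - n₁) (q - n₁) hx₁
    refine ⟨x₂, hx₂, ?_⟩
    rw [W_W R.comm]
    congr 1 <;> omega
  obtain ⟨u, hu, hu'⟩ := key n₁ ((le_max_left _ _).trans hp) ((le_max_left _ _).trans hq) x₁ hx₁
  obtain ⟨v, hv, hv'⟩ := key n₂ ((le_max_right _ _).trans hp) ((le_max_right _ _).trans hq) x₂ hx₂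
  have hpc : IsPreconnected (W f g p q '' Icc y₁ y₂) :=
    isPreconnected_Icc.image _ (R.contW _ _).continuousOn
  have := hpc.Icc_subset (mem_image_of_mem _ hu) (mem_image_of_mem _ hv)
  rw [hu', hv'] at this
  exact (Icc_subset_Icc h₁.le h₂.le).trans this

/-- Long words expand every nondegenerate interval over every compact part of `(0, 1)`. -/
theorem Red.fill (R : Red f g y₁ y₂ s₁ s₂) (ha : 0 ≤ a) (hab : a < b) (hb : b ≤ 1)
    {a' b' : ℝ} (ha' : 0 < a') (hb' : b' < 1) :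
    ∃ n, ∀ p q, n ≤ p → n ≤ q → Icc a' b' ⊆ W f g p q '' Icc a b := by
  obtain ⟨n₁, h₁⟩ := R.act ha hab hb
  obtain ⟨n₂, h₂⟩ := R.fill1 ha' hb'
  refine ⟨n₁ + n₂, fun p q hp hq => ?_⟩
  intro x hx
  obtain ⟨z, hz, rfl⟩ := h₂ (p - n₁) (q - n₁) (by omega) (by omega) hx
  obtain ⟨w, hw, rfl⟩ := h₁ n₁ n₁ le_rfl le_rfl hz
  refine ⟨w, hw, ?_⟩
  rw [W_W R.comm]
  congr 1 <;> omega

/-- Two words which agree on an interval agree everywhere. -/
theorem Red.spread (R : Red f g y₁ y₂ s₁ s₂) (ha : 0 ≤ a) (hab : a < b) (hb : b ≤ 1)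
    (h : ∀ x ∈ Icc a b, W f g p q x = W f g p' q' x) :
    ∀ x ∈ Icc (0 : ℝ) 1, W f g p q x = W f g p' q' x := by
  have h1 : ∀ x ∈ Ioo (0 : ℝ) 1, W f g p q x = W f g p' q' x := by
    intro x hx
    obtain ⟨n, hn⟩ := R.fill ha hab hb hx.1 hx.2
    obtain ⟨z, hz, hzx⟩ := hn n n le_rfl le_rfl (a := x) ⟨le_rfl, le_rfl⟩
    rw [← hzx, W_W R.comm, W_W R.comm, add_comm p n, add_comm q n, add_comm p' n, add_comm q' n,
      ← W_W R.comm, ← W_W R.comm, h z hz]
  have hcl : Icc (0 : ℝ) 1 ⊆ closure (Ioo (0 : ℝ) 1) := by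
    rw [closure_Ioo (by norm_num)]
  intro x hx
  have hclosed : IsClosed {x | W f g p q x = W f g p' q' x} :=
    isClosed_eq (R.contW _ _) (R.contW _ _)
  exact closure_minimal (s := Ioo (0 : ℝ) 1) (fun z hz => h1 z hz) hclosed (hcl hx)

theorem Red.no_common (R : Red f g y₁ y₂ s₁ s₂) {c : ℝ} (hf : f c = c) (hg : g c = c) :
    False := by
  have hc := R.mapf c
  rw [hf] at hc
  have h1 := R.minimal c c hc.1 le_rfl hc.2 (fun x hx => by
    have : x = c := le_antisymm hx.2 hx.1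
    subst this; rw [hf]; exact ⟨le_rfl, le_rfl⟩) (fun x hx => by
    have : x = c := le_antisymm hx.2 hx.1
    subst this; rw [hg]; exact ⟨le_rfl, le_rfl⟩)
  linarith [h1.1, h1.2]

theorem Alt.mono (h : Alt y₁ y₂ F a b m) {a' b' : ℝ} (ha : a' ≤ a) (hb : b ≤ b') :
    Alt y₁ y₂ F a' b' m := by
  obtain ⟨t, e, h1, h2, h3⟩ := h
  exact ⟨t, e, fun i hi => ⟨ha.trans (h1 i hi).1, (h1 i hi).2.trans hb⟩, h2, h3⟩

theorem Alt.le (h : Alt y₁ y₂ F a b m) (hm : m' ≤ m) : Alt y₁ y₂ F a b m' := by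
  obtain ⟨t, e, h1, h2, h3⟩ := h
  exact ⟨t, e, fun i hi => h1 i (hi.trans hm), fun i hi => h2 i (hi.trans_le hm),
    fun i hi => h3 i (hi.trans hm)⟩

theorem Alt.congr (h : Alt y₁ y₂ F a b m) {G : ℝ → ℝ} (hG : ∀ x ∈ Icc a b, G x = F x) :
    Alt y₁ y₂ G a b m := by
  obtain ⟨t, e, h1, h2, h3⟩ := h
  exact ⟨t, e, h1, h2, fun i hi => by rw [hG _ (h1 i hi)]; exact h3 i hi⟩

/-- Concatenate at a common parity. -/
theorem Alt.concat_aux (t t' : ℕ → ℝ) (e e' : ℕ)
    (h1 : ∀ i ≤ m, t i ∈ Icc a b) (h2 : ∀ i < m, t i < t (i + 1))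
    (h3 : ∀ i ≤ m, (Even (i + e) → F (t i) ≤ y₁) ∧ (¬ Even (i + e) → y₂ ≤ F (t i)))
    (h1' : ∀ i ≤ m', t' i ∈ Icc b c) (h2' : ∀ i < m', t' i < t' (i + 1))
    (h3' : ∀ i ≤ m', (Even (i + e') → F (t' i) ≤ y₁) ∧ (¬ Even (i + e') → y₂ ≤ F (t' i)))
    (hpar : Even (m + e) ↔ Even e') : Alt y₁ y₂ F a c (m + m') := by
  -- drop the first point of the second block
  refine ⟨fun i => if i ≤ m then t i else t' (i - m), e, ?_, ?_, ?_⟩
  · intro i hi
    have hbc : b ≤ c := (h1' 0 (Nat.zero_le _)).1.trans (h1' 0 (Nat.zero_le _)).2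
    have hab : a ≤ b := (h1 0 (Nat.zero_le _)).1.trans (h1 0 (Nat.zero_le _)).2
    by_cases him : i ≤ m
    · simp only [him, if_true]
      exact ⟨(h1 i him).1, (h1 i him).2.trans hbc⟩
    · simp only [him, if_false]
      have := h1' (i - m) (by omega)
      exact ⟨hab.trans this.1, this.2⟩
  · intro i hi
    by_cases him : i + 1 ≤ m
    · have him' : i ≤ m := by omega
      simp only [him, him', if_true]
      exact h2 i him
    · by_cases him' : i ≤ m
      · have hie : i = m := by omega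
        subst hie
        simp only [him, le_refl, if_true, if_false]
        have hm' : 0 < m' := by omega
        have e1 : i + 1 - i = 1 := by omega
        rw [e1]
        have := h2' 0 hm'
        have h5 := (h1 i le_rfl).2
        have h6 := (h1' 0 (Nat.zero_le _)).1
        calc t i ≤ b := h5
          _ ≤ t' 0 := h6
          _ < t' (0 + 1) := this
      · simp only [him, him', if_false]
        have e1 : i + 1 - m = (i - m) + 1 := by omega
        rw [e1]
        exact h2' (i - m) (by omega)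
  · intro i hi
    by_cases him : i ≤ m
    · simp only [him, if_true]
      exact h3 i him
    · simp only [him, if_false]
      have h7 := h3' (i - m) (by omega)
      have hp : Even (i + e) ↔ Even (i - m + e') := by
        have : i = (i - m) + m := by omega
        constructor
        · intro h8
          rw [this, add_assoc, Nat.even_add] at h8
          rw [Nat.even_add, h8, hpar]
        · intro h8
          rw [this, add_assoc, Nat.even_add]
          rw [Nat.even_add] at h8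
          rw [h8, hpar]
      rw [hp]
      exact h7

theorem mono_of_step {t : ℕ → ℝ} (h : ∀ i < m, t i < t (i + 1)) {i j : ℕ} (hij : i ≤ j)
    (hj : j ≤ m) : t i ≤ t j := by
  induction j with
  | zero =>
    have : i = 0 := by omega
    rw [this]
  | succ j ih =>
    rcases Nat.lt_or_ge i (j + 1) with h1 | h1
    · exact (ih (by omega) (by omega)).trans (h j (by omega)).le
    · have : i = j + 1 := by omega
      rw [this]

theorem smono_of_step {t : ℕ → ℝ} (h : ∀ i < m, t i < t (i + 1)) {i j : ℕ} (hij : i < j)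
    (hj : j ≤ m) : t i < t j :=
  (h i (by omega)).trans_le (mono_of_step h hij hj)

theorem Alt.concat (hy : y₁ < y₂) (h : Alt y₁ y₂ F a b m) (h' : Alt y₁ y₂ F b c m') :
    Alt y₁ y₂ F a c (m + m') := by
  obtain ⟨t, e, h1, h2, h3⟩ := h
  obtain ⟨t', e', h1', h2', h3'⟩ := h'
  by_cases hpar : Even (m + e) ↔ Even e'
  · exact Alt.concat_aux t t' e e' h1 h2 h3 h1' h2' h3' hpar
  · -- insert the first point of the second block
    have hbc : b ≤ c := (h1' 0 (Nat.zero_le _)).1.trans (h1' 0 (Nat.zero_le _)).2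
    have hab : a ≤ b := (h1 0 (Nat.zero_le _)).1.trans (h1 0 (Nat.zero_le _)).2
    have hlt : t m < t' 0 := by
      have h4 : t m ≤ t' 0 := (h1 m le_rfl).2.trans (h1' 0 (Nat.zero_le _)).1
      refine lt_of_le_of_ne h4 fun h5 => ?_
      have h6 := h3 m le_rfl
      have h7 := h3' 0 (Nat.zero_le _)
      rw [← h5, zero_add] at h7
      by_cases hE : Even (m + e)
      · have hE' : ¬ Even e' := fun h8 => hpar ⟨fun _ => h8, fun _ => hE⟩
        linarith [h6.1 hE, h7.2 hE']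
      · have hE' : Even e' := by
          by_contra h8
          exact hpar ⟨fun h9 => absurd h9 hE, fun h9 => absurd h9 h8⟩
        linarith [h6.2 hE, h7.1 hE']
    have hp : Even (m + 1 + e) ↔ Even e' := by
      have : m + 1 + e = (m + e) + 1 := by ring
      rw [this, Nat.even_add_one]
      constructor
      · intro h8
        by_contra h9
        exact hpar ⟨fun h => absurd h h8, fun h => absurd h h9⟩
      · intro h8 h9
        exact hpar ⟨fun _ => h8, fun _ => h9⟩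
    have G1 : ∀ i ≤ m + 1, (if i ≤ m then t i else t' 0) ∈ Icc a (t' 0) := by
      intro i hi
      by_cases him : i ≤ m
      · simp only [him, if_true]
        exact ⟨(h1 i him).1, (h1 i him).2.trans (h1' 0 (Nat.zero_le _)).1⟩
      · simp only [him, if_false]
        exact ⟨hab.trans (h1' 0 (Nat.zero_le _)).1, le_rfl⟩
    have G2 : ∀ i < m + 1, (if i ≤ m then t i else t' 0) <
        (if i + 1 ≤ m then t (i + 1) else t' 0) := by
      intro i hi
      by_cases him : i + 1 ≤ m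
      · have him' : i ≤ m := by omega
        simp only [him, him', if_true]
        exact h2 i him
      · have him' : i = m := by omega
        subst him'
        simp only [him, le_refl, if_true, if_false]
        exact hlt
    have G3 : ∀ i ≤ m + 1, (Even (i + e) → F (if i ≤ m then t i else t' 0) ≤ y₁) ∧
        (¬ Even (i + e) → y₂ ≤ F (if i ≤ m then t i else t' 0)) := by
      intro i hi
      by_cases him : i ≤ m
      · simp only [him, if_true]
        exact h3 i him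
      · have him' : i = m + 1 := by omega
        subst him'
        simp only [him, if_false]
        have h7 := h3' 0 (Nat.zero_le _)
        rw [zero_add] at h7
        rw [hp]
        exact h7
    have hB : Alt y₁ y₂ F a c ((m + 1) + m') :=
      Alt.concat_aux (b := t' 0) (fun i => if i ≤ m then t i else t' 0) t' e e' G1 G2 G3
        (fun i hi => ⟨mono_of_step h2' (Nat.zero_le _) hi, (h1' i hi).2⟩) h2' h3' hp
    exact hB.le (by omega)

/-- Sections of continuous maps (last preimage). -/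
theorem exists_section {p q : ℝ} (hpq : p ≤ q) (hQ : ContinuousOn Q (Icc p q)) (h : Q p ≤ Q q) :
    ∃ σ : ℝ → ℝ, StrictMonoOn σ (Icc (Q p) (Q q)) ∧ MapsTo σ (Icc (Q p) (Q q)) (Icc p q) ∧
      ∀ v ∈ Icc (Q p) (Q q), Q (σ v) = v := by
  set S : ℝ → Set ℝ := fun v => {x ∈ Icc p q | Q x ≤ v} with hS
  have hSbdd : ∀ v, BddAbove (S v) := fun v => ⟨q, fun x hx => hx.1.2⟩
  have hSne : ∀ v, Q p ≤ v → (S v).Nonempty := fun v hv => ⟨p, ⟨⟨le_rfl, hpq⟩, hv⟩⟩
  have hScl : ∀ v, IsClosed (S v) := by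
    intro v
    have : S v = Icc p q ∩ Q ⁻¹' Iic v := rfl
    rw [this]
    exact hQ.preimage_isClosed_of_isClosed isClosed_Icc isClosed_Iic
  have hmem : ∀ v, Q p ≤ v → sSup (S v) ∈ S v := fun v hv =>
    (hScl v).csSup_mem (hSne v hv) (hSbdd v)
  have hval : ∀ v ∈ Icc (Q p) (Q q), Q (sSup (S v)) = v := by
    intro v hv
    have h1 := hmem v hv.1
    refine le_antisymm h1.2 ?_
    by_contra hlt
    push Not at hlt
    -- intermediate value between sSup and q
    have hsub : Icc (sSup (S v)) q ⊆ Icc p q := Icc_subset_Icc h1.1.1 le_rfl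
    have hivt := intermediate_value_Icc h1.1.2 (hQ.mono hsub)
    obtain ⟨x, hx, hxv⟩ := hivt ⟨hlt.le, hv.2⟩
    have hxS : x ∈ S v := ⟨hsub hx, hxv.le⟩
    have hle := le_csSup (hSbdd v) hxS
    have : x = sSup (S v) := le_antisymm hle hx.1
    rw [← this, hxv] at hlt
    exact lt_irrefl _ hlt
  refine ⟨fun v => sSup (S v), ?_, ?_, hval⟩
  · intro v hv w hw hvw
    have hsub : S v ⊆ S w := fun x hx => ⟨hx.1, hx.2.trans hvw.le⟩
    have hle : sSup (S v) ≤ sSup (S w) := csSup_le_csSup (hSbdd w) (hSne v hv.1) hsub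
    refine lt_of_le_of_ne hle fun heq => ?_
    have heq' : sSup (S v) = sSup (S w) := heq
    have h1 := hval v hv
    have h2 := hval w hw
    rw [← heq', h1] at h2
    exact absurd h2 hvw.ne
  · intro v hv
    exact (hmem v hv.1).1

theorem Alt.pullback_aux {p q : ℝ} (h : Alt y₁ y₂ F a b m) (hQ : ContinuousOn Q (Icc p q))
    (hpq : p ≤ q) (hp : Q p ≤ a) (hq : b ≤ Q q) : Alt y₁ y₂ (F ∘ Q) p q m := by
  obtain ⟨t, e, h1, h2, h3⟩ := h
  have hab : a ≤ b := (h1 0 (Nat.zero_le _)).1.trans (h1 0 (Nat.zero_le _)).2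
  obtain ⟨σ, g1, g2, g3⟩ := exists_section hpq hQ (hp.trans (hab.trans hq))
  have hmem : ∀ i ≤ m, t i ∈ Icc (Q p) (Q q) := fun i hi =>
    ⟨hp.trans (h1 i hi).1, (h1 i hi).2.trans hq⟩
  refine ⟨fun i => σ (t i), e, fun i hi => g2 (hmem i hi), fun i hi =>
    g1 (hmem i hi.le) (hmem (i + 1) hi) (h2 i hi), fun i hi => ?_⟩
  simp only [comp_apply, g3 _ (hmem i hi)]
  exact h3 i hi

/-- Reflection of the source. -/
theorem Alt.reflect (h : Alt y₁ y₂ F a b m) :
    Alt y₁ y₂ (fun x => F (-x)) (-b) (-a) m := by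
  obtain ⟨t, e, h1, h2, h3⟩ := h
  refine ⟨fun i => -t (m - i), e + m, ?_, ?_, ?_⟩
  · intro i hi
    have := h1 (m - i) (by omega)
    exact ⟨neg_le_neg this.2, neg_le_neg this.1⟩
  · intro i hi
    have := h2 (m - (i + 1)) (by omega)
    have e1 : m - (i + 1) + 1 = m - i := by omega
    rw [e1] at this
    simpa using this
  · intro i hi
    have := h3 (m - i) (by omega)
    simp only [neg_neg]
    have hp : Even (i + (e + m)) ↔ Even (m - i + e) := by
      have e1 : i + (e + m) = (m - i + e) + 2 * i := by omega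
      rw [e1, Nat.even_add]
      simp
    rw [hp]
    exact this

theorem Alt.pullback {p q : ℝ} (h : Alt y₁ y₂ F a b m) (hQ : ContinuousOn Q (Icc p q))
    (hcov : Icc a b ⊆ Q '' Icc p q) : Alt y₁ y₂ (F ∘ Q) p q m := by
  have hab : a ≤ b := by
    obtain ⟨t, e, h1, h2, h3⟩ := h
    exact (h1 0 (Nat.zero_le _)).1.trans (h1 0 (Nat.zero_le _)).2
  obtain ⟨u, hu, hua⟩ := hcov ⟨le_rfl, hab⟩
  obtain ⟨v, hv, hvb⟩ := hcov ⟨hab, le_rfl⟩
  rcases le_total u v with huv | hvu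
  · have hsub : Icc u v ⊆ Icc p q := Icc_subset_Icc hu.1 hv.2
    exact (Alt.pullback_aux h (hQ.mono hsub) huv hua.le hvb.ge).mono hu.1 hv.2
  · have hsub : Icc v u ⊆ Icc p q := Icc_subset_Icc hv.1 hu.2
    have hQ' : ContinuousOn (fun x => Q (-x)) (Icc (-u) (-v)) := by
      refine (hQ.mono hsub).comp continuous_neg.continuousOn ?_
      intro x hx
      exact ⟨by linarith [hx.2], by linarith [hx.1]⟩
    have h1 := Alt.pullback_aux (Q := fun x => Q (-x)) h hQ' (neg_le_neg hvu)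
      (by simp [hua]) (by simp [hvb])
    have h2 := h1.reflect
    simp only [neg_neg] at h2
    have h3 : Alt y₁ y₂ (F ∘ Q) v u m := by
      refine h2.congr ?_
      intro x hx
      simp
    exact h3.mono hv.1 hu.2

theorem Alt.bounded (hy : y₁ < y₂) (hF : ContinuousOn F (Icc a b)) :
    ∃ M : ℕ, ∀ m, Alt y₁ y₂ F a b m → m ≤ M := by
  have hu : UniformContinuousOn F (Icc a b) :=
    isCompact_Icc.uniformContinuousOn_of_continuous hF
  rw [Metric.uniformContinuousOn_iff] at hu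
  obtain ⟨ε, hε, hu⟩ := hu (y₂ - y₁) (by linarith)
  obtain ⟨M, hM⟩ := exists_nat_gt ((b - a) / ε)
  refine ⟨M, fun m hm => ?_⟩
  obtain ⟨t, e, h1, h2, h3⟩ := hm
  have hstep : ∀ i < m, t i + ε ≤ t (i + 1) := by
    intro i hi
    by_contra hlt
    push Not at hlt
    have hd : dist (t i) (t (i + 1)) < ε := by
      rw [Real.dist_eq, abs_sub_comm, abs_of_pos (by linarith [h2 i hi])]
      linarith
    have := hu (t i) (h1 i hi.le) (t (i + 1)) (h1 (i + 1) hi) hd
    rw [Real.dist_eq] at this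
    have h4 := h3 i hi.le
    have h5 := h3 (i + 1) hi
    have hp : Even (i + 1 + e) ↔ ¬ Even (i + e) := by
      have : i + 1 + e = (i + e) + 1 := by ring
      rw [this, Nat.even_add_one]
    by_cases hE : Even (i + e)
    · have h6 := h4.1 hE
      have h7 := h5.2 (by rw [hp]; simpa using hE)
      rw [abs_sub_comm, abs_lt] at this
      linarith [this.2]
    · have h6 := h4.2 hE
      have h7 := h5.1 (by rw [hp]; exact hE)
      rw [abs_lt] at this
      linarith [this.2]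
  have hsum : ∀ i ≤ m, t 0 + i * ε ≤ t i := by
    intro i hi
    induction i with
    | zero => simp
    | succ i ih =>
      have := ih (by omega)
      have h8 := hstep i (by omega)
      push_cast
      linarith
  have h9 := hsum m le_rfl
  have h10 := (h1 0 (Nat.zero_le _)).1
  have h11 := (h1 m le_rfl).2
  have h12 : (m : ℝ) * ε ≤ b - a := by linarith
  have h13 : (m : ℝ) ≤ (b - a) / ε := by rwa [le_div_iff₀ hε]
  exact_mod_cast (h13.trans hM.le)

/-- one crossing of `F` gives three crossings of `f ∘ g ∘ F` -/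
theorem Red.grow_one (R : Red f g y₁ y₂ s₁ s₂) : Alt y₁ y₂ (W f g 1 1) y₁ y₂ 3 := by
  refine ⟨fun i => if i = 0 then y₁ else if i = 1 then s₁ else if i = 2 then s₂ else y₂, 1,
    ?_, ?_, ?_⟩
  · intro i hi
    have h1 := R.y1s1
    have h2 := R.s1s2
    have h3 := R.s2y2
    interval_cases i <;> simp only [mem_Icc] <;> norm_num <;>
      first | linarith | (constructor <;> linarith)
  · intro i hi
    have h1 := R.y1s1
    have h2 := R.s1s2
    have h3 := R.s2y2
    interval_cases i <;> simp <;> assumption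
  · intro i hi
    have h1 := R.hy1
    have h2 := R.hs1
    have h3 := R.hs2
    have h4 := R.hy2
    interval_cases i <;> simp [W_apply, Nat.even_iff] <;> assumption

theorem Alt.cover (hF : ContinuousOn F (Icc a b)) (h : Alt y₁ y₂ F a b 1) :
    Icc y₁ y₂ ⊆ F '' Icc a b := by
  obtain ⟨t, e, h1, h2, h3⟩ := h
  have h01 := h2 0 (by omega)
  have m0 := h1 0 (by omega)
  have m1 := h1 1 (by omega)
  have k0 := h3 0 (by omega)
  have k1 := h3 1 (by omega)
  have hsub : Icc (t 0) (t 1) ⊆ Icc a b := Icc_subset_Icc m0.1 m1.2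
  rw [zero_add] at k0
  have hp : Even (1 + e) ↔ ¬ Even e := by rw [add_comm, Nat.even_add_one]
  rw [hp] at k1
  by_cases hE : Even e
  · have := intermediate_value_Icc h01.le (hF.mono hsub)
    exact ((Icc_subset_Icc (k0.1 hE) (k1.2 (by simpa using hE))).trans this).trans
      (image_mono hsub)
  · have := intermediate_value_Icc' h01.le (hF.mono hsub)
    exact ((Icc_subset_Icc (k1.1 hE) (k0.2 hE)).trans this).trans (image_mono hsub)

theorem Red.grow_step (R : Red f g y₁ y₂ s₁ s₂) (hm : 1 ≤ m) (hF : ContinuousOn F (Icc a b))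
    (h : Alt y₁ y₂ F a b m) : Alt y₁ y₂ (W f g 1 1 ∘ F) a b (3 * m) := by
  -- induction on m, splitting off the last crossing
  induction m generalizing b with
  | zero => omega
  | succ m ih =>
    obtain ⟨t, e, h1, h2, h3⟩ := h
    have hlast : Alt y₁ y₂ F (t m) b 1 := by
      refine ⟨fun i => t (m + i), m + e, ?_, ?_, ?_⟩
      · intro i hi
        refine ⟨mono_of_step h2 (by omega) (by omega), (h1 (m + i) (by omega)).2⟩
      · intro i hi
        exact h2 (m + i) (by omega)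
      · intro i hi
        have := h3 (m + i) (by omega)
        have e1 : i + (m + e) = m + i + e := by ring
        rw [e1]
        exact this
    have htm := h1 m (by omega)
    have hsub : Icc (t m) b ⊆ Icc a b := Icc_subset_Icc htm.1 le_rfl
    have hL : Alt y₁ y₂ (W f g 1 1 ∘ F) (t m) b 3 :=
      R.grow_one.pullback (hF.mono hsub) (hlast.cover (hF.mono hsub))
    rcases Nat.eq_zero_or_pos m with h0 | hpos
    · subst h0
      exact hL.mono htm.1 le_rfl
    · have hfirst : Alt y₁ y₂ F a (t m) m := by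
        refine ⟨t, e, fun i hi => ⟨(h1 i (by omega)).1, mono_of_step h2 hi (by omega)⟩,
          fun i hi => h2 i (by omega), fun i hi => h3 i (by omega)⟩
      have := ih hpos (hF.mono (Icc_subset_Icc le_rfl htm.2)) hfirst
      have h5 := this.concat R.y12 hL
      have e1 : 3 * m + 3 = 3 * (m + 1) := by ring
      rwa [e1] at h5

/-- Each application of `f ∘ g` multiplies the number of alternations by three. -/
theorem Red.grow (R : Red f g y₁ y₂ s₁ s₂) (hF : ContinuousOn F (Icc a b)) (hm : 1 ≤ m)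
    (h : Alt y₁ y₂ F a b m) (n : ℕ) : Alt y₁ y₂ (W f g n n ∘ F) a b (3 ^ n * m) := by
  induction n with
  | zero =>
    refine (h.congr (G := W f g 0 0 ∘ F) ?_).le (by simp)
    intro x hx
    simp [W_apply]
  | succ n ih =>
    have h1 := R.grow_step (Nat.le_trans hm (Nat.le_mul_of_pos_left m (by positivity)))
      ((R.contW n n).comp_continuousOn hF) ih
    refine (h1.congr ?_).le (le_of_eq (by ring))
    intro x hx
    simp only [comp_apply]
    rw [W_W R.comm, add_comm 1 n]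

theorem inverse_continuousOn {γ κ : ℝ → ℝ} {s t : Set ℝ} (hs : IsCompact s)
    (hγ : ContinuousOn γ s) (h2 : ∀ v ∈ t, κ v ∈ s ∧ γ (κ v) = v)
    (h1 : ∀ u ∈ s, κ (γ u) = u) : ContinuousOn κ t := by
  rw [continuousOn_iff_isClosed]
  intro C hC
  refine ⟨γ '' (C ∩ s), ?_, ?_⟩
  · exact ((hs.inter_left hC).image_of_continuousOn (hγ.mono inter_subset_right)).isClosed
  · ext v
    constructor
    · rintro ⟨hv, hvt⟩
      exact ⟨⟨κ v, ⟨hv, (h2 v hvt).1⟩, (h2 v hvt).2⟩, hvt⟩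
    · rintro ⟨⟨u, ⟨huC, hus⟩, rfl⟩, hvt⟩
      refine ⟨?_, hvt⟩
      rw [mem_preimage, h1 u hus]
      exact huC

/-- Inverse of a continuous strictly increasing function on an interval. -/
theorem IncOn.inverse {γ : ℝ → ℝ} (h : IncOn γ a b) (hab : a ≤ b) :
    ∃ κ : ℝ → ℝ, IncOn κ (γ a) (γ b) ∧ (∀ u ∈ Icc a b, κ (γ u) = u) ∧
      ∀ v ∈ Icc (γ a) (γ b), κ v ∈ Icc a b ∧ γ (κ v) = v := by
  have hle : γ a ≤ γ b := h.1.monotoneOn ⟨le_rfl, hab⟩ ⟨hab, le_rfl⟩ hab
  obtain ⟨κ, g1, g2, g3⟩ := exists_section hab h.2 hle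
  have hmem : ∀ u ∈ Icc a b, γ u ∈ Icc (γ a) (γ b) := fun u hu =>
    ⟨h.1.monotoneOn ⟨le_rfl, hab⟩ hu hu.1, h.1.monotoneOn hu ⟨hab, le_rfl⟩ hu.2⟩
  have hinv : ∀ u ∈ Icc a b, κ (γ u) = u := fun u hu =>
    h.1.injOn (g2 (hmem u hu)) hu (g3 _ (hmem u hu))
  exact ⟨κ, ⟨g1, inverse_continuousOn isCompact_Icc h.2 (fun v hv => ⟨g2 hv, g3 v hv⟩) hinv⟩,
    hinv, fun v hv => ⟨g2 hv, g3 v hv⟩⟩

/-- Inverse of a continuous strictly decreasing function on an interval. -/
theorem DecOn.inverse {γ : ℝ → ℝ} (h : DecOn γ a b) (hab : a ≤ b) :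
    ∃ κ : ℝ → ℝ, DecOn κ (γ b) (γ a) ∧ (∀ u ∈ Icc a b, κ (γ u) = u) ∧
      ∀ v ∈ Icc (γ b) (γ a), κ v ∈ Icc a b ∧ γ (κ v) = v := by
  have h' : IncOn (fun x => γ (-x)) (-b) (-a) := by
    constructor
    · intro x hx y hy hxy
      exact h.1 ⟨by linarith [hy.2], by linarith [hy.1]⟩ ⟨by linarith [hx.2], by linarith [hx.1]⟩
        (by linarith)
    · refine h.2.comp continuous_neg.continuousOn ?_
      intro x hx
      exact ⟨by linarith [hx.2], by linarith [hx.1]⟩
  obtain ⟨κ, g1, g2, g3⟩ := h'.inverse (by linarith)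
  simp only [neg_neg] at g1 g3
  refine ⟨fun v => -κ v, ⟨?_, g1.2.neg⟩, ?_, ?_⟩
  · intro x hx y hy hxy
    exact neg_lt_neg (g1.1 hx hy hxy)
  · intro u hu
    have := g2 (-u) ⟨by linarith [hu.2], by linarith [hu.1]⟩
    simp only [neg_neg] at this
    simp only [this, neg_neg]
  · intro v hv
    have := g3 v hv
    refine ⟨⟨by linarith [this.1.2], by linarith [this.1.1]⟩, this.2⟩

end Basic

end Pool.Agent.CFP
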