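import Pool.Agent.Lib_MP_eedf80_an.Enum

/-!
PART E3b: matched pairs shift the indices of starting points.
-/

set_option autoImplicit false

namespace Pool.Agent.CFP

open Set Function

variable {y₁ y₂ : ℝ} {Q : ℝ → ℝ}

/-- values of an increasing continuous map on a subinterval -/
theorem IncOn.surj {γ : ℝ → ℝ} {α β : ℝ} (h : IncOn γ α β) {u v : ℝ} (hu : α ≤ u) (huv : u ≤ v)
    (hv : v ≤ β) {x : ℝ} (hx : x ∈ Icc (γ u) (γ v)) : ∃ t ∈ Icc u v, γ t = x := by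
  have := intermediate_value_Icc huv (h.2.mono (Icc_subset_Icc hu hv))
  exact this hx

/-- transport of a start of `Q` from `γ₁` to `γ₂` -/
theorem transport_start {α β : ℝ} {γ₁ γ₂ : ℝ → ℝ} (h₁ : IncOn γ₁ α β) (h₂ : IncOn γ₂ α β)
    (hQQ : ∀ u ∈ Icc α β, Q (γ₁ u) = Q (γ₂ u)) {τ c : ℝ} (hα : α ≤ τ) (hτc : τ < c)
    (hcβ : c ≤ β) (hc : Q (γ₁ c) ≤ y₁) (hs : γ₁ τ ∈ Starts y₁ y₂ Q) :
    γ₂ τ ∈ Starts y₁ y₂ Q := by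
  obtain ⟨E, hX⟩ := hs
  have hτ : τ ∈ Icc α β := ⟨hα, hτc.le.trans hcβ⟩
  have hcI : c ∈ Icc α β := ⟨hα.trans hτc.le, hcβ⟩
  have h1 : γ₁ τ < γ₁ c := h₁.1 hτ hcI hτc
  have hE : E ≤ γ₁ c := hX.sep hc h1
  obtain ⟨ε, hε, hεE⟩ := h₁.surj hα hτc.le hcβ ⟨hX.1.le, hE⟩
  have hεI : ε ∈ Icc α β := ⟨hα.trans hε.1, hε.2.trans hcβ⟩
  have hτε : τ < ε := by
    rcases lt_or_eq_of_le hε.1 with h | h
    · exact h
    · exfalso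
      have h3 := hX.1
      rw [← hεE, ← h] at h3
      exact lt_irrefl _ h3
  refine ⟨γ₂ ε, h₂.1 hτ hεI hτε, ?_, ?_, ?_⟩
  · rw [← hQQ τ hτ]
    exact hX.2.1
  · rw [← hQQ ε hεI, hεE]
    exact hX.2.2.1
  · intro s hs
    obtain ⟨t, ht, rfl⟩ := h₂.surj hα hτε.le hεI.2 ⟨hs.1.le, hs.2.le⟩
    have htI : t ∈ Icc α β := ⟨hα.trans ht.1, ht.2.trans hεI.2⟩
    have ht1 : τ < t := (h₂.1.lt_iff_lt hτ htI).1 hs.1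
    have ht2 : t < ε := (h₂.1.lt_iff_lt htI hεI).1 hs.2
    rw [← hQQ t htI]
    apply hX.2.2.2
    refine ⟨h₁.1 hτ htI ht1, ?_⟩
    rw [← hεE]
    exact h₁.1 htI hεI ht2

theorem Enum.pair_shift_le {d : ℕ → ℝ} (hd : Enum y₁ y₂ Q d)
    {α β : ℝ} {γ₁ γ₂ : ℝ → ℝ} (h₁ : IncOn γ₁ α β) (h₂ : IncOn γ₂ α β)
    (hp₂ : ∀ u ∈ Icc α β, 0 < γ₂ u)
    (hQQ : ∀ u ∈ Icc α β, Q (γ₁ u) = Q (γ₂ u)) {u v c : ℝ} (hu : α ≤ u) (huv : u ≤ v)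
    (hvc : v ≤ c) (hcβ : c ≤ β) (hc : Q (γ₁ c) ≤ y₁) :
    hd.idx (γ₁ v) - hd.idx (γ₁ u) ≤ hd.idx (γ₂ v) - hd.idx (γ₂ u) := by
  have hvβ : v ≤ β := hvc.trans hcβ
  have key : ∀ i ∈ Finset.Ico (hd.idx (γ₁ u)) (hd.idx (γ₁ v)), ∃ τ, u ≤ τ ∧ τ < v ∧
      γ₁ τ = d i ∧ d (hd.idx (γ₂ τ)) = γ₂ τ := by
    intro i hi
    rw [hd.mem_Ico_iff] at hi
    obtain ⟨τ, hτ, hτi⟩ := h₁.surj hu huv hvβ ⟨hi.1, hi.2.le⟩
    have hτI : τ ∈ Icc α β := ⟨hu.trans hτ.1, hτ.2.trans hvβ⟩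
    have hvI : v ∈ Icc α β := ⟨hu.trans huv, hvβ⟩
    have hτv : τ < v := by
      apply (h₁.1.lt_iff_lt hτI hvI).1
      rw [hτi]
      exact hi.2
    refine ⟨τ, hτ.1, hτv, hτi, ?_⟩
    apply hd.d_idx_of_start (hp₂ τ hτI)
    apply transport_start h₁ h₂ hQQ hτI.1 (hτv.trans_le hvc) hcβ hc
    rw [hτi]
    exact hd.d_start i
  choose! τ h1 h2 h3 h4 using key
  have hcard : (Finset.Ico (hd.idx (γ₁ u)) (hd.idx (γ₁ v))).card ≤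
      (Finset.Ico (hd.idx (γ₂ u)) (hd.idx (γ₂ v))).card := by
    apply Finset.card_le_card_of_injOn (fun i => hd.idx (γ₂ (τ i)))
    · intro i hi
      have hi' : i ∈ Finset.Ico (hd.idx (γ₁ u)) (hd.idx (γ₁ v)) := hi
      show hd.idx (γ₂ (τ i)) ∈ Finset.Ico (hd.idx (γ₂ u)) (hd.idx (γ₂ v))
      rw [hd.mem_Ico_iff, h4 i hi']
      have hτI : τ i ∈ Icc α β := ⟨hu.trans (h1 i hi'), (h2 i hi').le.trans hvβ⟩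
      constructor
      · exact h₂.1.monotoneOn ⟨hu, huv.trans hvβ⟩ hτI (h1 i hi')
      · exact h₂.1 hτI ⟨hu.trans huv, hvβ⟩ (h2 i hi')
    · intro i hi j hj hij
      have hi' : i ∈ Finset.Ico (hd.idx (γ₁ u)) (hd.idx (γ₁ v)) := hi
      have hj' : j ∈ Finset.Ico (hd.idx (γ₁ u)) (hd.idx (γ₁ v)) := hj
      dsimp only at hij
      have e1 : γ₂ (τ i) = γ₂ (τ j) := by rw [← h4 i hi', ← h4 j hj', hij]
      have hτi : τ i ∈ Icc α β := ⟨hu.trans (h1 i hi'), (h2 i hi').le.trans hvβ⟩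
      have hτj : τ j ∈ Icc α β := ⟨hu.trans (h1 j hj'), (h2 j hj').le.trans hvβ⟩
      have e2 : τ i = τ j := h₂.1.injOn hτi hτj e1
      have e3 : d i = d j := by rw [← h3 i hi', ← h3 j hj', e2]
      exact hd.mono.injective e3
  simpa using hcard

/-- PART E3'. -/
theorem Enum.pair_shift (hy : y₁ < y₂) (hQ : Continuous Q) {d : ℕ → ℝ} (hd : Enum y₁ y₂ Q d)
    {α β : ℝ} {γ₁ γ₂ : ℝ → ℝ} (h₁ : IncOn γ₁ α β) (h₂ : IncOn γ₂ α β)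
    (hp₁ : ∀ u ∈ Icc α β, 0 < γ₁ u) (hp₂ : ∀ u ∈ Icc α β, 0 < γ₂ u)
    (hQQ : ∀ u ∈ Icc α β, Q (γ₁ u) = Q (γ₂ u)) {u v c e : ℝ} (hu : α ≤ u) (huv : u ≤ v)
    (hvc : v ≤ c) (hce : c ≤ e) (he : e ≤ β) (hc : Q (γ₁ c) ≤ y₁) (hee : y₂ ≤ Q (γ₁ e)) :
    hd.idx (γ₁ v) + hd.idx (γ₂ u) = hd.idx (γ₂ v) + hd.idx (γ₁ u) := by
  have _ := hy
  have _ := hQ
  have _ := hee
  have hcβ : c ≤ β := hce.trans he
  have hcI : c ∈ Icc α β := ⟨hu.trans (huv.trans hvc), hcβ⟩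
  have huI : u ∈ Icc α β := ⟨hu, huv.trans (hvc.trans hcβ)⟩
  have hvI : v ∈ Icc α β := ⟨hu.trans huv, hvc.trans hcβ⟩
  have a1 := hd.pair_shift_le h₁ h₂ hp₂ hQQ hu huv hvc hcβ hc
  have a2 := hd.pair_shift_le h₂ h₁ hp₁ (fun t ht => (hQQ t ht).symm) hu huv hvc hcβ
    (by rw [← hQQ c hcI]; exact hc)
  have a3 : hd.idx (γ₁ u) ≤ hd.idx (γ₁ v) := hd.idx_mono (h₁.1.monotoneOn huI hvI huv)
  have a4 : hd.idx (γ₂ u) ≤ hd.idx (γ₂ v) := hd.idx_mono (h₂.1.monotoneOn huI hvI huv)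
  omega

/-- the image of an increasing continuous map -/
theorem IncOn.image_Icc {γ : ℝ → ℝ} {α β : ℝ} (h : IncOn γ α β) {u v : ℝ} (hu : α ≤ u)
    (huv : u ≤ v) (hv : v ≤ β) : γ '' Icc u v = Icc (γ u) (γ v) := by
  apply subset_antisymm
  · rintro _ ⟨t, ht, rfl⟩
    have htI : t ∈ Icc α β := ⟨hu.trans ht.1, ht.2.trans hv⟩
    exact ⟨h.1.monotoneOn ⟨hu, huv.trans hv⟩ htI ht.1, h.1.monotoneOn htI ⟨hu.trans huv, hv⟩ ht.2⟩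
  · intro x hx
    exact h.surj hu huv hv hx

theorem same_of_pair {α β : ℝ} {γ₁ γ₂ : ℝ → ℝ} (h₁ : IncOn γ₁ α β) (h₂ : IncOn γ₂ α β)
    (hQQ : ∀ u ∈ Icc α β, Q (γ₁ u) = Q (γ₂ u)) {τ τ' : ℝ} (hτ : α ≤ τ) (hττ : τ ≤ τ')
    (hτ' : τ' ≤ β) : Same Q (γ₁ τ) (γ₁ τ') (γ₂ τ) (γ₂ τ') := by
  have m1 : StrictMonoOn γ₁ (Icc τ τ') := h₁.1.mono (Icc_subset_Icc hτ hτ')
  have m2 : StrictMonoOn γ₂ (Icc τ τ') := h₂.1.mono (Icc_subset_Icc hτ hτ')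
  let A : Icc τ τ' ≃o Icc (γ₁ τ) (γ₁ τ') :=
    (m1.orderIso).trans (OrderIso.setCongr _ _ (h₁.image_Icc hτ hττ hτ'))
  let B : Icc τ τ' ≃o Icc (γ₂ τ) (γ₂ τ') :=
    (m2.orderIso).trans (OrderIso.setCongr _ _ (h₂.image_Icc hτ hττ hτ'))
  have hA : ∀ t : Icc τ τ', ((A t : Icc (γ₁ τ) (γ₁ τ')) : ℝ) = γ₁ t := fun _ => rfl
  have hB : ∀ t : Icc τ τ', ((B t : Icc (γ₂ τ) (γ₂ τ')) : ℝ) = γ₂ t := fun _ => rfl
  refine ⟨A.symm.trans B, ?_⟩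
  intro t
  obtain ⟨s, rfl⟩ := A.surjective t
  rw [OrderIso.trans_apply, OrderIso.symm_apply_apply, hA, hB]
  exact (hQQ s ⟨hτ.trans s.2.1, s.2.2.trans hτ'⟩).symm

/-- A matched pair carries letters to letters. -/
theorem Enum.pair_same (hy : y₁ < y₂) (hQ : Continuous Q) {d : ℕ → ℝ} (hd : Enum y₁ y₂ Q d)
    {α β : ℝ} {γ₁ γ₂ : ℝ → ℝ} (h₁ : IncOn γ₁ α β) (h₂ : IncOn γ₂ α β)
    (hp₁ : ∀ u ∈ Icc α β, 0 < γ₁ u) (hp₂ : ∀ u ∈ Icc α β, 0 < γ₂ u)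
    (hQQ : ∀ u ∈ Icc α β, Q (γ₁ u) = Q (γ₂ u)) {v c e : ℝ} (hv : α ≤ v)
    (hvc : v ≤ c) (hce : c ≤ e) (he : e ≤ β) (hc : Q (γ₁ c) ≤ y₁) (hee : y₂ ≤ Q (γ₁ e))
    {i r : ℕ} (hr : hd.idx (γ₂ α) = hd.idx (γ₁ α) + r) (hi : hd.idx (γ₁ α) ≤ i)
    (hi' : i + 1 < hd.idx (γ₁ v)) :
    Same Q (d i) (d (i + 1)) (d (i + r)) (d (i + r + 1)) := by
  have hcβ : c ≤ β := hce.trans he
  have hvβ : v ≤ β := hvc.trans hcβ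
  -- letters of the first copy come from the window
  have key : ∀ k, hd.idx (γ₁ α) ≤ k → k < hd.idx (γ₁ v) → ∃ τ, α ≤ τ ∧ τ < v ∧ γ₁ τ = d k ∧
      γ₂ τ = d (k + r) := by
    intro k hk hk'
    have hk1 := hd.idx_le_iff.1 hk
    have hk2 := hd.lt_idx_iff.1 hk'
    obtain ⟨τ, hτ, hτk⟩ := h₁.surj le_rfl hv hvβ ⟨hk1, hk2.le⟩
    have hτI : τ ∈ Icc α β := ⟨hτ.1, hτ.2.trans hvβ⟩
    have hvI : v ∈ Icc α β := ⟨hv, hvβ⟩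
    have hτv : τ < v := by
      apply (h₁.1.lt_iff_lt hτI hvI).1
      rw [hτk]
      exact hk2
    refine ⟨τ, hτ.1, hτv, hτk, ?_⟩
    have hs : d (hd.idx (γ₂ τ)) = γ₂ τ := by
      apply hd.d_idx_of_start (hp₂ τ hτI)
      apply transport_start h₁ h₂ hQQ hτI.1 (hτv.trans_le hvc) hcβ hc
      rw [hτk]
      exact hd.d_start k
    have hsh := hd.pair_shift hy hQ h₁ h₂ hp₁ hp₂ hQQ le_rfl hτ.1 (hτv.le.trans hvc) hce he hc hee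
    rw [hτk, hd.idx_d] at hsh
    have : hd.idx (γ₂ τ) = k + r := by omega
    rw [← hs, this]
  obtain ⟨τ, a1, a2, a3, a4⟩ := key i hi (by omega)
  obtain ⟨τ', b1, b2, b3, b4⟩ := key (i + 1) (by omega) hi'
  have hττ : τ ≤ τ' := by
    have hτI : τ ∈ Icc α β := ⟨a1, a2.le.trans hvβ⟩
    have hτI' : τ' ∈ Icc α β := ⟨b1, b2.le.trans hvβ⟩
    apply (h₁.1.le_iff_le hτI hτI').1
    rw [a3, b3]
    exact hd.mono.monotone (by omega)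
  have := same_of_pair h₁ h₂ hQQ a1 hττ (b2.le.trans hvβ)
  rw [a3, b3, a4, b4] at this
  have e1 : i + 1 + r = i + r + 1 := by ring
  rwa [e1] at this

end Pool.Agent.CFP
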