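import Pool.Agent.Lib_MP_eedf80_an.Agree
import Pool.Agent.Lib_MP_eedf80_an.Basic
import Pool.Agent.Lib_MP_eedf80_an.Enum2
import Pool.Agent.Lib_MP_eedf80_an.Chain

/-!
PART E5: two different matched copies of a window.
-/

set_option autoImplicit false

namespace Pool.Agent.CFP

open Set Function

section E5

variable {y₁ y₂ : ℝ} {P Q : ℝ → ℝ} {Φ Ψ : ℝ ≃o ℝ}

theorem e5_act_mul (hc : Φ * Ψ = Ψ * Φ) (a b a' b' : ℤ) :
    act Φ Ψ a b * act Φ Ψ a' b' = act Φ Ψ (a + a') (b + b') := by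
  have hc' : Commute Φ Ψ := hc
  unfold act
  rw [zpow_add, zpow_add, mul_assoc, mul_assoc]
  congr 1
  rw [← mul_assoc, ← mul_assoc]
  congr 1
  exact ((hc'.zpow_zpow a' b).symm).eq

theorem e5_act_act (hc : Φ * Ψ = Ψ * Φ) (a b a' b' : ℤ) (u : ℝ) :
    act Φ Ψ a b (act Φ Ψ a' b' u) = act Φ Ψ (a + a') (b + b') u := by
  rw [← e5_act_mul hc]; rfl

theorem e5_act_zero (u : ℝ) : act Φ Ψ 0 0 u = u := by
  simp [act]

theorem e5_zpow_zero (Φ : ℝ ≃o ℝ) (h : Φ 0 = 0) (a : ℤ) : (Φ ^ a) 0 = 0 := by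
  have hn : ∀ n : ℕ, (Φ ^ n) 0 = 0 := by
    intro n
    induction n with
    | zero => rfl
    | succ n ih => rw [pow_succ]; change (Φ ^ n) (Φ 0) = 0; rw [h, ih]
  obtain ⟨n, rfl | rfl⟩ := a.eq_nat_or_neg
  · rw [zpow_natCast]; exact hn n
  · rw [zpow_neg, zpow_natCast]
    have : (Φ ^ n)⁻¹ ((Φ ^ n) 0) = 0 := by
      change ((Φ ^ n)⁻¹ * (Φ ^ n)) 0 = 0
      rw [inv_mul_cancel]; rfl
    rwa [hn n] at this

theorem Core.e5_act0 (C : Core y₁ y₂ P Φ Ψ) (a b : ℤ) : act Φ Ψ a b 0 = 0 := by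
  unfold act
  change (Φ ^ a) ((Ψ ^ b) 0) = 0
  rw [e5_zpow_zero Ψ (C.Ψ0 0 le_rfl), e5_zpow_zero Φ (C.Φ0 0 le_rfl)]

theorem Core.e5_act_pos (C : Core y₁ y₂ P Φ Ψ) (a b : ℤ) {u : ℝ} (hu : 0 < u) :
    0 < act Φ Ψ a b u := by
  have := (act Φ Ψ a b).strictMono hu
  rwa [C.e5_act0] at this

theorem Core.e5_inv (C : Core y₁ y₂ P Φ Ψ) (a b : ℤ) (u : ℝ) :
    act Φ Ψ a b (act Φ Ψ (-a) (-b) u) = u := by
  rw [e5_act_act C.comm]; simp [e5_act_zero]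

theorem Core.e5_inv' (C : Core y₁ y₂ P Φ Ψ) (a b : ℤ) (u : ℝ) :
    act Φ Ψ (-a) (-b) (act Φ Ψ a b u) = u := by
  rw [e5_act_act C.comm]; simp [e5_act_zero]

/-- Nonnegative words preserve the matching relation. -/
theorem Core.e5_match (C : Core y₁ y₂ P Φ Ψ) {a b : ℤ} (ha : 0 ≤ a) (hb : 0 ≤ b) {u v : ℝ}
    (h : P u = P v) : P (act Φ Ψ a b u) = P (act Φ Ψ a b v) := by
  obtain ⟨n, rfl⟩ := Int.eq_ofNat_of_zero_le ha
  obtain ⟨k, rfl⟩ := Int.eq_ofNat_of_zero_le hb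
  unfold act
  simp only [zpow_natCast]
  have h1 : ∀ k : ℕ, ∀ u v : ℝ, P u = P v → P ((Ψ ^ k) u) = P ((Ψ ^ k) v) := by
    intro k
    induction k with
    | zero => intro u v h; exact h
    | succ k ih =>
      intro u v h
      rw [pow_succ]
      exact ih _ _ (C.PΨ _ _ h)
  have h2 : ∀ k : ℕ, ∀ u v : ℝ, P u = P v → P ((Φ ^ k) u) = P ((Φ ^ k) v) := by
    intro k
    induction k with
    | zero => intro u v h; exact h
    | succ k ih =>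
      intro u v h
      rw [pow_succ]
      exact ih _ _ (C.PΦ _ _ h)
  exact h2 n _ _ (h1 k _ _ h)

theorem e5_alt_two {F : ℝ → ℝ} {a b : ℝ} (h : Alt y₁ y₂ F a b 2) :
    ∃ c e, a ≤ c ∧ c ≤ e ∧ e ≤ b ∧ F c ≤ y₁ ∧ y₂ ≤ F e := by
  obtain ⟨t, e, h1, h2, h3⟩ := h
  by_cases he : Even e
  · refine ⟨t 0, t 1, (h1 0 (by norm_num)).1, (h2 0 (by norm_num)).le,
      (h1 1 (by norm_num)).2, (h3 0 (by norm_num)).1 (by simpa using he),
      (h3 1 (by norm_num)).2 ?_⟩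
    rw [Nat.not_even_iff_odd, add_comm]
    exact he.add_one
  · refine ⟨t 1, t 2, (h1 1 (by norm_num)).1, (h2 1 (by norm_num)).le,
      (h1 2 (by norm_num)).2, (h3 1 (by norm_num)).1 ?_,
      (h3 2 (by norm_num)).2 ?_⟩
    · rw [Nat.not_even_iff_odd] at he
      rw [add_comm]
      exact he.add_one
    · intro h
      apply he
      have : Even (2 + e) ↔ Even e := by
        rw [Nat.even_add]; simp
      exact this.1 h

/-- Step (1): some small word does not commute with the matching. -/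
theorem Core.e5_step1 (C : Core y₁ y₂ P Φ Ψ) {γ : ℝ → ℝ} {b₁ b₂ : ℝ} (hb : 0 < b₁)
    (hbb : b₁ < b₂) (hγ : IncOn γ b₁ b₂) (hγ0 : 0 < γ b₁) (hγb : γ b₂ < b₁)
    (hP : ∀ u ∈ Icc b₁ b₂, P (γ u) = P u) (a₀ b₀ : ℤ)
    (h₀ : ∀ u > 0, u < act Φ Ψ a₀ b₀ u) (h₁ : act Φ Ψ a₀ b₀ b₁ < b₂) :
    ∃ a b : ℤ, (∀ u > 0, u < act Φ Ψ a b u ∧ act Φ Ψ a b u ≤ act Φ Ψ a₀ b₀ u) ∧
      act Φ Ψ a b (γ (act Φ Ψ (-a) (-b) (act Φ Ψ a₀ b₀ b₁))) ≠ γ (act Φ Ψ a₀ b₀ b₁) := by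
  by_contra hcon
  push Not at hcon
  set us := act Φ Ψ a₀ b₀ b₁ with hus
  have hus1 : b₁ < us := h₀ b₁ hb
  have hγpos : ∀ u ∈ Icc b₁ b₂, 0 < γ u := fun u hu =>
    lt_of_lt_of_le hγ0 (hγ.1.monotoneOn (left_mem_Icc.2 hbb.le) hu hu.1)
  have hγus : γ us < us := lt_of_le_of_lt
    (hγ.1.monotoneOn ⟨hus1.le, h₁.le⟩ (right_mem_Icc.2 hbb.le) h₁.le) (hγb.trans hus1)
  have husm : us ∈ Icc b₁ b₂ := ⟨hus1.le, h₁.le⟩
  obtain ⟨A, B, hAB, hstep, halt, htop⟩ := C.exists_chain a₀ b₀ h₀ 0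
  -- enumeration
  obtain ⟨d, hd⟩ : ∃ d : ℕ → ℝ, Enum y₁ y₂ P d := by
    apply exists_enum C.y C.contP
    intro M
    obtain ⟨l₁, hl₁⟩ := halt us b₂ 2 (hb.trans hus1) h₁
    obtain ⟨l₂, hl₂⟩ := htop (M + 1) us (hb.trans hus1)
    have h1 := hl₁ (max l₁ l₂) (le_max_left _ _)
    have h2 := hl₂ (max l₁ l₂) (le_max_right _ _)
    obtain ⟨c, e, hc, hce, he, hPc, hPe⟩ := e5_alt_two h1
    refine ⟨c, e, by linarith, lt_of_le_of_ne hce ?_, hPc, hPe⟩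
    rintro rfl
    linarith [C.y]
  obtain ⟨l₀, hl₀⟩ := halt us b₂ 2 (hb.trans hus1) h₁
  -- the shift is constant
  have hconst : ∀ l ≥ l₀,
      (hd.idx (act Φ Ψ (A (l + 1)) (B (l + 1)) us) : ℤ) -
        hd.idx (act Φ Ψ (A (l + 1)) (B (l + 1)) (γ us)) =
      (hd.idx (act Φ Ψ (A l) (B l) us) : ℤ) - hd.idx (act Φ Ψ (A l) (B l) (γ us)) := by
    intro l hl
    set a := A (l + 1) - A l with ha
    set b := B (l + 1) - B l with hb'
    have hcl : ∀ u, act Φ Ψ (A l) (B l) (act Φ Ψ a b u) = act Φ Ψ (A (l + 1)) (B (l + 1)) u := by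
      intro u
      rw [e5_act_act C.comm, ha, hb']
      congr 2 <;> ring
    have heps : ∀ u > 0, u ≤ act Φ Ψ a b u ∧ act Φ Ψ a b u ≤ act Φ Ψ a₀ b₀ u := by
      intro u hu
      obtain ⟨h1, h2⟩ := hstep l u hu
      rw [← hcl] at h1 h2
      exact ⟨(act Φ Ψ (A l) (B l)).le_iff_le.1 h1, (act Φ Ψ (A l) (B l)).le_iff_le.1 h2⟩
    by_cases hab : a = 0 ∧ b = 0
    · have hAl : A (l + 1) = A l := by omega
      have hBl : B (l + 1) = B l := by omega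
      rw [hAl, hBl]
    have heps' : ∀ u > 0, u < act Φ Ψ a b u ∧ act Φ Ψ a b u ≤ act Φ Ψ a₀ b₀ u := by
      intro u hu
      obtain ⟨h1, h2⟩ := heps u hu
      refine ⟨lt_of_le_of_ne h1 ?_, h2⟩
      intro h
      exact hab (C.free a b ⟨u, hu, h.symm⟩)
    have hkey := hcon a b heps'
    set v := act Φ Ψ (-a) (-b) us with hv
    have hvus : act Φ Ψ a b v = us := C.e5_inv a b us
    have hv1 : b₁ ≤ v := by
      have : act Φ Ψ a b b₁ ≤ act Φ Ψ a b v := by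
        rw [hvus]; exact (heps' b₁ hb).2
      exact (act Φ Ψ a b).le_iff_le.1 this
    have hv2 : v ≤ us := by
      have := (heps' v (lt_of_lt_of_le hb hv1)).1
      rw [hvus] at this
      exact this.le
    obtain ⟨c', e', hc', hce', he', hPc, hPe⟩ := e5_alt_two (hl₀ (l + 1) (by omega))
    -- pull back
    set K := act Φ Ψ (A (l + 1)) (B (l + 1)) with hK
    obtain ⟨c, rfl⟩ := K.surjective c'
    obtain ⟨e, rfl⟩ := K.surjective e'
    rw [K.le_iff_le] at hc' hce' he'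
    have hKc : Continuous K := K.continuous
    have hI1 : IncOn (fun u => K u) b₁ b₂ := ⟨K.strictMono.strictMonoOn _, hKc.continuousOn⟩
    have hI2 : IncOn (fun u => K (γ u)) b₁ b₂ :=
      ⟨fun x hx y hy hxy => K.strictMono (hγ.1 hx hy hxy), hKc.comp_continuousOn hγ.2⟩
    have hps := hd.pair_shift C.y C.contP (α := b₁) (β := b₂) hI1 hI2
      (fun u hu => C.e5_act_pos _ _ (lt_of_lt_of_le hb hu.1))
      (fun u hu => C.e5_act_pos _ _ (hγpos u hu))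
      (fun u hu => (C.e5_match (hAB (l + 1)).1 (hAB (l + 1)).2 (hP u hu)).symm)
      (u := v) (v := us) (c := c) (e := e) hv1 hv2 hc' hce' he' hPc hPe
    have hK1 : K v = act Φ Ψ (A l) (B l) us := by
      rw [hK, ← hcl, hvus]
    have hK2 : K (γ v) = act Φ Ψ (A l) (B l) (γ us) := by
      rw [hK, ← hcl, hkey]
    rw [hK1, hK2] at hps
    omega
  have hall : ∀ n : ℕ,
      (hd.idx (act Φ Ψ (A (l₀ + n)) (B (l₀ + n)) us) : ℤ) -
        hd.idx (act Φ Ψ (A (l₀ + n)) (B (l₀ + n)) (γ us)) =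
      (hd.idx (act Φ Ψ (A l₀) (B l₀) us) : ℤ) - hd.idx (act Φ Ψ (A l₀) (B l₀) (γ us)) := by
    intro n
    induction n with
    | zero => rfl
    | succ n ih => rw [← ih]; exact hconst (l₀ + n) (by omega)
  set r : ℕ := hd.idx (act Φ Ψ (A l₀) (B l₀) us) with hr
  obtain ⟨l₁, hl₁⟩ := halt (γ us) us (2 * (r + 1) + 1) (hγpos us husm) hγus
  have h1 := hl₁ (l₀ + l₁) (by omega)
  have h2 := hd.idx_alt C.y C.contP (C.e5_act_pos _ _ (hγpos us husm)) h1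
  have h3 := hall l₁
  omega

/-- PART E5: two different matched copies of a window. -/
theorem Core.exists_pair (C : Core y₁ y₂ P Φ Ψ) {γ : ℝ → ℝ} {b₁ b₂ : ℝ} (hb : 0 < b₁)
    (hbb : b₁ < b₂) (hγ : IncOn γ b₁ b₂) (hγ0 : 0 < γ b₁) (hγb : γ b₂ < b₁)
    (hP : ∀ u ∈ Icc b₁ b₂, P (γ u) = P u) (m : ℕ) :
    ∃ (γA γB : ℝ → ℝ) (b b' : ℝ) (z : ℕ → ℝ) (n₁ : ℤ), 0 < b ∧ b < b' ∧ IncOn γA b b' ∧
      IncOn γB b b' ∧ (∀ t ∈ Icc b b', 0 < γA t ∧ γA t < γB t) ∧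
      (∀ i ≤ m, b ≤ z i ∧ z i < b') ∧ (∀ i < m, z i < z (i + 1) ∧ γA (z (i + 1)) = γB (z i)) ∧
      ∀ A B : ℤ, n₁ ≤ A → n₁ ≤ B → ∀ t ∈ Icc b b',
        P (act Φ Ψ A B (γA t)) = P (act Φ Ψ A B t) ∧
        P (act Φ Ψ A B (γB t)) = P (act Φ Ψ A B t) := by
  classical
  -- cells
  set M : ℕ := m + 2 with hM
  set e : ℕ → ℝ := fun i => b₁ + i * ((b₂ - b₁) / M) with he
  have hMpos : (0 : ℝ) < M := by rw [hM]; positivity
  have hδ : 0 < (b₂ - b₁) / M := div_pos (by linarith) hMpos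
  have he0 : e 0 = b₁ := by simp [he]
  have heM : e M = b₂ := by
    simp only [he]; field_simp; ring
  have hes : StrictMono e := by
    apply strictMono_nat_of_lt_succ
    intro i
    simp only [he]
    push_cast
    nlinarith
  have hem : ∀ i ≤ M, e i ∈ Icc b₁ b₂ := by
    intro i hi
    refine ⟨?_, ?_⟩
    · rw [← he0]; exact hes.monotone (Nat.zero_le i)
    · rw [← heM]; exact hes.monotone hi
  have hγpos : ∀ u ∈ Icc b₁ b₂, 0 < γ u := fun u hu =>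
    lt_of_lt_of_le hγ0 (hγ.1.monotoneOn (left_mem_Icc.2 hbb.le) hu hu.1)
  obtain ⟨a₀, b₀, h₀, hsmall⟩ := C.exists_small
    ((Finset.range M).image (fun i => (e i, e (i + 1))) ∪
      (Finset.range M).image (fun i => (γ (e i), γ (e (i + 1))))) (by
    intro z hz
    rw [Finset.mem_union, Finset.mem_image, Finset.mem_image] at hz
    rcases hz with ⟨i, hi, rfl⟩ | ⟨i, hi, rfl⟩
    · rw [Finset.mem_range] at hi
      exact ⟨lt_of_lt_of_le hb (hem i hi.le).1, hes (Nat.lt_succ_self i)⟩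
    · rw [Finset.mem_range] at hi
      exact ⟨hγpos _ (hem i hi.le), hγ.1 (hem i hi.le) (hem (i + 1) hi) (hes (Nat.lt_succ_self i))⟩)
  have hsm1 : ∀ i < M, act Φ Ψ a₀ b₀ (e i) < e (i + 1) := by
    intro i hi
    exact hsmall (e i, e (i + 1)) (Finset.mem_union_left _
      (Finset.mem_image.2 ⟨i, Finset.mem_range.2 hi, rfl⟩))
  have hsm2 : ∀ i < M, act Φ Ψ a₀ b₀ (γ (e i)) < γ (e (i + 1)) := by
    intro i hi
    exact hsmall (γ (e i), γ (e (i + 1))) (Finset.mem_union_right _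
      (Finset.mem_image.2 ⟨i, Finset.mem_range.2 hi, rfl⟩))
  have hM0 : 0 < M := by omega
  have h₁ : act Φ Ψ a₀ b₀ b₁ < b₂ := by
    have h1 := hsm1 0 hM0
    rw [he0] at h1
    exact lt_of_lt_of_le h1 (hem 1 (by omega)).2
  obtain ⟨a, b, hw, hne⟩ := C.e5_step1 hb hbb hγ hγ0 hγb hP a₀ b₀ h₀ h₁
  set w := act Φ Ψ a b with hwdef
  set v := act Φ Ψ (-a) (-b) with hvdef
  have hwv : ∀ u, w (v u) = u := fun u => C.e5_inv a b u
  have hvw : ∀ u, v (w u) = u := fun u => C.e5_inv' a b u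
  set us := act Φ Ψ a₀ b₀ b₁ with hus
  -- the second map
  set γ' : ℝ → ℝ := fun t => w (γ (v t)) with hγ'
  have hwb : w b₁ ≤ us := (hw b₁ hb).2
  have hwbp : 0 < w b₁ := hb.trans (hw b₁ hb).1
  have hvmem : ∀ t ∈ Icc (w b₁) b₂, v t ∈ Icc b₁ b₂ ∧ v t < t := by
    intro t ht
    have h1 : b₁ ≤ v t := by
      have : w b₁ ≤ w (v t) := by rw [hwv]; exact ht.1
      exact w.le_iff_le.1 this
    have h2 : v t < t := by
      have := (hw (v t) (lt_of_lt_of_le hb h1)).1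
      rwa [hwv] at this
    exact ⟨⟨h1, h2.le.trans ht.2⟩, h2⟩
  have hwbb : w b₁ < b₂ := lt_of_le_of_lt hwb h₁
  have hIγ : IncOn γ (w b₁) b₂ := by
    have hsub : Icc (w b₁) b₂ ⊆ Icc b₁ b₂ := Icc_subset_Icc_left (hw b₁ hb).1.le
    exact ⟨hγ.1.mono hsub, hγ.2.mono hsub⟩
  have hIγ' : IncOn γ' (w b₁) b₂ := by
    refine ⟨?_, ?_⟩
    · intro x hx y hy hxy
      exact w.strictMono (hγ.1 (hvmem x hx).1 (hvmem y hy).1 (v.strictMono hxy))
    · apply w.continuous.comp_continuousOn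
      exact hγ.2.comp v.continuous.continuousOn (fun t ht => (hvmem t ht).1)
  have hγ'pos : ∀ t ∈ Icc (w b₁) b₂, 0 < γ' t := fun t ht =>
    C.e5_act_pos _ _ (hγpos _ (hvmem t ht).1)
  have husmem : us ∈ Icc (w b₁) b₂ := ⟨hwb, h₁.le⟩
  -- matching at depth
  set n₁ : ℤ := max 0 (max (-a) (-b)) with hn₁
  have hmγ : ∀ A B : ℤ, n₁ ≤ A → n₁ ≤ B → ∀ t ∈ Icc (w b₁) b₂,
      P (act Φ Ψ A B (γ t)) = P (act Φ Ψ A B t) := by
    intro A B hA hB t ht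
    exact C.e5_match (by omega) (by omega) (hP t ⟨(hw b₁ hb).1.le.trans ht.1, ht.2⟩)
  have hmγ' : ∀ A B : ℤ, n₁ ≤ A → n₁ ≤ B → ∀ t ∈ Icc (w b₁) b₂,
      P (act Φ Ψ A B (γ' t)) = P (act Φ Ψ A B t) := by
    intro A B hA hB t ht
    have h1 : act Φ Ψ A B (γ' t) = act Φ Ψ (A + a) (B + b) (γ (v t)) := by
      rw [hγ', hwdef]; exact e5_act_act C.comm _ _ _ _ _
    have h2 : act Φ Ψ A B t = act Φ Ψ (A + a) (B + b) (v t) := by
      rw [← e5_act_act C.comm]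
      exact congrArg _ (hwv t).symm
    rw [h1, h2]
    exact C.e5_match (by omega) (by omega) (hP (v t) (hvmem t ht).1)
  -- they differ everywhere
  have hdiff : ∀ t ∈ Icc (w b₁) b₂, γ t ≠ γ' t := by
    intro t ht h
    set K := act Φ Ψ n₁ n₁ with hK
    have hKc : Continuous K := K.continuous
    have hag := agree (Q := P) C.contP (lo := 0) (α := w b₁) (β := b₂) C.nonconst
      (δ₁ := fun t => K (γ t)) (δ₂ := fun t => K (γ' t))
      ⟨fun x hx y hy hxy => K.strictMono (hIγ.1 hx hy hxy), hKc.comp_continuousOn hIγ.2⟩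
      ⟨fun x hx y hy hxy => K.strictMono (hIγ'.1 hx hy hxy), hKc.comp_continuousOn hIγ'.2⟩
      (fun u hu => C.e5_act_pos _ _ (hγpos u ⟨(hw b₁ hb).1.le.trans hu.1, hu.2⟩))
      (fun u hu => C.e5_act_pos _ _ (hγ'pos u hu))
      (fun u hu => by
        rw [hmγ n₁ n₁ le_rfl le_rfl u hu, hmγ' n₁ n₁ le_rfl le_rfl u hu])
      ht (by simp only [h])
    have h1 := hag us husmem
    have h2 := K.injective h1
    exact hne h2.symm
  -- one is below the other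
  have hsign : (∀ t ∈ Icc (w b₁) b₂, γ t < γ' t) ∨ (∀ t ∈ Icc (w b₁) b₂, γ' t < γ t) := by
    by_contra hcon
    push Not at hcon
    obtain ⟨⟨p, hp, hp'⟩, q, hq, hq'⟩ := hcon
    have hcont : ContinuousOn (fun t => γ t - γ' t) (Icc (w b₁) b₂) := hIγ.2.sub hIγ'.2
    have hpre := isPreconnected_Icc.intermediate_value hq hp hcont
    have h0 : (0 : ℝ) ∈ Icc (γ q - γ' q) (γ p - γ' p) := ⟨by linarith, by linarith⟩
    obtain ⟨t, ht, ht0⟩ := hpre h0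
    exact hdiff t ht (by simp only at ht0; linarith)
  -- cells and the two maps
  have hwe : ∀ i < M, w (e i) < e (i + 1) := fun i hi =>
    lt_of_le_of_lt (hw (e i) (lt_of_lt_of_le hb (hem i hi.le).1)).2 (hsm1 i hi)
  have hwγe : ∀ i < M, w (γ (e i)) < γ (e (i + 1)) := fun i hi =>
    lt_of_le_of_lt (hw (γ (e i)) (hγpos _ (hem i hi.le))).2 (hsm2 i hi)
  have hb1 : w b₁ < e 1 := by
    have := hwe 0 hM0
    rwa [he0] at this
  have hem' : ∀ i, 1 ≤ i → i ≤ M → e i ∈ Icc (w b₁) b₂ := by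
    intro i h1 h2
    exact ⟨hb1.le.trans (hes.monotone h1), (hem i h2).2⟩
  have hveM : ∀ i < M, e i ≤ v (e (i + 1)) := by
    intro i hi
    have : w (e i) ≤ w (v (e (i + 1))) := by rw [hwv]; exact (hwe i hi).le
    exact w.le_iff_le.1 this
  have hcaseA : ∀ i, 1 ≤ i → i < M → γ' (e i) < γ (e (i + 1)) := by
    intro i h1 h2
    refine lt_trans ?_ (hwγe i h2)
    apply w.strictMono
    exact hγ.1 (hvmem _ (hem' i h1 h2.le)).1 (hem i h2.le) (hvmem _ (hem' i h1 h2.le)).2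
  have hcaseB : ∀ i, i < M → γ (e i) < γ' (e (i + 1)) := by
    intro i h2
    have h3 := (hvmem _ (hem' (i + 1) (by omega) h2)).1
    have h4 : γ (e i) ≤ γ (v (e (i + 1))) := hγ.1.monotoneOn (hem i h2.le) h3 (hveM i h2)
    exact lt_of_le_of_lt h4 (hw _ (hγpos _ h3)).1
  obtain ⟨γA, γB, hIA, hIB, hposA, hlt, hcell, hmA, hmB⟩ :
      ∃ γA γB : ℝ → ℝ, IncOn γA (w b₁) b₂ ∧ IncOn γB (w b₁) b₂ ∧
        (∀ t ∈ Icc (w b₁) b₂, 0 < γA t) ∧ (∀ t ∈ Icc (w b₁) b₂, γA t < γB t) ∧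
        (∀ i, 1 ≤ i → i < M → γB (e i) < γA (e (i + 1))) ∧
        (∀ A B : ℤ, n₁ ≤ A → n₁ ≤ B → ∀ t ∈ Icc (w b₁) b₂,
          P (act Φ Ψ A B (γA t)) = P (act Φ Ψ A B t)) ∧
        (∀ A B : ℤ, n₁ ≤ A → n₁ ≤ B → ∀ t ∈ Icc (w b₁) b₂,
          P (act Φ Ψ A B (γB t)) = P (act Φ Ψ A B t)) := by
    rcases hsign with hs | hs
    · exact ⟨γ, γ', hIγ, hIγ', fun t ht => hγpos t ⟨(hw b₁ hb).1.le.trans ht.1, ht.2⟩, hs,
        hcaseA, hmγ, hmγ'⟩
    · exact ⟨γ', γ, hIγ', hIγ, hγ'pos, hs, fun i _ hi => hcaseB i hi, hmγ', hmγ⟩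
  have hsub : Icc (e 1) b₂ ⊆ Icc (w b₁) b₂ := Icc_subset_Icc_left hb1.le
  have he1 : e 1 < b₂ := by
    have := hes (show 1 < M by omega)
    rwa [heM] at this
  have hIA' : IncOn γA (e 1) b₂ := ⟨hIA.1.mono hsub, hIA.2.mono hsub⟩
  have hIB' : IncOn γB (e 1) b₂ := ⟨hIB.1.mono hsub, hIB.2.mono hsub⟩
  obtain ⟨κ, hκI, hκ1, hκ2⟩ := hIA'.inverse he1.le
  set z : ℕ → ℝ := fun i => (fun t => κ (γB t))^[i] (e 1) with hz
  have hz1 : ∀ i, z (i + 1) = κ (γB (z i)) := fun i => Function.iterate_succ_apply' _ _ _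
  have hzmem : ∀ i, i ≤ m → e 1 ≤ z i ∧ z i ≤ e (i + 1) := by
    intro i
    induction i with
    | zero => intro _; exact ⟨le_rfl, le_rfl⟩
    | succ i ih =>
      intro hi
      obtain ⟨h1, h2⟩ := ih (by omega)
      have h3 : z i ∈ Icc (e 1) b₂ := ⟨h1, h2.trans (hem (i + 1) (by omega)).2⟩
      have h4 : e (i + 1) ∈ Icc (e 1) b₂ := ⟨hes.monotone (by omega), (hem (i + 1) (by omega)).2⟩
      have h4' : e (i + 1 + 1) ∈ Icc (e 1) b₂ :=
        ⟨hes.monotone (by omega), (hem (i + 1 + 1) (by omega)).2⟩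
      have h5 : γB (z i) < γA (e (i + 1 + 1)) :=
        lt_of_le_of_lt (hIB'.1.monotoneOn h3 h4 h2) (hcell (i + 1) (by omega) (by omega))
      have h6 : γA (e 1) ≤ γB (z i) :=
        (hIA'.1.monotoneOn (left_mem_Icc.2 he1.le) h3 h1).trans (hlt _ (hsub h3)).le
      have h7 : γB (z i) ∈ Icc (γA (e 1)) (γA b₂) :=
        ⟨h6, h5.le.trans (hIA'.1.monotoneOn h4' (right_mem_Icc.2 he1.le) h4'.2)⟩
      obtain ⟨h8, h9⟩ := hκ2 _ h7
      rw [hz1]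
      refine ⟨h8.1, ?_⟩
      by_contra hlt'
      push Not at hlt'
      have := hIA'.1 h4' h8 hlt'
      rw [h9] at this
      exact lt_asymm h5 this
  refine ⟨γA, γB, e 1, b₂, z, n₁, lt_of_lt_of_le hb (hem 1 (by omega)).1, he1, hIA', hIB', ?_,
    ?_, ?_, ?_⟩
  · intro t ht
    exact ⟨hposA t (hsub ht), hlt t (hsub ht)⟩
  · intro i hi
    obtain ⟨h1, h2⟩ := hzmem i hi
    refine ⟨h1, lt_of_le_of_lt h2 ?_⟩
    have := hes (show i + 1 < M by omega)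
    rwa [heM] at this
  · intro i hi
    obtain ⟨h1, h2⟩ := hzmem i hi.le
    have h3 : z i ∈ Icc (e 1) b₂ := ⟨h1, h2.trans (hem (i + 1) (by omega)).2⟩
    have h4 : e (i + 1) ∈ Icc (e 1) b₂ := ⟨hes.monotone (by omega), (hem (i + 1) (by omega)).2⟩
    have h4' : e (i + 1 + 1) ∈ Icc (e 1) b₂ :=
      ⟨hes.monotone (by omega), (hem (i + 1 + 1) (by omega)).2⟩
    have h5 : γB (z i) < γA (e (i + 1 + 1)) :=
      lt_of_le_of_lt (hIB'.1.monotoneOn h3 h4 h2) (hcell (i + 1) (by omega) (by omega))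
    have h6 : γA (e 1) ≤ γB (z i) :=
      (hIA'.1.monotoneOn (left_mem_Icc.2 he1.le) h3 h1).trans (hlt _ (hsub h3)).le
    have h7 : γB (z i) ∈ Icc (γA (e 1)) (γA b₂) :=
      ⟨h6, h5.le.trans (hIA'.1.monotoneOn h4' (right_mem_Icc.2 he1.le) h4'.2)⟩
    obtain ⟨h8, h9⟩ := hκ2 _ h7
    rw [← hz1] at h8 h9
    refine ⟨?_, h9⟩
    by_contra hle
    push Not at hle
    have := hIA'.1.monotoneOn h8 h3 hle
    rw [h9] at this
    exact absurd (hlt _ (hsub h3)) (not_lt.2 this)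
  · intro A B hA hB t ht
    exact ⟨hmA A B hA hB t (hsub ht), hmB A B hA hB t (hsub ht)⟩

end E5

end Pool.Agent.CFP
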