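import Pool.Agent.Lib_MP_eedf80_an.Comb
import Pool.Agent.Lib_MP_eedf80_an.Enum
import Pool.Agent.Lib_MP_eedf80_an.Chain
import Pool.Agent.Lib_MP_eedf80_an.Pair

/-!
PART E6 of MP_eedf80_an: the code of the leaf is eventually periodic.
-/

set_option autoImplicit false

namespace Pool.Agent.CFP

open Set Function

section Code

variable {y₁ y₂ : ℝ} {P Q : ℝ → ℝ} {Φ Ψ : ℝ ≃o ℝ}

theorem e6_same_refl (Q : ℝ → ℝ) (a b : ℝ) : Same Q a b a b :=
  ⟨OrderIso.refl _, fun _ => rfl⟩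

theorem e6_same_symm {Q : ℝ → ℝ} {a b c d : ℝ} (h : Same Q a b c d) : Same Q c d a b := by
  obtain ⟨θ, hθ⟩ := h
  refine ⟨θ.symm, fun t => ?_⟩
  have := hθ (θ.symm t)
  rw [OrderIso.apply_symm_apply] at this
  exact this.symm

theorem e6_same_trans {Q : ℝ → ℝ} {a b c d e f : ℝ} (h : Same Q a b c d) (h' : Same Q c d e f) :
    Same Q a b e f := by
  obtain ⟨θ, hθ⟩ := h
  obtain ⟨θ', hθ'⟩ := h'
  refine ⟨θ.trans θ', fun t => ?_⟩
  rw [OrderIso.trans_apply, hθ', hθ]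

/-- Equivalence of letters of the code. -/
def e6_letterSetoid (Q : ℝ → ℝ) (d : ℕ → ℝ) : Setoid ℕ where
  r i j := Same Q (d i) (d (i + 1)) (d j) (d (j + 1))
  iseqv := ⟨fun _ => e6_same_refl _ _ _, fun h => e6_same_symm h,
    fun h h' => e6_same_trans h h'⟩

theorem Enum.e6_le_d_idx {d : ℕ → ℝ} (hd : Enum y₁ y₂ Q d) (u : ℝ) : u ≤ d (hd.idx u) := by
  classical
  unfold Enum.idx
  exact Nat.find_spec (p := fun i => u ≤ d i) _

theorem Enum.e6_idx_le {d : ℕ → ℝ} (hd : Enum y₁ y₂ Q d) {u : ℝ} {i : ℕ} (h : u ≤ d i) :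
    hd.idx u ≤ i := by
  classical
  unfold Enum.idx
  exact Nat.find_min' _ h

theorem Enum.e6_idx_mono {d : ℕ → ℝ} (hd : Enum y₁ y₂ Q d) {u v : ℝ} (h : u ≤ v) :
    hd.idx u ≤ hd.idx v := hd.e6_idx_le (h.trans (hd.e6_le_d_idx v))

theorem Enum.e6_lt_idx {d : ℕ → ℝ} (hd : Enum y₁ y₂ Q d) {u : ℝ} {i : ℕ} (h : d i < u) :
    i < hd.idx u := by
  by_contra hcon
  push Not at hcon
  exact absurd (hd.e6_le_d_idx u) (not_le.2 (lt_of_le_of_lt (hd.mono.monotone hcon) h))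

theorem e6_zpow_fix_zero (θ : ℝ ≃o ℝ) (h : θ 0 = 0) (a : ℤ) : (θ ^ a) 0 = 0 := by
  have hn : ∀ n : ℕ, (θ ^ n) 0 = 0 := by
    intro n
    induction n with
    | zero => rfl
    | succ n ih =>
      rw [pow_succ, RelIso.mul_apply, h, ih]
  cases a with
  | ofNat n => exact hn n
  | negSucc n =>
    rw [zpow_negSucc]
    have h1 := hn (n + 1)
    have h2 : ((θ ^ (n + 1))⁻¹ : ℝ ≃o ℝ) ((θ ^ (n + 1)) 0) = 0 := RelIso.inv_apply_self _ _
    rw [h1] at h2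
    exact h2

theorem Core.e6_act_zero (C : Core y₁ y₂ P Φ Ψ) (a b : ℤ) : act Φ Ψ a b 0 = 0 := by
  unfold act
  rw [RelIso.mul_apply, e6_zpow_fix_zero Ψ (C.Ψ0 0 le_rfl), e6_zpow_fix_zero Φ (C.Φ0 0 le_rfl)]

theorem Core.e6_act_pos (C : Core y₁ y₂ P Φ Ψ) (a b : ℤ) {u : ℝ} (hu : 0 < u) :
    0 < act Φ Ψ a b u := by
  have := (act Φ Ψ a b).strictMono hu
  rwa [C.e6_act_zero] at this

theorem IncOn.e6_comp_act {γ : ℝ → ℝ} {a b : ℝ} (h : IncOn γ a b) (A B : ℤ) :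
    IncOn (fun t => act Φ Ψ A B (γ t)) a b :=
  ⟨fun _ hx _ hy hxy => (act Φ Ψ A B).strictMono (h.1 hx hy hxy),
    (act Φ Ψ A B).continuous.comp_continuousOn h.2⟩

theorem IncOn.e6_sub {γ : ℝ → ℝ} {a b a' b' : ℝ} (h : IncOn γ a b) (ha : a ≤ a') (hb : b' ≤ b) :
    IncOn γ a' b' :=
  ⟨h.1.mono (Icc_subset_Icc ha hb), h.2.mono (Icc_subset_Icc ha hb)⟩

/-- Two alternations contain an upward one. -/
theorem Alt.e6_exists_up {F : ℝ → ℝ} {a b : ℝ} (h : Alt y₁ y₂ F a b 2) :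
    ∃ c e, a ≤ c ∧ c ≤ e ∧ e ≤ b ∧ F c ≤ y₁ ∧ y₂ ≤ F e := by
  obtain ⟨t, k, ht, hlt, hF⟩ := h
  by_cases hk : Even k
  · refine ⟨t 0, t 1, (ht 0 (by norm_num)).1, (hlt 0 (by norm_num)).le, (ht 1 (by norm_num)).2,
      (hF 0 (by norm_num)).1 (by simpa using hk), (hF 1 (by norm_num)).2 ?_⟩
    rw [Nat.even_add]
    simp [hk]
  · refine ⟨t 1, t 2, (ht 1 (by norm_num)).1, (hlt 1 (by norm_num)).le, (ht 2 (by norm_num)).2,
      (hF 1 (by norm_num)).1 ?_, (hF 2 (by norm_num)).2 ?_⟩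
    · rw [Nat.even_add]
      simp [hk]
    · rw [Nat.even_add]
      simp [hk]

/-- PART E6: the code is eventually periodic. -/
theorem Core.eventually_same (C : Core y₁ y₂ P Φ Ψ) {γ : ℝ → ℝ} {b₁ b₂ : ℝ} (hb : 0 < b₁)
    (hbb : b₁ < b₂) (hγ : IncOn γ b₁ b₂) (hγ0 : 0 < γ b₁) (hγb : γ b₂ < b₁)
    (hP : ∀ u ∈ Icc b₁ b₂, P (γ u) = P u) {d : ℕ → ℝ} (hd : Enum y₁ y₂ P d) :
    ∃ p i₀, 1 ≤ p ∧ ∀ i, i₀ ≤ i → Same P (d i) (d (i + 1)) (d (i + p)) (d (i + p + 1)) := by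
  obtain ⟨γA, γB, b, b', z, n₁, hb0, hbb', hA, hB, hAB, hz, hz1, hPP⟩ :=
    C.exists_pair hb hbb hγ hγ0 hγb hP 5
  have hzmem : ∀ i ≤ 5, z i ∈ Icc b b' := fun i hi => ⟨(hz i hi).1, (hz i hi).2.le⟩
  have hzlt : ∀ i < 5, z i < z (i + 1) := fun i hi => (hz1 i hi).1
  have hzAB : ∀ i < 5, γA (z (i + 1)) = γB (z i) := fun i hi => (hz1 i hi).2
  have hzle : ∀ i ≤ 5, z 0 ≤ z i := by
    intro i hi
    induction i with
    | zero => exact le_rfl
    | succ i ih => exact (ih (by omega)).trans (hzlt i (by omega)).le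
  have hzle5 : ∀ i ≤ 5, z i ≤ z 5 := by
    intro i hi
    have h0 := hzlt 0 (by norm_num)
    have h1 := hzlt 1 (by norm_num)
    have h2 := hzlt 2 (by norm_num)
    have h3 := hzlt 3 (by norm_num)
    have h4 := hzlt 4 (by norm_num)
    norm_num at h0 h1 h2 h3 h4
    interval_cases i <;> linarith
  have hApos : ∀ i ≤ 5, 0 < γA (z i) := fun i hi => (hAB _ (hzmem i hi)).1
  have hAlt : ∀ i < 5, γA (z i) < γA (z (i + 1)) := fun i hi =>
    hA.1 (hzmem i hi.le) (hzmem (i + 1) hi) (hzlt i hi)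
  -- small element
  obtain ⟨a₀, b₀, he0, heS⟩ := C.exists_small {(γA (z 0), γA (z 1)), (γA (z 2), γA (z 3))} (by
    intro w hw
    simp only [Finset.mem_insert, Finset.mem_singleton] at hw
    rcases hw with rfl | rfl
    · exact ⟨hApos 0 (by norm_num), hAlt 0 (by norm_num)⟩
    · exact ⟨hApos 2 (by norm_num), hAlt 2 (by norm_num)⟩)
  have he01 : act Φ Ψ a₀ b₀ (γA (z 0)) < γA (z 1) := heS (γA (z 0), γA (z 1)) (by simp)
  have he23 : act Φ Ψ a₀ b₀ (γA (z 2)) < γA (z 3) := heS (γA (z 2), γA (z 3)) (by simp)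
  -- chain
  obtain ⟨A, B, hn₁, hchain, halt, htend⟩ := C.exists_chain a₀ b₀ he0 n₁
  obtain ⟨l₁, hl₁⟩ := halt (z 5) b' 2 (lt_of_lt_of_le hb0 (hz 5 le_rfl).1) (hz 5 le_rfl).2
  obtain ⟨l₂, hl₂⟩ := halt (γA (z 0)) (γA (z 1)) (2 * 1 + 1) (hApos 0 (by norm_num))
    (hAlt 0 (by norm_num))
  let l₀ := max l₁ l₂
  let c : ℕ → (ℝ ≃o ℝ) := fun j => act Φ Ψ (A (l₀ + j)) (B (l₀ + j))
  have hcpos : ∀ j u, 0 < u → 0 < c j u := fun j u hu => C.e6_act_pos _ _ hu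
  have hc1 : ∀ j u, 0 < u → c j u ≤ c (j + 1) u := fun j u hu => (hchain (l₀ + j) u hu).1
  have hc2 : ∀ j u, 0 < u → c (j + 1) u ≤ c j (act Φ Ψ a₀ b₀ u) :=
    fun j u hu => (hchain (l₀ + j) u hu).2
  have hIA : ∀ j, IncOn (fun t => c j (γA t)) (z 0) b' := fun j =>
    (hA.e6_comp_act _ _).e6_sub (hz 0 (by norm_num)).1 le_rfl
  have hIB : ∀ j, IncOn (fun t => c j (γB t)) (z 0) b' := fun j =>
    (hB.e6_comp_act _ _).e6_sub (hz 0 (by norm_num)).1 le_rfl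
  have hsub : ∀ u ∈ Icc (z 0) b', u ∈ Icc b b' := fun u hu =>
    ⟨(hz 0 (by norm_num)).1.trans hu.1, hu.2⟩
  have hpA : ∀ j, ∀ u ∈ Icc (z 0) b', 0 < c j (γA u) := fun j u hu =>
    hcpos j _ (hAB u (hsub u hu)).1
  have hpB : ∀ j, ∀ u ∈ Icc (z 0) b', 0 < c j (γB u) := fun j u hu =>
    hcpos j _ ((hAB u (hsub u hu)).1.trans (hAB u (hsub u hu)).2)
  have hPA : ∀ j, ∀ u ∈ Icc b b', P (c j (γA u)) = P (c j u) := fun j u hu =>
    (hPP _ _ (hn₁ _).1 (hn₁ _).2 u hu).1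
  have hPB : ∀ j, ∀ u ∈ Icc b b', P (c j (γB u)) = P (c j u) := fun j u hu =>
    (hPP _ _ (hn₁ _).1 (hn₁ _).2 u hu).2
  have hQQ : ∀ j, ∀ u ∈ Icc (z 0) b', P (c j (γA u)) = P (c j (γB u)) := fun j u hu => by
    rw [hPA j u (hsub u hu), hPB j u (hsub u hu)]
  -- crossings
  have hcross : ∀ j, ∃ x e, z 5 ≤ x ∧ x ≤ e ∧ e ≤ b' ∧ P (c j (γA x)) ≤ y₁ ∧
      y₂ ≤ P (c j (γA e)) := by
    intro j
    have h1 : Alt y₁ y₂ P (c j (z 5)) (c j b') 2 :=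
      hl₁ (l₀ + j) ((le_max_left l₁ l₂).trans (Nat.le_add_right _ _))
    obtain ⟨x, e, hx1, hxe, hx2, hx3, hx4⟩ := h1.e6_exists_up
    have hx1' : z 5 ≤ (c j).symm x := by
      rw [← (c j).symm_apply_apply (z 5)]
      exact (c j).symm.monotone hx1
    have hx2' : (c j).symm e ≤ b' := by
      rw [← (c j).symm_apply_apply b']
      exact (c j).symm.monotone hx2
    have hxe' : (c j).symm x ≤ (c j).symm e := (c j).symm.monotone hxe
    have hb5 : b ≤ z 5 := (hz 5 le_rfl).1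
    refine ⟨(c j).symm x, (c j).symm e, hx1', hxe', hx2', ?_, ?_⟩
    · rw [hPA j _ ⟨hb5.trans hx1', hxe'.trans hx2'⟩, OrderIso.apply_symm_apply]
      exact hx3
    · rw [hPA j _ ⟨hb5.trans (hx1'.trans hxe'), hx2'⟩, OrderIso.apply_symm_apply]
      exact hx4
  -- shifts
  let s : ℕ → ℕ := fun j => hd.idx (c j (γA (z 0)))
  let ρ : ℕ → ℕ := fun j => hd.idx (c j (γB (z 0))) - hd.idx (c j (γA (z 0)))
  have hρ' : ∀ j, hd.idx (c j (γB (z 0))) = s j + ρ j := by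
    intro j
    have h1 : s j ≤ hd.idx (c j (γB (z 0))) :=
      hd.e6_idx_mono ((c j).monotone (hAB _ (hzmem 0 (by norm_num))).2.le)
    simp only [ρ, s] at h1 ⊢
    omega
  have hshift : ∀ j, ∀ i ≤ 5, hd.idx (c j (γB (z i))) = hd.idx (c j (γA (z i))) + ρ j := by
    intro j i hi
    obtain ⟨x, e, hx1, hxe, hx2, hx3, hx4⟩ := hcross j
    have h1 := Enum.pair_shift C.y C.contP hd (hIA j) (hIB j) (hpA j) (hpB j) (hQQ j)
      (le_refl (z 0)) (hzle i hi) ((hzle5 i hi).trans hx1) hxe hx2 hx3 hx4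
    have h2 := hρ' j
    simp only [s] at h2
    omega
  have hstep : ∀ j, ∀ i < 5, hd.idx (c j (γA (z (i + 1)))) = hd.idx (c j (γA (z i))) + ρ j := by
    intro j i hi
    rw [hzAB i hi]
    exact hshift j i hi.le
  have hsi : ∀ j, ∀ i ≤ 5, hd.idx (c j (γA (z i))) = s j + i * ρ j := by
    intro j i hi
    induction i with
    | zero => simp [s]
    | succ i ih =>
      rw [hstep j i (by omega), ih (by omega)]
      ring
  have hρ1 : ∀ j, 1 ≤ ρ j := by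
    intro j
    have h1 : Alt y₁ y₂ P (c j (γA (z 0))) (c j (γA (z 1))) (2 * 1 + 1) :=
      hl₂ (l₀ + j) ((le_max_right l₁ l₂).trans (Nat.le_add_right _ _))
    have h2 := Enum.idx_alt C.y C.contP hd (hcpos j _ (hApos 0 (by norm_num))) h1
    have h3 := hstep j 0 (by norm_num)
    simp only [zero_add] at h3
    omega
  have hs1 : ∀ j, s j ≤ s (j + 1) := fun j => hd.e6_idx_mono (hc1 j _ (hApos 0 (by norm_num)))
  have hs2 : ∀ j, s (j + 1) ≤ s j + ρ j := by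
    intro j
    have h1 : s (j + 1) ≤ hd.idx (c j (γA (z 1))) :=
      hd.e6_idx_mono ((hc2 j _ (hApos 0 (by norm_num))).trans ((c j).monotone he01.le))
    have h2 := hsi j 1 (by norm_num)
    omega
  have hρ2 : ∀ j, ρ (j + 1) ≤ 2 * ρ j := by
    intro j
    have h1 : hd.idx (c (j + 1) (γA (z 2))) ≤ hd.idx (c j (γA (z 3))) :=
      hd.e6_idx_mono ((hc2 j _ (hApos 2 (by norm_num))).trans ((c j).monotone he23.le))
    have h2 : hd.idx (c j (γA (z 1))) ≤ hd.idx (c (j + 1) (γA (z 1))) :=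
      hd.e6_idx_mono (hc1 j _ (hApos 1 (by norm_num)))
    have h3 := hsi (j + 1) 2 (by norm_num)
    have h4 := hsi j 3 (by norm_num)
    have h5 := hsi (j + 1) 1 (by norm_num)
    have h6 := hsi j 1 (by norm_num)
    omega
  have ht1 : ∀ j, s j + 5 * ρ j ≤ s (j + 1) + 5 * ρ (j + 1) := by
    intro j
    rw [← hsi j 5 le_rfl, ← hsi (j + 1) 5 le_rfl]
    exact hd.e6_idx_mono (hc1 j _ (hApos 5 le_rfl))
  -- the code
  obtain ⟨p, hp, hper⟩ := chain_period (fun i => Quotient.mk (e6_letterSetoid P d) i) s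
    (fun j => s j + 5 * ρ j) ρ hρ1 (by
      intro j i hi1 hi2
      obtain ⟨x, e, hx1, hxe, hx2, hx3, hx4⟩ := hcross j
      apply Quotient.sound
      change Same P (d i) (d (i + 1)) (d (i + ρ j)) (d (i + ρ j + 1))
      have hr1 := hρ1 j
      refine Enum.pair_same C.y C.contP hd (hIA j) (hIB j) (hpA j) (hpB j) (hQQ j)
        (hzle 5 le_rfl) hx1 hxe hx2 hx3 hx4 (hρ' j) hi1 ?_
      rw [hsi j 5 le_rfl]
      omega) (by
      intro j
      have h1 := hs2 j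
      have h2 := hρ2 j
      omega) hs1 ht1 (by
      intro M
      obtain ⟨l, hl⟩ := htend (d M + 1) (γA (z 0)) (hApos 0 (by norm_num))
      refine ⟨l, ?_⟩
      have h1 : d M + 1 ≤ c l (γA (z 0)) := hl (l₀ + l) (Nat.le_add_left _ _)
      exact (hd.e6_lt_idx (by linarith)).le)
  refine ⟨p, s 0, hp, fun i hi => ?_⟩
  have h1 := hper i hi
  exact Quotient.exact h1

end Code

end Pool.Agent.CFP
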