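import Pool.Agent.Lib_MP_eedf80_an.Defs

/-!
PART E1: Fine and Wilf along a chain of windows.
-/

set_option autoImplicit false

namespace Pool.Agent.CFP

section Comb

variable {α : Type*} {a : ℕ → α}

/-- `a` has period `p` on the window `[s, t)`. -/
def PerW (a : ℕ → α) (p s t : ℕ) : Prop := ∀ i, s ≤ i → i + p < t → a i = a (i + p)

theorem PerW.mono {p s t s' t' : ℕ} (h : PerW a p s t) (hs : s ≤ s') (ht : t' ≤ t) :
    PerW a p s' t' := fun i hi hit => h i (hs.trans hi) (hit.trans_le ht)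

theorem PerW.mul {p s t : ℕ} (h : PerW a p s t) (k : ℕ) :
    ∀ i, s ≤ i → i + k * p < t → a i = a (i + k * p) := by
  induction k with
  | zero => intro i _ _; simp
  | succ k ih =>
    intro i hi hit
    have e : i + (k + 1) * p = i + k * p + p := by ring
    rw [e] at hit ⊢
    rw [ih i hi (by omega)]
    exact h _ (by omega) hit

theorem PerW.mod {p s t : ℕ} (h : PerW a p s t) {i j : ℕ} (hi : s ≤ i) (hit : i < t)
    (hj : s ≤ j) (hjt : j < t) (hij : i ≡ j [MOD p]) : a i = a j := by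
  wlog hle : i ≤ j generalizing i j
  · exact (this hj hjt hi hit hij.symm (by omega)).symm
  obtain ⟨k, hk⟩ := (Nat.modEq_iff_dvd' hle).1 hij
  have e : j = i + k * p := by rw [mul_comm]; omega
  rw [e] at hjt ⊢
  exact h.mul k i hi hjt

/-- A residue class modulo `p` meets every window of length `p`. -/
theorem exists_modEq (p s i : ℕ) (hp : 1 ≤ p) : ∃ j, s ≤ j ∧ j < s + p ∧ i ≡ j [MOD p] := by
  refine ⟨s + (i + (p - s % p)) % p, by omega,
    by have := Nat.mod_lt (i + (p - s % p)) (show p > 0 by omega); omega, ?_⟩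
  have h1 : s + (i + (p - s % p)) % p ≡ s + (i + (p - s % p)) [MOD p] :=
    Nat.ModEq.add_left s (Nat.mod_modEq _ _)
  have h2 : s + (i + (p - s % p)) = i + p * (s / p) + p := by
    have h3 := Nat.div_add_mod s p
    have h4 := Nat.mod_lt s (show p > 0 by omega)
    omega
  refine Nat.ModEq.symm (h1.trans ?_)
  rw [h2]
  unfold Nat.ModEq
  simp [Nat.add_mul_mod_self_left]

theorem PerW.ext {p d s t s' t' : ℕ} (h : PerW a p s t) (hp : 1 ≤ p) (hs : s ≤ s')
    (ht : t' ≤ t) (hlen : s' + p ≤ t') (hd : PerW a d s' t') (hdp : d ∣ p) : PerW a d s t := by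
  intro i hi hit
  obtain ⟨i', h1, h2, h3⟩ := exists_modEq p s' i hp
  obtain ⟨j', k1, k2, k3⟩ := exists_modEq p s' (i + d) hp
  have e1 : a i = a i' := h.mod hi (by omega) (by omega) (by omega) h3
  have e2 : a (i + d) = a j' := h.mod (by omega) hit (by omega) (by omega) k3
  have e3 : a i' = a j' := by
    refine hd.mod h1 (by omega) k1 (by omega) ?_
    have h4 : i ≡ i' [MOD d] := h3.of_dvd hdp
    have k4 : i + d ≡ j' [MOD d] := k3.of_dvd hdp
    have h5 : i ≡ i + d [MOD d] := by unfold Nat.ModEq; simp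
    exact (h4.symm.trans h5).trans k4
  rw [e1, e2, e3]

/-- Fine and Wilf. -/
theorem fineWilf : ∀ (n p q s t : ℕ), p + q ≤ n → 1 ≤ p → 1 ≤ q → s + p + q ≤ t →
    PerW a p s t → PerW a q s t → PerW a (Nat.gcd p q) s t := by
  intro n
  induction n with
  | zero => intro p q s t h hp hq; omega
  | succ n ih =>
    intro p q s t h hp hq hst h1 h2
    rcases lt_trichotomy p q with hlt | heq | hgt
    · have h3 : PerW a (q - p) s (t - p) := by
        intro i hi hit
        have e1 := h2 i hi (by omega)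
        have e2 := h1 (i + (q - p)) (by omega) (by omega)
        have e3 : i + (q - p) + p = i + q := by omega
        rw [e3] at e2
        rw [e1, e2]
      have h4 : PerW a p s (t - p) := h1.mono le_rfl (by omega)
      have h5 := ih p (q - p) s (t - p) (by omega) hp (by omega) (by omega) h4 h3
      have e : Nat.gcd p (q - p) = Nat.gcd p q := by
        rw [Nat.gcd_sub_self_right hlt.le]
      rw [e] at h5
      exact h1.ext hp le_rfl (by omega) (by omega) h5 (Nat.gcd_dvd_left p q)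
    · subst heq; simpa using h1
    · have h3 : PerW a (p - q) s (t - q) := by
        intro i hi hit
        have e1 := h1 i hi (by omega)
        have e2 := h2 (i + (p - q)) (by omega) (by omega)
        have e3 : i + (p - q) + q = i + p := by omega
        rw [e3] at e2
        rw [e1, e2]
      have h4 : PerW a q s (t - q) := h2.mono le_rfl (by omega)
      have h5 := ih (p - q) q s (t - q) (by omega) (by omega) hq (by omega) h3 h4
      have e : Nat.gcd (p - q) q = Nat.gcd p q := by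
        rw [Nat.gcd_sub_self_left hgt.le]
      rw [e] at h5
      exact h2.ext hq le_rfl (by omega) (by omega) h5 (Nat.gcd_dvd_right p q)

end Comb

/-- PART E1 (Fine and Wilf along a chain of windows). -/
theorem chain_period {α : Type*} (a : ℕ → α) (s t ρ : ℕ → ℕ) (hρ : ∀ j, 1 ≤ ρ j)
    (hper : ∀ j i, s j ≤ i → i + ρ j < t j → a i = a (i + ρ j))
    (hov : ∀ j, s (j + 1) + ρ j + ρ (j + 1) ≤ t j) (hss : ∀ j, s j ≤ s (j + 1))
    (htt : ∀ j, t j ≤ t (j + 1)) (hs : ∀ M, ∃ j, M ≤ s j) :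
    ∃ p, 1 ≤ p ∧ ∀ i, s 0 ≤ i → a i = a (i + p) := by
  classical
  have hex : ∃ p, 1 ≤ p ∧ ∃ j, PerW a p (s j) (t j) := ⟨ρ 0, hρ 0, 0, hper 0⟩
  obtain ⟨hp1, j₀, hj₀⟩ := Nat.find_spec hex
  set p := Nat.find hex with hpdef
  have hmin : ∀ q, 1 ≤ q → ∀ j, PerW a q (s j) (t j) → p ≤ q :=
    fun q hq j h => Nat.find_min' hex ⟨hq, j, h⟩
  have hpρ : ∀ j, p ≤ ρ j := fun j => hmin _ (hρ j) j (hper j)
  have up : ∀ j, PerW a p (s j) (t j) → PerW a p (s (j + 1)) (t (j + 1)) := by
    intro j hj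
    have h1 : PerW a p (s (j + 1)) (t j) := hj.mono (hss j) le_rfl
    have h2 : PerW a (ρ (j + 1)) (s (j + 1)) (t j) :=
      PerW.mono (a := a) (s := s (j + 1)) (t := t (j + 1)) (hper (j + 1)) le_rfl (htt j)
    have h0 := hov j
    have h0' := hpρ j
    have h3 := fineWilf (a := a) _ p (ρ (j + 1)) _ _ le_rfl hp1 (hρ _) (by omega) h1 h2
    have h4 := PerW.ext (a := a) (s := s (j + 1)) (t := t (j + 1)) (hper (j + 1)) (hρ _) le_rfl
      (htt j) (by omega) h3 (Nat.gcd_dvd_right _ _)
    have h5 := hmin _ (Nat.gcd_pos_of_pos_left _ hp1) _ h4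
    have h6 : Nat.gcd p (ρ (j + 1)) = p := le_antisymm (Nat.gcd_le_left _ hp1) h5
    rwa [h6] at h4
  have down : ∀ j, PerW a p (s (j + 1)) (t (j + 1)) → PerW a p (s j) (t j) := by
    intro j hj
    have h1 : PerW a p (s (j + 1)) (t j) := hj.mono le_rfl (htt j)
    have h2 : PerW a (ρ j) (s (j + 1)) (t j) :=
      PerW.mono (a := a) (s := s j) (t := t j) (hper j) (hss j) le_rfl
    have h0 := hov j
    have h0' := hpρ (j + 1)
    have h3 := fineWilf (a := a) _ p (ρ j) _ _ le_rfl hp1 (hρ _) (by omega) h1 h2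
    have h4 := PerW.ext (a := a) (s := s j) (t := t j) (hper j) (hρ _) (hss j)
      le_rfl (by omega) h3 (Nat.gcd_dvd_right _ _)
    have h5 := hmin _ (Nat.gcd_pos_of_pos_left _ hp1) _ h4
    have h6 : Nat.gcd p (ρ j) = p := le_antisymm (Nat.gcd_le_left _ hp1) h5
    rwa [h6] at h4
  have h0 : PerW a p (s 0) (t 0) := by
    have : ∀ j, PerW a p (s j) (t j) → PerW a p (s 0) (t 0) := by
      intro j
      induction j with
      | zero => exact id
      | succ j ih => exact fun h => ih (down j h)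
    exact this j₀ hj₀
  have hall : ∀ j, PerW a p (s j) (t j) := by
    intro j
    induction j with
    | zero => exact h0
    | succ j ih => exact up j ih
  refine ⟨p, hp1, fun i hi => ?_⟩
  have hex2 : ∃ j, i < s j := by
    obtain ⟨j, hj⟩ := hs (i + 1)
    exact ⟨j, hj⟩
  have hf := Nat.find_spec hex2
  have hne : Nat.find hex2 ≠ 0 := by
    intro h
    rw [h] at hf
    omega
  obtain ⟨j, hj⟩ := Nat.exists_eq_succ_of_ne_zero hne
  have hj1 : ¬ i < s j := Nat.find_min hex2 (by omega)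
  rw [hj] at hf
  have h1 := hov j
  have h2 := hpρ j
  have h3 : j.succ = j + 1 := rfl
  rw [h3] at hf
  exact hall j i (by omega) (by omega)

/-- PART E1'. -/
theorem min_period_dvd {α : Type*} (a : ℕ → α) (p i₀ : ℕ) (hp : 1 ≤ p)
    (per : ∀ i, i₀ ≤ i → a i = a (i + p))
    (hmin : ∀ p' i₁, 1 ≤ p' → (∀ i, i₁ ≤ i → a i = a (i + p')) → p ≤ p') (r s t : ℕ)
    (hr : 1 ≤ r) (hs : i₀ ≤ s) (hst : s + p + r ≤ t)
    (hper : ∀ i, s ≤ i → i + r < t → a i = a (i + r)) : p ∣ r := by
  have h1 : ∀ T, PerW a p s T := fun T i hi _ => per i (hs.trans hi)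
  have h2 := fineWilf (a := a) _ p r s t le_rfl hp hr hst (h1 t) hper
  have h3 : ∀ i, s ≤ i → a i = a (i + Nat.gcd p r) := by
    intro i hi
    have h4 := (h1 (t + i + Nat.gcd p r + 1)).ext hp le_rfl (by omega) (by omega) h2
      (Nat.gcd_dvd_left _ _)
    exact h4 i hi (by omega)
  have h5 := hmin _ s (Nat.gcd_pos_of_pos_left _ hp) h3
  have h6 : Nat.gcd p r = p := le_antisymm (Nat.gcd_le_left _ hp) h5
  exact h6 ▸ Nat.gcd_dvd_right p r

end Pool.Agent.CFP
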