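import Pool.Agent.Lib_MP_eedf80_an.Basic

/-!
# Part F4: the endgame
-/

set_option autoImplicit false

namespace Pool.Agent.CFP

open Set Function Filter Topology

variable {y₁ y₂ s₁ s₂ : ℝ} {Q : ℝ → ℝ}

theorem eg_per_int {D : ℝ → ℝ} (h : ∀ t, D (t + 1) = D t) (k : ℤ) (t : ℝ) : D (t + k) = D t := by
  have h1 : Function.Periodic D 1 := h
  have h2 := h1.int_mul k t
  rwa [mul_one] at h2

theorem deg_int {F : ℝ → ℝ} {N : ℝ} (h : ∀ t, F (t + 1) = F t + N) (k : ℤ) (t : ℝ) :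
    F (t + k) = F t + N * k := by
  have h1 := eg_per_int (D := fun t => F t - N * t) (fun t => by
    show F (t + 1) - N * (t + 1) = F t - N * t
    rw [h]; ring) k t
  have h2 : F (t + k) - N * (t + k) = F t - N * t := h1
  linarith

theorem bdd_of_periodic {D : ℝ → ℝ} (hD : Continuous D) (h : ∀ t, D (t + 1) = D t) :
    ∃ B : ℝ, ∀ t, |D t| ≤ B := by
  obtain ⟨B, hB⟩ := isCompact_Icc.exists_bound_of_continuousOn (s := Icc (0 : ℝ) 1)
    hD.continuousOn
  refine ⟨B, fun t => ?_⟩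
  have h1 := eg_per_int h ⌊t⌋ (Int.fract t)
  rw [Int.fract_add_floor] at h1
  rw [h1]
  exact hB _ ⟨Int.fract_nonneg t, (Int.fract_lt_one t).le⟩

theorem Alt.push {e : ℝ → ℝ} {a b : ℝ} {m : ℕ} (h : Alt y₁ y₂ (Q ∘ e) a b m)
    (he : StrictMono e) : Alt y₁ y₂ Q (e a) (e b) m := by
  obtain ⟨t, ε, h1, h2, h3⟩ := h
  exact ⟨fun i => e (t i), ε, fun i hi => ⟨he.monotone (h1 i hi).1, he.monotone (h1 i hi).2⟩,
    fun i hi => he (h2 i hi), h3⟩

theorem Alt.shift {a b : ℝ} {m : ℕ} (h : Alt y₁ y₂ Q a b m) (hper : ∀ t, Q (t + 1) = Q t)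
    (k : ℤ) : Alt y₁ y₂ Q (a + k) (b + k) m := by
  have h1 : Alt y₁ y₂ (Q ∘ fun t => t + (k : ℝ)) a b m :=
    h.congr fun x _ => eg_per_int hper k x
  exact h1.push (e := fun t => t + (k : ℝ)) fun x y hxy => add_lt_add_left hxy _

theorem eg_alt_one {a b : ℝ} (hy : y₁ < y₂) (hlo : ∃ t ∈ Icc a b, Q t ≤ y₁)
    (hhi : ∃ t ∈ Icc a b, y₂ ≤ Q t) : Alt y₁ y₂ Q a b 1 := by
  obtain ⟨p, hp, hpQ⟩ := hlo
  obtain ⟨q, hq, hqQ⟩ := hhi
  have hne : p ≠ q := by
    rintro rfl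
    linarith
  rcases lt_or_gt_of_ne hne with hlt | hlt
  · refine ⟨fun i => if i = 0 then p else q, 0, fun i _ => ?_, fun i hi => ?_, fun i hi => ?_⟩
    · dsimp only; split_ifs <;> assumption
    · have : i = 0 := by omega
      subst this; simpa using hlt
    · have : i = 0 ∨ i = 1 := by omega
      rcases this with rfl | rfl
      · simpa using hpQ
      · simpa using hqQ
  · refine ⟨fun i => if i = 0 then q else p, 1, fun i _ => ?_, fun i hi => ?_, fun i hi => ?_⟩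
    · dsimp only; split_ifs <;> assumption
    · have : i = 0 := by omega
      subst this; simpa using hlt
    · have : i = 0 ∨ i = 1 := by omega
      rcases this with rfl | rfl
      · simpa using hqQ
      · constructor
        · intro _; simpa using hpQ
        · intro hc; exact absurd (by decide) hc

/-- Bounded iterates contradict the growth of the number of alternations. -/
theorem no_bounded {f g : ℝ → ℝ} (R : Red f g y₁ y₂ s₁ s₂) (hQ : Continuous Q)
    (hper : ∀ t, Q (t + 1) = Q t) {E : ℝ → ℝ} (hE : StrictMono E)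
    (hEQ : ∀ t, Q (E t) = f (g (Q t))) {a b C : ℝ} (h : Alt y₁ y₂ Q a b 1)
    (hC : ∀ n : ℕ, E^[n] b - E^[n] a ≤ C) : False := by
  have hy : y₁ < y₂ := R.y1s1.trans (R.s1s2.trans R.s2y2)
  obtain ⟨M, hM⟩ := Alt.bounded (F := Q) (a := 0) (b := C + 1) hy hQ.continuousOn
  have key : ∀ n : ℕ, 3 ^ n ≤ M := by
    intro n
    apply hM
    have h1 := R.grow hQ.continuousOn le_rfl h n
    rw [mul_one] at h1
    have h2 : ∀ x, (Q ∘ E^[n]) x = (W f g n n ∘ Q) x := by
      intro x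
      have hs : Function.Semiconj Q E (W f g 1 1) := hEQ
      have h3 := (hs.iterate_right n) x
      rw [W_iter R.comm, mul_one] at h3
      exact h3
    have h3 : Alt y₁ y₂ Q (E^[n] a) (E^[n] b) (3 ^ n) :=
      (h1.congr fun x _ => h2 x).push (hE.iterate n)
    have h4 := h3.shift hper (-⌊E^[n] a⌋)
    refine h4.mono ?_ ?_
    · push_cast
      have := Int.floor_le (E^[n] a)
      linarith
    · push_cast
      have h5 := Int.lt_floor_add_one (E^[n] a)
      have h6 := hC n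
      linarith
  exact absurd (key M) (not_le.mpr (Nat.lt_pow_self (by norm_num)))

/-- Semiconjugacy of a degree `N ≥ 2` map of the line to multiplication by `N`. -/
theorem exists_omega {E : ℝ → ℝ} (hEc : Continuous E) (hEm : Monotone E) {N : ℕ} (hN : 2 ≤ N)
    (hE1 : ∀ t, E (t + 1) = E t + N) : ∃ ω : ℝ → ℝ, Continuous ω ∧ Monotone ω ∧
      (∀ t, ω (t + 1) = ω t + 1) ∧ ∀ t, ω (E t) = N * ω t := by
  have hN0 : (0 : ℝ) < N := by positivity
  have hN2 : (2 : ℝ) ≤ N := by exact_mod_cast hN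
  obtain ⟨B, hB⟩ := bdd_of_periodic (D := fun t => E t - N * t) (by fun_prop) (fun t => by
    show E (t + 1) - N * (t + 1) = E t - N * t
    rw [hE1]; ring)
  have hB0 : 0 ≤ B := (abs_nonneg _).trans (hB 0)
  set u : ℕ → ℝ → ℝ := fun n t => E^[n] t / (N : ℝ) ^ n with hu
  have hstep : ∀ t n, dist (u n t) (u (n + 1) t) ≤ B * (1 / 2 : ℝ) ^ n := by
    intro t n
    rw [Real.dist_eq, hu]
    have e1 : E^[n] t / (N : ℝ) ^ n - E^[n + 1] t / (N : ℝ) ^ (n + 1) =
        -(E (E^[n] t) - N * E^[n] t) / (N : ℝ) ^ (n + 1) := by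
      rw [Function.iterate_succ_apply']
      field_simp
      ring
    show |E^[n] t / (N : ℝ) ^ n - E^[n + 1] t / (N : ℝ) ^ (n + 1)| ≤ _
    rw [e1, abs_div, abs_neg, abs_of_pos (pow_pos hN0 _), div_le_iff₀ (pow_pos hN0 _)]
    have e2 : (1 : ℝ) ≤ (1 / 2 : ℝ) ^ n * (N : ℝ) ^ (n + 1) := by
      have e3 : (2 : ℝ) ^ n ≤ (N : ℝ) ^ n := pow_le_pow_left₀ (by norm_num) hN2 n
      have e4 : (N : ℝ) ^ n ≤ (N : ℝ) ^ (n + 1) := by
        apply pow_le_pow_right₀ (by linarith); omega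
      have e5 : (1 / 2 : ℝ) ^ n * 2 ^ n = 1 := by
        rw [← mul_pow]; norm_num
      have e6 : 0 < (1 / 2 : ℝ) ^ n := by positivity
      nlinarith
    calc |E (E^[n] t) - N * E^[n] t| ≤ B := hB (E^[n] t)
      _ = B * 1 := (mul_one B).symm
      _ ≤ B * ((1 / 2 : ℝ) ^ n * (N : ℝ) ^ (n + 1)) := mul_le_mul_of_nonneg_left e2 hB0
      _ = B * (1 / 2 : ℝ) ^ n * (N : ℝ) ^ (n + 1) := by ring
  have hlim : ∀ t, ∃ l, Tendsto (fun n => u n t) atTop (𝓝 l) := fun t =>
    cauchySeq_tendsto_of_complete (cauchySeq_of_le_geometric (1 / 2) B (by norm_num) (hstep t))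
  choose ω hω using hlim
  have hEn1 : ∀ n t, E^[n] (t + 1) = E^[n] t + (N : ℝ) ^ n := by
    intro n
    induction n with
    | zero => intro t; simp
    | succ n ih =>
      intro t
      rw [Function.iterate_succ_apply', Function.iterate_succ_apply', ih]
      have h1 := deg_int hE1 ((N : ℤ) ^ n) (E^[n] t)
      push_cast at h1
      rw [h1, pow_succ]
      ring
  refine ⟨ω, ?_, ?_, ?_, ?_⟩
  · have hun : TendstoUniformly u ω atTop := by
      rw [Metric.tendstoUniformly_iff]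
      intro ε hε
      have h1 : Tendsto (fun n : ℕ => B * (1 / 2 : ℝ) ^ n / (1 - 1 / 2)) atTop (𝓝 0) := by
        have h2 : Tendsto (fun n : ℕ => (1 / 2 : ℝ) ^ n) atTop (𝓝 0) :=
          tendsto_pow_atTop_nhds_zero_of_lt_one (by norm_num) (by norm_num)
        simpa using (h2.const_mul B).div_const (1 - 1 / 2 : ℝ)
      filter_upwards [h1.eventually (gt_mem_nhds hε)] with n hn t
      have h3 := dist_le_of_le_geometric_of_tendsto (1 / 2) B (by norm_num) (hstep t) (hω t) n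
      rw [dist_comm]
      exact h3.trans_lt hn
    refine hun.continuous (Frequently.of_forall fun n => ?_)
    exact (hEc.iterate n).div_const _
  · intro s t hst
    refine le_of_tendsto_of_tendsto' (hω s) (hω t) fun n => ?_
    exact div_le_div_of_nonneg_right (hEm.iterate n hst) (by positivity)
  · intro t
    refine tendsto_nhds_unique (hω (t + 1)) ?_
    refine ((hω t).add_const 1).congr fun n => ?_
    show E^[n] t / (N : ℝ) ^ n + 1 = E^[n] (t + 1) / (N : ℝ) ^ n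
    rw [hEn1]
    field_simp
  · intro t
    refine tendsto_nhds_unique (hω (E t)) ?_
    have h1 := ((hω t).comp (tendsto_add_atTop_nat 1)).const_mul (N : ℝ)
    refine h1.congr fun n => ?_
    show (N : ℝ) * (E^[n + 1] t / (N : ℝ) ^ (n + 1)) = E^[n] (E t) / (N : ℝ) ^ n
    rw [Function.iterate_succ_apply, pow_succ]
    field_simp

/-- Uniqueness. -/
theorem eq_zero_of_expand {D E : ℝ → ℝ} {N : ℝ} (hN : 2 ≤ N) (hD : Continuous D)
    (h1 : ∀ t, D (t + 1) = D t) (h : ∀ t, D (E t) = N * D t) : ∀ t, D t = 0 := by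
  obtain ⟨B, hB⟩ := bdd_of_periodic hD h1
  have hB0 : 0 ≤ B := (abs_nonneg _).trans (hB 0)
  have key : ∀ n : ℕ, ∀ t, |D t| ≤ B * (1 / 2) ^ n := by
    intro n
    induction n with
    | zero => intro t; simpa using hB t
    | succ n ih =>
      intro t
      have h2 := ih (E t)
      rw [h, abs_mul, abs_of_nonneg (by linarith : (0 : ℝ) ≤ N)] at h2
      have h3 : 2 * |D t| ≤ N * |D t| := mul_le_mul_of_nonneg_right hN (abs_nonneg _)
      rw [pow_succ]
      linarith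
  intro t
  have h2 : Tendsto (fun n : ℕ => B * (1 / 2 : ℝ) ^ n) atTop (𝓝 0) := by
    have h3 : Tendsto (fun n : ℕ => (1 / 2 : ℝ) ^ n) atTop (𝓝 0) :=
      tendsto_pow_atTop_nhds_zero_of_lt_one (by norm_num) (by norm_num)
    simpa using h3.const_mul B
  have h3 : |D t| ≤ 0 := ge_of_tendsto' h2 fun n => key n t
  exact abs_nonpos_iff.mp h3

/-- The parity argument. -/
theorem parity (Nf Ng mf mg j : ℤ) (h : 2 * j = mg + Ng * mf - mf - Nf * mg) :
    ∃ v : ℝ, (∃ k : ℤ, (Nf : ℝ) * v + mf / 2 = v + k ∨ (Nf : ℝ) * v + mf / 2 = -v + k) ∧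
      ∃ k : ℤ, (Ng : ℝ) * v + mg / 2 = v + k ∨ (Ng : ℝ) * v + mg / 2 = -v + k := by
  obtain ⟨a, ha⟩ := Int.even_or_odd' Nf
  obtain ⟨b, hb⟩ := Int.even_or_odd' Ng
  obtain ⟨c, hc⟩ := Int.even_or_odd' mf
  obtain ⟨d, hd⟩ := Int.even_or_odd' mg
  have hquarter : ∀ (a m : ℤ), ∃ k : ℤ, (2 * (a : ℝ) + 1) * (1 / 4) + m / 2 = 1 / 4 + k ∨
      (2 * (a : ℝ) + 1) * (1 / 4) + m / 2 = -(1 / 4) + k := by
    intro a m
    obtain ⟨e, he | he⟩ := Int.even_or_odd' (a + m)
    · refine ⟨e, Or.inl ?_⟩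
      have : (a : ℝ) + m = 2 * e := by exact_mod_cast he
      linarith
    · refine ⟨e + 1, Or.inr ?_⟩
      have : (a : ℝ) + m = 2 * e + 1 := by exact_mod_cast he
      push_cast
      linarith
  rcases ha with rfl | rfl <;> rcases hb with rfl | rfl
  · -- both even
    rcases hc with rfl | rfl <;> rcases hd with rfl | rfl
    · exact ⟨0, ⟨c, Or.inl (by push_cast; ring)⟩, ⟨d, Or.inl (by push_cast; ring)⟩⟩
    · exfalso
      have : 2 * (j - d - 2 * b * c + c + a * (2 * d + 1)) = 1 := by linear_combination h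
      omega
    · exfalso
      have : 2 * (j - d - b * (2 * c + 1) + c + 2 * a * d) = -1 := by linear_combination h
      omega
    · exact ⟨1 / 2, ⟨a + c, Or.inl (by push_cast; ring)⟩, ⟨b + d, Or.inl (by push_cast; ring)⟩⟩
  · -- Nf even, Ng odd
    rcases hd with rfl | rfl
    · rcases hc with rfl | rfl
      · exact ⟨0, ⟨c, Or.inl (by push_cast; ring)⟩, ⟨d, Or.inl (by push_cast; ring)⟩⟩
      · exact ⟨1 / 2, ⟨a + c, Or.inl (by push_cast; ring)⟩,
          ⟨b + d, Or.inl (by push_cast; ring)⟩⟩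
    · exfalso
      have : 2 * (j - d - b * mf + a * (2 * d + 1)) = 1 := by linear_combination h
      omega
  · -- Nf odd, Ng even
    rcases hc with rfl | rfl
    · rcases hd with rfl | rfl
      · exact ⟨0, ⟨c, Or.inl (by push_cast; ring)⟩, ⟨d, Or.inl (by push_cast; ring)⟩⟩
      · exact ⟨1 / 2, ⟨a + c, Or.inl (by push_cast; ring)⟩,
          ⟨b + d, Or.inl (by push_cast; ring)⟩⟩
    · exfalso
      have : 2 * (j - b * (2 * c + 1) + c + a * mg) = -1 := by linear_combination h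
      omega
  · refine ⟨1 / 4, ?_, ?_⟩
    · obtain ⟨k, hk⟩ := hquarter a mf
      refine ⟨k, ?_⟩
      push_cast
      exact hk
    · obtain ⟨k, hk⟩ := hquarter b mg
      refine ⟨k, ?_⟩
      push_cast
      exact hk

/-- Conjugation by `t ↦ -t`. -/
def negConj (F : ℝ ≃o ℝ) : ℝ ≃o ℝ where
  toFun y := -F (-y)
  invFun y := -F.symm (-y)
  left_inv y := by simp
  right_inv y := by simp
  map_rel_iff' := by intro a b; simp

/-- PART F4: the endgame. -/
theorem endgame {f g : ℝ → ℝ} {y₁ y₂ s₁ s₂ : ℝ} (R : Red f g y₁ y₂ s₁ s₂) {Q : ℝ → ℝ}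
    (hQ : Continuous Q) (hQm : ∀ t, Q t ∈ Icc (0 : ℝ) 1) (hper : ∀ t, Q (t + 1) = Q t)
    (hev : ∀ t, Q (-t) = Q t)
    (hlo : ∃ t, Q t ≤ y₁) (hhi : ∃ t, y₂ ≤ Q t)
    (rig : ∀ δ₁ δ₂ : ℝ ≃o ℝ, (∀ t, Q (δ₁ t) = Q (δ₂ t)) → ∃ j : ℤ, ∀ t, δ₂ t = δ₁ t + j)
    (F G : ℝ ≃o ℝ) (Nf Ng : ℕ) (hNf : 1 ≤ Nf) (hNg : 1 ≤ Ng)
    (hF : ∀ t, Q (F t) = f (Q t)) (hG : ∀ t, Q (G t) = g (Q t))
    (hF1 : ∀ t, F (t + 1) = F t + Nf) (hG1 : ∀ t, G (t + 1) = G t + Ng) : False := by
  have hy : y₁ < y₂ := R.y1s1.trans (R.s1s2.trans R.s2y2)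
  -- symmetry of the lifts
  obtain ⟨mf, hmf⟩ : ∃ mf : ℤ, ∀ t, F (-t) = -F t + mf := by
    obtain ⟨j, hj⟩ := rig F (negConj F) fun t => by
      show Q (F t) = Q (-F (-t))
      rw [hev, hF, hF, hev]
    refine ⟨-j, fun t => ?_⟩
    have h1 : -F (-t) = F t + j := hj t
    push_cast
    linarith
  obtain ⟨mg, hmg⟩ : ∃ mg : ℤ, ∀ t, G (-t) = -G t + mg := by
    obtain ⟨j, hj⟩ := rig G (negConj G) fun t => by
      show Q (G t) = Q (-G (-t))
      rw [hev, hG, hG, hev]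
    refine ⟨-j, fun t => ?_⟩
    have h1 : -G (-t) = G t + j := hj t
    push_cast
    linarith
  obtain ⟨j, hj⟩ : ∃ j : ℤ, ∀ t, G (F t) = F (G t) + j := by
    obtain ⟨j, hj⟩ := rig (G.trans F) (F.trans G) fun t => by
      show Q (F (G t)) = Q (G (F t))
      rw [hF, hG, hG, hF, R.comm]
    exact ⟨j, hj⟩
  have hFk := deg_int (F := F) hF1
  have hGk := deg_int (F := G) hG1
  have hjrel : (2 : ℝ) * j = mg + Ng * mf - mf - Nf * mg := by
    have h1 := hj (-0)
    rw [hmf, hmg, add_comm (-F 0) (mf : ℝ), add_comm (-G 0) (mg : ℝ)] at h1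
    rw [add_comm (mf : ℝ), add_comm (mg : ℝ), hGk, hFk, hmg, hmf, hj 0] at h1
    linarith
  have hjrelZ : 2 * j = mg + (Ng : ℤ) * mf - mf - (Nf : ℤ) * mg := by exact_mod_cast hjrel
  -- the composition
  set E : ℝ → ℝ := fun t => F (G t) with hE
  have hEm : StrictMono E := F.strictMono.comp G.strictMono
  have hEc : Continuous E := F.continuous.comp G.continuous
  set N : ℕ := Nf * Ng with hN
  have hE1 : ∀ t, E (t + 1) = E t + N := by
    intro t
    have h1 := hFk (Ng : ℤ) (G t)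
    push_cast at h1
    rw [hE]
    show F (G (t + 1)) = F (G t) + ((Nf * Ng : ℕ) : ℝ)
    rw [hG1, h1]
    push_cast
    ring
  have hEk := deg_int (F := E) hE1
  have hEQ : ∀ t, Q (E t) = f (g (Q t)) := by
    intro t
    show Q (F (G t)) = _
    rw [hF, hG]
  set mE : ℝ := mf + Nf * mg with hmE
  have hEneg : ∀ t, E (-t) = -E t + mE := by
    intro t
    show F (G (-t)) = -F (G t) + mE
    rw [hmg, hFk, hmf, hmE]
    ring
  -- the degree is at least two
  have hN1 : 1 ≤ N := Nat.mul_pos hNf hNg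
  have hN2 : 2 ≤ N := by
    by_contra hcon
    have hN1' : N = 1 := by omega
    obtain ⟨p, hp⟩ := hlo
    obtain ⟨q, hq⟩ := hhi
    have hA : Alt y₁ y₂ Q p (p + 1) 1 := by
      refine eg_alt_one hy ⟨p, ⟨le_rfl, by linarith⟩, hp⟩
        ⟨q + ((-⌊q - p⌋ : ℤ) : ℝ), ⟨?_, ?_⟩, ?_⟩
      · have := Int.floor_le (q - p)
        push_cast
        linarith
      · have := Int.lt_floor_add_one (q - p)
        push_cast
        linarith
      · rw [eg_per_int hper]; exact hq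
    refine no_bounded R hQ hper hEm hEQ (C := 1) hA fun n => ?_
    have h1 : ∀ (n : ℕ) (t : ℝ), E^[n] (t + 1) = E^[n] t + 1 := by
      intro n
      induction n with
      | zero => intro t; rfl
      | succ n ih =>
        intro t
        rw [Function.iterate_succ_apply', Function.iterate_succ_apply', ih, hE1, hN1']
        norm_num
    rw [h1]
    linarith
  have hN2r : (2 : ℝ) ≤ N := by exact_mod_cast hN2
  have hNr : (N : ℝ) = Nf * Ng := by rw [hN]; push_cast; ring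
  -- the semiconjugacy
  obtain ⟨ω₀, hωc, hωm, hω1, hωE⟩ := exists_omega hEc hEm.monotone hN2 hE1
  set c : ℝ := mE / (2 * (N - 1)) with hc
  have hcN : ((N : ℝ) - 1) * c = mE / 2 := by
    rw [hc]
    have : (N : ℝ) - 1 ≠ 0 := by linarith
    field_simp
  set ω : ℝ → ℝ := fun t => ω₀ t - c with hω
  have hωc' : Continuous ω := hωc.sub continuous_const
  have hωm' : Monotone ω := fun s t hst => sub_le_sub_right (hωm hst) _
  have hω1' : ∀ t, ω (t + 1) = ω t + 1 := fun t => by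
    show ω₀ (t + 1) - c = ω₀ t - c + 1
    rw [hω1]; ring
  have hωk : ∀ (k : ℤ) (t : ℝ), ω (t + k) = ω t + k := fun k t => by
    rw [deg_int (F := ω) hω1' k t, one_mul]
  have hωE' : ∀ t, ω (E t) = N * ω t + mE / 2 := by
    intro t
    show ω₀ (E t) - c = N * (ω₀ t - c) + mE / 2
    rw [hωE, ← hcN]; ring
  -- bounded distance to the identity
  obtain ⟨C, hC⟩ := bdd_of_periodic (D := fun t => ω t - t) (by fun_prop) (fun t => by
    show ω (t + 1) - (t + 1) = ω t - t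
    rw [hω1']; ring)
  -- oddness
  have hodd : ∀ t, ω (-t) = -ω t := by
    have h1 := eq_zero_of_expand (D := fun t => ω (-t) + ω t) (E := E) hN2r (by fun_prop)
      (fun t => by
        show ω (-(t + 1)) + ω (t + 1) = ω (-t) + ω t
        have h2 : ω (-t) = ω (-(t + 1)) + 1 := by
          rw [← hω1']; congr 1; ring
        rw [hω1', h2]; ring)
      (fun t => by
        show ω (-E t) + ω (E t) = N * (ω (-t) + ω t)
        have h2 : ∃ k : ℤ, (k : ℝ) = mE := ⟨mf + Nf * mg, by rw [hmE]; push_cast; ring⟩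
        obtain ⟨k, hk⟩ := h2
        have h3 : E (-t) = -E t + k := by rw [hEneg, hk]
        have h4 : ω (E (-t)) = ω (-E t) + k := by rw [h3, hωk]
        rw [hωE'] at h4
        rw [hωE', hk] at *
        linarith)
    intro t
    have h2 : ω (-t) + ω t = 0 := h1 t
    linarith
  have hωF : ∀ t, ω (F t) = Nf * ω t + mf / 2 := by
    have h1 := eq_zero_of_expand (D := fun t => ω (F t) - Nf * ω t - mf / 2) (E := E) hN2r
      (((hωc'.comp F.continuous).sub (continuous_const.mul hωc')).sub continuous_const)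
      (fun t => by
        show ω (F (t + 1)) - Nf * ω (t + 1) - mf / 2 = ω (F t) - Nf * ω t - mf / 2
        have h2 := hωk (Nf : ℤ) (F t)
        push_cast at h2
        rw [hF1, hω1', h2]; ring)
      (fun t => by
        show ω (F (E t)) - Nf * ω (E t) - mf / 2 = N * (ω (F t) - Nf * ω t - mf / 2)
        have h2 : E (F t) = F (E t) + ((Nf * j : ℤ) : ℝ) := by
          show F (G (F t)) = F (F (G t)) + _
          rw [hj, hFk]; push_cast; ring
        have h3 : ω (E (F t)) = ω (F (E t)) + ((Nf * j : ℤ) : ℝ) := by rw [h2, hωk]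
        rw [hωE'] at h3
        push_cast at h3
        rw [hωE']
        have h4 : ω (F (E t)) = N * ω (F t) + mE / 2 - Nf * j := by linarith
        rw [h4, hmE, hNr]
        linear_combination (-(Nf : ℝ) / 2) * hjrel)
    intro t
    have h2 : ω (F t) - Nf * ω t - mf / 2 = 0 := h1 t
    linarith
  have hωG : ∀ t, ω (G t) = Ng * ω t + mg / 2 := by
    have h1 := eq_zero_of_expand (D := fun t => ω (G t) - Ng * ω t - mg / 2) (E := E) hN2r
      (((hωc'.comp G.continuous).sub (continuous_const.mul hωc')).sub continuous_const)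
      (fun t => by
        show ω (G (t + 1)) - Ng * ω (t + 1) - mg / 2 = ω (G t) - Ng * ω t - mg / 2
        have h2 := hωk (Ng : ℤ) (G t)
        push_cast at h2
        rw [hG1, hω1', h2]; ring)
      (fun t => by
        show ω (G (E t)) - Ng * ω (E t) - mg / 2 = N * (ω (G t) - Ng * ω t - mg / 2)
        have h2 : G (E t) = E (G t) + ((j : ℤ) : ℝ) := by
          show G (F (G t)) = F (G (G t)) + _
          rw [hj]
        have h3 : ω (G (E t)) = ω (E (G t)) + j := by rw [h2, hωk]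
        rw [hωE'] at h3
        rw [hωE', h3, hmE, hNr]
        linear_combination (1 / 2 : ℝ) * hjrel)
    intro t
    have h2 : ω (G t) - Ng * ω t - mg / 2 = 0 := h1 t
    linarith
  -- the invariant value
  obtain ⟨v, ⟨kf, hkf⟩, ⟨kg, hkg⟩⟩ := parity Nf Ng mf mg j hjrelZ
  -- the fibre
  have hCt : ∀ t, ω t = v → t ∈ Icc (v - C) (v + C) := by
    intro t ht
    have h1 : |ω t - t| ≤ C := hC t
    rw [ht, abs_le] at h1
    exact ⟨by linarith [h1.2], by linarith [h1.1]⟩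
  have hZc : IsCompact {t | ω t = v} := by
    have hcl : IsClosed {t | ω t = v} := isClosed_eq hωc' continuous_const
    exact isCompact_Icc.of_isClosed_subset hcl hCt
  have hZn : {t | ω t = v}.Nonempty := by
    have h1 : |ω (v - C) - (v - C)| ≤ C := hC (v - C)
    have h2 : |ω (v + C) - (v + C)| ≤ C := hC (v + C)
    rw [abs_le] at h1 h2
    have hC0 : 0 ≤ C := (abs_nonneg _).trans (hC 0)
    obtain ⟨t, -, ht⟩ := intermediate_value_Icc (f := ω) (a := v - C) (b := v + C) (by linarith)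
      hωc'.continuousOn (show v ∈ Icc (ω (v - C)) (ω (v + C)) from
        ⟨by linarith [h1.2], by linarith [h2.1]⟩)
    exact ⟨t, ht⟩
  obtain ⟨z₁, hz₁, hz₁min⟩ := hZc.exists_isLeast hZn
  obtain ⟨z₂, hz₂, hz₂max⟩ := hZc.exists_isGreatest hZn
  have hz₁v : ω z₁ = v := hz₁
  have hz₂v : ω z₂ = v := hz₂
  have hzz : z₁ ≤ z₂ := hz₁min hz₂
  have hZ : ∀ t ∈ Icc z₁ z₂, ω t = v := fun t ht =>
    le_antisymm (hz₂v ▸ hωm' ht.2) (hz₁v ▸ hωm' ht.1)
  have hZ' : ∀ t, ω t = v → t ∈ Icc z₁ z₂ := fun t ht => ⟨hz₁min ht, hz₂max ht⟩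
  -- the image of the fibre is invariant
  have hinv : ∀ (Φ : ℝ ≃o ℝ) (q : ℝ → ℝ) (M m : ℝ), (∀ t, Q (Φ t) = q (Q t)) →
      (∀ t, ω (Φ t) = M * ω t + m / 2) →
      (∃ k : ℤ, M * v + m / 2 = v + k ∨ M * v + m / 2 = -v + k) →
      MapsTo q (Q '' Icc z₁ z₂) (Q '' Icc z₁ z₂) := by
    rintro Φ q M m hΦ hωΦ ⟨k, hk⟩ _ ⟨z, hz, rfl⟩
    rw [← hΦ]
    have h1 := hωΦ z
    rw [hZ z hz] at h1
    have h2 : ω (Φ z + ((-k : ℤ) : ℝ)) = ω (Φ z) + ((-k : ℤ) : ℝ) := hωk _ _
    rcases hk with hk | hk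
    · refine ⟨Φ z + ((-k : ℤ) : ℝ), hZ' _ ?_, eg_per_int hper _ _⟩
      rw [h2, h1, hk]; push_cast; ring
    · refine ⟨-(Φ z + ((-k : ℤ) : ℝ)), hZ' _ ?_, ?_⟩
      · rw [hodd, h2, h1, hk]; push_cast; ring
      · rw [hev]; exact eg_per_int hper _ _
  have hImg := hQ.continuousOn.image_Icc (a := z₁) (b := z₂) hzz
  have hfI := hinv F f Nf mf hF hωF ⟨kf, hkf⟩
  have hgI := hinv G g Ng mg hG hωG ⟨kg, hkg⟩
  set c₁ := sInf (Q '' Icc z₁ z₂) with hc₁
  set c₂ := sSup (Q '' Icc z₁ z₂) with hc₂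
  have hne : (Q '' Icc z₁ z₂).Nonempty := ⟨_, z₁, left_mem_Icc.mpr hzz, rfl⟩
  rw [hImg] at hfI hgI hne
  have hcc : c₁ ≤ c₂ := nonempty_Icc.mp hne
  have hc1m : c₁ ∈ Q '' Icc z₁ z₂ := by rw [hImg]; exact left_mem_Icc.mpr hcc
  have hc2m : c₂ ∈ Q '' Icc z₁ z₂ := by rw [hImg]; exact right_mem_Icc.mpr hcc
  have h0c : 0 ≤ c₁ := by
    obtain ⟨z, -, hz⟩ := hc1m
    rw [← hz]; exact (hQm z).1
  have hc1 : c₂ ≤ 1 := by
    obtain ⟨z, -, hz⟩ := hc2m
    rw [← hz]; exact (hQm z).2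
  obtain ⟨e1, e2⟩ := R.minimal c₁ c₂ h0c hcc hc1 hfI hgI
  rw [e1, e2] at hImg
  have hy1 : y₁ ∈ Q '' Icc z₁ z₂ := by
    rw [hImg]; exact ⟨R.y1, hy.le.trans R.y2⟩
  have hy2 : y₂ ∈ Q '' Icc z₁ z₂ := by
    rw [hImg]; exact ⟨R.y1.trans hy.le, R.y2⟩
  have hA : Alt y₁ y₂ Q z₁ z₂ 1 := by
    obtain ⟨p, hp, hpQ⟩ := hy1
    obtain ⟨q, hq, hqQ⟩ := hy2
    exact eg_alt_one hy ⟨p, hp, hpQ.le⟩ ⟨q, hq, hqQ.ge⟩
  refine no_bounded R hQ hper hEm hEQ (C := 2 * C) hA fun n => ?_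
  have h1 : ω (E^[n] z₁) = ω (E^[n] z₂) := by
    induction n with
    | zero => exact hz₁v.trans hz₂v.symm
    | succ n ih =>
      rw [Function.iterate_succ_apply', Function.iterate_succ_apply', hωE', hωE', ih]
  have h2 : |ω (E^[n] z₁) - E^[n] z₁| ≤ C := hC _
  have h3 : |ω (E^[n] z₂) - E^[n] z₂| ≤ C := hC _
  rw [abs_le] at h2 h3
  linarith [h2.1, h2.2, h3.1, h3.2]

end Pool.Agent.CFP
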