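import Pool.Agent.Lib_MP_eedf80_an.Rigid

/-!
PART F2: extension of long windows to homeomorphisms of the line.
-/

set_option autoImplicit false

namespace Pool.Agent.CFP

open Set Function Filter Topology

section F

variable {y₁ y₂ : ℝ} {Q Q₁ : ℝ → ℝ}

/-- The quasiperiodic extension of a map of `[α, α + 1]`. -/
noncomputable def ext (γ : ℝ → ℝ) (α : ℝ) (N : ℕ) (z : ℝ) : ℝ :=
  γ (α + Int.fract (z - α)) + N * ⌊z - α⌋

theorem ext_strictMono {γ : ℝ → ℝ} {α : ℝ} {N : ℕ} (hm : StrictMonoOn γ (Icc α (α + 1)))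
    (hN : γ (α + 1) = γ α + N) (hN0 : 1 ≤ N) : StrictMono (ext γ α N) := by
  have hNr : (1 : ℝ) ≤ N := by exact_mod_cast hN0
  have hmem : ∀ x : ℝ, α + Int.fract x ∈ Icc α (α + 1) := fun x =>
    ⟨by have := Int.fract_nonneg x; linarith, by have := Int.fract_lt_one x; linarith⟩
  intro x y hxy
  unfold ext
  have hfl : ⌊x - α⌋ ≤ ⌊y - α⌋ := Int.floor_le_floor (by linarith)
  rcases hfl.eq_or_lt with heq | hlt
  · rw [heq]
    have : Int.fract (x - α) < Int.fract (y - α) := by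
      unfold Int.fract; rw [heq]; linarith
    have := hm (hmem (x - α)) (hmem (y - α)) (by linarith)
    linarith
  · have h1 : γ (α + Int.fract (x - α)) < γ (α + 1) :=
      hm (hmem _) ⟨by linarith, le_rfl⟩ (by have := Int.fract_lt_one (x - α); linarith)
    have h2 : γ α ≤ γ (α + Int.fract (y - α)) :=
      hm.monotoneOn ⟨le_rfl, by linarith⟩ (hmem _) (by
        have := Int.fract_nonneg (y - α); linarith)
    have h3 : ((⌊x - α⌋ : ℤ) : ℝ) + 1 ≤ ((⌊y - α⌋ : ℤ) : ℝ) := by exact_mod_cast hlt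
    have h4 : (N : ℝ) * (((⌊x - α⌋ : ℤ) : ℝ) + 1) ≤ N * ((⌊y - α⌋ : ℤ) : ℝ) :=
      mul_le_mul_of_nonneg_left h3 (by positivity)
    rw [hN] at h1
    linarith

theorem ext_surjective {γ : ℝ → ℝ} {α : ℝ} {N : ℕ} (hc : ContinuousOn γ (Icc α (α + 1)))
    (hN : γ (α + 1) = γ α + N) (hN0 : 1 ≤ N) : Surjective (ext γ α N) := by
  have hNr : (0 : ℝ) < N := by exact_mod_cast hN0
  intro y
  set n : ℤ := ⌊(y - γ α) / N⌋ with hn
  have h1 : (n : ℝ) ≤ (y - γ α) / N := Int.floor_le _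
  have h2 : (y - γ α) / N < n + 1 := Int.lt_floor_add_one _
  rw [le_div_iff₀ hNr] at h1
  rw [div_lt_iff₀ hNr] at h2
  have h3 : y - n * N ∈ Ico (γ α) (γ (α + 1)) := ⟨by linarith, by rw [hN]; linarith⟩
  obtain ⟨w, hw, hwy⟩ := intermediate_value_Ico (by linarith) hc h3
  refine ⟨w + n, ?_⟩
  have h4 : ⌊w + n - α⌋ = n := by
    rw [Int.floor_eq_iff]
    have := hw.1; have := hw.2
    constructor <;> linarith
  have h5 : α + Int.fract (w + n - α) = w := by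
    unfold Int.fract; rw [h4]; ring
  unfold ext
  rw [h4, h5, hwy]
  ring

theorem ext_add_one (γ : ℝ → ℝ) (α : ℝ) (N : ℕ) (z : ℝ) :
    ext γ α N (z + 1) = ext γ α N z + N := by
  unfold ext
  have h1 : z + 1 - α = (z - α) + 1 := by ring
  rw [h1, Int.fract_add_one, Int.floor_add_one]
  push_cast; ring

/-- PART F2. -/
theorem extend (hy : y₁ < y₂) (hM : MinProp y₁ y₂ Q) (hper : ∀ t, Q₁ (t + 1) = Q₁ t)
    (hperQ : ∀ t, Q (t + 1) = Q t)
    (hlo : ∃ t, Q₁ t ≤ y₁) (hhi : ∃ t, y₂ ≤ Q₁ t)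
    (hw : ∀ L : ℝ, ∃ (α : ℝ) (γ : ℝ → ℝ), IncOn γ α (α + L) ∧
      ∀ z ∈ Icc α (α + L), Q (γ z) = Q₁ z) :
    ∃ (F : ℝ ≃o ℝ) (N : ℕ), 1 ≤ N ∧ (∀ z, Q (F z) = Q₁ z) ∧ ∀ z, F (z + 1) = F z + N := by
  have _ := hy
  obtain ⟨L₀, hL₀, hM⟩ := hM
  obtain ⟨tl, htl⟩ := hlo
  obtain ⟨th, hth⟩ := hhi
  obtain ⟨α, γ, ⟨hm, hc⟩, hγ⟩ := hw (L₀ + 2)
  have hL : (2 : ℝ) ≤ L₀ := by exact_mod_cast hL₀
  have hsub : ∀ u ∈ Icc α (α + (L₀ + 1)), u ∈ Icc α (α + (L₀ + 2)) ∧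
      u + 1 ∈ Icc α (α + (L₀ + 2)) := fun u hu =>
    ⟨⟨hu.1, by linarith [hu.2]⟩, ⟨by linarith [hu.1], by linarith [hu.2]⟩⟩
  obtain ⟨N, hN⟩ := hM α (α + (L₀ + 1)) γ (fun u => γ (u + 1))
    ⟨hm.mono fun u hu => (hsub u hu).1, hc.mono fun u hu => (hsub u hu).1⟩
    ⟨fun u hu v hv huv => hm (hsub u hu).2 (hsub v hv).2 (by linarith),
      hc.comp (by fun_prop) fun u hu => (hsub u hu).2⟩
    (fun u hu => by
      show Q (γ u) = Q (γ (u + 1))
      rw [hγ _ (hsub u hu).1, hγ _ (hsub u hu).2, hper])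
    (fun u hu => hm (hsub u hu).1 (hsub u hu).2 (by linarith))
    (fun i => α + i)
    (fun i hi => by
      have : (i : ℝ) ≤ L₀ := by exact_mod_cast hi
      exact ⟨by have := Nat.cast_nonneg (α := ℝ) i; linarith, by linarith⟩)
    (fun i _ => by
      show γ (α + ((i + 1 : ℕ) : ℝ)) = γ (α + i + 1)
      push_cast; rw [add_assoc])
    (by
      obtain ⟨u, hu1, hu2, hu3⟩ := exists_in_unit hper α tl
      obtain ⟨v, hv1, hv2, hv3⟩ := exists_in_unit hper (α + 1) th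
      refine ⟨u, v, by simpa using hu1, by linarith, by linarith, ?_, ?_⟩
      · rw [hγ u ⟨hu1, by linarith⟩, hu3]; exact htl
      · rw [hγ v ⟨by linarith, by linarith⟩, hv3]; exact hth)
  have hα : α ∈ Icc α (α + ((L₀ : ℝ) + 2)) := ⟨le_rfl, by linarith⟩
  have hα1 : α + 1 ∈ Icc α (α + ((L₀ : ℝ) + 2)) := ⟨by linarith, by linarith⟩
  have hNα : γ (α + 1) = γ α + N := hN α ⟨le_rfl, by linarith⟩
  have hN1 : 1 ≤ N := by
    have h1 : γ α < γ (α + 1) := hm hα hα1 (by linarith)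
    rw [hNα] at h1
    have h2 : (0 : ℝ) < N := by linarith
    exact_mod_cast h2
  have hsub1 : Icc α (α + 1) ⊆ Icc α (α + ((L₀ : ℝ) + 2)) :=
    Icc_subset_Icc le_rfl (by linarith)
  have hsm := ext_strictMono (hm.mono hsub1) hNα hN1
  have hsurj := ext_surjective (hc.mono hsub1) hNα hN1
  refine ⟨hsm.orderIsoOfSurjective _ hsurj, N, hN1, fun z => ?_, fun z => ?_⟩
  · show Q (ext γ α N z) = Q₁ z
    unfold ext
    have h1 : (N : ℝ) * (⌊z - α⌋ : ℤ) = ((N * ⌊z - α⌋ : ℤ) : ℝ) := by push_cast; ring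
    rw [h1, int_values hperQ, hγ _ (hsub1 ⟨by have := Int.fract_nonneg (z - α); linarith,
      by have := Int.fract_lt_one (z - α); linarith⟩)]
    have h2 : α + Int.fract (z - α) = z + ((-⌊z - α⌋ : ℤ) : ℝ) := by
      have := Int.floor_add_fract (z - α)
      push_cast; linarith
    rw [h2, int_values hper]
  · exact ext_add_one γ α N z

end F

end Pool.Agent.CFP
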