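import Pool.Agent.Lib_MP_eedf80_an.Defs

set_option autoImplicit false

/-! PART E7: gluing matched letters to a homeomorphism of the line. -/

namespace Pool.Agent.CFP

open Set Function

namespace Glue

theorem same_fun {P : ℝ → ℝ} {a b c e : ℝ} (hab : a ≤ b) (hce : c ≤ e) (h : Same P a b c e) :
    ∃ g : ℝ → ℝ, StrictMonoOn g (Icc a b) ∧ (∀ u ∈ Icc a b, g u ∈ Icc c e) ∧ g a = c ∧ g b = e ∧
      (∀ y ∈ Icc c e, ∃ u ∈ Icc a b, g u = y) ∧ ∀ u ∈ Icc a b, P (g u) = P u := by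
  obtain ⟨θ, hθ⟩ := h
  classical
  set g : ℝ → ℝ := fun u => if hu : u ∈ Icc a b then (θ ⟨u, hu⟩ : ℝ) else 0 with hg
  have hgu : ∀ (u : ℝ) (hu : u ∈ Icc a b), g u = (θ ⟨u, hu⟩ : ℝ) := by
    intro u hu; simp only [hg, dif_pos hu]
  have ha : a ∈ Icc a b := ⟨le_rfl, hab⟩
  have hb : b ∈ Icc a b := ⟨hab, le_rfl⟩
  refine ⟨g, ?_, ?_, ?_, ?_, ?_, ?_⟩
  · intro u hu v hv huv
    rw [hgu u hu, hgu v hv]
    have : (⟨u, hu⟩ : Icc a b) < ⟨v, hv⟩ := huv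
    exact θ.strictMono this
  · intro u hu
    rw [hgu u hu]; exact (θ ⟨u, hu⟩).2
  · rw [hgu a ha]
    apply le_antisymm
    · have h1 : (⟨a, ha⟩ : Icc a b) ≤ θ.symm ⟨c, ⟨le_rfl, hce⟩⟩ := (θ.symm ⟨c, _⟩).2.1
      have h2 := θ.monotone h1
      rw [θ.apply_symm_apply] at h2
      exact h2
    · exact (θ ⟨a, ha⟩).2.1
  · rw [hgu b hb]
    apply le_antisymm
    · exact (θ ⟨b, hb⟩).2.2
    · have h1 : θ.symm ⟨e, ⟨hce, le_rfl⟩⟩ ≤ (⟨b, hb⟩ : Icc a b) := (θ.symm ⟨e, _⟩).2.2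
      have h2 := θ.monotone h1
      rw [θ.apply_symm_apply] at h2
      exact h2
  · intro y hy
    refine ⟨(θ.symm ⟨y, hy⟩ : ℝ), (θ.symm ⟨y, hy⟩).2, ?_⟩
    rw [hgu _ (θ.symm ⟨y, hy⟩).2]
    have : θ (⟨(θ.symm ⟨y, hy⟩ : ℝ), (θ.symm ⟨y, hy⟩).2⟩ : Icc a b) = ⟨y, hy⟩ :=
      θ.apply_symm_apply ⟨y, hy⟩
    rw [this]
  · intro u hu
    rw [hgu u hu]; exact hθ ⟨u, hu⟩

theorem exists_ix {d : ℕ → ℝ} (hm : StrictMono d) (ht : Filter.Tendsto d Filter.atTop Filter.atTop)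
    {i₀ : ℕ} {u : ℝ} (hu : d i₀ ≤ u) : ∃ i, i₀ ≤ i ∧ d i ≤ u ∧ u < d (i + 1) := by
  have hex : ∃ j, u < d j := (ht.eventually_gt_atTop u).exists
  classical
  set j := Nat.find hex with hj
  have hj1 : u < d j := Nat.find_spec hex
  have hj0 : i₀ < j := by
    rw [← hm.lt_iff_lt]; exact lt_of_le_of_lt hu hj1
  refine ⟨j - 1, by omega, ?_, ?_⟩
  · by_contra hlt
    push Not at hlt
    have := Nat.find_min' hex hlt
    omega
  · have : j - 1 + 1 = j := by omega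
    rw [this]; exact hj1

theorem ix_unique {d : ℕ → ℝ} (hm : StrictMono d) {u : ℝ} {i j : ℕ} (hi : d i ≤ u)
    (hi' : u < d (i + 1)) (hj : d j ≤ u) (hj' : u < d (j + 1)) : i = j := by
  have h1 : i < j + 1 := by rw [← hm.lt_iff_lt]; exact lt_of_le_of_lt hi hj'
  have h2 : j < i + 1 := by rw [← hm.lt_iff_lt]; exact lt_of_le_of_lt hj hi'
  omega

end Glue

open Glue

variable {y₁ y₂ : ℝ} {P : ℝ → ℝ}

/-- PART E7: gluing. -/
theorem Enum.glue (hP : Continuous P) {d : ℕ → ℝ} (hd : Enum y₁ y₂ P d) {p i₀ : ℕ} (hp : 1 ≤ p)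
    (hper : ∀ i, i₀ ≤ i → Same P (d i) (d (i + 1)) (d (i + p)) (d (i + p + 1))) :
    ∃ θ : ℝ ≃o ℝ, (∀ u, u < θ u) ∧ (∀ u, d i₀ ≤ u → P (θ u) = P u) ∧
      ∀ i, i₀ ≤ i → θ (d i) = d (i + p) := by
  classical
  have hm := hd.mono
  have ht := hd.top
  have hex : ∀ i, ∃ g : ℝ → ℝ, i₀ ≤ i → (StrictMonoOn g (Icc (d i) (d (i + 1))) ∧
      (∀ u ∈ Icc (d i) (d (i + 1)), g u ∈ Icc (d (i + p)) (d (i + p + 1))) ∧
      g (d i) = d (i + p) ∧ g (d (i + 1)) = d (i + p + 1) ∧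
      (∀ y ∈ Icc (d (i + p)) (d (i + p + 1)), ∃ u ∈ Icc (d i) (d (i + 1)), g u = y) ∧
      ∀ u ∈ Icc (d i) (d (i + 1)), P (g u) = P u) := by
    intro i
    by_cases hi : i₀ ≤ i
    · obtain ⟨g, hg⟩ := same_fun (hm.monotone (Nat.le_succ i)) (hm.monotone (Nat.le_succ (i + p)))
        (hper i hi)
      exact ⟨g, fun _ => hg⟩
    · exact ⟨fun _ => 0, fun h => absurd h hi⟩
  choose g hg using hex
  have hix : ∀ u, ∃ i, d i₀ ≤ u → (i₀ ≤ i ∧ d i ≤ u ∧ u < d (i + 1)) := by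
    intro u
    by_cases hu : d i₀ ≤ u
    · obtain ⟨i, hi⟩ := exists_ix hm ht hu
      exact ⟨i, fun _ => hi⟩
    · exact ⟨0, fun h => absurd h hu⟩
  choose k hk using hix
  set τ := d (i₀ + p) - d i₀ with hτ
  have hτ0 : 0 < τ := by
    have : d i₀ < d (i₀ + p) := hm (by omega)
    rw [hτ]; linarith
  set h : ℝ → ℝ := fun u => if d i₀ ≤ u then g (k u) u else u + τ with hh
  have h1 : ∀ u i, i₀ ≤ i → d i ≤ u → u < d (i + 1) → h u = g i u := by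
    intro u i hi hiu hiu'
    have hu : d i₀ ≤ u := (hm.monotone hi).trans hiu
    obtain ⟨a1, a2, a3⟩ := hk u hu
    have : k u = i := ix_unique hm a2 a3 hiu hiu'
    simp only [hh, if_pos hu, this]
  have h2 : ∀ u, u < d i₀ → h u = u + τ := by
    intro u hu
    simp only [hh, if_neg (not_le.2 hu)]
  -- bounds
  have h3 : ∀ u i, i₀ ≤ i → d i ≤ u → u < d (i + 1) → d (i + p) ≤ h u ∧ h u < d (i + p + 1) := by
    intro u i hi hiu hiu'
    rw [h1 u i hi hiu hiu']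
    obtain ⟨g1, g2, g3, g4, g5, g6⟩ := hg i hi
    refine ⟨(g2 u ⟨hiu, hiu'.le⟩).1, ?_⟩
    rw [← g4]
    exact g1 ⟨hiu, hiu'.le⟩ ⟨hm.monotone (Nat.le_succ i), le_rfl⟩ hiu'
  have hmono : StrictMono h := by
    intro u v huv
    rcases lt_or_ge v (d i₀) with hv | hv
    · rw [h2 u (huv.trans hv), h2 v hv]; linarith
    · obtain ⟨b1, b2, b3⟩ := hk v hv
      obtain ⟨b4, b5⟩ := h3 v (k v) b1 b2 b3
      rcases lt_or_ge u (d i₀) with hu | hu
      · rw [h2 u hu]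
        have h5 : d (i₀ + p) ≤ d (k v + p) := hm.monotone (by omega)
        have h6 : u + τ < d (i₀ + p) := by rw [hτ]; linarith
        linarith
      · obtain ⟨a1, a2, a3⟩ := hk u hu
        obtain ⟨a4, a5⟩ := h3 u (k u) a1 a2 a3
        have hle : k u ≤ k v := by
          have : k u < k v + 1 := by
            rw [← hm.lt_iff_lt]
            exact lt_of_le_of_lt a2 (huv.trans b3)
          omega
        rcases hle.lt_or_eq with hlt | heq
        · have h5 : d (k u + p + 1) ≤ d (k v + p) := hm.monotone (by omega)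
          linarith
        · rw [h1 u (k u) a1 a2 a3, h1 v (k v) b1 b2 b3, ← heq]
          obtain ⟨g1, _⟩ := hg (k u) a1
          refine g1 ⟨a2, a3.le⟩ ⟨a2.trans huv.le, ?_⟩ huv
          rw [heq]; exact b3.le
  have hsurj : Surjective h := by
    intro y
    rcases lt_or_ge y (d (i₀ + p)) with hy | hy
    · refine ⟨y - τ, ?_⟩
      rw [h2 (y - τ) (by rw [hτ]; linarith)]
      ring
    · obtain ⟨j, hj1, hj2, hj3⟩ := exists_ix hm ht hy
      obtain ⟨i, rfl⟩ : ∃ i, j = i + p := ⟨j - p, by omega⟩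
      have hi : i₀ ≤ i := by omega
      obtain ⟨g1, g2, g3, g4, g5, g6⟩ := hg i hi
      obtain ⟨u, hu, huy⟩ := g5 y ⟨hj2, hj3.le⟩
      have hu' : u < d (i + 1) := by
        rcases hu.2.lt_or_eq with h | h
        · exact h
        · rw [h, g4] at huy
          exact absurd hj3 (by rw [huy]; exact lt_irrefl _)
      exact ⟨u, by rw [h1 u i hi hu.1 hu']; exact huy⟩
  refine ⟨StrictMono.orderIsoOfSurjective h hmono hsurj, fun u => ?_, fun u hu => ?_, fun i hi => ?_⟩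
  · show u < h u
    rcases lt_or_ge u (d i₀) with hu | hu
    · rw [h2 u hu]; linarith
    · obtain ⟨a1, a2, a3⟩ := hk u hu
      obtain ⟨a4, a5⟩ := h3 u (k u) a1 a2 a3
      have h5 : d (k u + 1) ≤ d (k u + p) := hm.monotone (by omega)
      linarith
  · show P (h u) = P u
    obtain ⟨a1, a2, a3⟩ := hk u hu
    rw [h1 u (k u) a1 a2 a3]
    obtain ⟨g1, g2, g3, g4, g5, g6⟩ := hg (k u) a1
    exact g6 u ⟨a2, a3.le⟩
  · show h (d i) = d (i + p)
    rw [h1 (d i) i hi le_rfl (hm (Nat.lt_succ_self i))]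
    exact (hg i hi).2.2.1

end Pool.Agent.CFP
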