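import Pool.Agent.Lib_MP_eedf80_an.Basic
import Pool.Agent.Lib_MP_eedf80_an.Sides

/-!
PART L0: construction of the leaf.
-/

set_option autoImplicit false

namespace Pool.Agent.CFP

open Set Function Filter Topology

/-! #### Lifting along a homeomorphism with an expanding right germ -/

section Lift

variable {H : ℝ ≃o ℝ}

theorem L0_le_H (H0 : ∀ u ≤ 0, H u = u) (Hp : ∀ u > 0, u < H u) (u : ℝ) : u ≤ H u := by
  rcases le_or_gt u 0 with h | h
  · rw [H0 u h]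
  · exact (Hp u h).le

theorem L0_symm_le (H0 : ∀ u ≤ 0, H u = u) (Hp : ∀ u > 0, u < H u) (u : ℝ) : H.symm u ≤ u := by
  rw [OrderIso.symm_apply_le]
  exact L0_le_H H0 Hp u

theorem L0_iter_anti (H0 : ∀ u ≤ 0, H u = u) (Hp : ∀ u > 0, u < H u) (u : ℝ) :
    Antitone (fun n => (H.symm)^[n] u) := by
  apply antitone_nat_of_succ_le
  intro n
  rw [iterate_succ_apply']
  exact L0_symm_le H0 Hp _

theorem L0_small (H0 : ∀ u ≤ 0, H u = u) (Hp : ∀ u > 0, u < H u) (u : ℝ) {ε : ℝ} (hε : 0 < ε) :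
    ∃ n, (H.symm)^[n] u ≤ ε := by
  by_contra hcon
  push Not at hcon
  have hanti := L0_iter_anti H0 Hp u
  have hbdd : BddBelow (range fun n => (H.symm)^[n] u) := ⟨ε, by
    rintro _ ⟨n, rfl⟩; exact (hcon n).le⟩
  have ht := tendsto_atTop_ciInf hanti hbdd
  have hfix := isFixedPt_of_tendsto_iterate ht H.symm.continuous.continuousAt
  have hge : ε ≤ ⨅ n, (H.symm)^[n] u := le_ciInf fun n => (hcon n).le
  have h1 := Hp _ (lt_of_lt_of_le hε hge)
  have h2 : H (⨅ n, (H.symm)^[n] u) = ⨅ n, (H.symm)^[n] u := by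
    have := congrArg H hfix.eq
    rw [OrderIso.apply_symm_apply] at this
    exact this.symm
  rw [h2] at h1
  exact lt_irrefl _ h1

theorem L0_symm_iter (n : ℕ) (u : ℝ) : (H.symm)^[n] (H^[n] u) = u :=
  (LeftInverse.iterate (fun x => H.symm_apply_apply x) n) u

theorem L0_iter_symm (n : ℕ) (u : ℝ) : H^[n] ((H.symm)^[n] u) = u :=
  (LeftInverse.iterate (fun x => H.apply_symm_apply x) n) u

theorem L0_lift (H0 : ∀ u ≤ 0, H u = u) (Hp : ∀ u > 0, u < H u) (a b : ℝ → ℝ) {ε : ℝ}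
    (hε : 0 < ε) (h : ∀ v ≤ ε, a (H v) = b (a v)) :
    ∃ L : ℝ → ℝ, ∀ u n, (H.symm)^[n] u ≤ ε → L u = b^[n] (a ((H.symm)^[n] u)) := by
  have hN : ∀ u, ∃ n, (H.symm)^[n] u ≤ ε := fun u => L0_small H0 Hp u hε
  choose N hN using hN
  have key : ∀ u m j, (H.symm)^[m] u ≤ ε →
      b^[m + j] (a ((H.symm)^[m + j] u)) = b^[m] (a ((H.symm)^[m] u)) := by
    intro u m j hm
    induction j with
    | zero => rfl
    | succ j ih =>
      rw [← ih]
      have hle : (H.symm)^[m + (j + 1)] u ≤ ε :=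
        le_trans (L0_iter_anti H0 Hp u (by omega)) hm
      have e1 : m + (j + 1) = (m + j) + 1 := by ring
      rw [e1] at hle ⊢
      rw [iterate_succ_apply b, ← h _ hle, iterate_succ_apply' H.symm, OrderIso.apply_symm_apply]
  refine ⟨fun u => b^[N u] (a ((H.symm)^[N u] u)), fun u n hn => ?_⟩
  rcases le_total (N u) n with hle | hle
  · obtain ⟨j, rfl⟩ := Nat.exists_eq_add_of_le hle
    exact (key u (N u) j (hN u)).symm
  · obtain ⟨j, hj⟩ := Nat.exists_eq_add_of_le hle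
    have := key u n j hn
    rw [← hj] at this
    exact this

end Lift

/-! #### The germ extensions -/

/-- Extension of the germ of `φ` at the fixed point `x`. -/
noncomputable def ext0 (φ : ℝ → ℝ) (x v : ℝ) : ℝ := min v 0 + (φ (x + max v 0) - x)

theorem ext0_neg {φ : ℝ → ℝ} {x v : ℝ} (hx : φ x = x) (hv : v ≤ 0) : ext0 φ x v = v := by
  simp [ext0, min_eq_left hv, max_eq_right hv, hx]

theorem ext0_pos {φ : ℝ → ℝ} {x v : ℝ} (hv : 0 ≤ v) : ext0 φ x v = φ (x + v) - x := by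
  simp [ext0, min_eq_right hv, max_eq_left hv]

theorem ext0_gt {φ : ℝ → ℝ} {x v D : ℝ} (hx : φ x = x)
    (hφ : StrictMonoOn (fun r => φ (x + r)) (Icc 0 D)) (hv : 0 < v) (hD : v ≤ D) :
    0 < ext0 φ x v := by
  rw [ext0_pos hv.le]
  have := hφ (⟨le_rfl, hv.le.trans hD⟩ : (0 : ℝ) ∈ Icc 0 D) (⟨hv.le, hD⟩ : v ∈ Icc 0 D) hv
  simp only [add_zero, hx] at this
  linarith

theorem ext0_strict {φ : ℝ → ℝ} {x D : ℝ} (hx : φ x = x)
    (hφ : StrictMonoOn (fun r => φ (x + r)) (Icc 0 D)) : StrictMonoOn (ext0 φ x) (Iic D) := by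
  intro u hu v hv huv
  rcases le_or_gt v 0 with h | h
  · rw [ext0_neg hx h, ext0_neg hx (huv.le.trans h)]; exact huv
  · rcases le_or_gt u 0 with h' | h'
    · rw [ext0_neg hx h']
      exact lt_of_le_of_lt h' (ext0_gt hx hφ h hv)
    · rw [ext0_pos h.le, ext0_pos h'.le]
      have := hφ (⟨h'.le, hu⟩ : u ∈ Icc 0 D) (⟨h.le, hv⟩ : v ∈ Icc 0 D) huv
      simp only at this
      linarith

theorem ext0_small {φ : ℝ → ℝ} {x : ℝ} (hc : Continuous φ) (hx : φ x = x) {ε : ℝ} (hε : 0 < ε) :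
    ∃ ε' > 0, ∀ v ≤ ε', ext0 φ x v ≤ ε := by
  have hcont : Continuous (ext0 φ x) := by unfold ext0; fun_prop
  have h0 : ext0 φ x 0 < ε := by rw [ext0_neg hx le_rfl]; exact hε
  have hev := (hcont.tendsto 0).eventually (Iio_mem_nhds h0)
  obtain ⟨r, hr, hball⟩ := Metric.eventually_nhds_iff.1 hev
  refine ⟨r / 2, by positivity, fun v hv => ?_⟩
  rcases le_or_gt v 0 with h | h
  · rw [ext0_neg hx h]; linarith
  · have : dist v 0 < r := by
      rw [Real.dist_eq, sub_zero, abs_of_pos h]; linarith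
    exact (hball this).le

theorem L0_iter_comm {φ η : ℝ → ℝ} (h : ∀ t, φ (η t) = η (φ t)) (n : ℕ) (t : ℝ) :
    φ (η^[n] t) = η^[n] (φ t) := by
  induction n generalizing t with
  | zero => rfl
  | succ n ih => rw [iterate_succ_apply, iterate_succ_apply, ih, h]

/-- The local construction. -/
theorem L0_build {φ ψ η : ℝ → ℝ} {x D : ℝ} (cφ : Continuous φ) (cψ : Continuous ψ)
    (cη : Continuous η) (hD : 0 < D) (h1 : ∀ t, φ (ψ t) = η t) (h2 : ∀ t, ψ (φ t) = η t)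
    (hφx : φ x = x) (hψx : ψ x = x)
    (mφ : StrictMonoOn (fun r => φ (x + r)) (Icc 0 D))
    (mψ : StrictMonoOn (fun r => ψ (x + r)) (Icc 0 D))
    (mη : StrictMonoOn (fun r => η (x + r)) (Icc 0 D))
    (hgt : ∀ r ∈ Ioc 0 D, x + r < η (x + r)) :
    ∃ (P : ℝ → ℝ) (Φ Ψ : ℝ ≃o ℝ), Continuous P ∧ (∀ u ≤ 0, P u = x) ∧
      (∀ u ∈ Icc 0 D, P u = x + u) ∧ (∀ u ≤ 0, Φ u = u) ∧ (∀ u ≤ 0, Ψ u = u) ∧
      (∀ u, Φ (Ψ u) = Ψ (Φ u)) ∧ (∀ u, P (Φ u) = φ (P u)) ∧ (∀ u, P (Ψ u) = ψ (P u)) ∧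
      (∀ u > 0, u < Φ (Ψ u)) ∧ ∀ u, ∃ n, ∃ v ∈ Icc 0 D, P u = η^[n] (x + v) := by
  have hηx : η x = x := by rw [← h1, hψx, hφx]
  have cφη : ∀ t, φ (η t) = η (φ t) := fun t => by rw [← h2 t, h1]
  have cψη : ∀ t, ψ (η t) = η (ψ t) := fun t => by rw [← h1 t, h2]
  -- the homeomorphism H
  let Hf : ℝ → ℝ := fun u => min u 0 + (η (x + max 0 (min u D)) - x) + max (u - D) 0
  have Hneg : ∀ u ≤ 0, Hf u = u := by
    intro u hu
    have e1 : min u D = u := min_eq_left (hu.trans hD.le)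
    have e2 : max (u - D) 0 = 0 := max_eq_right (by linarith)
    simp only [Hf, min_eq_left hu, e1, max_eq_left hu, e2, add_zero, hηx, sub_self]
  have Hmid : ∀ u, 0 ≤ u → u ≤ D → Hf u = η (x + u) - x := by
    intro u hu hu'
    have e2 : max (u - D) 0 = 0 := max_eq_right (by linarith)
    simp only [Hf, min_eq_right hu, min_eq_left hu', max_eq_right hu, e2, add_zero, zero_add]
  have Hhi : ∀ u, D ≤ u → Hf u = η (x + D) - x + (u - D) := by
    intro u hu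
    have e2 : max (u - D) 0 = u - D := max_eq_left (by linarith)
    have e3 : min u 0 = 0 := min_eq_right (hD.le.trans hu)
    simp only [Hf, e3, min_eq_right hu, max_eq_right hD.le, e2, zero_add]
  have Hpos : ∀ u > 0, u < Hf u := by
    intro u hu
    rcases le_total u D with h | h
    · rw [Hmid u hu.le h]; have := hgt u ⟨hu, h⟩; linarith
    · rw [Hhi u h]; have := hgt D ⟨hD, le_rfl⟩; linarith
  have Hge : ∀ u, u ≤ Hf u := by
    intro u
    rcases le_or_gt u 0 with h | h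
    · rw [Hneg u h]
    · exact (Hpos u h).le
  have Hcont : Continuous Hf := by fun_prop
  have Hmono : StrictMono Hf := by
    intro u v huv
    have m1 : min u 0 ≤ min v 0 := min_le_min_right 0 huv.le
    have m3 : max (u - D) 0 ≤ max (v - D) 0 := max_le_max_right 0 (by linarith)
    have memu : max 0 (min u D) ∈ Icc 0 D := ⟨le_max_left _ _, max_le hD.le (min_le_right _ _)⟩
    have memv : max 0 (min v D) ∈ Icc 0 D := ⟨le_max_left _ _, max_le hD.le (min_le_right _ _)⟩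
    have m2 : η (x + max 0 (min u D)) ≤ η (x + max 0 (min v D)) :=
      mη.monotoneOn memu memv (max_le_max_left 0 (min_le_min_right D huv.le))
    rcases lt_or_ge u 0 with h | h
    · have s1 : min u 0 < min v 0 := by
        rw [min_eq_left h.le]
        exact lt_min huv h
      simp only [Hf]; linarith
    · rcases lt_or_ge D v with h' | h'
      · have s3 : max (u - D) 0 < max (v - D) 0 := by
          rw [max_eq_left (by linarith : 0 ≤ v - D)]
          exact max_lt (by linarith) (by linarith)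
        simp only [Hf]; linarith
      · rw [Hmid u h (huv.le.trans h'), Hmid v (h.trans huv.le) h']
        have := mη (⟨h, huv.le.trans h'⟩ : u ∈ Icc 0 D) (⟨h.trans huv.le, h'⟩ : v ∈ Icc 0 D) huv
        simp only at this
        linarith
  have Hsurj : Surjective Hf := by
    apply Hcont.surjective
    · exact tendsto_atTop_mono Hge tendsto_id
    · refine tendsto_id.congr' ?_
      filter_upwards [eventually_le_atBot (0 : ℝ)] with u hu
      exact (Hneg u hu).symm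
  let H : ℝ ≃o ℝ := Hmono.orderIsoOfSurjective Hf Hsurj
  have HH : ∀ u, H u = Hf u := fun u => rfl
  have H0 : ∀ u ≤ 0, H u = u := fun u hu => Hneg u hu
  have Hp : ∀ u > 0, u < H u := fun u hu => Hpos u hu
  -- commutation of germ extensions with H
  have comm0 : ∀ {θ : ℝ → ℝ}, θ x = x → (∀ t, θ (η t) = η (θ t)) →
      StrictMonoOn (fun r => θ (x + r)) (Icc 0 D) → ∀ v, v ≤ D → ext0 θ x v ≤ D →
      ext0 θ x (H v) = H (ext0 θ x v) := by
    intro θ hθ hcθ mθ v hv hv'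
    rcases le_or_gt v 0 with h | h
    · rw [H0 v h, ext0_neg hθ h, H0 v h]
    · have hpos := ext0_gt hθ mθ h hv
      have hHv : 0 < H v := h.trans (Hp v h)
      rw [ext0_pos hHv.le, HH, HH, Hmid v h.le hv, Hmid _ hpos.le hv', ext0_pos h.le]
      have e1 : x + (η (x + v) - x) = η (x + v) := by ring
      have e2 : x + (θ (x + v) - x) = θ (x + v) := by ring
      rw [e1, e2, hcθ]
  -- generic lifting of a germ
  have liftθ : ∀ {θ : ℝ → ℝ}, Continuous θ → θ x = x → (∀ t, θ (η t) = η (θ t)) →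
      StrictMonoOn (fun r => θ (x + r)) (Icc 0 D) →
      ∃ (L : ℝ → ℝ) (ε : ℝ), 0 < ε ∧ ε ≤ D ∧ (∀ v ≤ ε, ext0 θ x v ≤ D) ∧
        (∀ u n, (H.symm)^[n] u ≤ ε → L u = H^[n] (ext0 θ x ((H.symm)^[n] u))) := by
    intro θ hcont hθ hcθ mθ
    obtain ⟨ε', hε', hs⟩ := ext0_small hcont hθ hD
    obtain ⟨L, hL⟩ := L0_lift H0 Hp (ext0 θ x) H (lt_min hε' hD)
      (fun v hv => comm0 hθ hcθ mθ v (hv.trans (min_le_right _ _)) (hs v (hv.trans (min_le_left _ _))))
    exact ⟨L, min ε' D, lt_min hε' hD, min_le_right _ _,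
      fun v hv => hs v (hv.trans (min_le_left _ _)), hL⟩
  obtain ⟨LΦ, εΦ, hεΦ, hεΦD, hsΦ, hLΦ⟩ := liftθ cφ hφx cφη mφ
  obtain ⟨LΨ, εΨ, hεΨ, hεΨD, hsΨ, hLΨ⟩ := liftθ cψ hψx cψη mψ
  have strictL : ∀ {θ : ℝ → ℝ} {L : ℝ → ℝ} {ε : ℝ}, θ x = x →
      StrictMonoOn (fun r => θ (x + r)) (Icc 0 D) → 0 < ε → ε ≤ D →
      (∀ u n, (H.symm)^[n] u ≤ ε → L u = H^[n] (ext0 θ x ((H.symm)^[n] u))) → StrictMono L := by
    intro θ L ε hθ mθ hε hεD hL u v huv
    obtain ⟨n, hn⟩ := L0_small H0 Hp v hε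
    have hlt : (H.symm)^[n] u < (H.symm)^[n] v := (H.symm.strictMono.iterate n) huv
    rw [hL v n hn, hL u n (hlt.le.trans hn)]
    apply H.strictMono.iterate n
    exact ext0_strict hθ mθ (show _ ≤ D from (hlt.le.trans hn).trans hεD) (show _ ≤ D from hn.trans hεD) hlt
  have mLΦ : StrictMono LΦ := strictL hφx mφ hεΦ hεΦD hLΦ
  have mLΨ : StrictMono LΨ := strictL hψx mψ hεΨ hεΨD hLΨ
  -- composition
  have compL : ∀ {θ₁ θ₂ L₁ L₂ : ℝ → ℝ} {ε₁ ε₂ : ℝ}, Continuous θ₂ → θ₁ x = x → θ₂ x = x →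
      StrictMonoOn (fun r => θ₂ (x + r)) (Icc 0 D) → 0 < ε₁ → 0 < ε₂ → ε₂ ≤ D →
      (∀ t, θ₁ (θ₂ t) = η t) →
      (∀ u n, (H.symm)^[n] u ≤ ε₁ → L₁ u = H^[n] (ext0 θ₁ x ((H.symm)^[n] u))) →
      (∀ u n, (H.symm)^[n] u ≤ ε₂ → L₂ u = H^[n] (ext0 θ₂ x ((H.symm)^[n] u))) →
      ∀ u, L₁ (L₂ u) = H u := by
    intro θ₁ θ₂ L₁ L₂ ε₁ ε₂ hc2 hθ₁ hθ₂ mθ₂ hε₁ hε₂ hε₂D hcomp hL₁ hL₂ u
    obtain ⟨ε', hε', hs⟩ := ext0_small hc2 hθ₂ hε₁
    obtain ⟨n, hn⟩ := L0_small H0 Hp u (lt_min hε' hε₂)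
    set v := (H.symm)^[n] u with hv
    have hv1 : v ≤ ε' := hn.trans (min_le_left _ _)
    have hv2 : v ≤ ε₂ := hn.trans (min_le_right _ _)
    have hvD : v ≤ D := hv2.trans hε₂D
    rw [hL₂ u n hv2, ← hv]
    rw [hL₁ (H^[n] (ext0 θ₂ x v)) n (by rw [L0_symm_iter]; exact hs v hv1), L0_symm_iter]
    have : ext0 θ₁ x (ext0 θ₂ x v) = H v := by
      rcases le_or_gt v 0 with h | h
      · rw [ext0_neg hθ₂ h, ext0_neg hθ₁ h, H0 v h]
      · have hpos := ext0_gt hθ₂ mθ₂ h hvD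
        rw [ext0_pos hpos.le, ext0_pos h.le, HH, Hmid v h.le hvD]
        have e2 : x + (θ₂ (x + v) - x) = θ₂ (x + v) := by ring
        rw [e2, hcomp]
    rw [this, ← iterate_succ_apply, iterate_succ_apply', hv, L0_iter_symm]
  have ΦΨ : ∀ u, LΦ (LΨ u) = H u := compL cψ hφx hψx mψ hεΦ hεΨ hεΨD h1 hLΦ hLΨ
  have ΨΦ : ∀ u, LΨ (LΦ u) = H u := compL cφ hψx hφx mφ hεΨ hεΦ hεΦD h2 hLΨ hLΦ
  let Φ : ℝ ≃o ℝ := mLΦ.orderIsoOfRightInverse LΦ (fun u => LΨ (H.symm u))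
    (fun u => by simp only [ΦΨ, OrderIso.apply_symm_apply])
  let Ψ : ℝ ≃o ℝ := mLΨ.orderIsoOfRightInverse LΨ (fun u => LΦ (H.symm u))
    (fun u => by simp only [ΨΦ, OrderIso.apply_symm_apply])
  have eΦ : ∀ u, Φ u = LΦ u := fun u => rfl
  have eΨ : ∀ u, Ψ u = LΨ u := fun u => rfl
  -- the map P
  have hPc : ∀ v ≤ D, x + max (H v) 0 = η (x + max v 0) := by
    intro v hv
    rcases le_or_gt v 0 with h | h
    · rw [H0 v h, max_eq_right h, add_zero, hηx]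
    · have hHv : 0 < H v := h.trans (Hp v h)
      rw [max_eq_left hHv.le, max_eq_left h.le, HH, Hmid v h.le hv]
      ring
  obtain ⟨P, hP⟩ := L0_lift H0 Hp (fun v => x + max v 0) η hD hPc
  have Pθ : ∀ {θ L : ℝ → ℝ} {ε : ℝ}, θ x = x → (∀ t, θ (η t) = η (θ t)) →
      StrictMonoOn (fun r => θ (x + r)) (Icc 0 D) → 0 < ε → ε ≤ D →
      (∀ v ≤ ε, ext0 θ x v ≤ D) →
      (∀ u n, (H.symm)^[n] u ≤ ε → L u = H^[n] (ext0 θ x ((H.symm)^[n] u))) →
      ∀ u, P (L u) = θ (P u) := by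
    intro θ L ε hθ hcθ mθ hε hεD hs hL u
    obtain ⟨n, hn⟩ := L0_small H0 Hp u hε
    set v := (H.symm)^[n] u with hv
    rw [hL u n hn, ← hv, hP _ n (by rw [L0_symm_iter]; exact hs v hn), L0_symm_iter,
      hP u n (by rw [← hv]; exact hn.trans hεD), ← hv, L0_iter_comm hcθ]
    congr 1
    rcases le_or_gt v 0 with h | h
    · rw [ext0_neg hθ h, max_eq_right h, add_zero, hθ]
    · have hpos := ext0_gt hθ mθ h (hn.trans hεD)
      rw [max_eq_left hpos.le, max_eq_left h.le, ext0_pos h.le]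
      ring
  refine ⟨P, Φ, Ψ, ?_, ?_, ?_, ?_, ?_, ?_, ?_, ?_, ?_, ?_⟩
  · rw [continuous_iff_continuousAt]
    intro u
    obtain ⟨n, hn⟩ := L0_small H0 Hp (u + 1) hD
    have hc : Continuous fun w => η^[n] (x + max ((H.symm)^[n] w) 0) := by
      have c1 : Continuous (η^[n]) := cη.iterate n
      have c2 : Continuous ((H.symm)^[n]) := H.symm.continuous.iterate n
      exact c1.comp (continuous_const.add (c2.max continuous_const))
    refine hc.continuousAt.congr ?_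
    filter_upwards [Iio_mem_nhds (lt_add_one u)] with w hw
    exact (hP w n (le_trans ((H.symm.strictMono.iterate n).monotone (le_of_lt hw)) hn)).symm
  · intro u hu
    have := hP u 0 (by simpa using hu.trans hD.le)
    simpa [max_eq_right hu] using this
  · intro u hu
    have := hP u 0 (by simpa using hu.2)
    simpa [max_eq_left hu.1] using this
  · intro u hu
    rw [eΦ, hLΦ u 0 (by simpa using hu.trans hεΦ.le)]
    simpa using ext0_neg hφx hu
  · intro u hu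
    rw [eΨ, hLΨ u 0 (by simpa using hu.trans hεΨ.le)]
    simpa using ext0_neg hψx hu
  · intro u
    rw [eΦ, eΨ, eΨ, eΦ, ΦΨ, ΨΦ]
  · intro u
    rw [eΦ]
    exact Pθ hφx cφη mφ hεΦ hεΦD hsΦ hLΦ u
  · intro u
    rw [eΨ]
    exact Pθ hψx cψη mψ hεΨ hεΨD hsΨ hLΨ u
  · intro u hu
    rw [eΦ, eΨ, ΦΨ]
    exact Hp u hu
  · intro u
    obtain ⟨n, hn⟩ := L0_small H0 Hp u hD
    exact ⟨n, max ((H.symm)^[n] u) 0, ⟨le_max_right _ _, max_le hn hD.le⟩, hP u n hn⟩

/-! #### Returning germs and the main statement -/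

section Return

variable {f g : ℝ → ℝ} {y₁ y₂ s₁ s₂ : ℝ}

theorem L0_push_id (x : ℝ) : Push id x 1 1 := by
  refine ⟨1, one_pos, ?_⟩
  intro r _ t _ hrt
  simp only [id, one_mul]
  linarith

theorem L0_push_aa (R : Red f g y₁ y₂ s₁ s₂) {x : ℝ} (hS : Side (W f g 1 1) x 1) (a : ℕ) :
    W f g a a x = x ∧ Push (W f g a a) x 1 1 := by
  rcases Nat.eq_zero_or_pos a with rfl | ha
  · have : W f g 0 0 = id := rfl
    rw [this]
    exact ⟨rfl, L0_push_id x⟩
  · have h := R.side_mul le_rfl le_rfl ha (Or.inl rfl) hS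
    rw [mul_one] at h
    exact ⟨h.1, R.push_self ha ha (Or.inl rfl) h⟩

theorem L0_return (R : Red f g y₁ y₂ s₁ s₂) {x : ℝ} (hS : Side (W f g 1 1) x 1) {α β : ℕ}
    (hαβ : α + β = 1) :
    ∃ k, 1 ≤ k ∧ W f g (k * α) (k * β) x = x ∧ Push (W f g (k * α) (k * β)) x 1 1 := by
  have hc := R.comm
  have hp : ∀ n : ℕ, ∃ s' : ℝ, (s' = 1 ∨ s' = -1) ∧ Push (W f g (n * α) (n * β)) x 1 s' ∧
      Side (W f g 1 1) (W f g (n * α) (n * β) x) s' :=
    fun n => R.pushW le_rfl le_rfl (Or.inl rfl) hS (n * α) (n * β)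
  choose σ h1 h2 h3 using hp
  have hfin : ({x | W f g 1 1 x = x} ×ˢ ({1, -1} : Set ℝ)).Finite :=
    (R.fin 1 1 le_rfl le_rfl).prod (by simp)
  obtain ⟨a, b, hab, heq⟩ := Set.Finite.exists_lt_map_eq_of_forall_mem
    (f := fun n : ℕ => (W f g (n * α) (n * β) x, σ n))
    (fun n => (⟨(h3 n).1, by simpa using h1 n⟩ :
      (W f g (n * α) (n * β) x, σ n) ∈ {x | W f g 1 1 x = x} ×ˢ ({1, -1} : Set ℝ))) hfin
  obtain ⟨e1, e2⟩ := Prod.mk.inj heq
  obtain ⟨k, rfl⟩ := Nat.exists_eq_add_of_lt hab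
  obtain ⟨fixa, pusha⟩ := L0_push_aa R hS a
  -- the complement word
  obtain ⟨s'', hs'', hC, -⟩ := R.pushW le_rfl le_rfl (h1 a) (h3 a) (a * β) (a * α)
  have hCa : W f g (a * β) (a * α) ∘ W f g (a * α) (a * β) = W f g a a := by
    funext t
    rw [comp_apply, W_W hc, ← mul_add, ← mul_add, add_comm β α, hαβ, mul_one]
  have hp1 : Push (W f g a a) x 1 s'' := by
    rw [← hCa]
    exact Push.comp (R.contW _ _) (Or.inl rfl) (h1 a) (h2 a) hC
  have hs1 : s'' = 1 := Push.unique hs'' (Or.inl rfl) hp1 pusha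
  subst hs1
  have hCb : W f g (a * β) (a * α) ∘ W f g ((a + k + 1) * α) ((a + k + 1) * β) =
      W f g ((k + 1) * α) ((k + 1) * β) ∘ W f g a a := by
    funext t
    rw [comp_apply, comp_apply, W_W hc, W_W hc]
    have e3 : a * β + (a + k + 1) * α = (k + 1) * α + a := by
      have : a * (α + β) = a := by rw [hαβ, mul_one]
      linarith
    have e4 : a * α + (a + k + 1) * β = (k + 1) * β + a := by
      have : a * (α + β) = a := by rw [hαβ, mul_one]
      linarith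
    rw [e3, e4]
  have hp2 : Push (W f g ((k + 1) * α) ((k + 1) * β) ∘ W f g a a) x 1 1 := by
    rw [← hCb]
    refine Push.comp (R.contW _ _) (Or.inl rfl) (h1 (a + k + 1)) (h2 (a + k + 1)) ?_
    rw [← e1, ← e2]
    exact hC
  have hfix : W f g ((k + 1) * α) ((k + 1) * β) x = x := by
    have := congrFun hCb x
    rw [comp_apply, comp_apply, fixa, ← e1] at this
    rw [← this, ← comp_apply (f := W f g (a * β) (a * α)), hCa, fixa]
  obtain ⟨s, hs, hU, -⟩ := R.pushW le_rfl le_rfl (Or.inl rfl) hS ((k + 1) * α) ((k + 1) * β)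
  have hp3 : Push (W f g ((k + 1) * α) ((k + 1) * β) ∘ W f g a a) x 1 s := by
    refine Push.comp (R.contW _ _) (Or.inl rfl) (Or.inl rfl) pusha ?_
    rw [fixa]
    exact hU
  have hs1 : s = 1 := Push.unique hs (Or.inl rfl) hp3 hp2
  subst hs1
  exact ⟨k + 1, by omega, hfix, hU⟩

theorem L0_return_fix (R : Red f g y₁ y₂ s₁ s₂) {z : ℝ} (hz : W f g 1 1 z = z) {α β : ℕ}
    (hαβ : α + β = 1) : ∃ k, 1 ≤ k ∧ W f g (k * α) (k * β) z = z := by
  have hc := R.comm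
  have haa : ∀ n : ℕ, W f g n n z = z := by
    intro n
    have := W_iter hc 1 1 n z
    rw [mul_one] at this
    rw [← this]
    exact iterate_fixed hz n
  obtain ⟨a, b, hab, e1⟩ := Set.Finite.exists_lt_map_eq_of_forall_mem
    (f := fun n : ℕ => W f g (n * α) (n * β) z)
    (fun n => (show W f g (n * α) (n * β) z ∈ {x | W f g 1 1 x = x} by
      show W f g 1 1 (W f g (n * α) (n * β) z) = W f g (n * α) (n * β) z
      rw [W_W hc, add_comm 1, add_comm 1, ← W_W hc, hz])) (R.fin 1 1 le_rfl le_rfl)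
  obtain ⟨k, rfl⟩ := Nat.exists_eq_add_of_lt hab
  refine ⟨k + 1, by omega, ?_⟩
  have e0 : W f g (a * β) (a * α) (W f g (a * α) (a * β) z) = z := by
    rw [W_W hc, ← mul_add, ← mul_add, add_comm β α, hαβ, mul_one, haa]
  have e2 : W f g (a * β) (a * α) (W f g ((a + k + 1) * α) ((a + k + 1) * β) z) =
      W f g ((k + 1) * α) ((k + 1) * β) (W f g a a z) := by
    rw [W_W hc, W_W hc]
    have e3 : a * β + (a + k + 1) * α = (k + 1) * α + a := by
      have : a * (α + β) = a := by rw [hαβ, mul_one]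
      linarith
    have e4 : a * α + (a + k + 1) * β = (k + 1) * β + a := by
      have : a * (α + β) = a := by rw [hαβ, mul_one]
      linarith
    rw [e3, e4]
  rw [← e1, e0, haa] at e2
  exact e2.symm

theorem L0_push_iter {F : ℝ → ℝ} (hF : Continuous F) {x : ℝ} (hx : F x = x) (hP : Push F x 1 1)
    (n : ℕ) : Push (F^[n]) x 1 1 := by
  induction n with
  | zero => exact L0_push_id x
  | succ n ih =>
    rw [iterate_succ]
    refine Push.comp hF (Or.inl rfl) (Or.inl rfl) hP ?_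
    rw [hx]
    exact ih

theorem L0_ofPush {F : ℝ → ℝ} {x : ℝ} (h : Push F x 1 1) :
    ∃ ε > 0, StrictMonoOn (fun r => F (x + r)) (Icc 0 ε) := by
  obtain ⟨ε, hε, h⟩ := h
  refine ⟨ε, hε, ?_⟩
  simpa only [one_mul] using h

/-- PART L0. -/
theorem Red.exists_leaf (R : Red f g y₁ y₂ s₁ s₂) :
    ∃ (k : ℕ) (x δ : ℝ) (P : ℝ → ℝ) (Φ Ψ : ℝ ≃o ℝ), Leaf f g y₁ y₂ k x δ P Φ Ψ := by
  have hc := R.comm
  have c11 : Continuous (W f g 1 1) := R.contW 1 1
  have w11 : ∀ t, W f g 1 1 t = f (g t) := fun t => rfl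
  have y1 := R.y1
  have y1s1 := R.y1s1
  have s1s2 := R.s1s2
  have s2y2 := R.s2y2
  have y2 := R.y2
  have hs1 := R.hs1
  have hs2 := R.hs2
  have hy1 := R.hy1
  -- the point x
  have hcomp : IsCompact {t | t ∈ Icc s₁ s₂ ∧ W f g 1 1 t ≤ t} :=
    isCompact_Icc.inter_right (isClosed_le c11 continuous_id)
  obtain ⟨x, ⟨hxm, hxle⟩, hxub⟩ := hcomp.exists_isGreatest
    ⟨s₁, left_mem_Icc.2 s1s2.le, by rw [w11]; linarith⟩
  have hxs2 : x < s₂ := by
    rcases lt_or_eq_of_le hxm.2 with h | h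
    · exact h
    · exfalso
      rw [h, w11] at hxle
      linarith
  have hgt : ∀ t, x < t → t ≤ s₂ → t < W f g 1 1 t := by
    intro t h1 h2
    by_contra hcon
    push Not at hcon
    exact absurd (hxub ⟨⟨hxm.1.trans h1.le, h2⟩, hcon⟩) (not_le.2 h1)
  have hxfix : W f g 1 1 x = x := by
    have hcd : ContinuousOn (fun t => W f g 1 1 t - t) (Icc x s₂) :=
      (c11.sub continuous_id).continuousOn
    have hs := hgt s₂ hxs2 le_rfl
    obtain ⟨t, ht, ht0⟩ := intermediate_value_Icc hxs2.le hcd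
      (⟨by linarith, by linarith⟩ : (0 : ℝ) ∈ Icc (W f g 1 1 x - x) (W f g 1 1 s₂ - s₂))
    simp only at ht0
    rcases lt_or_eq_of_le ht.1 with h | h
    · have := hgt t h ht.2
      linarith
    · rw [h]; linarith
  have hxs1 : s₁ < x := by
    rcases lt_or_eq_of_le hxm.1 with h | h
    · exact h
    · exfalso
      rw [← h, w11] at hxfix
      linarith
  have hS : Side (W f g 1 1) x 1 := by
    refine ⟨hxfix, s₂ - x, by linarith, fun r hr => ?_⟩
    rw [one_mul, one_mul]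
    refine ⟨⟨by linarith [hr.1], by linarith [hr.2]⟩, ?_⟩
    have := hgt (x + r) (by linarith [hr.1]) (by linarith [hr.2])
    linarith
  -- the point z
  obtain ⟨z, hz1, hz2, hzfix⟩ : ∃ z, y₁ < z ∧ z < s₁ ∧ W f g 1 1 z = z := by
    have hcd : ContinuousOn (fun t => t - W f g 1 1 t) (Icc y₁ s₁) :=
      (continuous_id.sub c11).continuousOn
    obtain ⟨t, ht, ht0⟩ := intermediate_value_Icc y1s1.le hcd
      (⟨by rw [w11]; linarith, by rw [w11]; linarith⟩ :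
        (0 : ℝ) ∈ Icc (y₁ - W f g 1 1 y₁) (s₁ - W f g 1 1 s₁))
    simp only at ht0
    have htf : W f g 1 1 t = t := by linarith
    refine ⟨t, lt_of_le_of_ne ht.1 ?_, lt_of_le_of_ne ht.2 ?_, htf⟩
    · rintro rfl
      rw [w11] at htf; linarith
    · rintro rfl
      rw [w11] at htf; linarith
  -- the exponent k
  obtain ⟨k₁, hk₁, fix₁, push₁⟩ := L0_return R hS (α := 1) (β := 0) rfl
  obtain ⟨k₂, hk₂, fix₂, push₂⟩ := L0_return R hS (α := 0) (β := 1) rfl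
  obtain ⟨k₃, hk₃, fix₃⟩ := L0_return_fix R hzfix (α := 1) (β := 0) rfl
  obtain ⟨k₄, hk₄, fix₄⟩ := L0_return_fix R hzfix (α := 0) (β := 1) rfl
  simp only [mul_one, mul_zero] at fix₁ fix₂ fix₃ fix₄ push₁ push₂
  have wf : ∀ n, W f g n 0 = f^[n] := fun n => rfl
  have wg : ∀ n, W f g 0 n = g^[n] := fun n => rfl
  rw [wf] at fix₁ push₁ fix₃
  rw [wg] at fix₂ push₂ fix₄
  obtain ⟨k, m₁, m₂, m₃, m₄, hk, e₁, e₂, e₃, e₄⟩ : ∃ k m₁ m₂ m₃ m₄ : ℕ, 1 ≤ k ∧ k = k₁ * m₁ ∧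
      k = k₂ * m₂ ∧ k = k₃ * m₃ ∧ k = k₄ * m₄ :=
    ⟨k₁ * k₂ * k₃ * k₄, k₂ * k₃ * k₄, k₁ * k₃ * k₄, k₁ * k₂ * k₄, k₁ * k₂ * k₃,
      Nat.mul_pos (Nat.mul_pos (Nat.mul_pos hk₁ hk₂) hk₃) hk₄, by ring, by ring, by ring, by ring⟩
  have cf : ∀ n, Continuous (f^[n]) := fun n => R.contf.iterate n
  have cg : ∀ n, Continuous (g^[n]) := fun n => R.contg.iterate n
  have fxk : f^[k] x = x := by
    rw [e₁, iterate_mul]; exact iterate_fixed fix₁ _
  have gxk : g^[k] x = x := by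
    rw [e₂, iterate_mul]; exact iterate_fixed fix₂ _
  have fzk : f^[k] z = z := by
    rw [e₃, iterate_mul]; exact iterate_fixed fix₃ _
  have gzk : g^[k] z = z := by
    rw [e₄, iterate_mul]; exact iterate_fixed fix₄ _
  have pf : Push (f^[k]) x 1 1 := by
    rw [e₁, iterate_mul]; exact L0_push_iter (cf _) fix₁ push₁ _
  have pg : Push (g^[k]) x 1 1 := by
    rw [e₂, iterate_mul]; exact L0_push_iter (cg _) fix₂ push₂ _
  have hSk := R.side_mul le_rfl le_rfl hk (Or.inl rfl) hS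
  rw [mul_one] at hSk
  have ph : Push (W f g k k) x 1 1 := R.push_self hk hk (Or.inl rfl) hSk
  obtain ⟨-, ε₄, hε₄, hSk⟩ := hSk
  obtain ⟨ε₁, hε₁, mf⟩ := L0_ofPush pf
  obtain ⟨ε₂, hε₂, mg⟩ := L0_ofPush pg
  obtain ⟨ε₃, hε₃, mh⟩ := L0_ofPush ph
  obtain ⟨D, hD, hD1, hD2, hD3, hD4, hD5⟩ : ∃ D > 0, D ≤ ε₁ ∧ D ≤ ε₂ ∧ D ≤ ε₃ ∧ D < ε₄ ∧
      x + D < y₂ := by
    have h5 : 0 < y₂ - x := by linarith
    refine ⟨min ε₁ (min ε₂ (min ε₃ (min ε₄ (y₂ - x)))) / 2, by positivity, ?_, ?_, ?_, ?_, ?_⟩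
    all_goals
      have a1 := min_le_left ε₁ (min ε₂ (min ε₃ (min ε₄ (y₂ - x))))
      have a2 := min_le_right ε₁ (min ε₂ (min ε₃ (min ε₄ (y₂ - x))))
      have a3 := min_le_left ε₂ (min ε₃ (min ε₄ (y₂ - x)))
      have a4 := min_le_right ε₂ (min ε₃ (min ε₄ (y₂ - x)))
      have a5 := min_le_left ε₃ (min ε₄ (y₂ - x))
      have a6 := min_le_right ε₃ (min ε₄ (y₂ - x))
      have a7 := min_le_left ε₄ (y₂ - x)
      have a8 := min_le_right ε₄ (y₂ - x)
      have a0 : 0 < min ε₁ (min ε₂ (min ε₃ (min ε₄ (y₂ - x)))) := by positivity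
      linarith
  obtain ⟨P, Φ, Ψ, b1, b2, b3, b4, b5, b6, b7, b8, b9, b10⟩ :=
    L0_build (φ := f^[k]) (ψ := g^[k]) (η := W f g k k) (x := x) (D := D) (cf k) (cg k)
      (R.contW k k) hD (fun t => rfl)
      (fun t => by rw [W_apply, comm_iter hc]) fxk gxk
      (mf.mono (Icc_subset_Icc_right hD1)) (mg.mono (Icc_subset_Icc_right hD2))
      (mh.mono (Icc_subset_Icc_right hD3))
      (fun r hr => by
        have := (hSk r ⟨hr.1, lt_of_le_of_lt hr.2 hD4⟩).2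
        rw [one_mul, one_mul] at this
        linarith)
  refine ⟨k, x, D, P, Φ, Ψ, ?_⟩
  refine
    { k1 := hk
      y1x := by linarith
      δpos := hD
      xδ := hD5
      contP := b1
      mapP := ?_
      P0 := b2
      Pδ := b3
      Φ0 := b4
      Ψ0 := b5
      comm := b6
      PΦ := b7
      PΨ := b8
      exp := b9
      other := ⟨z, by linarith, by linarith, by linarith, fzk, gzk⟩ }
  intro u
  obtain ⟨n, v, hv, hPu⟩ := b10 u
  rw [hPu]
  have hmt : MapsTo (W f g k k) (Icc (0 : ℝ) 1) (Icc (0 : ℝ) 1) := fun t ht => R.mapW k k ht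
  exact hmt.iterate n ⟨by linarith [hv.1], by linarith [hv.2]⟩

end Return

end Pool.Agent.CFP
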