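import Pool.Agent.Lib_MP_eedf80_an.Basic

/-!
Part L1: basic facts on the leaf and the counting lemma.
-/

set_option autoImplicit false

namespace Pool.Agent.CFP

open Set Function

section LeafSec

variable {f g P : ℝ → ℝ} {y₁ y₂ s₁ s₂ x δ : ℝ} {k : ℕ} {Φ Ψ : ℝ ≃o ℝ}

theorem leafCommW (hc : ∀ x, f (g x) = g (f x)) (a b : ℕ) (x : ℝ) :
    f^[a] (g^[b] x) = g^[b] (f^[a] x) := by
  have h : Function.Commute f g := hc
  exact (h.iterate_iterate a b) x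

/-- PART L1a: basic facts on the leaf. -/
theorem Leaf.P_act (L : Leaf f g y₁ y₂ k x δ P Φ Ψ) (a b : ℕ) (u : ℝ) :
    P (act Φ Ψ a b u) = W f g (k * a) (k * b) (P u) := by
  have hΨ : ∀ (b : ℕ) (u : ℝ), P ((Ψ ^ b) u) = g^[k * b] (P u) := by
    intro b
    induction b with
    | zero => intro u; simp
    | succ b ih =>
      intro u
      rw [pow_succ', RelIso.mul_apply, L.PΨ, ih, Nat.mul_succ, Nat.add_comm (k * b) k,
        Function.iterate_add_apply]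
  have hΦ : ∀ (a : ℕ) (u : ℝ), P ((Φ ^ a) u) = f^[k * a] (P u) := by
    intro a
    induction a with
    | zero => intro u; simp
    | succ a ih =>
      intro u
      rw [pow_succ', RelIso.mul_apply, L.PΦ, ih, Nat.mul_succ, Nat.add_comm (k * a) k,
        Function.iterate_add_apply]
  unfold act W
  rw [zpow_natCast, zpow_natCast, RelIso.mul_apply, hΦ, hΨ]
  rfl

theorem leafZpowZero {T : ℝ ≃o ℝ} (h : T 0 = 0) (a : ℤ) : (T ^ a) 0 = 0 := by
  have h1 : ∀ n : ℕ, (T ^ n) 0 = 0 := by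
    intro n
    induction n with
    | zero => rfl
    | succ n ih => rw [pow_succ', RelIso.mul_apply, ih, h]
  cases a with
  | ofNat n =>
    rw [Int.ofNat_eq_natCast, zpow_natCast]
    exact h1 n
  | negSucc n =>
    rw [zpow_negSucc]
    have h2 : (T ^ (n + 1))⁻¹ ((T ^ (n + 1)) 0) = (T ^ (n + 1))⁻¹ 0 := by rw [h1 (n + 1)]
    rw [RelIso.inv_apply_self] at h2
    exact h2.symm

theorem Leaf.comm' (L : Leaf f g y₁ y₂ k x δ P Φ Ψ) : Commute Φ Ψ := by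
  ext u
  exact L.comm u

theorem Leaf.act_mul (L : Leaf f g y₁ y₂ k x δ P Φ Ψ) (a b a' b' : ℤ) (u : ℝ) :
    act Φ Ψ a b (act Φ Ψ a' b' u) = act Φ Ψ (a + a') (b + b') u := by
  rw [← RelIso.mul_apply]
  congr 1
  unfold act
  have h : Commute (Ψ ^ b) (Φ ^ a') := (L.comm'.symm.zpow_zpow b a')
  rw [zpow_add, zpow_add, mul_assoc, ← mul_assoc (Ψ ^ b), h.eq, mul_assoc (Φ ^ a'), ← mul_assoc]

theorem Leaf.act_zero (L : Leaf f g y₁ y₂ k x δ P Φ Ψ) (a b : ℤ) : act Φ Ψ a b 0 = 0 := by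
  unfold act
  rw [RelIso.mul_apply, leafZpowZero (L.Ψ0 0 le_rfl), leafZpowZero (L.Φ0 0 le_rfl)]

theorem Leaf.act_pos (L : Leaf f g y₁ y₂ k x δ P Φ Ψ) (a b : ℤ) {u : ℝ} (hu : 0 < u) :
    0 < act Φ Ψ a b u := by
  have h := (act Φ Ψ a b).strictMono hu
  rwa [L.act_zero] at h

theorem act_one_apply (u : ℝ) : act Φ Ψ 0 0 u = u := by
  unfold act
  simp

theorem Leaf.pow_eq (L : Leaf f g y₁ y₂ k x δ P Φ Ψ) (n : ℕ) :
    (Φ * Ψ) ^ n = act Φ Ψ n n := by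
  unfold act
  rw [L.comm'.mul_pow, zpow_natCast, zpow_natCast]

theorem Leaf.lt_act (L : Leaf f g y₁ y₂ k x δ P Φ Ψ) {u : ℝ} (hu : 0 < u) :
    u < act Φ Ψ 1 1 u := by
  have h := L.exp u hu
  unfold act
  simpa using h

theorem Leaf.lt_act_succ (L : Leaf f g y₁ y₂ k x δ P Φ Ψ) {u : ℝ} (hu : 0 < u) (n : ℤ) :
    act Φ Ψ n n u < act Φ Ψ (n + 1) (n + 1) u := by
  have h := L.lt_act (L.act_pos n n hu)
  rw [L.act_mul] at h
  rwa [add_comm 1 n] at h

theorem Leaf.act_mono (L : Leaf f g y₁ y₂ k x δ P Φ Ψ) {u : ℝ} (hu : 0 < u) {n m : ℤ}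
    (h : n ≤ m) : act Φ Ψ n n u ≤ act Φ Ψ m m u := by
  obtain ⟨d, rfl⟩ := Int.le.dest h
  clear h
  induction d with
  | zero => simp
  | succ d ih =>
    refine ih.trans ?_
    have h := (L.lt_act_succ hu (n + d)).le
    push_cast
    rwa [add_assoc] at h

theorem Leaf.act_large (L : Leaf f g y₁ y₂ k x δ P Φ Ψ) {u : ℝ} (hu : 0 < u) (M : ℝ) :
    ∃ n : ℕ, M ≤ act Φ Ψ n n u := by
  by_contra hcon
  push Not at hcon
  set S : Set ℝ := Set.range (fun n : ℕ => act Φ Ψ n n u) with hS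
  have hbdd : BddAbove S := ⟨M, by rintro _ ⟨n, rfl⟩; exact (hcon n).le⟩
  have hne : S.Nonempty := ⟨_, 0, rfl⟩
  have hu0 : u ≤ sSup S := by
    apply le_csSup hbdd
    exact ⟨0, by simp [act_one_apply]⟩
  have hpos : 0 < act Φ Ψ (-1) (-1) (sSup S) := L.act_pos _ _ (hu.trans_le hu0)
  have h1 : act Φ Ψ (-1) (-1) (sSup S) < sSup S := by
    have h := L.lt_act hpos
    rw [L.act_mul] at h
    simpa [act_one_apply] using h
  obtain ⟨_, ⟨n, rfl⟩, hn⟩ := exists_lt_of_lt_csSup hne h1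
  have h2 := (act Φ Ψ 1 1).strictMono hn
  simp only [L.act_mul] at h2
  rw [show (1 : ℤ) + -1 = 0 by norm_num, act_one_apply] at h2
  have h3 : act Φ Ψ (1 + (n : ℤ)) (1 + (n : ℤ)) u ≤ sSup S := by
    apply le_csSup hbdd
    exact ⟨n + 1, by push_cast; rw [add_comm (1 : ℤ)]⟩
  linarith

theorem Leaf.act_small (L : Leaf f g y₁ y₂ k x δ P Φ Ψ) {u : ℝ} (hu : 0 < u) {ε : ℝ}
    (hε : 0 < ε) : ∃ n : ℕ, act Φ Ψ (-(n : ℤ)) (-(n : ℤ)) u ≤ ε := by
  obtain ⟨n, hn⟩ := L.act_large hε u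
  refine ⟨n, ?_⟩
  have h := (act Φ Ψ (-(n : ℤ)) (-(n : ℤ))).monotone hn
  rw [L.act_mul] at h
  simpa [act_one_apply] using h

theorem Leaf.cover (R : Red f g y₁ y₂ s₁ s₂) (L : Leaf f g y₁ y₂ k x δ P Φ Ψ) {u v : ℝ}
    (hu : 0 < u) (huv : u < v) :
    ∃ n₀ : ℕ, ∀ n ≥ n₀, Icc y₁ y₂ ⊆ P '' Icc (((Φ * Ψ) ^ n) u) (((Φ * Ψ) ^ n) v) := by
  obtain ⟨N, hN⟩ := L.act_small (hu.trans huv) L.δpos
  set u' := act Φ Ψ (-(N : ℤ)) (-(N : ℤ)) u with hu'
  set v' := act Φ Ψ (-(N : ℤ)) (-(N : ℤ)) v with hv'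
  have hu'0 : 0 < u' := L.act_pos _ _ hu
  have huv' : u' < v' := (act Φ Ψ _ _).strictMono huv
  have hx0 : 0 ≤ x := R.y1.trans L.y1x.le
  have hx1 : x + v' ≤ 1 := by
    have := L.xδ
    have := R.y2
    linarith
  obtain ⟨n₁, hn₁⟩ := R.act (a := x + u') (b := x + v') (by linarith) (by linarith) hx1
  refine ⟨n₁, fun n hn => ?_⟩
  have hk := L.k1
  have hge : n₁ ≤ k * (n + N) := by nlinarith
  intro y hy
  obtain ⟨s, ⟨hs1, hs2⟩, rfl⟩ := hn₁ _ _ hge hge hy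
  have hsδ : s - x ∈ Icc (0 : ℝ) δ := ⟨by linarith, by linarith⟩
  refine ⟨act Φ Ψ ((n + N : ℕ) : ℤ) ((n + N : ℕ) : ℤ) (s - x), ?_, ?_⟩
  · have e1 : ((Φ * Ψ) ^ n) u = act Φ Ψ ((n + N : ℕ) : ℤ) ((n + N : ℕ) : ℤ) u' := by
      rw [L.pow_eq, hu', L.act_mul]
      push_cast
      congr 2 <;> ring
    have e2 : ((Φ * Ψ) ^ n) v = act Φ Ψ ((n + N : ℕ) : ℤ) ((n + N : ℕ) : ℤ) v' := by
      rw [L.pow_eq, hv', L.act_mul]
      push_cast
      congr 2 <;> ring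
    rw [e1, e2]
    exact ⟨(act Φ Ψ _ _).monotone (by linarith), (act Φ Ψ _ _).monotone (by linarith)⟩
  · rw [L.P_act, L.Pδ _ hsδ]
    congr 1
    ring

/-- Alternations on disjoint arcs add up. -/
theorem alt_arcs {F : ℝ → ℝ} {m : ℕ} (hy : y₁ < y₂) (α β : ℕ → ℝ) (hαβ : ∀ j, α j < β j)
    (hdis : ∀ j j', j ≠ j' → β j ≤ α j' ∨ β j' ≤ α j) (h0 : ∀ j, 0 ≤ α j) :
    ∀ (c : ℕ) (J : Finset ℕ) (R : ℝ), J.card = c + 1 → (∀ j ∈ J, β j ≤ R) →
      (∀ j ∈ J, Alt y₁ y₂ F (α j) (β j) m) → Alt y₁ y₂ F 0 R ((c + 1) * m) := by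
  intro c
  induction c with
  | zero =>
    intro J R hc hβ hJ
    have hne : J.Nonempty := by
      rw [← Finset.card_pos]
      omega
    obtain ⟨j₀, hj₀⟩ := hne
    have h := (hJ j₀ hj₀).mono (h0 j₀) (hβ j₀ hj₀)
    simpa using h
  | succ c ih =>
    intro J R hc hβ hJ
    have hne : J.Nonempty := by
      rw [← Finset.card_pos]
      omega
    obtain ⟨j₀, hj₀, hmax⟩ := J.exists_max_image α hne
    have hcard : (J.erase j₀).card = c + 1 := by
      rw [Finset.card_erase_of_mem hj₀, hc]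
      rfl
    have h1 : Alt y₁ y₂ F 0 (α j₀) ((c + 1) * m) := by
      refine ih (J.erase j₀) (α j₀) hcard ?_ ?_
      · intro j hj
        rw [Finset.mem_erase] at hj
        rcases hdis j j₀ hj.1 with h | h
        · exact h
        · have := hmax j hj.2
          have := hαβ j₀
          linarith
      · intro j hj
        exact hJ j (Finset.mem_of_mem_erase hj)
    have h2 := h1.concat hy (hJ j₀ hj₀)
    have h3 := h2.mono le_rfl (hβ j₀ hj₀)
    have e : (c + 1 + 1) * m = (c + 1) * m + m := by ring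
    rw [e]
    exact h3

theorem alt_iso {F : ℝ → ℝ} {a b : ℝ} {m : ℕ} (E : ℝ ≃o ℝ) :
    Alt y₁ y₂ F (E a) (E b) m ↔ Alt y₁ y₂ (fun s => F (E s)) a b m := by
  constructor
  · rintro ⟨t, e, h1, h2, h3⟩
    refine ⟨fun i => E.symm (t i), e, fun i hi => ?_, fun i hi => ?_, fun i hi => ?_⟩
    · obtain ⟨ha, hb⟩ := h1 i hi
      exact ⟨(E.le_symm_apply).2 ha, (E.symm_apply_le).2 hb⟩
    · exact E.symm.strictMono (h2 i hi)
    · simpa using h3 i hi
  · rintro ⟨t, e, h1, h2, h3⟩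
    refine ⟨fun i => E (t i), e, fun i hi => ?_, fun i hi => ?_, fun i hi => ?_⟩
    · obtain ⟨ha, hb⟩ := h1 i hi
      exact ⟨E.monotone ha, E.monotone hb⟩
    · exact E.strictMono (h2 i hi)
    · exact h3 i hi

theorem alt_one {F : ℝ → ℝ} {a b s t : ℝ} (hy : y₁ < y₂) (hs : s ∈ Icc a b) (ht : t ∈ Icc a b)
    (h1 : F s = y₁) (h2 : F t = y₂) : Alt y₁ y₂ F a b 1 := by
  rcases lt_trichotomy s t with h | h | h
  · refine ⟨fun i => if i = 0 then s else t, 0, ?_, ?_, ?_⟩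
    · intro i _
      by_cases hi : i = 0 <;> simp [hi, hs.1, hs.2, ht.1, ht.2]
    · intro i hi
      obtain rfl : i = 0 := by omega
      simpa using h
    · intro i hi
      have : i = 0 ∨ i = 1 := by omega
      rcases this with rfl | rfl
      · simp [h1]
      · simp [h2]
  · rw [h, h2] at h1
    exact absurd h1 hy.ne'
  · refine ⟨fun i => if i = 0 then t else s, 1, ?_, ?_, ?_⟩
    · intro i _
      by_cases hi : i = 0 <;> simp [hi, hs.1, hs.2, ht.1, ht.2]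
    · intro i hi
      obtain rfl : i = 0 := by omega
      simpa using h
    · intro i hi
      have : i = 0 ∨ i = 1 := by omega
      rcases this with rfl | rfl
      · simp [h2]
      · simp [h1]

/-- PART L1b: the counting lemma. -/
theorem Leaf.counting (R : Red f g y₁ y₂ s₁ s₂) (L : Leaf f g y₁ y₂ k x δ P Φ Ψ)
    {u v lo hi : ℝ} (hu : 0 < u) (huv : u < v) (hlo : 0 < lo) (B : ℕ) (hB : 1 ≤ B)
    (i l : ℕ → ℕ) (hl : ∀ j, l j ≤ B * j) (h1 : ∀ j, lo ≤ act Φ Ψ (i j) (-(l j : ℤ)) u)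
    (h2 : ∀ j, act Φ Ψ (i j) (-(l j : ℤ)) v ≤ hi)
    (h4 : ∀ j j', j ≠ j' → act Φ Ψ (i j) (-(l j : ℤ)) v ≤ act Φ Ψ (i j') (-(l j' : ℤ)) u ∨
      act Φ Ψ (i j') (-(l j' : ℤ)) v ≤ act Φ Ψ (i j) (-(l j : ℤ)) u) : False := by
  have hx0 : 0 ≤ x := R.y1.trans L.y1x.le
  have hxδ := L.xδ
  have hδ := L.δpos
  have hy1x := L.y1x
  have hy2 := R.y2
  have hy12 : y₁ < y₂ := by linarith
  -- choose `n`
  obtain ⟨n₁, hn₁⟩ := L.act_small hu hδ
  obtain ⟨n₂, hn₂⟩ := L.act_small hlo hδ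
  set n : ℕ := max n₁ n₂ with hn
  set u₁ := act Φ Ψ (-(n : ℤ)) (-(n : ℤ)) u with hu₁
  set lo' := act Φ Ψ (-(n : ℤ)) (-(n : ℤ)) lo with hlo'
  have hu₁δ : u₁ ≤ δ := by
    refine (L.act_mono hu ?_).trans hn₁
    have : n₁ ≤ n := le_max_left _ _
    omega
  have hloδ : lo' ≤ δ := by
    refine (L.act_mono hlo ?_).trans hn₂
    have : n₂ ≤ n := le_max_right _ _
    omega
  have hu₁0 : 0 < u₁ := L.act_pos _ _ hu
  have hlo'0 : 0 < lo' := L.act_pos _ _ hlo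
  -- choose `M`
  obtain ⟨M, hM⟩ := L.cover R hu huv
  have hM := hM M le_rfl
  rw [L.pow_eq] at hM
  -- choose `T`
  obtain ⟨T₀, hT₀⟩ := L.act_large hlo'0 (act Φ Ψ M M hi)
  set T : ℕ := max T₀ 1 with hT
  have hT1 : 1 ≤ T := le_max_right _ _
  have hTM : act Φ Ψ M M hi ≤ act Φ Ψ T T lo' := by
    refine hT₀.trans (L.act_mono hlo'0 ?_)
    exact_mod_cast le_max_left T₀ 1
  -- the key transport
  have key : ∀ (N j m : ℕ), l j ≤ N → Alt y₁ y₂ P 0 (act Φ Ψ N N lo') m →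
      Alt y₁ y₂ P (act Φ Ψ ((N : ℤ) + M) ((N : ℤ) + M) (act Φ Ψ (i j) (-(l j : ℤ)) u))
        (act Φ Ψ ((N : ℤ) + M) ((N : ℤ) + M) (act Φ Ψ (i j) (-(l j : ℤ)) v)) m := by
    intro N j m hN hA
    obtain ⟨b, hb⟩ : ∃ b : ℕ, N = l j + b := ⟨N - l j, by omega⟩
    set a : ℕ := N + i j with ha
    have e1 : act Φ Ψ N N lo' ≤ act Φ Ψ a b u₁ := by
      have e2 : act Φ Ψ a b u₁ =
          act Φ Ψ ((N : ℤ) - n) ((N : ℤ) - n) (act Φ Ψ (i j) (-(l j : ℤ)) u) := by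
        rw [hu₁, L.act_mul, L.act_mul, ha, hb]
        push_cast
        congr 2 <;> ring
      have e3 : act Φ Ψ N N lo' = act Φ Ψ ((N : ℤ) - n) ((N : ℤ) - n) lo := by
        rw [hlo', L.act_mul]
        rfl
      rw [e2, e3]
      exact (act Φ Ψ _ _).monotone (h1 j)
    have hA1 : Alt y₁ y₂ P (act Φ Ψ a b 0) (act Φ Ψ a b u₁) m := by
      rw [L.act_zero]
      exact hA.mono le_rfl e1
    rw [alt_iso] at hA1
    have hA2 : Alt y₁ y₂ (fun s => W f g (k * a) (k * b) (x + s)) 0 u₁ m := by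
      refine hA1.congr ?_
      intro s hs
      rw [L.P_act, L.Pδ s ⟨hs.1, hs.2.trans hu₁δ⟩]
    have hcont : ContinuousOn (fun y => P (act Φ Ψ M M y) - x) (Icc u v) :=
      ((L.contP.comp (act Φ Ψ M M).continuous).sub continuous_const).continuousOn
    have hcov : Icc 0 u₁ ⊆ (fun y => P (act Φ Ψ M M y) - x) '' Icc u v := by
      intro s hs
      have hxs : x + s ∈ Icc y₁ y₂ := ⟨by linarith [hs.1], by linarith [hs.2]⟩
      obtain ⟨z, hz, hPz⟩ := hM hxs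
      refine ⟨act Φ Ψ (-(M : ℤ)) (-(M : ℤ)) z, ⟨?_, ?_⟩, ?_⟩
      · have h := (act Φ Ψ (-(M : ℤ)) (-(M : ℤ))).monotone hz.1
        rw [L.act_mul] at h
        simpa [act_one_apply] using h
      · have h := (act Φ Ψ (-(M : ℤ)) (-(M : ℤ))).monotone hz.2
        rw [L.act_mul] at h
        simpa [act_one_apply] using h
      · show P (act Φ Ψ M M (act Φ Ψ (-(M : ℤ)) (-(M : ℤ)) z)) - x = s
        rw [L.act_mul, show (M : ℤ) + -(M : ℤ) = 0 by ring, act_one_apply, hPz]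
        ring
    have hA3 := hA2.pullback hcont hcov
    have hA4 : Alt y₁ y₂ (fun y => P (act Φ Ψ (a + M : ℤ) (b + M : ℤ) y)) u v m := by
      refine hA3.congr ?_
      intro y _
      show P (act Φ Ψ (a + M : ℤ) (b + M : ℤ) y) =
        W f g (k * a) (k * b) (x + (P (act Φ Ψ M M y) - x))
      rw [← L.act_mul, L.P_act]
      congr 1
      ring
    rw [← alt_iso] at hA4
    have e4 : ∀ y, act Φ Ψ (a + M : ℤ) (b + M : ℤ) y =
        act Φ Ψ ((N : ℤ) + M) ((N : ℤ) + M) (act Φ Ψ (i j) (-(l j : ℤ)) y) := by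
      intro y
      rw [L.act_mul, ha, hb]
      push_cast
      congr 2 <;> ring
    rwa [e4, e4] at hA4
  -- growth
  have step : ∀ N m : ℕ, Alt y₁ y₂ P 0 (act Φ Ψ N N lo') m →
      Alt y₁ y₂ P 0 (act Φ Ψ ((N + T : ℕ) : ℤ) ((N + T : ℕ) : ℤ) lo') ((N / B + 1) * m) := by
    intro N m hA
    refine alt_arcs hy12
      (fun j => act Φ Ψ ((N : ℤ) + M) ((N : ℤ) + M) (act Φ Ψ (i j) (-(l j : ℤ)) u))
      (fun j => act Φ Ψ ((N : ℤ) + M) ((N : ℤ) + M) (act Φ Ψ (i j) (-(l j : ℤ)) v))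
      ?_ ?_ ?_ (N / B) (Finset.range (N / B + 1)) _ (Finset.card_range _) ?_ ?_
    · intro j
      exact (act Φ Ψ _ _).strictMono ((act Φ Ψ _ _).strictMono huv)
    · intro j j' hj
      rcases h4 j j' hj with h | h
      · exact Or.inl ((act Φ Ψ _ _).monotone h)
      · exact Or.inr ((act Φ Ψ _ _).monotone h)
    · intro j
      exact (L.act_pos _ _ (hlo.trans_le (h1 j))).le
    · intro j _
      show act Φ Ψ ((N : ℤ) + M) ((N : ℤ) + M) (act Φ Ψ (i j) (-(l j : ℤ)) v) ≤ _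
      calc act Φ Ψ ((N : ℤ) + M) ((N : ℤ) + M) (act Φ Ψ (i j) (-(l j : ℤ)) v)
          ≤ act Φ Ψ ((N : ℤ) + M) ((N : ℤ) + M) hi := (act Φ Ψ _ _).monotone (h2 j)
        _ = act Φ Ψ N N (act Φ Ψ M M hi) := by rw [L.act_mul]
        _ ≤ act Φ Ψ N N (act Φ Ψ T T lo') := (act Φ Ψ _ _).monotone hTM
        _ = act Φ Ψ ((N + T : ℕ) : ℤ) ((N + T : ℕ) : ℤ) lo' := by
            rw [L.act_mul]
            push_cast
            rfl
    · intro j hj
      refine key N j m ?_ hA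
      rw [Finset.mem_range] at hj
      have h5 : B * j ≤ B * (N / B) := Nat.mul_le_mul_left _ (by omega)
      have h6 : B * (N / B) ≤ N := Nat.mul_div_le N B
      exact (hl j).trans (h5.trans h6)
  -- exponential bound
  obtain ⟨K, hK⟩ := R.expbd
  have bound : ∀ N m : ℕ, Alt y₁ y₂ P 0 (act Φ Ψ N N lo') m → m ≤ K ^ (k * N + 1) := by
    intro N m hA
    apply hK
    have hA1 : Alt y₁ y₂ P (act Φ Ψ N N 0) (act Φ Ψ N N lo') m := by
      rw [L.act_zero]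
      exact hA
    rw [alt_iso] at hA1
    have hA2 : Alt y₁ y₂ (fun s => W f g (k * N) (k * N) (OrderIso.addLeft x s)) 0 lo' m := by
      refine hA1.congr ?_
      intro s hs
      rw [L.P_act, L.Pδ s ⟨hs.1, hs.2.trans hloδ⟩]
      rfl
    rw [← alt_iso] at hA2
    refine hA2.mono ?_ ?_
    · simpa using hx0
    · show x + lo' ≤ 1
      linarith
  -- start
  obtain ⟨N₁, hN₁⟩ := L.cover R (u := lo' / 2) (v := lo') (by linarith) (by linarith)
  have start : Alt y₁ y₂ P 0 (act Φ Ψ N₁ N₁ lo') 1 := by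
    have h := hN₁ N₁ le_rfl
    rw [L.pow_eq] at h
    obtain ⟨s, hs, hPs⟩ := h ⟨le_rfl, hy12.le⟩
    obtain ⟨t, ht, hPt⟩ := h ⟨hy12.le, le_rfl⟩
    have hpos : 0 < act Φ Ψ N₁ N₁ (lo' / 2) := L.act_pos _ _ (by linarith)
    exact alt_one hy12 ⟨hpos.le.trans hs.1, hs.2⟩ ⟨hpos.le.trans ht.1, ht.2⟩ hPs hPt
  -- the sequence
  set c : ℕ → ℕ := fun j => (N₁ + j * T) / B + 1 with hc
  set mm : ℕ → ℕ := fun j => ∏ q ∈ Finset.range j, c q with hmm
  have hmA : ∀ j, Alt y₁ y₂ P 0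
      (act Φ Ψ ((N₁ + j * T : ℕ) : ℤ) ((N₁ + j * T : ℕ) : ℤ) lo') (mm j) := by
    intro j
    induction j with
    | zero => simpa [hmm] using start
    | succ j ih =>
      have h := step _ _ ih
      have e1 : N₁ + (j + 1) * T = N₁ + j * T + T := by ring
      have e2 : mm (j + 1) = ((N₁ + j * T) / B + 1) * mm j := by
        rw [hmm]
        simp only [Finset.prod_range_succ]
        rw [mul_comm]
      rw [e1, e2]
      exact h
  have hmb : ∀ j, mm j ≤ K ^ (k * (N₁ + j * T) + 1) := fun j => bound _ _ (hmA j)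
  have hm1 : ∀ j, 1 ≤ mm j := by
    intro j
    exact Finset.one_le_prod' (fun q _ => Nat.le_add_left 1 _)
  have hKpos : 0 < K := by
    rcases Nat.eq_zero_or_pos K with h | h
    · have := hmb 0
      have := hm1 0
      rw [h] at *
      simp at *
      omega
    · exact h
  set C : ℕ := K ^ (k * T) with hC
  have hCpos : 0 < C := Nat.pow_pos hKpos
  set j₀ : ℕ := 2 * C * B with hj₀
  have hcge : ∀ j, j₀ ≤ j → 2 * C ≤ c j := by
    intro j hj
    have h5 : 2 * C * B ≤ N₁ + j * T := by nlinarith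
    have h6 : 2 * C ≤ (N₁ + j * T) / B := (Nat.le_div_iff_mul_le hB).2 h5
    show 2 * C ≤ (N₁ + j * T) / B + 1
    omega
  have hlow : ∀ q, (2 * C) ^ q ≤ mm (j₀ + q) := by
    intro q
    induction q with
    | zero => simpa using hm1 j₀
    | succ q ih =>
      have e2 : mm (j₀ + (q + 1)) = mm (j₀ + q) * c (j₀ + q) := by
        rw [hmm, ← add_assoc]
        simp only [Finset.prod_range_succ]
      rw [e2, pow_succ]
      exact Nat.mul_le_mul ih (hcge _ (by omega))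
  set D : ℕ := K ^ (k * (N₁ + j₀ * T) + 1) with hD
  have hup : ∀ q, mm (j₀ + q) ≤ D * C ^ q := by
    intro q
    refine (hmb (j₀ + q)).trans ?_
    rw [hD, hC, ← pow_mul, ← pow_add]
    apply le_of_eq
    congr 1
    ring
  have hfin : ∀ q, 2 ^ q ≤ D := by
    intro q
    have h := (hlow q).trans (hup q)
    rw [mul_pow] at h
    exact Nat.le_of_mul_le_mul_right h (Nat.pow_pos hCpos)
  have := hfin D
  have := Nat.lt_two_pow_self (n := D)
  omega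

end LeafSec

end Pool.Agent.CFP
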