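import Pool.Agent.Lib_MP_eedf80_an.Basic
import Pool.Agent.Lib_MP_eedf80_an.Leaf1
import Pool.Agent.Lib_MP_eedf80_an.CaseR

/-!
# Part L2: the leaf satisfies the abstract axioms `Core`
-/

set_option autoImplicit false

namespace Pool.Agent.CFP

open Set Function

section Act

variable {Φ Ψ : ℝ ≃o ℝ}

theorem leaf2_act_mul (hc : Φ * Ψ = Ψ * Φ) (a b a' b' : ℤ) :
    act Φ Ψ a b * act Φ Ψ a' b' = act Φ Ψ (a + a') (b + b') := by
  have h : Commute Φ Ψ := hc
  unfold act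
  rw [zpow_add, zpow_add, mul_assoc, ← mul_assoc (Ψ ^ b), (h.zpow_zpow a' b).symm.eq]
  simp only [mul_assoc]

theorem leaf2_act_act (hc : Φ * Ψ = Ψ * Φ) (a b a' b' : ℤ) (u : ℝ) :
    act Φ Ψ a b (act Φ Ψ a' b' u) = act Φ Ψ (a + a') (b + b') u := by
  rw [← leaf2_act_mul hc]
  rfl

theorem leaf2_act_zero (u : ℝ) : act Φ Ψ 0 0 u = u := by
  unfold act
  simp

theorem leaf2_act_neg (hc : Φ * Ψ = Ψ * Φ) (a b : ℤ) (u : ℝ) :
    act Φ Ψ (-a) (-b) (act Φ Ψ a b u) = u := by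
  rw [leaf2_act_act hc]
  simp [leaf2_act_zero]

theorem leaf2_act_neg' (hc : Φ * Ψ = Ψ * Φ) (a b : ℤ) (u : ℝ) :
    act Φ Ψ a b (act Φ Ψ (-a) (-b) u) = u := by
  rw [leaf2_act_act hc]
  simp [leaf2_act_zero]

theorem leaf2_pow_H (hc : Φ * Ψ = Ψ * Φ) (n : ℕ) : (Φ * Ψ) ^ n = act Φ Ψ n n := by
  have h : Commute Φ Ψ := hc
  unfold act
  rw [h.mul_pow]
  simp

theorem leaf2_pow_zero {e : ℝ ≃o ℝ} (he : e 0 = 0) (n : ℕ) : (e ^ n) 0 = 0 := by
  induction n with
  | zero => simp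
  | succ n ih => rw [pow_succ, RelIso.mul_apply, he, ih]

theorem leaf2_zpow_zero {e : ℝ ≃o ℝ} (he : e 0 = 0) (n : ℤ) : (e ^ n) 0 = 0 := by
  cases n with
  | ofNat n => simpa using leaf2_pow_zero he n
  | negSucc n =>
    rw [zpow_negSucc]
    have h := leaf2_pow_zero he (n + 1)
    conv_lhs => rw [← h]
    exact RelIso.inv_apply_self _ _

theorem leaf2_act_pos (h1 : Φ 0 = 0) (h2 : Ψ 0 = 0) (a b : ℤ) {u : ℝ} (hu : 0 < u) :
    0 < act Φ Ψ a b u := by
  have h0 : act Φ Ψ a b 0 = 0 := by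
    unfold act
    rw [RelIso.mul_apply, leaf2_zpow_zero h2, leaf2_zpow_zero h1]
  have := (act Φ Ψ a b).strictMono hu
  rwa [h0] at this

/-- Orbits of a homeomorphism without fixed points are unbounded. -/
theorem leaf2_unbounded (e : ℝ ≃o ℝ) (he : ∀ u > 0, u < e u) {v : ℝ} (hv : 0 < v) (M : ℝ) :
    ∃ n : ℕ, M < (e ^ n) v := by
  by_contra hcon
  push Not at hcon
  have hmono : Monotone (fun n : ℕ => (e ^ n) v) := by
    apply monotone_nat_of_le_succ
    intro n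
    have hpos : 0 < (e ^ n) v := by
      induction n with
      | zero => simpa using hv
      | succ n ih => rw [pow_succ', RelIso.mul_apply]; exact ih.trans (he _ ih)
    rw [pow_succ', RelIso.mul_apply]
    exact (he _ hpos).le
  have hbdd : BddAbove (range fun n : ℕ => (e ^ n) v) := ⟨M, by rintro _ ⟨n, rfl⟩; exact hcon n⟩
  have hlim := tendsto_atTop_ciSup hmono hbdd
  set s := ⨆ n : ℕ, (e ^ n) v
  have hs : v ≤ s := by
    have := le_ciSup hbdd 0
    simpa using this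
  have hlim2 : Filter.Tendsto (fun n : ℕ => (e ^ (n + 1)) v) Filter.atTop (nhds s) :=
    hlim.comp (Filter.tendsto_add_atTop_nat 1)
  have hlim3 : Filter.Tendsto (fun n : ℕ => (e ^ (n + 1)) v) Filter.atTop (nhds (e s)) := by
    have := (e.continuous.tendsto s).comp hlim
    refine this.congr fun n => ?_
    rw [pow_succ', RelIso.mul_apply]
    rfl
  have := tendsto_nhds_unique hlim2 hlim3
  exact absurd this (he s (hv.trans_le hs)).ne

theorem leaf2_act_pow (hc : Φ * Ψ = Ψ * Φ) (a b : ℤ) (n : ℕ) :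
    act Φ Ψ a b ^ n = act Φ Ψ (n * a) (n * b) := by
  induction n with
  | zero => ext u; simp [leaf2_act_zero]
  | succ n ih =>
    rw [pow_succ, ih, leaf2_act_mul hc]
    push_cast
    congr 1 <;> ring

/-- A homeomorphism without fixed points in `(0, ∞)` moves all points in the same direction. -/
theorem leaf2_sign (e : ℝ ≃o ℝ) (he : ∀ u > 0, e u ≠ u) :
    (∀ u > 0, u < e u) ∨ ∀ u > 0, e u < u := by
  by_contra hcon
  push Not at hcon
  obtain ⟨⟨u, hu, hu'⟩, ⟨v, hv, hv'⟩⟩ := hcon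
  obtain ⟨w, hw, hw'⟩ := (isPreconnected_Ioi (a := (0 : ℝ))).intermediate_value₂ hu hv
    e.continuous.continuousOn continuousOn_id hu' hv'
  exact he w hw hw'

theorem leaf2_pow_le {e : ℝ ≃o ℝ} (he : ∀ u > 0, u < e u) (n : ℕ) {u : ℝ} (hu : 0 < u) :
    u ≤ (e ^ n) u ∧ (0 < n → u < (e ^ n) u) := by
  induction n with
  | zero => simp
  | succ n ih =>
    have h1 : u < (e ^ (n + 1)) u := by
      rw [pow_succ', RelIso.mul_apply]
      exact ih.1.trans_lt (he _ (hu.trans_le ih.1))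
    exact ⟨h1.le, fun _ => h1⟩

end Act

section Main

variable {f g P : ℝ → ℝ} {y₁ y₂ s₁ s₂ x δ : ℝ} {k : ℕ} {Φ Ψ : ℝ ≃o ℝ}

theorem leaf2_comm (L : Leaf f g y₁ y₂ k x δ P Φ Ψ) : Φ * Ψ = Ψ * Φ := by
  ext u
  exact L.comm u

theorem leaf2_H (L : Leaf f g y₁ y₂ k x δ P Φ Ψ) : ∀ u > 0, u < (Φ * Ψ) u := fun u hu =>
  L.exp u hu

theorem leaf2_apos (L : Leaf f g y₁ y₂ k x δ P Φ Ψ) (a b : ℤ) {u : ℝ} (hu : 0 < u) :
    0 < act Φ Ψ a b u := leaf2_act_pos (L.Φ0 0 le_rfl) (L.Ψ0 0 le_rfl) a b hu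

theorem leaf2_y (R : Red f g y₁ y₂ s₁ s₂) : y₁ < y₂ := R.y1s1.trans (R.s1s2.trans R.s2y2)

theorem leaf2_free_opp (R : Red f g y₁ y₂ s₁ s₂) (L : Leaf f g y₁ y₂ k x δ P Φ Ψ) (a b : ℕ)
    (hab : 0 < a + b) {v0 : ℝ} (hv0 : 0 < v0) (h : act Φ Ψ a (-(b : ℤ)) v0 = v0) : False := by
  have hc := leaf2_comm L
  by_cases hall : ∀ u > 0, act Φ Ψ a (-(b : ℤ)) u = u
  · have key : ∀ w ∈ Icc (x + δ / 2) (x + δ), W f g (k * a) 0 w = W f g 0 (k * b) w := by
      intro w hw
      have hδ := L.δpos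
      have hu : 0 < w - x := by linarith [hw.1]
      have hPw : P (w - x) = w := by
        rw [L.Pδ _ ⟨hu.le, by linarith [hw.2]⟩]; ring
      have h1 := hall (act Φ Ψ 0 b (w - x)) (leaf2_apos L _ _ hu)
      rw [leaf2_act_act hc] at h1
      have h2 : act Φ Ψ ((a : ℕ) : ℤ) ((0 : ℕ) : ℤ) (w - x)
          = act Φ Ψ ((0 : ℕ) : ℤ) ((b : ℕ) : ℤ) (w - x) := by
        simpa using h1
      have h3 := L.P_act a 0 (w - x)
      have h4 := L.P_act 0 b (w - x)
      rw [h2, h4, hPw] at h3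
      simpa using h3.symm
    have hsp := R.spread (a := x + δ / 2) (b := x + δ)
      (by linarith [R.y1, L.y1x, L.δpos]) (by linarith [L.δpos]) (by linarith [R.y2, L.xδ]) key
    refine R.caseR (A := k * a) (B := k * b) ?_ hsp
    have := L.k1
    rw [← mul_add]
    exact Nat.mul_pos (by omega) hab
  · push Not at hall
    obtain ⟨u, hu, hne⟩ := hall
    set T := act Φ Ψ a (-(b : ℤ)) with hT
    have hTj : ∀ j : ℕ, act Φ Ψ ((a * j : ℕ) : ℤ) (-((b * j : ℕ) : ℤ)) = T ^ j := by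
      intro j
      rw [hT, leaf2_act_pow hc]
      congr 1 <;> push_cast <;> ring
    have hfix : ∀ (j : ℕ) (n : ℤ), (T ^ j) (act Φ Ψ n n v0) = act Φ Ψ n n v0 := by
      intro j n
      have h1 : T (act Φ Ψ n n v0) = act Φ Ψ n n v0 := by
        conv_rhs => rw [← h]
        rw [hT, leaf2_act_act hc, leaf2_act_act hc]
        congr 2 <;> ring
      induction j with
      | zero => simp
      | succ j ih => rw [pow_succ, RelIso.mul_apply, h1, ih]
    rcases lt_or_gt_of_ne hne with hlt | hgt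
    · -- `T u < u`
      have hanti : Antitone (fun j : ℕ => (T ^ j) u) := by
        apply antitone_nat_of_succ_le
        intro j
        rw [pow_succ, RelIso.mul_apply]
        exact (T ^ j).monotone hlt.le
      obtain ⟨n, hn⟩ := leaf2_unbounded (Φ * Ψ) (leaf2_H L) hu v0
      rw [leaf2_pow_H hc] at hn
      have hn' : act Φ Ψ (-(n : ℤ)) (-(n : ℤ)) v0 < u := by
        have := (act Φ Ψ (-(n : ℤ)) (-(n : ℤ))).strictMono hn
        rwa [leaf2_act_neg hc] at this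
      refine Leaf.counting R L (leaf2_apos L a (-(b : ℤ)) hu) hlt
        (leaf2_apos L (-(n : ℤ)) (-(n : ℤ)) hv0) (hi := u) (b + 1) (by omega)
        (fun j => a * j) (fun j => b * j) (fun j => by gcongr; omega) ?_ ?_ ?_
      · intro j
        rw [hTj, ← hfix (j + 1) (-(n : ℤ))]
        have h1 : (T ^ (j + 1)) u = (T ^ j) (T u) := by rw [pow_succ, RelIso.mul_apply]
        rw [← h1]
        exact (T ^ (j + 1)).monotone hn'.le
      · intro j
        rw [hTj]
        have := hanti (Nat.zero_le j)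
        simpa using this
      · intro j j' hjj
        rw [hTj, hTj]
        have h1 : ∀ i, (T ^ (i + 1)) u = (T ^ i) (T u) := fun i => by
          rw [pow_succ, RelIso.mul_apply]
        rw [← h1, ← h1]
        rcases lt_or_gt_of_ne hjj with h2 | h2
        · exact Or.inr (hanti h2)
        · exact Or.inl (hanti h2)
    · have hmono : Monotone (fun j : ℕ => (T ^ j) u) := by
        apply monotone_nat_of_le_succ
        intro j
        rw [pow_succ, RelIso.mul_apply]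
        exact (T ^ j).monotone hgt.le
      obtain ⟨n, hn⟩ := leaf2_unbounded (Φ * Ψ) (leaf2_H L) hv0 u
      rw [leaf2_pow_H hc] at hn
      refine Leaf.counting R L hu hgt hu (hi := act Φ Ψ n n v0) (b + 1) (by omega)
        (fun j => a * j) (fun j => b * j) (fun j => by gcongr; omega) ?_ ?_ ?_
      · intro j
        rw [hTj]
        have := hmono (Nat.zero_le j)
        simpa using this
      · intro j
        rw [hTj, ← hfix (j + 1) n]
        have h1 : (T ^ (j + 1)) u = (T ^ j) (T u) := by rw [pow_succ, RelIso.mul_apply]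
        rw [← h1]
        exact (T ^ (j + 1)).monotone hn.le
      · intro j j' hjj
        rw [hTj, hTj]
        have h1 : ∀ i, (T ^ (i + 1)) u = (T ^ i) (T u) := fun i => by
          rw [pow_succ, RelIso.mul_apply]
        rw [← h1, ← h1]
        rcases lt_or_gt_of_ne hjj with h2 | h2
        · exact Or.inl (hmono h2)
        · exact Or.inr (hmono h2)

theorem leaf2_hit (R : Red f g y₁ y₂ s₁ s₂) (L : Leaf f g y₁ y₂ k x δ P Φ Ψ) {z : ℝ}
    (hz : 0 < z) (hz1 : z < 1) : ∃ u > 0, P u = z := by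
  obtain ⟨n0, hn0⟩ := L.cover R (u := 1) (v := 2) (by norm_num) (by norm_num)
  obtain ⟨m, hm⟩ := R.fill (a := y₁) (b := y₂) R.y1 (leaf2_y R) R.y2 hz hz1
  have hk : m ≤ k * m := Nat.le_mul_of_pos_left _ L.k1
  obtain ⟨y, hy, hyz⟩ := hm (k * m) (k * m) hk hk ⟨le_rfl, le_rfl⟩
  obtain ⟨u, hu, hPu⟩ := hn0 n0 le_rfl hy
  rw [leaf2_pow_H (leaf2_comm L)] at hu
  have hu0 : 0 < u := (leaf2_apos L n0 n0 one_pos).trans_le hu.1
  exact ⟨act Φ Ψ m m u, leaf2_apos L _ _ hu0, by rw [L.P_act, hPu, hyz]⟩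

theorem leaf2_contract {e : ℝ ≃o ℝ} (he : ∀ u > 0, e u < u) (he0 : e 0 = 0)
    (L : Leaf f g y₁ y₂ k x δ P Φ Ψ) {z u : ℝ} (hu : 0 < u) (hz : z ≠ x)
    (h : ∀ n : ℕ, P ((e ^ n) u) = z) : False := by
  have hinv : ∀ w > 0, w < (e⁻¹) w := by
    intro w hw
    have h0 : (e⁻¹) 0 = 0 := by
      conv_lhs => rw [← he0]
      exact RelIso.inv_apply_self _ _
    have hpos : 0 < (e⁻¹) w := by
      have := (e⁻¹).strictMono hw
      rwa [h0] at this
    have := he _ hpos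
    rwa [RelIso.apply_inv_self] at this
  set ε := min δ |z - x| with hε
  have hεpos : 0 < ε := lt_min L.δpos (abs_pos.2 (sub_ne_zero.2 hz))
  obtain ⟨n, hn⟩ := leaf2_unbounded e⁻¹ hinv hεpos u
  have h1 : (e ^ n) u < ε := by
    have := (e ^ n).strictMono hn
    rwa [inv_pow, RelIso.apply_inv_self] at this
  have h2 : 0 < (e ^ n) u := by
    have := (e ^ n).strictMono hu
    rwa [leaf2_pow_zero he0] at this
  have h3 := h n
  rw [L.Pδ _ ⟨h2.le, (h1.trans_le (min_le_left _ _)).le⟩] at h3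
  have h4 : |z - x| = (e ^ n) u := by
    rw [← h3, add_sub_cancel_left, abs_of_pos h2]
  have h5 := h1.trans_le (min_le_right _ _)
  rw [h4] at h5
  exact lt_irrefl _ h5

theorem leaf2_posΦ (R : Red f g y₁ y₂ s₁ s₂) (L : Leaf f g y₁ y₂ k x δ P Φ Ψ) :
    ∀ u > 0, u < Φ u := by
  rcases leaf2_sign Φ (fun u hu h => leaf2_free_opp R L 1 0 one_pos hu (by
    unfold act; simpa using h)) with h | h
  · exact h
  · exfalso
    obtain ⟨z, hz0, hz1, hzx, hfz, -⟩ := L.other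
    obtain ⟨u, hu, hPu⟩ := leaf2_hit R L hz0 hz1
    refine leaf2_contract h (L.Φ0 0 le_rfl) L hu hzx fun n => ?_
    have h1 : (Φ ^ n) u = act Φ Ψ (n : ℕ) (0 : ℕ) u := by unfold act; simp
    rw [h1, L.P_act, hPu, W_apply, mul_zero, iterate_zero, id, iterate_mul]
    exact iterate_fixed hfz n

theorem leaf2_posΨ (R : Red f g y₁ y₂ s₁ s₂) (L : Leaf f g y₁ y₂ k x δ P Φ Ψ) :
    ∀ u > 0, u < Ψ u := by
  rcases leaf2_sign Ψ (fun u hu h => leaf2_free_opp R L 0 1 one_pos hu (by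
    have h1 : (Ψ⁻¹) u = u := by
      conv_lhs => rw [← h]
      exact RelIso.inv_apply_self _ _
    unfold act
    simpa using h1)) with h | h
  · exact h
  · exfalso
    obtain ⟨z, hz0, hz1, hzx, -, hgz⟩ := L.other
    obtain ⟨u, hu, hPu⟩ := leaf2_hit R L hz0 hz1
    refine leaf2_contract h (L.Ψ0 0 le_rfl) L hu hzx fun n => ?_
    have h1 : (Ψ ^ n) u = act Φ Ψ (0 : ℕ) (n : ℕ) u := by unfold act; simp
    rw [h1, L.P_act, hPu, W_apply, mul_zero, iterate_zero, id, iterate_mul]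
    exact iterate_fixed hgz n

theorem leaf2_act_gt (R : Red f g y₁ y₂ s₁ s₂) (L : Leaf f g y₁ y₂ k x δ P Φ Ψ) (a b : ℕ)
    (hab : 0 < a + b) {u : ℝ} (hu : 0 < u) : u < act Φ Ψ a b u := by
  have h1 := leaf2_pow_le (leaf2_posΨ R L) b hu
  have h2 := leaf2_pow_le (leaf2_posΦ R L) a (hu.trans_le h1.1)
  have h3 : act Φ Ψ a b u = (Φ ^ a) ((Ψ ^ b) u) := by unfold act; simp
  rw [h3]
  rcases Nat.eq_zero_or_pos a with h | h
  · exact (h1.2 (by omega)).trans_le h2.1
  · exact h1.1.trans_lt (h2.2 h)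

theorem leaf2_free (R : Red f g y₁ y₂ s₁ s₂) (L : Leaf f g y₁ y₂ k x δ P Φ Ψ) :
    ∀ a b : ℤ, (∃ u > 0, act Φ Ψ a b u = u) → a = 0 ∧ b = 0 := by
  rintro a b ⟨u, hu, h⟩
  have hc := leaf2_comm L
  have h' : act Φ Ψ (-a) (-b) u = u := by
    conv_lhs => rw [← h]
    exact leaf2_act_neg hc a b u
  by_contra hne
  rcases le_total 0 a with ha | ha <;> rcases le_total 0 b with hb | hb
  · lift a to ℕ using ha
    lift b to ℕ using hb
    exact (leaf2_act_gt R L a b (by omega) hu).ne' h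
  · obtain ⟨b', rfl⟩ : ∃ b' : ℕ, b = -(b' : ℤ) := ⟨b.natAbs, by omega⟩
    lift a to ℕ using ha
    exact leaf2_free_opp R L a b' (by omega) hu h
  · obtain ⟨a', rfl⟩ : ∃ a' : ℕ, a = -(a' : ℤ) := ⟨a.natAbs, by omega⟩
    lift b to ℕ using hb
    rw [neg_neg] at h'
    exact leaf2_free_opp R L a' b (by omega) hu h'
  · obtain ⟨a', rfl⟩ : ∃ a' : ℕ, a = -(a' : ℤ) := ⟨a.natAbs, by omega⟩
    obtain ⟨b', rfl⟩ : ∃ b' : ℕ, b = -(b' : ℤ) := ⟨b.natAbs, by omega⟩
    rw [neg_neg, neg_neg] at h'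
    exact (leaf2_act_gt R L a' b' (by omega) hu).ne' h'

theorem leaf2_dense (R : Red f g y₁ y₂ s₁ s₂) (L : Leaf f g y₁ y₂ k x δ P Φ Ψ) :
    ∀ u v, 0 < u → u < v → ∃ a b : ℤ, u < act Φ Ψ a b u ∧ act Φ Ψ a b u < v := by
  intro u v hu huv
  by_contra hcon
  push Not at hcon
  have hc := leaf2_comm L
  have hex : ∀ j : ℕ, ∃ i : ℕ, u ≤ act Φ Ψ i (-(j : ℤ)) u := by
    intro j
    obtain ⟨i, hi⟩ := leaf2_unbounded Φ (leaf2_posΦ R L)
      (v := act Φ Ψ 0 (-(j : ℤ)) u) (leaf2_apos L _ _ hu) u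
    refine ⟨i, hi.le.trans ?_⟩
    have h1 : (Φ ^ i) (act Φ Ψ 0 (-(j : ℤ)) u) = act Φ Ψ i 0 (act Φ Ψ 0 (-(j : ℤ)) u) := by
      conv_rhs => rw [act]
      simp
    rw [h1, leaf2_act_act hc]
    simp
  classical
  set i : ℕ → ℕ := fun j => Nat.find (hex j) with hi
  have hi1 : ∀ j, u ≤ act Φ Ψ (i j) (-(j : ℤ)) u := fun j => Nat.find_spec (hex j)
  have hi2 : ∀ j m, m < i j → act Φ Ψ m (-(j : ℤ)) u < u := fun j m hm => by
    have := Nat.find_min (hex j) hm
    push Not at this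
    exact this
  have hup : ∀ j, act Φ Ψ (i j) (-(j : ℤ)) u < Φ u := by
    intro j
    rcases Nat.eq_zero_or_pos (i j) with h0 | h0
    · rw [h0]
      refine lt_of_le_of_lt ?_ (leaf2_posΦ R L u hu)
      have hw := leaf2_apos L ((0 : ℕ) : ℤ) (-(j : ℤ)) hu
      have h1 := (leaf2_pow_le (leaf2_posΨ R L) j hw).1
      have h2 : (Ψ ^ j) (act Φ Ψ ((0 : ℕ) : ℤ) (-(j : ℤ)) u) = u := by
        have h3 : ∀ w, (Ψ ^ j) w = act Φ Ψ 0 j w := fun w => by unfold act; simp
        rw [h3, leaf2_act_act hc]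
        simp [leaf2_act_zero]
      rwa [h2] at h1
    · obtain ⟨m, hm⟩ : ∃ m, i j = m + 1 := ⟨i j - 1, by omega⟩
      have h1 := hi2 j m (by omega)
      rw [hm]
      have h2 : act Φ Ψ ((m + 1 : ℕ) : ℤ) (-(j : ℤ)) u = Φ (act Φ Ψ m (-(j : ℤ)) u) := by
        have h3 : ∀ w, Φ w = act Φ Ψ 1 0 w := fun w => by unfold act; simp
        rw [h3, leaf2_act_act hc]
        push_cast
        congr 2 <;> ring
      rw [h2]
      exact Φ.strictMono h1
  obtain ⟨m, hm⟩ := leaf2_unbounded (Φ * Ψ) (leaf2_H L) hu v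
  rw [leaf2_pow_H hc] at hm
  have hswap : ∀ (a b a' b' : ℤ) (w : ℝ),
      act Φ Ψ a b (act Φ Ψ a' b' w) = act Φ Ψ a' b' (act Φ Ψ a b w) := by
    intro a b a' b' w
    rw [leaf2_act_act hc, leaf2_act_act hc, add_comm a, add_comm b]
  refine Leaf.counting R L hu huv hu (hi := act Φ Ψ m m (Φ u)) 1 le_rfl i (fun j => j)
    (fun j => by simp) hi1 ?_ ?_
  · intro j
    refine ((act Φ Ψ (i j) (-(j : ℤ))).monotone hm.le).trans ?_
    rw [hswap]
    exact (act Φ Ψ m m).monotone (hup j).le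
  · have hlt : ∀ j j', act Φ Ψ (i j) (-(j : ℤ)) u < act Φ Ψ (i j') (-(j' : ℤ)) u →
        act Φ Ψ (i j) (-(j : ℤ)) v ≤ act Φ Ψ (i j') (-(j' : ℤ)) u := by
      intro j j' h
      have h1 := (act Φ Ψ (-(i j : ℤ)) (-(-(j : ℤ)))).strictMono h
      rw [leaf2_act_neg hc, leaf2_act_act hc] at h1
      have h2 := hcon _ _ h1
      have h3 := (act Φ Ψ (i j) (-(j : ℤ))).monotone h2
      refine h3.trans (le_of_eq ?_)
      rw [leaf2_act_act hc]
      congr 2 <;> ring
    intro j j' hjj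
    rcases lt_trichotomy (act Φ Ψ (i j) (-(j : ℤ)) u) (act Φ Ψ (i j') (-(j' : ℤ)) u) with
      h | h | h
    · exact Or.inl (hlt j j' h)
    · exfalso
      have h1 := congrArg (act Φ Ψ (-(i j : ℤ)) (-(-(j : ℤ)))) h
      rw [leaf2_act_neg hc, leaf2_act_act hc] at h1
      have h2 := (leaf2_free R L _ _ ⟨u, hu, h1.symm⟩).2
      omega
    · exact Or.inr (hlt j' j h)

/-- PART L2. -/
theorem Leaf.core (R : Red f g y₁ y₂ s₁ s₂) (L : Leaf f g y₁ y₂ k x δ P Φ Ψ) :
    Core y₁ y₂ P Φ Ψ where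
  y := leaf2_y R
  contP := L.contP
  Φ0 := L.Φ0
  Ψ0 := L.Ψ0
  comm := leaf2_comm L
  posΦ := leaf2_posΦ R L
  posΨ := leaf2_posΨ R L
  PΦ u v h := by rw [L.PΦ, L.PΦ, h]
  PΨ u v h := by rw [L.PΨ, L.PΨ, h]
  free := leaf2_free R L
  dense := leaf2_dense R L
  nonconst u v hu huv := by
    by_contra hcon
    push Not at hcon
    obtain ⟨n, hn⟩ := L.cover R hu huv
    have hconst : ∀ s ∈ Icc (((Φ * Ψ) ^ n) u) (((Φ * Ψ) ^ n) v), P s = P (((Φ * Ψ) ^ n) u) := by
      intro s hs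
      obtain ⟨t, rfl⟩ := ((Φ * Ψ) ^ n).surjective s
      have ht : t ∈ Icc u v := ⟨((Φ * Ψ) ^ n).le_iff_le.1 hs.1, ((Φ * Ψ) ^ n).le_iff_le.1 hs.2⟩
      rw [leaf2_pow_H (leaf2_comm L), L.P_act, L.P_act, hcon t ht]
    have hy := leaf2_y R
    obtain ⟨s, hs, h1⟩ := hn n le_rfl (left_mem_Icc.2 hy.le)
    obtain ⟨s', hs', h2⟩ := hn n le_rfl (right_mem_Icc.2 hy.le)
    rw [hconst s hs] at h1
    rw [hconst s' hs'] at h2
    exact hy.ne (h1.symm.trans h2)
  grow u v m hu huv := by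
    have hy := leaf2_y R
    obtain ⟨n0, hn0⟩ := L.cover R hu huv
    refine ⟨n0 + m, fun n hn => ?_⟩
    obtain ⟨n', rfl⟩ : ∃ n', n = n' + n0 := ⟨n - n0, by omega⟩
    obtain ⟨s, hs, h1⟩ := hn0 n0 le_rfl (left_mem_Icc.2 hy.le)
    obtain ⟨s', hs', h2⟩ := hn0 n0 le_rfl (right_mem_Icc.2 hy.le)
    have hne : s ≠ s' := by
      rintro rfl
      exact hy.ne (h1.symm.trans h2)
    have halt : Alt y₁ y₂ P (((Φ * Ψ) ^ n0) u) (((Φ * Ψ) ^ n0) v) 1 := by
      rcases lt_or_gt_of_ne hne with h | h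
      · refine ⟨fun i => if i = 0 then s else s', 0, ?_, ?_, ?_⟩
        · intro i _
          by_cases hi : i = 0 <;> simp only [hi, if_true, if_false]
          · exact hs
          · exact hs'
        · intro i hi
          have : i = 0 := by omega
          subst this
          simpa using h
        · intro i hi
          interval_cases i
          · simp [h1]
          · simp [h2]
      · refine ⟨fun i => if i = 0 then s' else s, 1, ?_, ?_, ?_⟩
        · intro i _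
          by_cases hi : i = 0 <;> simp only [hi, if_true, if_false]
          · exact hs'
          · exact hs
        · intro i hi
          have : i = 0 := by omega
          subst this
          simpa using h
        · intro i hi
          interval_cases i
          · simp [h2]
          · simp [h1]
    obtain ⟨t, e, ht1, ht2, ht3⟩ := R.grow L.contP.continuousOn le_rfl halt (k * n')
    have hW : ∀ w, W f g (k * n') (k * n') (P w) = P (((Φ * Ψ) ^ n') w) := by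
      intro w
      rw [leaf2_pow_H (leaf2_comm L), L.P_act]
    refine Alt.le (m := 3 ^ (k * n') * 1) ⟨fun i => ((Φ * Ψ) ^ n') (t i), e, ?_, ?_, ?_⟩ ?_
    · intro i hi
      have := ht1 i hi
      rw [pow_add, RelIso.mul_apply, RelIso.mul_apply]
      exact ⟨((Φ * Ψ) ^ n').monotone this.1, ((Φ * Ψ) ^ n').monotone this.2⟩
    · intro i hi
      exact ((Φ * Ψ) ^ n').strictMono (ht2 i hi)
    · intro i hi
      have := ht3 i hi
      simp only [comp_apply, hW] at this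
      exact this
    · have h3 : n' ≤ k * n' := Nat.le_mul_of_pos_left _ L.k1
      have h4 : k * n' < 3 ^ (k * n') := Nat.lt_pow_self (by norm_num)
      omega

end Main

end Pool.Agent.CFP
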