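import Mathlib

set_option autoImplicit false

/-! PART E8: a fixed point free increasing homeomorphism of the line is conjugate to a translation. -/

namespace Pool.Agent.CFP

namespace Linearise

open Set

variable (θ : ℝ ≃o ℝ)

theorem orb_succ (R : ℝ) (m : ℤ) : (θ ^ (m + 1)) R = θ ((θ ^ m) R) := by
  rw [add_comm, zpow_add, zpow_one]; rfl

theorem orb_succ' (x : ℝ) (m : ℤ) : (θ ^ (m + 1)) x = (θ ^ m) (θ x) := by
  rw [zpow_add, zpow_one]; rfl

theorem orb_strictMono (hθ : ∀ u, u < θ u) (R : ℝ) : StrictMono (fun m : ℤ => (θ ^ m) R) := by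
  apply strictMono_int_of_lt_succ
  intro m
  show (θ ^ m) R < (θ ^ (m + 1)) R
  rw [orb_succ]; exact hθ _

theorem orb_above (hθ : ∀ u, u < θ u) (R y : ℝ) : ∃ m : ℤ, y < (θ ^ m) R := by
  by_contra hno
  push Not at hno
  have hb : BddAbove (range (fun m : ℤ => (θ ^ m) R)) := ⟨y, by rintro _ ⟨m, rfl⟩; exact hno m⟩
  have h1 : θ (⨆ m : ℤ, (θ ^ m) R) = ⨆ m : ℤ, θ ((θ ^ m) R) := OrderIso.map_ciSup θ hb
  have h2 : (⨆ m : ℤ, θ ((θ ^ m) R)) ≤ ⨆ m : ℤ, (θ ^ m) R := by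
    refine ciSup_le (fun m => ?_)
    rw [← orb_succ]
    exact le_ciSup hb (m + 1)
  have h3 := hθ (⨆ m : ℤ, (θ ^ m) R)
  rw [h1] at h3
  exact absurd h2 (not_le.2 h3)

theorem orb_below (hθ : ∀ u, u < θ u) (R y : ℝ) : ∃ m : ℤ, (θ ^ m) R ≤ y := by
  by_contra hno
  push Not at hno
  have hb : BddBelow (range (fun m : ℤ => (θ ^ m) R)) :=
    ⟨y, by rintro _ ⟨m, rfl⟩; exact (hno m).le⟩
  have hb' : BddBelow (range (fun m : ℤ => θ ((θ ^ m) R))) :=
    ⟨y, by rintro _ ⟨m, rfl⟩; show y ≤ θ ((θ ^ m) R); rw [← orb_succ]; exact (hno (m + 1)).le⟩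
  have h1 : θ (⨅ m : ℤ, (θ ^ m) R) = ⨅ m : ℤ, θ ((θ ^ m) R) := OrderIso.map_ciInf θ hb
  have h2 : (⨅ m : ℤ, θ ((θ ^ m) R)) ≤ ⨅ m : ℤ, (θ ^ m) R := by
    refine le_ciInf (fun m => ?_)
    have := ciInf_le hb' (m - 1)
    rw [← orb_succ, sub_add_cancel] at this
    exact this
  have h3 := hθ (⨅ m : ℤ, (θ ^ m) R)
  rw [h1] at h3
  exact absurd h2 (not_le.2 h3)

/-- the conjugacy -/
noncomputable def Th (R : ℝ) (t : ℝ) : ℝ := (θ ^ ⌊t⌋) (R + Int.fract t * (θ R - R))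

theorem Th_lt (hθ : ∀ u, u < θ u) (R t : ℝ) : Th θ R t < (θ ^ (⌊t⌋ + 1)) R := by
  unfold Th
  rw [orb_succ']
  apply (θ ^ ⌊t⌋).strictMono
  have h1 := Int.fract_lt_one t
  have h2 := hθ R
  nlinarith

theorem Th_ge (hθ : ∀ u, u < θ u) (R t : ℝ) : (θ ^ ⌊t⌋) R ≤ Th θ R t := by
  unfold Th
  apply (θ ^ ⌊t⌋).monotone
  have h1 := Int.fract_nonneg t
  have h2 := hθ R
  nlinarith

theorem Th_strictMono (hθ : ∀ u, u < θ u) (R : ℝ) : StrictMono (Th θ R) := by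
  intro s t hst
  rcases (Int.floor_mono hst.le).lt_or_eq with h | h
  · calc Th θ R s < (θ ^ (⌊s⌋ + 1)) R := Th_lt θ hθ R s
      _ ≤ (θ ^ ⌊t⌋) R := (orb_strictMono θ hθ R).monotone (by omega)
      _ ≤ _ := Th_ge θ hθ R t
  · unfold Th
    rw [h]
    apply (θ ^ ⌊t⌋).strictMono
    have h1 : Int.fract s < Int.fract t := by
      unfold Int.fract; rw [h]; linarith
    have h2 := hθ R
    nlinarith

theorem Th_surj (hθ : ∀ u, u < θ u) (R : ℝ) : Function.Surjective (Th θ R) := by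
  intro y
  obtain ⟨m0, hm0⟩ := orb_above θ hθ R y
  obtain ⟨m1, hm1⟩ := orb_below θ hθ R y
  obtain ⟨m, hm, hmax⟩ := Int.exists_greatest_of_bdd (P := fun m => (θ ^ m) R ≤ y)
    ⟨m0, fun z hz => by
      by_contra hlt
      push Not at hlt
      have := orb_strictMono θ hθ R hlt
      exact absurd (this.le.trans hz) (not_le.2 hm0)⟩ ⟨m1, hm1⟩
  have hm2 : y < (θ ^ (m + 1)) R := by
    by_contra hle
    push Not at hle
    have := hmax (m + 1) hle
    omega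
  set w := (θ ^ m).symm y with hw
  have hwy : (θ ^ m) w = y := (θ ^ m).apply_symm_apply y
  have h1 : R ≤ w := by
    rw [hw, OrderIso.le_symm_apply]; exact hm
  have h2 : w < θ R := by
    rw [hw, OrderIso.symm_apply_lt, ← orb_succ']; exact hm2
  have h3 := hθ R
  have h4 : 0 < θ R - R := by linarith
  refine ⟨m + (w - R) / (θ R - R), ?_⟩
  have h5 : 0 ≤ (w - R) / (θ R - R) := div_nonneg (by linarith) h4.le
  have h6 : (w - R) / (θ R - R) < 1 := by rw [div_lt_one h4]; linarith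
  have h7 : ⌊(m : ℝ) + (w - R) / (θ R - R)⌋ = m := by
    rw [Int.floor_intCast_add, Int.floor_eq_zero_iff.2 ⟨h5, h6⟩, add_zero]
  have h8 : Int.fract ((m : ℝ) + (w - R) / (θ R - R)) = (w - R) / (θ R - R) := by
    unfold Int.fract; rw [h7]; ring
  unfold Th
  rw [h7, h8, div_mul_cancel₀ _ h4.ne']
  rw [add_sub_cancel]
  exact hwy

end Linearise

open Linearise in
/-- PART E8: every fixed point free increasing homeomorphism is conjugate to a translation. -/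
theorem linearise (θ : ℝ ≃o ℝ) (hθ : ∀ u, u < θ u) (R : ℝ) :
    ∃ Θ : ℝ ≃o ℝ, Θ 0 = R ∧ ∀ t, Θ (t + 1) = θ (Θ t) := by
  refine ⟨StrictMono.orderIsoOfSurjective (Th θ R) (Th_strictMono θ hθ R) (Th_surj θ hθ R), ?_, ?_⟩
  · show Th θ R 0 = R
    simp [Th]
  · intro t
    show Th θ R (t + 1) = θ (Th θ R t)
    unfold Th
    rw [Int.floor_add_one, Int.fract_add_one, orb_succ]

end Pool.Agent.CFP
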