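import Pool.Agent.Lib_MP_eedf80_an.Basic

/-!
PART M1: fixed points of long words of both types in every interval.
-/

set_option autoImplicit false

namespace Pool.Agent.CFP

open Set Function

/-- A crossing point from negative to positive. -/
lemma m1_exists_cross {D : ℝ → ℝ} (hD : Continuous D) (hfin : {x | D x = 0}.Finite) {t₁ t₂ : ℝ}
    (h12 : t₁ ≤ t₂) (h1 : D t₁ < 0) (h2 : 0 < D t₂) :
    ∃ c ∈ Ioo t₁ t₂, D c = 0 ∧ ∃ ε > 0, (∀ t ∈ Ioo c (c + ε), 0 < D t) ∧
      ∀ t ∈ Ioo (c - ε) c, D t < 0 := by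
  set S : Set ℝ := {t | t ∈ Icc t₁ t₂ ∧ D t < 0} with hS
  have hne : S.Nonempty := ⟨t₁, left_mem_Icc.2 h12, h1⟩
  have hbdd : BddAbove S := ⟨t₂, fun t ht => ht.1.2⟩
  set c := sSup S with hc
  have hc1 : t₁ ≤ c := le_csSup hbdd ⟨left_mem_Icc.2 h12, h1⟩
  have hc2 : c ≤ t₂ := csSup_le hne fun t ht => ht.1.2
  have hcl : c ∈ closure S := csSup_mem_closure hne hbdd
  have hDc : D c ≤ 0 := by
    have : closure S ⊆ {t | D t ≤ 0} := by
      apply closure_minimal (fun t ht => ht.2.le)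
      exact isClosed_le hD continuous_const
    exact this hcl
  have hright : ∀ t, c < t → t ≤ t₂ → 0 ≤ D t := by
    intro t ht1 ht2
    by_contra hcon
    push Not at hcon
    have : t ≤ c := le_csSup hbdd ⟨⟨hc1.trans ht1.le, ht2⟩, hcon⟩
    linarith
  have hct2 : c < t₂ := by
    rcases hc2.lt_or_eq with h | h
    · exact h
    · rw [h] at hDc; linarith
  have hDc0 : D c = 0 := by
    refine le_antisymm hDc ?_
    by_contra hcon
    push Not at hcon
    have hev : ∀ᶠ t in nhds c, D t < 0 := (hD.tendsto c).eventually (gt_mem_nhds hcon)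
    obtain ⟨η, hη, hη'⟩ := Metric.eventually_nhds_iff.1 hev
    have hm : 0 < min (η / 2) (t₂ - c) := lt_min (by linarith) (by linarith)
    have l1 : min (η / 2) (t₂ - c) ≤ η / 2 := min_le_left _ _
    have l2 : min (η / 2) (t₂ - c) ≤ t₂ - c := min_le_right _ _
    have h3 := hright (c + min (η / 2) (t₂ - c)) (by linarith) (by linarith)
    have h4 := hη' (y := c + min (η / 2) (t₂ - c)) (by
      rw [Real.dist_eq, add_sub_cancel_left, abs_of_pos hm]; linarith)
    linarith
  have hct1 : t₁ < c := by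
    rcases hc1.lt_or_eq with h | h
    · exact h
    · rw [← h] at hDc0; linarith
  -- no zeros near `c`
  obtain ⟨η, hη, hη'⟩ : ∃ η > 0, ∀ t, t ≠ c → |t - c| < η → D t ≠ 0 := by
    have hfin' : ({x | D x = 0} \ {c}).Finite := hfin.subset sdiff_subset
    have hopen : IsOpen ({x | D x = 0} \ {c})ᶜ := hfin'.isClosed.isOpen_compl
    have hmem : c ∈ ({x | D x = 0} \ {c})ᶜ := by simp
    obtain ⟨η, hη, hη'⟩ := Metric.isOpen_iff.1 hopen c hmem
    refine ⟨η, hη, fun t htc ht hD0 => ?_⟩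
    have : t ∈ Metric.ball c η := by rw [Metric.mem_ball, Real.dist_eq]; exact ht
    exact hη' this ⟨hD0, htc⟩
  refine ⟨c, ⟨hct1, hct2⟩, hDc0, min η (t₂ - c), lt_min hη (by linarith), ?_, ?_⟩
  · intro t ht
    have l1 : min η (t₂ - c) ≤ η := min_le_left _ _
    have l2 : min η (t₂ - c) ≤ t₂ - c := min_le_right _ _
    have h3 := hright t ht.1 (by linarith [ht.2])
    have h4 := hη' t ht.1.ne' (by rw [abs_of_pos (by linarith [ht.1])]; linarith [ht.2])
    exact lt_of_le_of_ne h3 h4.symm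
  · intro t ht
    have l1 : min η (t₂ - c) ≤ η := min_le_left _ _
    obtain ⟨u, hu, htu⟩ := exists_lt_of_lt_csSup hne (show t < sSup S from ht.2)
    by_contra hcon
    push Not at hcon
    have huc : u ≤ c := le_csSup hbdd hu
    have hucne : u ≠ c := by
      rintro h
      have := hu.2
      rw [h, hDc0] at this
      exact lt_irrefl _ this
    have huc' : u < c := lt_of_le_of_ne huc hucne
    obtain ⟨v, hv, hv0⟩ : ∃ v ∈ Icc t u, D v = 0 := by
      have := intermediate_value_Icc' htu.le hD.continuousOn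
      exact this ⟨hu.2.le, hcon⟩
    have hvc : v < c := hv.2.trans_lt huc'
    refine hη' v hvc.ne ?_ hv0
    rw [abs_sub_comm, abs_of_pos (by linarith)]
    linarith [ht.1, hv.1]

/-- PART M1. -/
theorem Red.exists_even_odd {f g : ℝ → ℝ} {y₁ y₂ s₁ s₂ : ℝ} (R : Red f g y₁ y₂ s₁ s₂) {a b : ℝ}
    (ha : 0 ≤ a) (hab : a < b) (hb : b ≤ 1) {k : ℕ} (hk : 1 ≤ k) : ∃ n, 1 ≤ n ∧
    (∃ c ∈ Ioo a b, Side (W f g (k * n) (k * n)) c 1 ∧ Side (W f g (k * n) (k * n)) c (-1)) ∧
    (∃ c ∈ Ioo a b, W f g (k * n) (k * n) c = c ∧ ∃ ε > 0,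
      (∀ t ∈ Ioo c (c + ε), W f g (k * n) (k * n) t < t) ∧
      ∀ t ∈ Ioo (c - ε) c, t < W f g (k * n) (k * n) t) := by
  set d := (b - a) / 8 with hd
  have hd0 : 0 < d := by rw [hd]; linarith
  have hb' : b = a + 8 * d := by rw [hd]; ring
  obtain ⟨n₁, h₁⟩ := R.fill (a := a + 2 * d) (b := a + 3 * d) (by linarith) (by linarith)
    (by linarith) (a' := a + d) (b' := a + 6 * d) (by linarith) (by linarith)
  obtain ⟨n₂, h₂⟩ := R.fill (a := a + 3 * d) (b := a + 4 * d) (by linarith) (by linarith)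
    (by linarith) (a' := a + d) (b' := a + 6 * d) (by linarith) (by linarith)
  obtain ⟨n₃, h₃⟩ := R.fill (a := a + 4 * d) (b := a + 5 * d) (by linarith) (by linarith)
    (by linarith) (a' := a + d) (b' := a + 6 * d) (by linarith) (by linarith)
  set n := n₁ + n₂ + n₃ + 1 with hn
  have hkn : n ≤ k * n := Nat.le_mul_of_pos_left n hk
  have hw := R.contW (k * n) (k * n)
  have hfin := R.fin (k * n) (k * n) (by omega) (by omega)
  obtain ⟨t₁, ht₁, e₁⟩ := h₁ (k * n) (k * n) (by omega) (by omega)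
    (show a + d ∈ Icc (a + d) (a + 6 * d) from ⟨le_rfl, by linarith⟩)
  obtain ⟨t₂, ht₂, e₂⟩ := h₂ (k * n) (k * n) (by omega) (by omega)
    (show a + 6 * d ∈ Icc (a + d) (a + 6 * d) from ⟨by linarith, le_rfl⟩)
  obtain ⟨t₃, ht₃, e₃⟩ := h₃ (k * n) (k * n) (by omega) (by omega)
    (show a + d ∈ Icc (a + d) (a + 6 * d) from ⟨le_rfl, by linarith⟩)
  refine ⟨n, by omega, ?_, ?_⟩
  · obtain ⟨c, hc, hc0, ε, hε, hr, hl⟩ := m1_exists_cross
      (D := fun t => W f g (k * n) (k * n) t - t) (by fun_prop)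
      (hfin.subset fun x hx => by
        show W f g (k * n) (k * n) x = x
        have : W f g (k * n) (k * n) x - x = 0 := hx
        linarith) (t₁ := t₁) (t₂ := t₂) (ht₁.2.trans ht₂.1)
      (by simp only [e₁]; linarith [ht₁.1]) (by simp only [e₂]; linarith [ht₂.2])
    have hca : a + 2 * d < c := ht₁.1.trans_lt hc.1
    have hcb : c < a + 4 * d := hc.2.trans_le ht₂.2
    refine ⟨c, ⟨by linarith, by linarith⟩, ⟨by linarith, min ε d, lt_min hε hd0, ?_⟩,
      ⟨by linarith, min ε d, lt_min hε hd0, ?_⟩⟩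
    · intro r hr'
      have l1 := hr'.2.trans_le (min_le_left ε d)
      have l2 := hr'.2.trans_le (min_le_right ε d)
      have := hr (c + r) ⟨by linarith [hr'.1], by linarith⟩
      rw [one_mul, one_mul]
      exact ⟨⟨by linarith [hr'.1], by linarith⟩, this⟩
    · intro r hr'
      have l1 := hr'.2.trans_le (min_le_left ε d)
      have l2 := hr'.2.trans_le (min_le_right ε d)
      have := hl (c + -1 * r) ⟨by linarith, by linarith [hr'.1]⟩
      refine ⟨⟨by linarith, by linarith [hr'.1]⟩, by linarith⟩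
  · obtain ⟨c, hc, hc0, ε, hε, hr, hl⟩ := m1_exists_cross
      (D := fun t => t - W f g (k * n) (k * n) t) (by fun_prop)
      (hfin.subset fun x hx => by
        show W f g (k * n) (k * n) x = x
        have : x - W f g (k * n) (k * n) x = 0 := hx
        linarith) (t₁ := t₂) (t₂ := t₃) (ht₂.2.trans ht₃.1)
      (by simp only [e₂]; linarith [ht₂.2]) (by simp only [e₃]; linarith [ht₃.1])
    have hca : a + 3 * d < c := ht₂.1.trans_lt hc.1
    have hcb : c < a + 5 * d := hc.2.trans_le ht₃.2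
    refine ⟨c, ⟨by linarith, by linarith⟩, by linarith, ε, hε, ?_, ?_⟩
    · intro t ht
      have := hr t ht
      linarith
    · intro t ht
      have := hl t ht
      linarith

end Pool.Agent.CFP
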