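import Pool.Agent.Lib_MP_eedf80_an.Sides
import Pool.Agent.Lib_MP_eedf80_an.Leaf1
import Pool.Agent.Lib_MP_eedf80_an.Match1

/-!
PART M3: matchings for the single maps.
-/

set_option autoImplicit false

namespace Pool.Agent.CFP

open Set Function

namespace M3

/-- A continuous map sends a small interval near a point into a given open set. -/
theorem nbhd {F : ℝ → ℝ} (hF : Continuous F) {p q t₀ : ℝ} (hpq : p < q) (ht : t₀ ∈ Icc p q)
    {U : Set ℝ} (hU : IsOpen U) (h0 : F t₀ ∈ U) :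
    ∃ p' q', p ≤ p' ∧ p' < q' ∧ q' ≤ q ∧ MapsTo F (Icc p' q') U := by
  obtain ⟨ε, hε, h⟩ := Metric.isOpen_iff.mp (hU.preimage hF) t₀ h0
  rcases lt_or_ge t₀ q with hq | hq
  · refine ⟨t₀, min q (t₀ + ε / 2), ht.1, lt_min hq (by linarith), min_le_left _ _, ?_⟩
    intro t ht'
    apply h
    rw [Metric.mem_ball, Real.dist_eq, abs_lt]
    have := ht'.2.trans (min_le_right _ _)
    constructor <;> linarith [ht'.1]
  · have hq' : t₀ = q := le_antisymm ht.2 hq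
    refine ⟨max p (t₀ - ε / 2), t₀, le_max_left _ _, ?_, ht.2, ?_⟩
    · rw [hq']; exact max_lt hpq (by linarith)
    · intro t ht'
      apply h
      rw [Metric.mem_ball, Real.dist_eq, abs_lt]
      have := (le_max_right _ _).trans ht'.1
      constructor <;> linarith [ht'.2]

/-- Continuous local inverse of an injective continuous map. -/
theorem inv_on {E : ℝ → ℝ} (hE : Continuous E) {p q : ℝ} (hpq : p < q)
    (hinj : InjOn E (Icc p q)) :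
    ∃ (κ : ℝ → ℝ) (A B : ℝ), A < B ∧ A ∈ E '' Icc p q ∧ B ∈ E '' Icc p q ∧
      ContinuousOn κ (Icc A B) ∧ ∀ v ∈ Icc A B, κ v ∈ Icc p q ∧ E (κ v) = v := by
  have hp : p ∈ Icc p q := left_mem_Icc.mpr hpq.le
  have hq : q ∈ Icc p q := right_mem_Icc.mpr hpq.le
  rcases hE.continuousOn.strictMonoOn_of_injOn_Icc' hpq.le hinj with h | h
  · obtain ⟨κ, h1, -, h3⟩ := IncOn.inverse (⟨h, hE.continuousOn⟩ : IncOn E p q) hpq.le
    exact ⟨κ, E p, E q, h hp hq hpq, ⟨p, hp, rfl⟩, ⟨q, hq, rfl⟩, h1.2, h3⟩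
  · obtain ⟨κ, h1, -, h3⟩ := DecOn.inverse (⟨h, hE.continuousOn⟩ : DecOn E p q) hpq.le
    exact ⟨κ, E q, E p, h hp hq hpq, ⟨q, hq, rfl⟩, ⟨p, hp, rfl⟩, h1.2, h3⟩

/-- A push is injective on a small one-sided interval. -/
theorem inj_of_push {F : ℝ → ℝ} {c s' : ℝ} (h : Push F c 1 s') {b : ℝ} (hb : c < b) :
    ∃ c', c < c' ∧ c' ≤ b ∧ InjOn F (Icc c c') := by
  obtain ⟨ε, hε, h⟩ := h
  refine ⟨min b (c + ε), lt_min hb (by linarith), min_le_left _ _, ?_⟩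
  intro t ht t' ht' htt
  have e1 : t - c ∈ Icc (0 : ℝ) ε :=
    ⟨by linarith [ht.1], by linarith [ht.2.trans (min_le_right _ _)]⟩
  have e2 : t' - c ∈ Icc (0 : ℝ) ε :=
    ⟨by linarith [ht'.1], by linarith [ht'.2.trans (min_le_right _ _)]⟩
  have := h.injOn e1 e2 (by
    show s' * F (c + 1 * (t - c)) = s' * F (c + 1 * (t' - c))
    have a1 : c + 1 * (t - c) = t := by ring
    have a2 : c + 1 * (t' - c) = t' := by ring
    rw [a1, a2, htt])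
  linarith

/-- The common form of the two matchings. -/
theorem match_word {f g P : ℝ → ℝ} {y₁ y₂ s₁ s₂ x δ : ℝ} {k : ℕ} {Φ Ψ : ℝ ≃o ℝ}
    (R : Red f g y₁ y₂ s₁ s₂) (L : Leaf f g y₁ y₂ k x δ P Φ Ψ) (i j : ℕ) :
    ∃ (γ : ℝ → ℝ) (b₁ b₂ : ℝ), 0 < b₁ ∧ b₁ < b₂ ∧ (IncOn γ b₁ b₂ ∨ DecOn γ b₁ b₂) ∧
      (∀ u ∈ Icc b₁ b₂, 0 < γ u) ∧ ∀ u ∈ Icc b₁ b₂, P (γ u) = W f g i j (P u) := by
  have hx0 : 0 ≤ x := R.y1.trans L.y1x.le
  have hxδ : x < x + δ := by linarith [L.δpos]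
  have hx1 : x + δ ≤ 1 := (L.xδ.trans_le R.y2).le
  set F := W f g i j with hF
  have cF : Continuous F := R.contW i j
  -- a point c near x
  obtain ⟨n, hn, ⟨c, hc, hc1, -⟩, -⟩ := R.exists_even_odd hx0 hxδ hx1 L.k1
  have hkn : 1 ≤ k * n := Nat.mul_pos L.k1 hn
  obtain ⟨s', -, hpush, -⟩ := R.pushW hkn hkn (Or.inl rfl) hc1 i j
  obtain ⟨c₂, hc₂, hc₂δ, hinj⟩ := inj_of_push hpush hc.2
  have hcI : Icc c c₂ ⊆ Icc (0 : ℝ) 1 := fun t ht =>
    ⟨by linarith [hc.1, ht.1], by linarith [ht.2]⟩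
  obtain ⟨κF, A, B, hAB, ⟨tA, htA, hA⟩, ⟨tB, htB, hB⟩, -, hκF⟩ := inv_on cF hc₂ hinj
  have hA0 : 0 ≤ A := hA ▸ (R.mapW i j (hcI htA)).1
  have hB1 : B ≤ 1 := hB ▸ (R.mapW i j (hcI htB)).2
  -- middle part
  obtain ⟨N, hN⟩ := R.fill hx0 hxδ hx1 (a' := A + (B - A) / 3) (b' := B - (B - A) / 3)
    (by linarith) (by linarith)
  have hkN : N ≤ k * N := Nat.le_mul_of_pos_left _ L.k1
  set E := W f g (k * N) (k * N) with hE
  have cE : Continuous E := R.contW _ _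
  obtain ⟨t, ht, hEt⟩ := hN (k * N) (k * N) hkN hkN
    (show (A + B) / 2 ∈ Icc (A + (B - A) / 3) (B - (B - A) / 3) from
      ⟨by linarith, by linarith⟩)
  obtain ⟨v₁, v₂, hv₁, hv, hv₂, hV⟩ := nbhd cE hxδ ht
    (isOpen_Ioo (a := A + (B - A) / 3) (b := B - (B - A) / 3))
    (by rw [show E t = _ from hEt]; exact ⟨by linarith, by linarith⟩)
  -- a point c' in V
  obtain ⟨n', hn', ⟨c', hc', hc1', -⟩, -⟩ :=
    R.exists_even_odd (hx0.trans hv₁) hv (hv₂.trans hx1) (le_refl 1)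
  have hkn' : 1 ≤ 1 * n' := by omega
  obtain ⟨s'', -, hpush', -⟩ := R.pushW hkn' hkn' (Or.inl rfl) hc1' (k * N) (k * N)
  obtain ⟨c₃, hc₃, hc₃v, hinj'⟩ := inj_of_push hpush' hc'.2
  obtain ⟨κ, A₂, B₂, hAB₂, ⟨tA₂, htA₂, hA₂⟩, ⟨tB₂, htB₂, hB₂⟩, hκc, hκ⟩ := inv_on cE hc₃ hinj'
  have hA₂' : A < A₂ := by
    have := hV (show tA₂ ∈ Icc v₁ v₂ from
      ⟨by linarith [hc'.1, htA₂.1], by linarith [htA₂.2]⟩)
    have h2 : A + (B - A) / 3 < A₂ := hA₂ ▸ this.1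
    linarith
  have hB₂' : B₂ < B := by
    have := hV (show tB₂ ∈ Icc v₁ v₂ from
      ⟨by linarith [hc'.1, htB₂.1], by linarith [htB₂.2]⟩)
    have h2 : B₂ < B - (B - A) / 3 := hB₂ ▸ this.2
    linarith
  -- the window
  have hmid : (A₂ + B₂) / 2 ∈ Icc A B := ⟨by linarith, by linarith⟩
  obtain ⟨p', q', hp', hpq', hq', hmap⟩ := nbhd cF hc₂ (hκF _ hmid).1
    (isOpen_Ioo (a := A₂) (b := B₂))
    (by rw [(hκF _ hmid).2]; exact ⟨by linarith, by linarith⟩)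
  set H := act Φ Ψ (N : ℤ) (N : ℤ) with hH
  have hH0 : H 0 = 0 := by
    have h1 : ∀ m : ℕ, (Φ ^ m) 0 = 0 := by
      intro m
      induction m with
      | zero => simp
      | succ m ih => rw [pow_succ, RelIso.mul_apply, L.Φ0 0 le_rfl, ih]
    have h2 : ∀ m : ℕ, (Ψ ^ m) 0 = 0 := by
      intro m
      induction m with
      | zero => simp
      | succ m ih => rw [pow_succ, RelIso.mul_apply, L.Ψ0 0 le_rfl, ih]
    rw [hH, act, zpow_natCast, zpow_natCast, RelIso.mul_apply, h2, h1]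
  have hPH : ∀ u ∈ Icc (0 : ℝ) δ, P (H u) = E (x + u) := by
    intro u hu
    rw [hH, L.P_act, L.Pδ u hu]
  have hmem : ∀ u ∈ Icc (p' - x) (q' - x), x + u ∈ Icc p' q' := fun u hu =>
    ⟨by linarith [hu.1], by linarith [hu.2]⟩
  have hFm : ∀ u ∈ Icc (p' - x) (q' - x), F (x + u) ∈ Icc A₂ B₂ := fun u hu =>
    Ioo_subset_Icc_self (hmap (hmem u hu))
  refine ⟨fun u => H (κ (F (x + u)) - x), p' - x, q' - x, by linarith [hc.1], by linarith, ?_, ?_, ?_⟩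
  · have hcont : ContinuousOn (fun u => H (κ (F (x + u)) - x)) (Icc (p' - x) (q' - x)) := by
      have c1 : ContinuousOn (fun u => F (x + u)) (Icc (p' - x) (q' - x)) := by fun_prop
      have c2 : ContinuousOn (fun u => κ (F (x + u))) (Icc (p' - x) (q' - x)) :=
        hκc.comp c1 hFm
      exact H.continuous.comp_continuousOn (c2.sub continuousOn_const)
    have hinj₀ : InjOn (fun u => H (κ (F (x + u)) - x)) (Icc (p' - x) (q' - x)) := by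
      intro u hu v hv' huv
      have h1 : κ (F (x + u)) = κ (F (x + v)) := by
        have := H.injective huv
        linarith
      have h2 : F (x + u) = F (x + v) := by
        rw [← (hκ _ (hFm u hu)).2, ← (hκ _ (hFm v hv')).2, h1]
      have h3 : x + u = x + v := hinj (show x + u ∈ Icc c c₂ from
          ⟨by linarith [(hmem u hu).1], by linarith [(hmem u hu).2]⟩)
        (show x + v ∈ Icc c c₂ from
          ⟨by linarith [(hmem v hv').1], by linarith [(hmem v hv').2]⟩) h2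
      linarith
    rcases hcont.strictMonoOn_of_injOn_Icc' (by linarith) hinj₀ with h | h
    · exact Or.inl ⟨h, hcont⟩
    · exact Or.inr ⟨h, hcont⟩
  · intro u hu
    have h1 := (hκ _ (hFm u hu)).1
    have h2 : 0 < κ (F (x + u)) - x := by linarith [h1.1, hc'.1]
    have h3 := H.strictMono h2
    rw [hH0] at h3
    exact h3
  · intro u hu
    have h1 := (hκ _ (hFm u hu)).1
    have h2 : κ (F (x + u)) - x ∈ Icc (0 : ℝ) δ :=
      ⟨by linarith [h1.1, hc'.1], by linarith [h1.2]⟩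
    have h3 : u ∈ Icc (0 : ℝ) δ := ⟨by linarith [hu.1, hc.1], by linarith [hu.2]⟩
    show P (H (κ (F (x + u)) - x)) = F (P u)
    rw [hPH _ h2, L.Pδ u h3]
    have : x + (κ (F (x + u)) - x) = κ (F (x + u)) := by ring
    rw [this, (hκ _ (hFm u hu)).2]

end M3

section Match

variable {f g P : ℝ → ℝ} {y₁ y₂ s₁ s₂ x δ : ℝ} {k : ℕ} {Φ Ψ : ℝ ≃o ℝ}

/-- PART M3. -/
theorem Leaf.match_f (R : Red f g y₁ y₂ s₁ s₂) (L : Leaf f g y₁ y₂ k x δ P Φ Ψ) :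
    ∃ (γ : ℝ → ℝ) (b₁ b₂ : ℝ), 0 < b₁ ∧ b₁ < b₂ ∧ (IncOn γ b₁ b₂ ∨ DecOn γ b₁ b₂) ∧
      (∀ u ∈ Icc b₁ b₂, 0 < γ u) ∧ ∀ u ∈ Icc b₁ b₂, P (γ u) = f (P u) :=
  M3.match_word R L 1 0

theorem Leaf.match_g (R : Red f g y₁ y₂ s₁ s₂) (L : Leaf f g y₁ y₂ k x δ P Φ Ψ) :
    ∃ (γ : ℝ → ℝ) (b₁ b₂ : ℝ), 0 < b₁ ∧ b₁ < b₂ ∧ (IncOn γ b₁ b₂ ∨ DecOn γ b₁ b₂) ∧
      (∀ u ∈ Icc b₁ b₂, 0 < γ u) ∧ ∀ u ∈ Icc b₁ b₂, P (γ u) = g (P u) :=
  M3.match_word R L 0 1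

end Match

end Pool.Agent.CFP
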