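import Pool.Agent.Lib_MP_eedf80_an.Defs

/-!
PART A1: minimal invariant interval and horseshoe.
-/

set_option autoImplicit false

namespace Pool.Agent.CFP

open Set Function

namespace PreA1

/-- clamp to `[a, b]` -/
noncomputable def cl (a b x : ℝ) : ℝ := max a (min b x)

theorem cl_cont (a b : ℝ) : Continuous (cl a b) := by
  unfold cl; fun_prop

theorem cl_mem {a b : ℝ} (hab : a ≤ b) (x : ℝ) : cl a b x ∈ Icc a b :=
  ⟨le_max_left _ _, max_le hab (min_le_left _ _)⟩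

theorem cl_of_mem {a b x : ℝ} (hx : x ∈ Icc a b) : cl a b x = x := by
  unfold cl
  rw [min_eq_right hx.2, max_eq_right hx.1]

theorem cl_left {a b x : ℝ} (hab : a ≤ b) (hx : x ≤ a) : cl a b x = a := by
  unfold cl
  rw [min_eq_right (hx.trans hab), max_eq_left hx]

theorem cl_right {a b x : ℝ} (hab : a ≤ b) (hx : b ≤ x) : cl a b x = b := by
  unfold cl
  rw [min_eq_left hx, max_eq_right hab]

/-- minimal invariant interval -/
theorem exists_min_interval {f g : ℝ → ℝ} (cf : Continuous f) (cg : Continuous g)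
    (hf : MapsTo f (Icc (0 : ℝ) 1) (Icc (0 : ℝ) 1))
    (hg : MapsTo g (Icc (0 : ℝ) 1) (Icc (0 : ℝ) 1)) :
    ∃ a b : ℝ, 0 ≤ a ∧ a ≤ b ∧ b ≤ 1 ∧ MapsTo f (Icc a b) (Icc a b) ∧
      MapsTo g (Icc a b) (Icc a b) ∧ ∀ a' b', a ≤ a' → a' ≤ b' → b' ≤ b →
        MapsTo f (Icc a' b') (Icc a' b') → MapsTo g (Icc a' b') (Icc a' b') →
        a' = a ∧ b' = b := by
  set S : Set (ℝ × ℝ) := {p | 0 ≤ p.1 ∧ p.1 ≤ p.2 ∧ p.2 ≤ 1 ∧
    ∀ t ∈ Icc (0 : ℝ) 1, p.1 ≤ f (p.1 + t * (p.2 - p.1)) ∧ f (p.1 + t * (p.2 - p.1)) ≤ p.2 ∧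
      p.1 ≤ g (p.1 + t * (p.2 - p.1)) ∧ g (p.1 + t * (p.2 - p.1)) ≤ p.2} with hS
  have hclosed : IsClosed S := by
    have h : S = {p : ℝ × ℝ | 0 ≤ p.1} ∩ ({p : ℝ × ℝ | p.1 ≤ p.2} ∩ ({p : ℝ × ℝ | p.2 ≤ 1} ∩
      ⋂ t ∈ Icc (0 : ℝ) 1, ({p : ℝ × ℝ | p.1 ≤ f (p.1 + t * (p.2 - p.1))} ∩
        ({p : ℝ × ℝ | f (p.1 + t * (p.2 - p.1)) ≤ p.2} ∩
          ({p : ℝ × ℝ | p.1 ≤ g (p.1 + t * (p.2 - p.1))} ∩
            {p : ℝ × ℝ | g (p.1 + t * (p.2 - p.1)) ≤ p.2}))))) := by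
      ext p
      simp only [hS, mem_ofPred_eq, mem_inter_iff, mem_iInter]
    rw [h]
    refine IsClosed.inter (isClosed_le (by fun_prop) (by fun_prop)) ?_
    refine IsClosed.inter (isClosed_le (by fun_prop) (by fun_prop)) ?_
    refine IsClosed.inter (isClosed_le (by fun_prop) (by fun_prop)) ?_
    refine isClosed_biInter fun t _ => ?_
    refine IsClosed.inter (isClosed_le (by fun_prop) (by fun_prop)) ?_
    refine IsClosed.inter (isClosed_le (by fun_prop) (by fun_prop)) ?_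
    exact IsClosed.inter (isClosed_le (by fun_prop) (by fun_prop))
      (isClosed_le (by fun_prop) (by fun_prop))
  have hcomp : IsCompact S := by
    refine IsCompact.of_isClosed_subset (isCompact_Icc (a := ((0 : ℝ), (0 : ℝ))) (b := (1, 1)))
      hclosed ?_
    intro p hp
    obtain ⟨h1, h2, h3, -⟩ := hp
    exact ⟨⟨h1, h1.trans h2⟩, ⟨h2.trans h3, h3⟩⟩
  have key : ∀ a b : ℝ, 0 ≤ a → a ≤ b → b ≤ 1 → MapsTo f (Icc a b) (Icc a b) →
      MapsTo g (Icc a b) (Icc a b) → (a, b) ∈ S := by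
    intro a b ha hab hb h1 h2
    refine ⟨ha, hab, hb, ?_⟩
    intro t ht
    have hm : a + t * (b - a) ∈ Icc a b := by
      constructor
      · have := mul_nonneg ht.1 (sub_nonneg.mpr hab); linarith
      · have : t * (b - a) ≤ 1 * (b - a) := mul_le_mul_of_nonneg_right ht.2 (sub_nonneg.mpr hab)
        linarith
    exact ⟨(h1 hm).1, (h1 hm).2, (h2 hm).1, (h2 hm).2⟩
  have hne : S.Nonempty := ⟨(0, 1), key 0 1 le_rfl zero_le_one le_rfl hf hg⟩
  obtain ⟨⟨a, b⟩, hab, hmin⟩ := hcomp.exists_isMinOn hne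
    (f := fun p : ℝ × ℝ => p.2 - p.1) (by fun_prop)
  obtain ⟨h1, h2, h3, h4⟩ := hab
  simp only at h1 h2 h3 h4
  have hpar : ∀ x ∈ Icc a b, ∃ t ∈ Icc (0 : ℝ) 1, a + t * (b - a) = x := by
    intro x hx
    rcases eq_or_lt_of_le h2 with h | h
    · refine ⟨0, ⟨le_rfl, zero_le_one⟩, ?_⟩
      have := hx.1; have := hx.2
      linarith
    · refine ⟨(x - a) / (b - a), ⟨div_nonneg (by linarith [hx.1]) (by linarith), ?_⟩, ?_⟩
      · rw [div_le_one (by linarith)]; linarith [hx.2]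
      · have : b - a ≠ 0 := by linarith
        field_simp
        ring
  refine ⟨a, b, h1, h2, h3, ?_, ?_, ?_⟩
  · intro x hx
    obtain ⟨t, ht, rfl⟩ := hpar x hx
    exact ⟨(h4 t ht).1, (h4 t ht).2.1⟩
  · intro x hx
    obtain ⟨t, ht, rfl⟩ := hpar x hx
    exact ⟨(h4 t ht).2.2.1, (h4 t ht).2.2.2⟩
  · intro a' b' ha hab' hb hf' hg'
    have hm := hmin (key a' b' (h1.trans ha) hab' (hb.trans h3) hf' hg')
    simp only [mem_ofPred_eq] at hm
    constructor <;> linarith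

/-- the core of the construction for globally defined clamped maps -/
theorem horseshoe {F G : ℝ → ℝ} {a b : ℝ} (hab : a ≤ b) (cF : Continuous F) (cG : Continuous G)
    (hF : ∀ x, F x ∈ Icc a b) (hG : ∀ x, G x ∈ Icc a b) (hc : ∀ x, F (G x) = G (F x))
    (hno : ∀ x ∈ Icc a b, F x = x → G x = x → False) :
    ∃ y₁ y₂ s₁ s₂ : ℝ, a ≤ y₁ ∧ y₁ < s₁ ∧ s₁ < s₂ ∧ s₂ < y₂ ∧ y₂ ≤ b ∧ y₂ ≤ F (G y₁) ∧
      F (G s₁) ≤ y₁ ∧ y₂ ≤ F (G s₂) ∧ F (G y₂) ≤ y₁ ∧ Icc y₁ y₂ ⊆ F '' Icc y₁ y₂ ∧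
      Icc y₁ y₂ ⊆ G '' Icc y₁ y₂ := by
  set Y : Set ℝ := {y | y ∈ Icc a b ∧ F y = y} with hY
  have hYc : IsCompact Y := by
    have : Y = Icc a b ∩ {y | F y = y} := by ext; simp [hY]
    rw [this]
    exact isCompact_Icc.inter_right (isClosed_eq cF continuous_id)
  have hYne : Y.Nonempty := by
    have h := intermediate_value_Icc (f := fun x => x - F x) hab (by fun_prop)
    have h0 : (0 : ℝ) ∈ Icc (a - F a) (b - F b) := by
      constructor
      · linarith [(hF a).1]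
      · linarith [(hF b).2]
    obtain ⟨x, hx, hx0⟩ := h h0
    exact ⟨x, hx, by simp only at hx0; linarith⟩
  have hGY : ∀ y ∈ Y, G y ∈ Y := by
    intro y hy
    exact ⟨hG y, by rw [hc, hy.2]⟩
  have hGne : ∀ y ∈ Y, G y ≠ y := fun y hy h => hno y hy.1 hy.2 h
  set A : Set ℝ := {y | y ∈ Y ∧ y ≤ G y} with hA
  set B : Set ℝ := {y | y ∈ Y ∧ G y ≤ y} with hB
  have hBc : IsCompact B := by
    have : B = Y ∩ {y | G y ≤ y} := by ext; simp [hB]
    rw [this]
    exact hYc.inter_right (isClosed_le cG continuous_id)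
  obtain ⟨ymin, hymin⟩ := hYc.exists_isLeast hYne
  obtain ⟨ymax, hymax⟩ := hYc.exists_isGreatest hYne
  have hBne : B.Nonempty := ⟨ymax, hymax.1, hymax.2 (hGY _ hymax.1)⟩
  obtain ⟨y₂, hy₂⟩ := hBc.exists_isLeast hBne
  have hminA : ymin ∈ A := ⟨hymin.1, hymin.2 (hGY _ hymin.1)⟩
  have hAB : ∀ y ∈ A, y ∉ B := fun y hy hy' => hGne y hy.1 (le_antisymm hy'.2 hy.2)
  set A' : Set ℝ := {y | y ∈ A ∧ y ≤ y₂} with hA'
  have hA'c : IsCompact A' := by
    have : A' = Y ∩ ({y | y ≤ G y} ∩ {y | y ≤ y₂}) := by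
      ext z
      constructor
      · rintro ⟨⟨h1, h2⟩, h3⟩; exact ⟨h1, h2, h3⟩
      · rintro ⟨h1, h2, h3⟩; exact ⟨⟨h1, h2⟩, h3⟩
    rw [this]
    exact hYc.inter_right ((isClosed_le continuous_id cG).inter
      (isClosed_le continuous_id continuous_const))
  obtain ⟨y₁, hy₁⟩ := hA'c.exists_isGreatest ⟨ymin, hminA, hymin.2 hy₂.1.1⟩
  have hy12 : y₁ < y₂ := by
    rcases lt_or_eq_of_le hy₁.1.2 with h | h
    · exact h
    · exact absurd (h ▸ hy₂.1) (hAB y₁ hy₁.1.1)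
  have hnofix : ∀ z, y₁ < z → z < y₂ → F z ≠ z := by
    intro z h1 h2 hz
    have hzY : z ∈ Y := ⟨⟨hy₁.1.1.1.1.1.trans h1.le, h2.le.trans hy₂.1.1.1.2⟩, hz⟩
    rcases le_total z (G z) with h | h
    · have := hy₁.2 (⟨⟨hzY, h⟩, h2.le⟩ : z ∈ A')
      linarith
    · have := hy₂.2 (⟨hzY, h⟩ : z ∈ B)
      linarith
  have hFy₁ : F y₁ = y₁ := hy₁.1.1.1.2
  have hFy₂ : F y₂ = y₂ := hy₂.1.1.2
  have hGy₁ : y₂ ≤ G y₁ := by
    by_contra hcon
    push Not at hcon
    have h1 : y₁ < G y₁ := lt_of_le_of_ne hy₁.1.1.2 (Ne.symm (hGne _ hy₁.1.1.1))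
    exact hnofix _ h1 hcon (hGY _ hy₁.1.1.1).2
  have hGy₂ : G y₂ ≤ y₁ := by
    by_contra hcon
    push Not at hcon
    have h1 : G y₂ < y₂ := lt_of_le_of_ne hy₂.1.2 (hGne _ hy₂.1.1)
    exact hnofix _ hcon h1 (hGY _ hy₂.1.1).2
  have hay₁ : a ≤ y₁ := hy₁.1.1.1.1.1
  have hby₂ : y₂ ≤ b := hy₂.1.1.1.2
  -- fixed points of G
  set C : Set ℝ := {c | c ∈ Icc y₁ y₂ ∧ G c = c} with hC
  have hCc : IsCompact C := by
    have : C = Icc y₁ y₂ ∩ {y | G y = y} := by ext; simp [hC]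
    rw [this]
    exact isCompact_Icc.inter_right (isClosed_eq cG continuous_id)
  have hCne : C.Nonempty := by
    have h := intermediate_value_Icc (f := fun x => x - G x) hy12.le (by fun_prop)
    have h0 : (0 : ℝ) ∈ Icc (y₁ - G y₁) (y₂ - G y₂) := ⟨by linarith, by linarith⟩
    obtain ⟨x, hx, hx0⟩ := h h0
    exact ⟨x, hx, by simp only at hx0; linarith⟩
  have hCF : ∀ c ∈ C, F c ≠ c := by
    intro c hc' hFc
    exact hno c ⟨hay₁.trans hc'.1.1, hc'.1.2.trans hby₂⟩ hFc hc'.2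
  have hCy₁ : ∀ c ∈ C, y₁ < c := by
    intro c hc'
    refine lt_of_le_of_ne hc'.1.1 ?_
    rintro rfl
    exact hCF _ hc' hFy₁
  have hCy₂ : ∀ c ∈ C, c < y₂ := by
    intro c hc'
    refine lt_of_le_of_ne hc'.1.2 ?_
    rintro rfl
    exact hCF _ hc' hFy₂
  have hGF : ∀ c ∈ C, G (F c) = F c := by
    intro c hc'
    rw [← hc, hc'.2]
  obtain ⟨cmax, hcmax⟩ := hCc.exists_isGreatest hCne
  obtain ⟨cmin, hcmin⟩ := hCc.exists_isLeast hCne
  have covF : Icc y₁ y₂ ⊆ F '' Icc y₁ y₂ := by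
    have h := intermediate_value_Icc (f := F) hy12.le cF.continuousOn
    rwa [hFy₁, hFy₂] at h
  have covG : Icc y₁ y₂ ⊆ G '' Icc y₁ y₂ := by
    have h := intermediate_value_Icc' (f := G) hy12.le cG.continuousOn
    exact (Icc_subset_Icc hGy₂ hGy₁).trans h
  rcases lt_or_gt_of_ne (hCF _ hcmax.1) with hlt | hgt
  · -- F cmax < cmax, so F cmin < cmin
    have hmin : F cmin < cmin := by
      rcases lt_or_gt_of_ne (hCF _ hcmin.1) with h | h
      · exact h
      · exfalso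
        have hle : cmin ≤ cmax := hcmin.2 hcmax.1
        have hiv := intermediate_value_Icc (f := fun x => x - F x) hle (by fun_prop)
        have h0 : (0 : ℝ) ∈ Icc (cmin - F cmin) (cmax - F cmax) := ⟨by linarith, by linarith⟩
        obtain ⟨x, hx, hx0⟩ := hiv h0
        simp only at hx0
        exact hnofix x (lt_of_lt_of_le (hCy₁ _ hcmin.1) hx.1)
          (lt_of_le_of_lt hx.2 (hCy₂ _ hcmax.1)) (by linarith)
    have hFc : F cmin < y₁ := by
      by_contra hcon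
      push Not at hcon
      have : F cmin ∈ C := ⟨⟨hcon, by linarith [hCy₂ _ hcmin.1]⟩, hGF _ hcmin.1⟩
      have := hcmin.2 this
      linarith
    have hiv := intermediate_value_Icc (f := F) (hCy₂ _ hcmin.1).le cF.continuousOn
    rw [hFy₂] at hiv
    obtain ⟨s, hs, hFs⟩ := hiv (⟨hFc.le, hy12.le⟩ : y₁ ∈ Icc (F cmin) y₂)
    refine ⟨y₁, y₂, cmin, s, hay₁, hCy₁ _ hcmin.1, ?_, ?_, hby₂, ?_, ?_, ?_, ?_, covF, covG⟩
    · refine lt_of_le_of_ne hs.1 ?_
      rintro rfl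
      linarith
    · refine lt_of_le_of_ne hs.2 ?_
      rintro rfl
      linarith
    · rw [hc, hFy₁]; exact hGy₁
    · rw [hcmin.1.2]; exact hFc.le
    · rw [hc, hFs]; exact hGy₁
    · rw [hc, hFy₂]; exact hGy₂
  · -- F cmax > cmax
    have hFc : y₂ < F cmax := by
      by_contra hcon
      push Not at hcon
      have : F cmax ∈ C := ⟨⟨by linarith [hCy₁ _ hcmax.1], hcon⟩, hGF _ hcmax.1⟩
      have := hcmax.2 this
      linarith
    have hiv := intermediate_value_Icc (f := F) (hCy₁ _ hcmax.1).le cF.continuousOn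
    rw [hFy₁] at hiv
    obtain ⟨s, hs, hFs⟩ := hiv (⟨hy12.le, hFc.le⟩ : y₂ ∈ Icc y₁ (F cmax))
    refine ⟨y₁, y₂, s, cmax, hay₁, ?_, ?_, hCy₂ _ hcmax.1, hby₂, ?_, ?_, ?_, ?_, covF, covG⟩
    · refine lt_of_le_of_ne hs.1 ?_
      rintro rfl
      linarith
    · refine lt_of_le_of_ne hs.2 ?_
      rintro rfl
      linarith
    · rw [hc, hFy₁]; exact hGy₁
    · rw [hc, hFs]; exact hGy₂
    · rw [hcmax.1.2]; exact hFc.le
    · rw [hc, hFy₂]; exact hGy₂

end PreA1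

open PreA1 in
/-- PART A1. -/
theorem exists_pre (f g : ℝ → ℝ) (hf : MapsTo f (Icc (0 : ℝ) 1) (Icc (0 : ℝ) 1))
    (hg : MapsTo g (Icc (0 : ℝ) 1) (Icc (0 : ℝ) 1)) (cf : ContDiffOn ℝ 1 f (Icc (0 : ℝ) 1))
    (cg : ContDiffOn ℝ 1 g (Icc (0 : ℝ) 1)) (hc : ∀ x ∈ Icc (0 : ℝ) 1, f (g x) = g (f x))
    (hno : ¬ ∃ x ∈ Icc (0 : ℝ) 1, f x = x ∧ g x = x) :
    ∃ (F G : ℝ → ℝ) (a₀ b₀ y₁ y₂ s₁ s₂ : ℝ), Pre F G a₀ b₀ y₁ y₂ s₁ s₂ := by
  have h01 : (0 : ℝ) ≤ 1 := zero_le_one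
  -- clamp to [0,1]
  have cf1 : Continuous (fun x => f (cl 0 1 x)) :=
    cf.continuousOn.comp_continuous (cl_cont 0 1) (cl_mem h01)
  have cg1 : Continuous (fun x => g (cl 0 1 x)) :=
    cg.continuousOn.comp_continuous (cl_cont 0 1) (cl_mem h01)
  obtain ⟨a, b, ha, hab, hb, hfa, hga, hmin⟩ := exists_min_interval cf1 cg1
    (fun x _ => hf (cl_mem h01 x)) (fun x _ => hg (cl_mem h01 x))
  have hsub : Icc a b ⊆ Icc (0 : ℝ) 1 := Icc_subset_Icc ha hb
  have hfab : MapsTo f (Icc a b) (Icc a b) := by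
    intro x hx
    have := hfa hx
    simp only [cl_of_mem (hsub hx)] at this
    exact this
  have hgab : MapsTo g (Icc a b) (Icc a b) := by
    intro x hx
    have := hga hx
    simp only [cl_of_mem (hsub hx)] at this
    exact this
  have cF : Continuous (fun x => f (cl a b x)) :=
    (cf.continuousOn.mono hsub).comp_continuous (cl_cont a b) (cl_mem hab)
  have cG : Continuous (fun x => g (cl a b x)) :=
    (cg.continuousOn.mono hsub).comp_continuous (cl_cont a b) (cl_mem hab)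
  have mF : ∀ x, f (cl a b x) ∈ Icc a b := fun x => hfab (cl_mem hab x)
  have mG : ∀ x, g (cl a b x) ∈ Icc a b := fun x => hgab (cl_mem hab x)
  have hcFG : ∀ x, (fun x => f (cl a b x)) ((fun x => g (cl a b x)) x) =
      (fun x => g (cl a b x)) ((fun x => f (cl a b x)) x) := by
    intro x
    simp only
    rw [cl_of_mem (mF x), cl_of_mem (mG x)]
    exact hc _ (hsub (cl_mem hab x))
  have hnoFG : ∀ x ∈ Icc a b, (fun x => f (cl a b x)) x = x → (fun x => g (cl a b x)) x = x →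
      False := by
    intro x hx h1 h2
    simp only [cl_of_mem hx] at h1 h2
    exact hno ⟨x, hsub hx, h1, h2⟩
  obtain ⟨y₁, y₂, s₁, s₂, h1, h2, h3, h4, h5, h6, h7, h8, h9, h10, h11⟩ :=
    horseshoe hab cF cG mF mG hcFG hnoFG
  refine ⟨fun x => f (cl a b x), fun x => g (cl a b x), a, b, y₁, y₂, s₁, s₂, ?_⟩
  exact
    { ab := by linarith
      contf := cF
      contg := cG
      mapf := mF
      mapg := mG
      comm := hcFG
      leftf := by
        intro x hx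
        simp only [cl_left hab hx, cl_left hab le_rfl]
      leftg := by
        intro x hx
        simp only [cl_left hab hx, cl_left hab le_rfl]
      rightf := by
        intro x hx
        simp only [cl_right hab hx, cl_right hab le_rfl]
      rightg := by
        intro x hx
        simp only [cl_right hab hx, cl_right hab le_rfl]
      C1f := by
        refine (cf.mono hsub).congr ?_
        intro x hx
        simp only [cl_of_mem hx]
      C1g := by
        refine (cg.mono hsub).congr ?_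
        intro x hx
        simp only [cl_of_mem hx]
      y1 := h1
      y1s1 := h2
      s1s2 := h3
      s2y2 := h4
      y2 := h5
      hy1 := h6
      hs1 := h7
      hs2 := h8
      hy2 := h9
      covf := h10
      covg := h11
      minimal := by
        intro a' b' ha' hab' hb' hF' hG'
        apply hmin a' b' ha' hab' hb'
        · intro x hx
          have hx' : x ∈ Icc a b := ⟨ha'.trans hx.1, hx.2.trans hb'⟩
          have := hF' hx
          simp only [cl_of_mem hx'] at this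
          simp only [cl_of_mem (hsub hx')]
          exact this
        · intro x hx
          have hx' : x ∈ Icc a b := ⟨ha'.trans hx.1, hx.2.trans hb'⟩
          have := hG' hx
          simp only [cl_of_mem hx'] at this
          simp only [cl_of_mem (hsub hx')]
          exact this }

end Pool.Agent.CFP
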