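import Pool.Agent.Lib_MP_eedf80_an.Defs

/-!
PART A2: the monotone quotient map collapsing thin intervals.
-/

set_option autoImplicit false

namespace Pool.Agent.CFP

open Set Function

namespace PreA2

variable {f g : ℝ → ℝ} {a₀ b₀ y₁ y₂ s₁ s₂ : ℝ}

theorem contW (h : Pre f g a₀ b₀ y₁ y₂ s₁ s₂) (n : ℕ) : Continuous (W f g n n) :=
  (h.contf.iterate n).comp (h.contg.iterate n)

theorem W_succ (h : Pre f g a₀ b₀ y₁ y₂ s₁ s₂) (n : ℕ) (x : ℝ) :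
    W f g (n + 1) (n + 1) x = f (g (W f g n n x)) := by
  have hc : Function.Commute f g := fun x => h.comm x
  have hc' : Function.Commute (f^[n]) g := hc.iterate_left n
  simp only [W, Function.comp, Function.iterate_succ_apply']
  rw [hc'.eq]

theorem three (h : Pre f g a₀ b₀ y₁ y₂ s₁ s₂) {n : ℕ} {a b : ℝ}
    (hc : Icc y₁ y₂ ⊆ W f g n n '' Icc a b) :
    ∃ t₀ t₁ t₂ t₃ : ℝ, a ≤ t₀ ∧ t₀ < t₁ ∧ t₁ < t₂ ∧ t₂ < t₃ ∧ t₃ ≤ b ∧
      Icc y₁ y₂ ⊆ W f g (n + 1) (n + 1) '' Icc t₀ t₁ ∧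
      Icc y₁ y₂ ⊆ W f g (n + 1) (n + 1) '' Icc t₂ t₃ := by
  have y12 : y₁ < y₂ := h.y1s1.trans (h.s1s2.trans h.s2y2)
  have hy2 : ∀ v, W f g n n v = y₂ → W f g (n + 1) (n + 1) v ≤ y₁ := by
    intro v hv; rw [W_succ h, hv]; exact h.hy2
  have hy1 : ∀ v, W f g n n v = y₁ → y₂ ≤ W f g (n + 1) (n + 1) v := by
    intro v hv; rw [W_succ h, hv]; exact h.hy1
  have hs1 : ∀ v, W f g n n v = s₁ → W f g (n + 1) (n + 1) v ≤ y₁ := by
    intro v hv; rw [W_succ h, hv]; exact h.hs1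
  have hs2 : ∀ v, W f g n n v = s₂ → y₂ ≤ W f g (n + 1) (n + 1) v := by
    intro v hv; rw [W_succ h, hv]; exact h.hs2
  have hC := contW h n
  have hC' := contW h (n + 1)
  have up : ∀ s t : ℝ, s < t → W f g (n + 1) (n + 1) s ≤ y₁ → y₂ ≤ W f g (n + 1) (n + 1) t →
      Icc y₁ y₂ ⊆ W f g (n + 1) (n + 1) '' Icc s t := by
    intro s t hst h1 h2
    exact (Icc_subset_Icc h1 h2).trans (intermediate_value_Icc hst.le hC'.continuousOn)
  have down : ∀ s t : ℝ, s < t → y₂ ≤ W f g (n + 1) (n + 1) s → W f g (n + 1) (n + 1) t ≤ y₁ →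
      Icc y₁ y₂ ⊆ W f g (n + 1) (n + 1) '' Icc s t := by
    intro s t hst h1 h2
    exact (Icc_subset_Icc h2 h1).trans (intermediate_value_Icc' hst.le hC'.continuousOn)
  obtain ⟨u, hu, hu1⟩ := hc (left_mem_Icc.2 y12.le)
  obtain ⟨v, hv, hv1⟩ := hc (right_mem_Icc.2 y12.le)
  have huv : u ≠ v := by
    rintro rfl
    rw [hu1] at hv1
    exact y12.ne hv1
  rcases lt_or_gt_of_ne huv with huv | huv
  · obtain ⟨t₁, ht₁, ht₁'⟩ := intermediate_value_Ioo huv.le hC.continuousOn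
      (show s₁ ∈ Ioo (W f g n n u) (W f g n n v) by
        rw [hu1, hv1]; exact ⟨h.y1s1, h.s1s2.trans h.s2y2⟩)
    obtain ⟨t₂, ht₂, ht₂'⟩ := intermediate_value_Ioo ht₁.2.le hC.continuousOn
      (show s₂ ∈ Ioo (W f g n n t₁) (W f g n n v) by
        rw [ht₁', hv1]; exact ⟨h.s1s2, h.s2y2⟩)
    exact ⟨u, t₁, t₂, v, hu.1, ht₁.1, ht₂.1, ht₂.2, hv.2,
      down _ _ ht₁.1 (hy1 _ hu1) (hs1 _ ht₁'), down _ _ ht₂.2 (hs2 _ ht₂') (hy2 _ hv1)⟩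
  · obtain ⟨t₁, ht₁, ht₁'⟩ := intermediate_value_Ioo' huv.le hC.continuousOn
      (show s₂ ∈ Ioo (W f g n n u) (W f g n n v) by
        rw [hu1, hv1]; exact ⟨h.y1s1.trans h.s1s2, h.s2y2⟩)
    obtain ⟨t₂, ht₂, ht₂'⟩ := intermediate_value_Ioo' ht₁.2.le hC.continuousOn
      (show s₁ ∈ Ioo (W f g n n u) (W f g n n t₁) by
        rw [ht₁', hu1]; exact ⟨h.y1s1, h.s1s2⟩)
    exact ⟨v, t₁, t₂, u, hv.1, ht₁.1, ht₂.1, ht₂.2, hu.2,
      up _ _ ht₁.1 (hy2 _ hv1) (hs2 _ ht₁'), up _ _ ht₂.2 (hs1 _ ht₂') (hy1 _ hu1)⟩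

theorem thin_sub {x y x' y' : ℝ} (ht : Thin f g y₁ y₂ x y) (hx : x ≤ x') (hy : y' ≤ y) :
    Thin f g y₁ y₂ x' y' := fun n hn => ht n (hn.trans (image_mono (Icc_subset_Icc hx hy)))

theorem thin_self (h : Pre f g a₀ b₀ y₁ y₂ s₁ s₂) (x : ℝ) : Thin f g y₁ y₂ x x := by
  intro n hn
  have y12 : y₁ < y₂ := h.y1s1.trans (h.s1s2.trans h.s2y2)
  obtain ⟨t₀, t₁, t₂, t₃, h1, h2, h3, h4, h5, -⟩ := three h hn
  linarith

theorem thin_join (h : Pre f g a₀ b₀ y₁ y₂ s₁ s₂) {a b c : ℝ}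
    (h1 : Thin f g y₁ y₂ a b) (h2 : Thin f g y₁ y₂ b c) : Thin f g y₁ y₂ a c := by
  intro n hn
  obtain ⟨t₀, t₁, t₂, t₃, k1, k2, k3, k4, k5, k6, k7⟩ := three h hn
  rcases le_or_gt b t₂ with hb | hb
  · exact thin_sub h2 hb k5 _ k7
  · exact thin_sub h1 k1 (k3.trans hb).le _ k6

theorem between (h : Pre f g a₀ b₀ y₁ y₂ s₁ s₂) {x y : ℝ} (hxy : ¬ Thin f g y₁ y₂ x y) :
    ∃ q : ℚ, x < q ∧ (q : ℝ) < y ∧ ¬ Thin f g y₁ y₂ x q ∧ ¬ Thin f g y₁ y₂ q y := by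
  simp only [Thin, not_forall, not_not] at hxy
  obtain ⟨n, hn⟩ := hxy
  obtain ⟨t₀, t₁, t₂, t₃, k1, k2, k3, k4, k5, k6, k7⟩ := three h hn
  obtain ⟨q, hq1, hq2⟩ := exists_rat_btwn k3
  refine ⟨q, by linarith, by linarith, fun ht => ?_, fun ht => ?_⟩
  · exact thin_sub ht k1 hq1.le _ k6
  · exact thin_sub ht hq2.le k5 _ k7

/-- The set of points equivalent to `x` on the right. -/
def Cls (f g : ℝ → ℝ) (b₀ y₁ y₂ x : ℝ) : Set ℝ := {y | x ≤ y ∧ y ≤ b₀ ∧ Thin f g y₁ y₂ x y}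

/-- The right end point of the class. -/
noncomputable def rr (f g : ℝ → ℝ) (b₀ y₁ y₂ x : ℝ) : ℝ := sSup (Cls f g b₀ y₁ y₂ x)

theorem bdd (x : ℝ) : BddAbove (Cls f g b₀ y₁ y₂ x) := ⟨b₀, fun _ hy => hy.2.1⟩

theorem mem_self (h : Pre f g a₀ b₀ y₁ y₂ s₁ s₂) {x : ℝ} (hx : x ≤ b₀) :
    x ∈ Cls f g b₀ y₁ y₂ x := ⟨le_rfl, hx, thin_self h x⟩

theorem le_rr (h : Pre f g a₀ b₀ y₁ y₂ s₁ s₂) {x : ℝ} (hx : x ≤ b₀) :
    x ≤ rr f g b₀ y₁ y₂ x := le_csSup (bdd x) (mem_self h hx)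

theorem rr_le (h : Pre f g a₀ b₀ y₁ y₂ s₁ s₂) {x : ℝ} (hx : x ≤ b₀) :
    rr f g b₀ y₁ y₂ x ≤ b₀ := csSup_le ⟨x, mem_self h hx⟩ fun _ hy => hy.2.1

theorem thin_rr (h : Pre f g a₀ b₀ y₁ y₂ s₁ s₂) {x : ℝ} (hx : x ≤ b₀) :
    Thin f g y₁ y₂ x (rr f g b₀ y₁ y₂ x) := by
  intro n hn
  obtain ⟨t₀, t₁, t₂, t₃, k1, k2, k3, k4, k5, k6, k7⟩ := three h hn
  have hlt : t₁ < rr f g b₀ y₁ y₂ x := by linarith
  obtain ⟨y, hy, hty⟩ := exists_lt_of_lt_csSup ⟨x, mem_self h hx⟩ hlt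
  exact thin_sub hy.2.2 k1 hty.le _ k6

theorem rr_eq_iff (h : Pre f g a₀ b₀ y₁ y₂ s₁ s₂) {x y : ℝ} (hxy : x ≤ y) (hy : y ≤ b₀) :
    rr f g b₀ y₁ y₂ x = rr f g b₀ y₁ y₂ y ↔ Thin f g y₁ y₂ x y := by
  constructor
  · intro he
    exact thin_sub (thin_rr h (hxy.trans hy)) le_rfl (he ▸ le_rr h hy)
  · intro ht
    apply le_antisymm
    · apply csSup_le ⟨x, mem_self h (hxy.trans hy)⟩
      intro z hz
      rcases le_total z y with hzy | hyz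
      · exact hzy.trans (le_rr h hy)
      · exact le_csSup (bdd y) ⟨hyz, hz.2.1, thin_sub hz.2.2 hxy le_rfl⟩
    · apply le_csSup (bdd x)
      exact ⟨hxy.trans (le_rr h hy), rr_le h hy, thin_join h ht (thin_rr h hy)⟩

theorem rr_mono (h : Pre f g a₀ b₀ y₁ y₂ s₁ s₂) {x y : ℝ} (hxy : x ≤ y) (hy : y ≤ b₀) :
    rr f g b₀ y₁ y₂ x ≤ rr f g b₀ y₁ y₂ y := by
  by_cases ht : Thin f g y₁ y₂ x y
  · exact ((rr_eq_iff h hxy hy).2 ht).le
  · apply csSup_le ⟨x, mem_self h (hxy.trans hy)⟩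
    intro z hz
    rcases le_total z y with hzy | hyz
    · exact hzy.trans (le_rr h hy)
    · exact absurd (thin_sub hz.2.2 le_rfl hyz) ht

theorem rr_lt_iff (h : Pre f g a₀ b₀ y₁ y₂ s₁ s₂) {x y : ℝ} (hxy : x ≤ y) (hy : y ≤ b₀) :
    rr f g b₀ y₁ y₂ x < rr f g b₀ y₁ y₂ y ↔ ¬ Thin f g y₁ y₂ x y := by
  rw [← rr_eq_iff h hxy hy]
  exact ⟨fun h' => h'.ne, fun h' => lt_of_le_of_ne (rr_mono h hxy hy) h'⟩

theorem rr_b (h : Pre f g a₀ b₀ y₁ y₂ s₁ s₂) : rr f g b₀ y₁ y₂ b₀ = b₀ :=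
  le_antisymm (rr_le h le_rfl) (le_rr h le_rfl)

theorem not_thin_ab (h : Pre f g a₀ b₀ y₁ y₂ s₁ s₂) : ¬ Thin f g y₁ y₂ a₀ b₀ := by
  intro ht
  refine ht 0 ?_
  have : W f g 0 0 = id := by
    funext x; simp [W]
  rw [this, image_id]
  exact Icc_subset_Icc h.y1 h.y2

/-- The countable set of classes of rationals. -/
def DD (f g : ℝ → ℝ) (a₀ b₀ y₁ y₂ : ℝ) : Set ℝ :=
  {d | ∃ q : ℚ, a₀ ≤ q ∧ (q : ℝ) ≤ b₀ ∧ rr f g b₀ y₁ y₂ q = d ∧ ¬ Thin f g y₁ y₂ a₀ q ∧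
    ¬ Thin f g y₁ y₂ q b₀}

theorem DD_countable : (DD f g a₀ b₀ y₁ y₂).Countable := by
  apply (countable_range (fun q : ℚ => rr f g b₀ y₁ y₂ q)).mono
  rintro d ⟨q, -, -, rfl, -⟩
  exact ⟨q, rfl⟩

theorem DD_mem (h : Pre f g a₀ b₀ y₁ y₂ s₁ s₂) {x y : ℝ} (hx : a₀ ≤ x) (hy : y ≤ b₀)
    (ht : ¬ Thin f g y₁ y₂ x y) : ∃ q : ℚ, x < q ∧ (q : ℝ) < y ∧ ¬ Thin f g y₁ y₂ x q ∧
      ¬ Thin f g y₁ y₂ q y ∧ rr f g b₀ y₁ y₂ q ∈ DD f g a₀ b₀ y₁ y₂ := by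
  obtain ⟨q, h1, h2, h3, h4⟩ := between h ht
  exact ⟨q, h1, h2, h3, h4, q, by linarith, by linarith, rfl,
    fun ht' => h3 (thin_sub ht' hx le_rfl), fun ht' => h4 (thin_sub ht' le_rfl hy)⟩

theorem exists_iso (h : Pre f g a₀ b₀ y₁ y₂ s₁ s₂) :
    Nonempty (DD f g a₀ b₀ y₁ y₂ ≃o Ioo (0 : ℚ) 1) := by
  have : Countable (DD f g a₀ b₀ y₁ y₂) := DD_countable.to_subtype
  have : Nonempty (DD f g a₀ b₀ y₁ y₂) := by
    obtain ⟨q, -, -, -, -, hq⟩ := DD_mem h le_rfl le_rfl (not_thin_ab h)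
    exact ⟨⟨_, hq⟩⟩
  have : DenselyOrdered (DD f g a₀ b₀ y₁ y₂) := by
    constructor
    rintro ⟨d, q, q1, q2, rfl, q3, q4⟩ ⟨e, p, p1, p2, rfl, p3, p4⟩ hlt
    have hlt' : rr f g b₀ y₁ y₂ q < rr f g b₀ y₁ y₂ p := hlt
    have hqp : (q : ℝ) ≤ p := by
      by_contra hcon
      exact absurd (rr_mono h (not_le.1 hcon).le q2) (not_le.2 hlt')
    have ht := (rr_lt_iff h hqp p2).1 hlt'
    obtain ⟨r, r1, r2, r3, r4, r5⟩ := DD_mem h q1 p2 ht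
    refine ⟨⟨_, r5⟩, ?_, ?_⟩
    · exact (rr_lt_iff h r1.le (by linarith)).2 r3
    · exact (rr_lt_iff h r2.le p2).2 r4
  have : NoMinOrder (DD f g a₀ b₀ y₁ y₂) := by
    constructor
    rintro ⟨d, q, q1, q2, rfl, q3, q4⟩
    obtain ⟨r, r1, r2, r3, r4, r5⟩ := DD_mem h le_rfl q2 q3
    exact ⟨⟨_, r5⟩, (rr_lt_iff h r2.le q2).2 r4⟩
  have : NoMaxOrder (DD f g a₀ b₀ y₁ y₂) := by
    constructor
    rintro ⟨d, q, q1, q2, rfl, q3, q4⟩
    obtain ⟨r, r1, r2, r3, r4, r5⟩ := DD_mem h q1 le_rfl q4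
    exact ⟨⟨_, r5⟩, (rr_lt_iff h r1.le (by linarith)).2 r3⟩
  have : Nonempty (Ioo (0 : ℚ) 1) := ⟨⟨1 / 2, by norm_num, by norm_num⟩⟩
  exact Order.iso_of_countable_dense _ _

end PreA2

open PreA2 in
/-- PART A2. -/
theorem exists_pi {f g : ℝ → ℝ} {a₀ b₀ y₁ y₂ s₁ s₂ : ℝ} (h : Pre f g a₀ b₀ y₁ y₂ s₁ s₂) :
    ∃ π : ℝ → ℝ, Monotone π ∧ Continuous π ∧ (∀ x ≤ a₀, π x = 0) ∧ (∀ x, b₀ ≤ x → π x = 1) ∧
      ∀ x y, a₀ ≤ x → x ≤ y → y ≤ b₀ → (π x = π y ↔ Thin f g y₁ y₂ x y) := by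
  obtain ⟨e⟩ := exists_iso h
  have hab : a₀ ≤ b₀ := h.ab.le
  -- clamp
  set c : ℝ → ℝ := fun x => max a₀ (min b₀ x) with hcdef
  have hc1 : ∀ x, a₀ ≤ c x := fun x => le_max_left _ _
  have hc2 : ∀ x, c x ≤ b₀ := fun x => max_le hab (min_le_left _ _)
  have hcm : Monotone c := fun x y hxy => max_le_max le_rfl (min_le_min le_rfl hxy)
  have hcid : ∀ x, a₀ ≤ x → x ≤ b₀ → c x = x := by
    intro x h1 h2
    simp only [hcdef, min_eq_right h2, max_eq_right h1]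
  have hcl : ∀ x ≤ a₀, c x = a₀ := by
    intro x hx
    simp only [hcdef]
    exact max_eq_left ((min_le_right _ _).trans hx)
  have hcr : ∀ x, b₀ ≤ x → c x = b₀ := by
    intro x hx
    simp only [hcdef, min_eq_left hx, max_eq_right hab]
  let S : ℝ → Set ℝ := fun x => insert 0
    {t | ∃ d : DD f g a₀ b₀ y₁ y₂, (d : ℝ) ≤ rr f g b₀ y₁ y₂ (c x) ∧ ((e d : ℚ) : ℝ) = t}
  have e0 : ∀ d, (0 : ℝ) < ((e d : ℚ) : ℝ) := fun d => by exact_mod_cast (e d).2.1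
  have e1 : ∀ d, ((e d : ℚ) : ℝ) < 1 := fun d => by exact_mod_cast (e d).2.2
  have em : ∀ d d', d ≤ d' → ((e d : ℚ) : ℝ) ≤ ((e d' : ℚ) : ℝ) := fun d d' hd => by
    have := e.monotone hd
    exact_mod_cast this
  have esm : ∀ d d', d < d' → ((e d : ℚ) : ℝ) < ((e d' : ℚ) : ℝ) := fun d d' hd => by
    have := e.strictMono hd
    exact_mod_cast this
  have hSne : ∀ x, (S x).Nonempty := fun x => ⟨0, mem_insert _ _⟩
  have hSb : ∀ x, ∀ t ∈ S x, t ≤ 1 := by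
    intro x t ht
    rcases ht with rfl | ⟨d, -, rfl⟩
    · norm_num
    · exact (e1 d).le
  have hSbdd : ∀ x, BddAbove (S x) := fun x => ⟨1, fun t ht => hSb x t ht⟩
  have hSm : ∀ x y, x ≤ y → S x ⊆ S y := by
    intro x y hxy t ht
    rcases ht with rfl | ⟨d, hd, rfl⟩
    · exact mem_insert _ _
    · exact mem_insert_of_mem _ ⟨d, hd.trans (rr_mono h (hcm hxy) (hc2 y)), rfl⟩
  set p : ℝ → ℝ := fun x => sSup (S x) with hp
  have pm : Monotone p := fun x y hxy => csSup_le_csSup (hSbdd y) (hSne x) (hSm x y hxy)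
  have p0 : ∀ x, 0 ≤ p x := fun x => le_csSup (hSbdd x) (mem_insert _ _)
  have p1 : ∀ x, p x ≤ 1 := fun x => csSup_le (hSne x) (hSb x)
  have pl : ∀ x ≤ a₀, p x = 0 := by
    intro x hx
    apply le_antisymm _ (p0 x)
    apply csSup_le (hSne x)
    intro t ht
    rcases ht with rfl | ⟨⟨d, q, q1, q2, rfl, q3, q4⟩, hd, rfl⟩
    · exact le_rfl
    · rw [hcl x hx] at hd
      exact absurd hd (not_le.2 ((rr_lt_iff h q1 q2).2 q3))
  -- value at the points of DD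
  have pval : ∀ (q : ℚ) (hq : rr f g b₀ y₁ y₂ q ∈ DD f g a₀ b₀ y₁ y₂), a₀ ≤ q → (q : ℝ) ≤ b₀ →
      p q = ((e ⟨_, hq⟩ : ℚ) : ℝ) := by
    intro q hq q1 q2
    apply le_antisymm
    · apply csSup_le (hSne _)
      intro t ht
      rcases ht with rfl | ⟨d, hd, rfl⟩
      · exact (e0 _).le
      · rw [hcid _ q1 q2] at hd
        exact em _ _ hd
    · apply le_csSup (hSbdd _)
      refine mem_insert_of_mem _ ⟨⟨_, hq⟩, ?_, rfl⟩
      rw [hcid _ q1 q2]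
  have hrange : ∀ r : ℚ, 0 < r → r < 1 → ∃ q : ℝ, a₀ ≤ q ∧ q ≤ b₀ ∧ p q = r := by
    intro r hr0 hr1
    obtain ⟨⟨d, hd⟩, hde⟩ := e.surjective ⟨r, hr0, hr1⟩
    obtain ⟨q, q1, q2, rfl, q3, q4⟩ := id hd
    refine ⟨q, q1, q2, ?_⟩
    rw [pval q hd q1 q2, hde]
  have pr : ∀ x, b₀ ≤ x → p x = 1 := by
    intro x hx
    apply le_antisymm (p1 x)
    by_contra hcon
    obtain ⟨r, hr1, hr2⟩ := exists_rat_btwn (not_le.1 hcon)
    have hr0 : (0 : ℝ) < r := lt_of_le_of_lt (p0 x) hr1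
    obtain ⟨q, q1, q2, q3⟩ := hrange r (by exact_mod_cast hr0) (by exact_mod_cast hr2)
    have := pm (q2.trans hx)
    rw [q3] at this
    exact absurd hr1 (not_lt.2 this)
  -- continuity
  have pcont : Continuous p := by
    let k : ℝ → ℝ := fun x => min 0 (x - a₀) + max 0 (x - b₀)
    have kc : Continuous k := by
      fun_prop
    have km : Monotone k := by
      intro x y hxy
      exact add_le_add (min_le_min le_rfl (by linarith)) (max_le_max le_rfl (by linarith))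
    have hm : Monotone (fun x => p x + k x) := pm.add km
    have hd : DenseRange (fun x => p x + k x) := by
      rw [DenseRange, dense_iff_exists_between]
      intro a b hlt
      rcases lt_or_ge a 0 with ha | ha
      · obtain ⟨t, ht1, ht2⟩ := exists_between (lt_min hlt ha)
        refine ⟨t, ⟨t + a₀, ?_⟩, ht1, (lt_min_iff.1 ht2).1⟩
        have ht0 := (lt_min_iff.1 ht2).2
        simp only [k]
        rw [pl _ (by linarith), min_eq_right (by linarith), max_eq_left (by linarith [h.ab])]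
        ring
      · rcases lt_or_ge 1 b with hb | hb
        · obtain ⟨t, ht1, ht2⟩ := exists_between (max_lt hlt hb)
          refine ⟨t, ⟨t - 1 + b₀, ?_⟩, (max_lt_iff.1 ht1).1, ht2⟩
          have ht0 := (max_lt_iff.1 ht1).2
          simp only [k]
          rw [pr _ (by linarith), min_eq_left (by linarith [h.ab]), max_eq_right (by linarith)]
          ring
        · obtain ⟨r, hr1, hr2⟩ := exists_rat_btwn hlt
          have hr0 : (0 : ℝ) < r := lt_of_le_of_lt ha hr1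
          have hr3 : (r : ℝ) < 1 := lt_of_lt_of_le hr2 hb
          obtain ⟨q, q1, q2, q3⟩ := hrange r (by exact_mod_cast hr0) (by exact_mod_cast hr3)
          refine ⟨r, ⟨q, ?_⟩, hr1, hr2⟩
          simp only [k]
          rw [q3, min_eq_left (by linarith), max_eq_left (by linarith)]
          ring
    have hcont := hm.continuous_of_denseRange hd
    have : p = fun x => (p x + k x) - k x := by
      funext x; ring
    rw [this]
    exact hcont.sub kc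
  refine ⟨p, pm, pcont, pl, pr, ?_⟩
  intro x y hx hxy hy
  constructor
  · intro he
    by_contra hn
    obtain ⟨q, q1, q2, q3, q4, q5⟩ := DD_mem h hx hy hn
    obtain ⟨r, r1, r2, r3, r4, r5⟩ := DD_mem h (show a₀ ≤ (q : ℝ) by linarith) hy q4
    have h1 := pm q1.le
    have h2 := pm r2.le
    rw [pval q q5 (by linarith) (by linarith)] at h1
    rw [pval r r5 (by linarith) (by linarith)] at h2
    have h3 := esm ⟨_, q5⟩ ⟨_, r5⟩ ((rr_lt_iff h r1.le (by linarith)).2 r3)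
    linarith
  · intro ht
    have hrr := (rr_eq_iff h hxy hy).2 ht
    have : S x = S y := by
      simp only [S]
      rw [hcid x hx (hxy.trans hy), hcid y (hx.trans hxy) hy, hrr]
    simp only [hp, this]

end Pool.Agent.CFP
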