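import Pool.Agent.Lib_MP_eedf80_an.PreA2

/-!
PART A3: the quotient maps.
-/

set_option autoImplicit false

namespace Pool.Agent.CFP

open Set Function

namespace PreA3

variable {f g : ℝ → ℝ} {a₀ b₀ y₁ y₂ s₁ s₂ : ℝ}

theorem W_fg (h : Pre f g a₀ b₀ y₁ y₂ s₁ s₂) (n : ℕ) (x : ℝ) :
    W f g (n + 1) (n + 1) x = g (W f g n n (f x)) := by
  rw [PreA2.W_succ h, h.comm]
  have hc : Function.Commute f g := fun x => h.comm x
  have h1 : Function.Commute (f^[n]) f := Function.Commute.iterate_self f n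
  have h2 : Function.Commute (g^[n]) f := hc.symm.iterate_left n
  congr 1
  simp only [W, Function.comp]
  rw [← h1.eq, ← h2.eq]

theorem W_gf (h : Pre f g a₀ b₀ y₁ y₂ s₁ s₂) (n : ℕ) (x : ℝ) :
    W f g (n + 1) (n + 1) x = f (W f g n n (g x)) := by
  rw [PreA2.W_succ h]
  have hc : Function.Commute f g := fun x => h.comm x
  have h1 : Function.Commute (f^[n]) g := hc.iterate_left n
  have h2 : Function.Commute (g^[n]) g := Function.Commute.iterate_self g n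
  congr 1
  simp only [W, Function.comp]
  rw [← h1.eq, ← h2.eq]

/-- images of thin intervals under `f` are thin -/
theorem thin_image_f (h : Pre f g a₀ b₀ y₁ y₂ s₁ s₂) {x y a b : ℝ}
    (ht : Thin f g y₁ y₂ x y) (hab : Icc a b ⊆ f '' Icc x y) : Thin f g y₁ y₂ a b := by
  intro n hn
  refine ht (n + 1) ?_
  refine h.covg.trans ?_
  rintro _ ⟨z, hz, rfl⟩
  obtain ⟨w, hw, hwz⟩ := hn hz
  obtain ⟨v, hv, rfl⟩ := hab hw
  exact ⟨v, hv, by rw [W_fg h, hwz]⟩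

/-- images of thin intervals under `g` are thin -/
theorem thin_image_g (h : Pre f g a₀ b₀ y₁ y₂ s₁ s₂) {x y a b : ℝ}
    (ht : Thin f g y₁ y₂ x y) (hab : Icc a b ⊆ g '' Icc x y) : Thin f g y₁ y₂ a b := by
  intro n hn
  refine ht (n + 1) ?_
  refine h.covf.trans ?_
  rintro _ ⟨z, hz, rfl⟩
  obtain ⟨w, hw, hwz⟩ := hn hz
  obtain ⟨v, hv, rfl⟩ := hab hw
  exact ⟨v, hv, by rw [W_gf h, hwz]⟩

theorem pi_mem {π : ℝ → ℝ} (h1 : Monotone π) (h3 : ∀ x ≤ a₀, π x = 0)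
    (h4 : ∀ x, b₀ ≤ x → π x = 1) (x : ℝ) : π x ∈ Icc (0 : ℝ) 1 := by
  constructor
  · rw [← h3 (min x a₀) (min_le_right _ _)]
    exact h1 (min_le_left _ _)
  · rw [← h4 (max x b₀) (le_max_right _ _)]
    exact h1 (le_max_left _ _)

theorem quot {u π : ℝ → ℝ} (hab : a₀ ≤ b₀) (hu : Continuous u)
    (lu : ∀ x ≤ a₀, u x = u a₀) (ru : ∀ x, b₀ ≤ x → u x = u b₀)
    (h1 : Monotone π) (h2 : Continuous π) (h3 : ∀ x ≤ a₀, π x = 0) (h4 : ∀ x, b₀ ≤ x → π x = 1)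
    (wd : ∀ x y, a₀ ≤ x → x ≤ y → y ≤ b₀ → π x = π y → π (u x) = π (u y)) :
    ∃ U : ℝ → ℝ, Continuous U ∧ (∀ t, U t ∈ Icc (0 : ℝ) 1) ∧ (∀ x, U (π x) = π (u x)) ∧
      ∀ t, U t = U (max 0 (min 1 t)) := by
  have hcl : ∀ t : ℝ, max 0 (min 1 t) ∈ Icc (0 : ℝ) 1 := fun t =>
    ⟨le_max_left _ _, max_le zero_le_one (min_le_left _ _)⟩
  have hsurj : ∀ t : ℝ, ∃ x ∈ Icc a₀ b₀, π x = max 0 (min 1 t) := by
    intro t
    have := intermediate_value_Icc hab h2.continuousOn (show max 0 (min 1 t) ∈ Icc (π a₀) (π b₀) by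
      rw [h3 a₀ le_rfl, h4 b₀ le_rfl]; exact hcl t)
    obtain ⟨x, hx, hx'⟩ := this
    exact ⟨x, hx, hx'⟩
  choose σ hσ hσ' using hsurj
  have wd' : ∀ x ∈ Icc a₀ b₀, ∀ y ∈ Icc a₀ b₀, π x = π y → π (u x) = π (u y) := by
    intro x hx y hy hxy
    rcases le_total x y with hle | hle
    · exact wd x y hx.1 hle hy.2 hxy
    · exact (wd y x hy.1 hle hx.2 hxy.symm).symm
  refine ⟨fun t => π (u (σ t)), ?_, fun t => pi_mem h1 h3 h4 _, ?_, ?_⟩
  · rw [continuous_iff_isClosed]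
    intro C hC
    have hcomp : IsCompact (Icc a₀ b₀ ∩ (fun x => π (u x)) ⁻¹' C) :=
      isCompact_Icc.inter_right (hC.preimage (h2.comp hu))
    have himg : IsClosed (π '' (Icc a₀ b₀ ∩ (fun x => π (u x)) ⁻¹' C)) :=
      (hcomp.image h2).isClosed
    have hcc : Continuous (fun t : ℝ => max 0 (min 1 t)) := by fun_prop
    have : (fun t => π (u (σ t))) ⁻¹' C =
        (fun t : ℝ => max 0 (min 1 t)) ⁻¹' (π '' (Icc a₀ b₀ ∩ (fun x => π (u x)) ⁻¹' C)) := by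
      ext t
      simp only [mem_preimage, mem_image, mem_inter_iff]
      constructor
      · intro ht
        exact ⟨σ t, ⟨hσ t, ht⟩, hσ' t⟩
      · rintro ⟨x, ⟨hx, hxC⟩, hxt⟩
        rw [wd' (σ t) (hσ t) x hx (by rw [hσ' t, hxt])]
        exact hxC
    rw [this]
    exact himg.preimage hcc
  · intro x
    have hmem := pi_mem h1 h3 h4 x
    have hpx : π (σ (π x)) = π x := by
      rw [hσ', min_eq_right hmem.2, max_eq_right hmem.1]
    simp only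
    rcases le_total x a₀ with hx | hx
    · rw [lu x hx]
      exact wd' _ (hσ _) _ ⟨le_rfl, hab⟩ (by rw [hpx, h3 x hx, h3 a₀ le_rfl])
    · rcases le_total b₀ x with hx' | hx'
      · rw [ru x hx']
        exact wd' _ (hσ _) _ ⟨hab, le_rfl⟩ (by rw [hpx, h4 x hx', h4 b₀ le_rfl])
      · exact wd' _ (hσ _) _ ⟨hx, hx'⟩ hpx
  · intro t
    refine wd' _ (hσ _) _ (hσ _) ?_
    rw [hσ', hσ']
    have := hcl t
    rw [min_eq_right this.2, max_eq_right this.1]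

end PreA3

open PreA3 in
/-- PART A3. -/
theorem exists_qdata {f g π : ℝ → ℝ} {a₀ b₀ y₁ y₂ s₁ s₂ : ℝ} (h : Pre f g a₀ b₀ y₁ y₂ s₁ s₂)
    (h1 : Monotone π) (h2 : Continuous π) (h3 : ∀ x ≤ a₀, π x = 0) (h4 : ∀ x, b₀ ≤ x → π x = 1)
    (h5 : ∀ x y, a₀ ≤ x → x ≤ y → y ≤ b₀ → (π x = π y ↔ Thin f g y₁ y₂ x y)) :
    ∃ F G : ℝ → ℝ, QData f g a₀ b₀ y₁ y₂ s₁ s₂ π F G := by
  have key : ∀ u : ℝ → ℝ, Continuous u → (∀ x, u x ∈ Icc a₀ b₀) →
      (∀ x y a b, Thin f g y₁ y₂ x y → Icc a b ⊆ u '' Icc x y → Thin f g y₁ y₂ a b) →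
      ∀ x y, a₀ ≤ x → x ≤ y → y ≤ b₀ → π x = π y → π (u x) = π (u y) := by
    intro u hu hm hthin x y hx hxy hy hpi
    have ht := (h5 x y hx hxy hy).1 hpi
    rcases le_total (u x) (u y) with hle | hle
    · exact (h5 _ _ (hm x).1 hle (hm y).2).2
        (hthin _ _ _ _ ht (intermediate_value_Icc hxy hu.continuousOn))
    · exact ((h5 _ _ (hm y).1 hle (hm x).2).2
        (hthin _ _ _ _ ht (intermediate_value_Icc' hxy hu.continuousOn))).symm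
  obtain ⟨F, F1, F2, F3, F4⟩ := quot h.ab.le h.contf h.leftf h.rightf h1 h2 h3 h4
    (key f h.contf h.mapf (fun x y a b ht => thin_image_f h ht))
  obtain ⟨G, G1, G2, G3, G4⟩ := quot h.ab.le h.contg h.leftg h.rightg h1 h2 h3 h4
    (key g h.contg h.mapg (fun x y a b ht => thin_image_g h ht))
  refine ⟨F, G, ⟨h, h1, h2, h3, h4, h5, F1, G1, F2, G2, F3, G3, ?_⟩⟩
  intro t
  have hcl : max 0 (min 1 t) ∈ Icc (0 : ℝ) 1 :=
    ⟨le_max_left _ _, max_le zero_le_one (min_le_left _ _)⟩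
  have hsurj := intermediate_value_Icc h.ab.le h2.continuousOn
    (show max 0 (min 1 t) ∈ Icc (π a₀) (π b₀) by rw [h3 a₀ le_rfl, h4 b₀ le_rfl]; exact hcl)
  obtain ⟨x, -, hx⟩ := hsurj
  rw [F4 t, G4 t, ← hx, F3, G3, F3, G3, h.comm]

end Pool.Agent.CFP
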