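import Pool.Agent.Lib_MP_eedf80_an.PreA4a

/-!
PART A4a, second file: exponential bound on alternations and the assembly of `Red` from the
remaining fields `fin`, `hon`, `odd`.
-/

set_option autoImplicit false

namespace Pool.Agent.CFP

open Set Function

open PreA4

section A4exp

variable {f g π F G : ℝ → ℝ} {a₀ b₀ y₁ y₂ s₁ s₂ : ℝ}

/-- `f` is Lipschitz on `[a₀, b₀]` -/
theorem lip_of_C1 {u : ℝ → ℝ} (hu : ContDiffOn ℝ 1 u (Icc a₀ b₀)) :
    ∃ L : ℕ, ∀ x ∈ Icc a₀ b₀, ∀ y ∈ Icc a₀ b₀, |u x - u y| ≤ L * |x - y| := by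
  rcases lt_or_ge a₀ b₀ with hab | hab
  · obtain ⟨K, hK⟩ := hu.exists_lipschitzOnWith one_ne_zero (convex_Icc a₀ b₀) isCompact_Icc
    obtain ⟨L, hL⟩ := exists_nat_ge (K : ℝ)
    refine ⟨L, fun x hx y hy => ?_⟩
    have := hK.dist_le_mul x hx y hy
    rw [Real.dist_eq, Real.dist_eq] at this
    exact this.trans (mul_le_mul_of_nonneg_right hL (abs_nonneg _))
  · refine ⟨0, fun x hx y hy => ?_⟩
    have : x = y := by linarith [hx.1, hx.2, hy.1, hy.2]
    simp [this]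

theorem lip_iter {u : ℝ → ℝ} (hu : ∀ x, u x ∈ Icc a₀ b₀) {L : ℕ}
    (hL : ∀ x ∈ Icc a₀ b₀, ∀ y ∈ Icc a₀ b₀, |u x - u y| ≤ L * |x - y|) (n : ℕ) :
    ∀ x ∈ Icc a₀ b₀, ∀ y ∈ Icc a₀ b₀,
      u^[n] x ∈ Icc a₀ b₀ ∧ |u^[n] x - u^[n] y| ≤ (L : ℝ) ^ n * |x - y| := by
  induction n with
  | zero => intro x hx y hy; simp [hx.1, hx.2]
  | succ n ih =>
    intro x hx y hy
    have h1 := ih x hx y hy
    have h2 := ih y hy x hx
    rw [iterate_succ_apply', iterate_succ_apply']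
    refine ⟨hu _, (hL _ h1.1 _ h2.1).trans ?_⟩
    rw [pow_succ, mul_comm _ (L : ℝ), mul_assoc]
    exact mul_le_mul_of_nonneg_left h1.2 (Nat.cast_nonneg _)

theorem QData.expbd (h : QData f g a₀ b₀ y₁ y₂ s₁ s₂ π F G) :
    ∃ K : ℕ, ∀ n m, Alt (π y₁) (π y₂) (W F G n n) 0 1 m → m ≤ K ^ (n + 1) := by
  obtain ⟨L1, hL1⟩ := lip_of_C1 h.pre.C1f
  obtain ⟨L2, hL2⟩ := lip_of_C1 h.pre.C1g
  have hy : π y₁ < π y₂ := h.y1s1.trans (h.s1s2.trans h.s2y2)
  -- uniform continuity of `π` on `[a₀, b₀]`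
  have huc := isCompact_Icc.uniformContinuousOn_of_continuous
    (h.cont.continuousOn (s := Icc a₀ b₀))
  rw [Metric.uniformContinuousOn_iff] at huc
  obtain ⟨D, hD, hDD⟩ := huc (π y₂ - π y₁) (sub_pos.2 hy)
  obtain ⟨M, hM⟩ := exists_nat_ge ((b₀ - a₀) / D)
  refine ⟨max M (L1 * L2), ?_⟩
  intro n m hAlt
  obtain ⟨t, e, ht, hts, htv⟩ := hAlt
  -- lift the points
  have hex : ∀ i : ℕ, ∃ x, i ≤ m → x ∈ Icc a₀ b₀ ∧ π x = t i := by
    intro i
    by_cases hi : i ≤ m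
    · obtain ⟨x, hx, hxt⟩ := lift h (ht i hi)
      exact ⟨x, fun _ => ⟨hx, hxt⟩⟩
    · exact ⟨0, fun h => absurd h hi⟩
  choose x hx using hex
  have hxs : ∀ i < m, x i < x (i + 1) := by
    intro i hi
    by_contra hcon
    push Not at hcon
    have h1 := h.mono hcon
    rw [(hx i hi.le).2, (hx (i + 1) hi).2] at h1
    exact absurd (hts i hi) (not_lt.2 h1)
  have hLip : ∀ i < m, |W f g n n (x i) - W f g n n (x (i + 1))| ≤
      ((L1 * L2 : ℕ) : ℝ) ^ n * (x (i + 1) - x i) := by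
    intro i hi
    have m1 := (hx i hi.le).1
    have m2 := (hx (i + 1) hi).1
    have g1 := lip_iter h.pre.mapg hL2 n _ m1 _ m2
    have g2 := lip_iter h.pre.mapg hL2 n _ m2 _ m1
    have f1 := lip_iter h.pre.mapf hL1 n _ g1.1 _ g2.1
    simp only [W, Function.comp]
    refine f1.2.trans ?_
    have h3 : |x i - x (i + 1)| = x (i + 1) - x i := by
      rw [abs_sub_comm, abs_of_pos (sub_pos.2 (hxs i hi))]
    rw [h3] at g1
    calc (L1 : ℝ) ^ n * |g^[n] (x i) - g^[n] (x (i + 1))|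
        ≤ (L1 : ℝ) ^ n * ((L2 : ℝ) ^ n * (x (i + 1) - x i)) :=
          mul_le_mul_of_nonneg_left g1.2 (by positivity)
      _ = _ := by push_cast; rw [mul_pow]; ring
  have hmemW : ∀ i ≤ m, W f g n n (x i) ∈ Icc a₀ b₀ := by
    intro i hi
    have m1 := (hx i hi).1
    have g1 := lip_iter h.pre.mapg hL2 n _ m1 _ m1
    have f1 := lip_iter h.pre.mapf hL1 n _ g1.1 _ g1.1
    exact f1.1
  have hgap : ∀ i < m, D ≤ ((L1 * L2 : ℕ) : ℝ) ^ n * (x (i + 1) - x i) := by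
    intro i hi
    refine le_trans ?_ (hLip i hi)
    by_contra hcon
    push Not at hcon
    have h1 := hDD _ (hmemW i hi.le) _ (hmemW (i + 1) hi) (by rw [Real.dist_eq]; exact hcon)
    rw [Real.dist_eq] at h1
    have v1 := htv i hi.le
    have v2 := htv (i + 1) hi
    rw [← (hx i hi.le).2, semiW h] at v1
    rw [← (hx (i + 1) hi).2, semiW h] at v2
    rw [abs_lt] at h1
    by_cases hev : Even (i + e)
    · have hod : ¬ Even (i + 1 + e) := by
        rw [show i + 1 + e = (i + e) + 1 by ring]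
        exact Nat.not_even_iff_odd.2 hev.add_one
      have w1 := v1.1 hev
      have w2 := v2.2 hod
      linarith
    · have hod : Even (i + 1 + e) := by
        rw [show i + 1 + e = (i + e) + 1 by ring]
        exact (Nat.not_even_iff_odd.1 hev).add_one
      have w1 := v1.2 hev
      have w2 := v2.1 hod
      linarith
  -- sum up
  have hsum : ∀ j ≤ m, (j : ℝ) * D ≤ ((L1 * L2 : ℕ) : ℝ) ^ n * (x j - x 0) := by
    intro j
    induction j with
    | zero => intro _; simp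
    | succ j ih =>
      intro hj
      have h1 := ih (by omega)
      have h2 := hgap j hj
      push_cast at h1 h2 ⊢
      nlinarith
  have h1 := hsum m le_rfl
  have h2 : x m - x 0 ≤ b₀ - a₀ := by
    have := (hx m le_rfl).1.2
    have := (hx 0 (Nat.zero_le _)).1.1
    linarith
  have h3 : (m : ℝ) ≤ ((L1 * L2 : ℕ) : ℝ) ^ n * M := by
    have h4 : (m : ℝ) * D ≤ ((L1 * L2 : ℕ) : ℝ) ^ n * (b₀ - a₀) :=
      h1.trans (mul_le_mul_of_nonneg_left h2 (by positivity))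
    have h5 : (b₀ - a₀) ≤ M * D := by
      rw [div_le_iff₀ hD] at hM
      exact hM
    have h6 : (m : ℝ) * D ≤ (((L1 * L2 : ℕ) : ℝ) ^ n * M) * D := by
      rw [mul_assoc]
      exact h4.trans (mul_le_mul_of_nonneg_left h5 (by positivity))
    exact le_of_mul_le_mul_right h6 hD
  have h4 : m ≤ (L1 * L2) ^ n * M := by exact_mod_cast h3
  refine h4.trans ?_
  rw [pow_succ]
  exact Nat.mul_le_mul (Nat.pow_le_pow_left (le_max_right _ _) n) (le_max_left _ _)

/-- Assembly of `Red` from part A4a and the three remaining fields. -/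
theorem QData.red_of (h : QData f g a₀ b₀ y₁ y₂ s₁ s₂ π F G)
    (fin : ∀ p q, 1 ≤ p → 1 ≤ q → {x | W F G p q x = x}.Finite)
    (hon : ∀ p q, 1 ≤ p → 1 ≤ q → ∀ c s : ℝ, (s = 1 ∨ s = -1) → Side (W F G p q) c s →
      ∃ ε > 0, InjOn F ((fun r => c + s * r) '' Icc (0 : ℝ) ε) ∧
        InjOn G ((fun r => c + s * r) '' Icc (0 : ℝ) ε))
    (odd : ∀ p q, 1 ≤ p → 1 ≤ q → ∀ c ∈ Ioo (0 : ℝ) 1, W F G p q c = c →
      (∃ ε > 0, (∀ t ∈ Ioo c (c + ε), W F G p q t < t) ∧ ∀ t ∈ Ioo (c - ε) c, t < W F G p q t) →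
      Side (W F G (2 * p) (2 * q)) c 1 ∧ Side (W F G (2 * p) (2 * q)) c (-1)) :
    Red F G (π y₁) (π y₂) (π s₁) (π s₂) :=
  { contf := h.contF
    contg := h.contG
    mapf := h.mapF
    mapg := h.mapG
    comm := h.commFG
    y1 := (pi_mem' h _).1
    y1s1 := h.y1s1
    s1s2 := h.s1s2
    s2y2 := h.s2y2
    y2 := (pi_mem' h _).2
    hy1 := by rw [h.semiG, h.semiF]; exact h.mono h.pre.hy1
    hs1 := by rw [h.semiG, h.semiF]; exact h.mono h.pre.hs1
    hs2 := by rw [h.semiG, h.semiF]; exact h.mono h.pre.hs2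
    hy2 := by rw [h.semiG, h.semiF]; exact h.mono h.pre.hy2
    covf := h.covF
    covg := h.covG
    active := h.active
    minimal := h.minimal
    expbd := h.expbd
    fin := fin
    hon := hon
    odd := odd }

end A4exp

end Pool.Agent.CFP
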