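import Pool.Agent.Lib_MP_eedf80_an.PreA4c
import Pool.Agent.Lib_MP_eedf80_an.PreA4exp

/-!
PART A4: assembly of `QData.red`.
-/

set_option autoImplicit false

namespace Pool.Agent.CFP

open Set Function

/-- PART A4. -/
theorem QData.red {f g π F G : ℝ → ℝ} {a₀ b₀ y₁ y₂ s₁ s₂ : ℝ}
    (h : QData f g a₀ b₀ y₁ y₂ s₁ s₂ π F G) :
    Red F G (π y₁) (π y₂) (π s₁) (π s₂) where
  contf := h.contF
  contg := h.contG
  mapf := h.mapF
  mapg := h.mapG
  comm := h.commFG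
  y1 := (PreA4.pi_mem' h y₁).1
  y1s1 := h.y1s1
  s1s2 := h.s1s2
  s2y2 := h.s2y2
  y2 := (PreA4.pi_mem' h y₂).2
  hy1 := by rw [h.semiG, h.semiF]; exact h.mono h.pre.hy1
  hs1 := by rw [h.semiG, h.semiF]; exact h.mono h.pre.hs1
  hs2 := by rw [h.semiG, h.semiF]; exact h.mono h.pre.hs2
  hy2 := by rw [h.semiG, h.semiF]; exact h.mono h.pre.hy2
  covf := h.covF
  covg := h.covG
  active := h.active
  minimal := h.minimal
  expbd := h.expbd
  fin := h.fin
  hon := h.hon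
  odd := h.odd

end Pool.Agent.CFP
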