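import Pool.Agent.Lib_MP_eedf80_an.Defs
import Pool.Agent.Lib_MP_eedf80_an.Agree

/-!
PART F1: rigidity of the periodic model.
-/

set_option autoImplicit false

namespace Pool.Agent.CFP

open Set Function Filter Topology

section F

variable {y₁ y₂ : ℝ} {Q : ℝ → ℝ}

theorem incOn_of_strictMono {γ : ℝ → ℝ} (h : StrictMono γ) (hc : Continuous γ) (a b : ℝ) :
    IncOn γ a b := ⟨h.strictMonoOn _, hc.continuousOn⟩

/-- Iterates of a fixed point free increasing homeomorphism tend to infinity. -/
theorem iterate_tendsto {δ : ℝ → ℝ} (hc : Continuous δ) (hδ : ∀ u, u < δ u) (x : ℝ) :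
    Tendsto (fun n => δ^[n] x) atTop atTop := by
  have hmono : Monotone (fun n => δ^[n] x) := by
    refine monotone_nat_of_le_succ fun n => ?_
    rw [iterate_succ_apply']
    exact (hδ _).le
  rcases tendsto_atTop_of_monotone hmono with h | ⟨l, hl⟩
  · exact h
  · have := isFixedPt_of_tendsto_iterate hl hc.continuousAt
    exact absurd this (hδ l).ne'

theorem nat_values (hper : ∀ t, Q (t + 1) = Q t) (n : ℕ) (t : ℝ) : Q (t + n) = Q t := by
  induction n with
  | zero => simp
  | succ n ih => rw [Nat.cast_succ, ← add_assoc, hper, ih]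

theorem int_values (hper : ∀ t, Q (t + 1) = Q t) (n : ℤ) (t : ℝ) : Q (t + n) = Q t := by
  obtain ⟨m, rfl | rfl⟩ := n.eq_nat_or_neg
  · exact_mod_cast nat_values hper m t
  · have := nat_values hper m (t + ((-(m : ℤ) : ℤ) : ℝ))
    rw [← this]
    congr 1
    push_cast; ring

/-- every unit interval contains a point where `Q` has a value taken by `Q` -/
theorem exists_in_unit (hper : ∀ t, Q (t + 1) = Q t) (a t : ℝ) :
    ∃ u, a ≤ u ∧ u < a + 1 ∧ Q u = Q t := by
  refine ⟨a + Int.fract (t - a), by have := Int.fract_nonneg (t - a); linarith,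
    by have := Int.fract_lt_one (t - a); linarith, ?_⟩
  have h1 : a + Int.fract (t - a) = t + ((-⌊t - a⌋ : ℤ) : ℝ) := by
    have := Int.floor_add_fract (t - a)
    push_cast; linarith
  rw [h1, int_values hper]

/-- The case of a map moving all points to the right. -/
theorem rigid_pos (hper : ∀ t, Q (t + 1) = Q t) (hM : MinProp y₁ y₂ Q)
    (hlo : ∃ t, Q t ≤ y₁) (hhi : ∃ t, y₂ ≤ Q t) {δ : ℝ → ℝ} (hc : Continuous δ)
    (hm : StrictMono δ) (hδ : ∀ u, u < δ u) (h : ∀ t, Q (δ t) = Q t) :
    ∃ j : ℤ, ∀ t, δ t = t + j := by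
  obtain ⟨L₀, hL₀, hM⟩ := hM
  obtain ⟨tl, htl⟩ := hlo
  obtain ⟨th, hth⟩ := hhi
  have hQn : ∀ n t, Q (δ^[n] t) = Q t := by
    intro n t
    induction n with
    | zero => rfl
    | succ n ih => rw [iterate_succ_apply', h, ih]
  have htend := iterate_tendsto hc hδ 0
  obtain ⟨i₀, hi₀⟩ := (htend.eventually_ge_atTop 2).exists_forall_of_atTop
  have hlt : ∀ n t, t < δ^[n + 1] t := by
    intro n t
    induction n with
    | zero => exact hδ t
    | succ n ih =>
      rw [iterate_succ_apply']
      exact ih.trans (hδ _)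
  -- each large iterate is a translation by a natural number
  have key : ∀ i, i₀ ≤ i → ∃ N : ℕ, ∀ t, δ^[i + 1] t = t + N := by
    intro i hi
    set γ : ℝ → ℝ := δ^[i + 1] with hγ
    have hγc : Continuous γ := hc.iterate _
    have hγm : StrictMono γ := hm.iterate _
    have hγl : ∀ t, t < γ t := hlt i
    have hγ0 : 2 ≤ γ 0 := hi₀ (i + 1) (by omega)
    have hzm : Monotone (fun n => γ^[n] 0) := by
      refine monotone_nat_of_le_succ fun n => ?_
      rw [iterate_succ_apply']
      exact (hγl _).le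
    have main : ∀ α β : ℝ, α ≤ 0 → γ^[L₀] 0 ≤ β → ∃ N : ℕ, ∀ u ∈ Icc α β, γ u = u + N := by
      intro α β hα hβ
      have := hM α β id γ (incOn_of_strictMono strictMono_id continuous_id _ _)
        (incOn_of_strictMono hγm hγc _ _) (fun u _ => by rw [id]; exact (hQn _ u).symm)
        (fun u _ => hγl u) (fun n => γ^[n] 0)
        (fun n hn => ⟨hα.trans (hzm (Nat.zero_le n)), (hzm hn).trans hβ⟩)
        (fun n _ => by simp only [id]; rw [iterate_succ_apply']) ?_
      · simpa using this
      · obtain ⟨u, hu1, hu2, hu3⟩ := exists_in_unit hper 0 tl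
        obtain ⟨v, hv1, hv2, hv3⟩ := exists_in_unit hper 1 th
        refine ⟨u, v, by simpa using hu1, by linarith, ?_, ?_, ?_⟩
        · have h1 : γ^[1] 0 ≤ γ^[L₀] 0 := hzm (by omega)
          rw [iterate_one] at h1
          linarith
        · rw [id, hu3]; exact htl
        · rw [id, hv3]; exact hth
    obtain ⟨N, hN⟩ := main 0 (γ^[L₀] 0) le_rfl le_rfl
    have hN0 : γ 0 = N := by
      have := hN 0 ⟨le_rfl, hzm (Nat.zero_le L₀)⟩
      simpa using this
    refine ⟨N, fun t => ?_⟩
    obtain ⟨N', hN'⟩ := main (min t 0) (max t (γ^[L₀] 0)) (min_le_right _ _) (le_max_right _ _)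
    have h0 : γ 0 = N' := by
      have := hN' 0 ⟨min_le_right _ _, (hzm (Nat.zero_le L₀)).trans (le_max_right _ _)⟩
      simpa using this
    have ht := hN' t ⟨min_le_left _ _, le_max_left _ _⟩
    rw [ht, ← h0, hN0]
  obtain ⟨N, hN⟩ := key i₀ le_rfl
  obtain ⟨N', hN'⟩ := key (i₀ + 1) (by omega)
  refine ⟨(N' : ℤ) - N, fun t => ?_⟩
  have h1 := hN (t - N)
  have h2 := hN' (t - N)
  rw [iterate_succ_apply', h1] at h2
  rw [sub_add_cancel] at h2
  rw [h2]
  push_cast; ring

/-- PART F1. -/
theorem rigid (hy : y₁ < y₂) (hQ : Continuous Q) (hper : ∀ t, Q (t + 1) = Q t)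
    (nc : ∀ a b, a < b → ∃ t ∈ Icc a b, Q t ≠ Q a) (hM : MinProp y₁ y₂ Q)
    (hlo : ∃ t, Q t ≤ y₁) (hhi : ∃ t, y₂ ≤ Q t) (δ₁ δ₂ : ℝ ≃o ℝ)
    (h : ∀ t, Q (δ₁ t) = Q (δ₂ t)) : ∃ j : ℤ, ∀ t, δ₂ t = δ₁ t + j := by
  have _ := hy
  -- reduction to a single map
  suffices H : ∀ δ : ℝ ≃o ℝ, (∀ t, Q (δ t) = Q t) → ∃ j : ℤ, ∀ t, δ t = t + j by
    obtain ⟨j, hj⟩ := H (δ₁.symm.trans δ₂) (fun t => by
      rw [OrderIso.trans_apply, ← h, OrderIso.apply_symm_apply])
    refine ⟨j, fun t => ?_⟩
    have := hj (δ₁ t)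
    rwa [OrderIso.trans_apply, OrderIso.symm_apply_apply] at this
  intro δ hδQ
  have hc : Continuous δ := δ.continuous
  by_cases hfix : ∃ t₀, δ t₀ = t₀
  · obtain ⟨t₀, ht₀⟩ := hfix
    refine ⟨0, fun t => ?_⟩
    set α := min t₀ t
    set β := max t₀ t
    have hag := agree (Q := Q) hQ (lo := min α (δ α) - 1) (α := α) (β := β)
      (fun a b _ hab => nc a b hab) (δ₁ := id) (δ₂ := δ)
      (incOn_of_strictMono strictMono_id continuous_id _ _)
      (incOn_of_strictMono δ.strictMono hc _ _)
      (fun u hu => by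
        have h1 := min_le_left α (δ α)
        have h2 := hu.1
        simp only [id]; linarith)
      (fun u hu => by
        have h1 := min_le_right α (δ α)
        have h2 := δ.monotone hu.1
        linarith)
      (fun u _ => by rw [id]; exact (hδQ u).symm) (t₀ := t₀)
      ⟨min_le_left _ _, le_max_left _ _⟩ (by rw [id]; exact ht₀.symm)
    have := hag t ⟨min_le_right _ _, le_max_right _ _⟩
    rw [id] at this
    rw [← this]; simp
  · push Not at hfix
    have hsign : (∀ u, u < δ u) ∨ (∀ u, δ u < u) := by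
      by_contra hcon
      push Not at hcon
      obtain ⟨⟨u, hu⟩, v, hv⟩ := hcon
      have hg : Continuous (fun x => δ x - x) := hc.sub continuous_id
      have := mem_range_of_exists_le_of_exists_ge hg (c := (0 : ℝ))
        ⟨u, by linarith⟩ ⟨v, by linarith⟩
      obtain ⟨w, hw⟩ := this
      exact hfix w (by simpa [sub_eq_zero] using hw)
    rcases hsign with hpos | hneg
    · exact rigid_pos hper hM hlo hhi hc δ.strictMono hpos hδQ
    · obtain ⟨j, hj⟩ := rigid_pos hper hM hlo hhi δ.symm.continuous δ.symm.strictMono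
        (fun u => by
          have := hneg (δ.symm u)
          rwa [OrderIso.apply_symm_apply] at this)
        (fun t => by
          have := hδQ (δ.symm t)
          rw [OrderIso.apply_symm_apply] at this
          exact this.symm)
      refine ⟨-j, fun t => ?_⟩
      have := hj (δ t)
      rw [OrderIso.symm_apply_apply] at this
      push_cast; linarith

end F

end Pool.Agent.CFP
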