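import Pool.Agent.Lib_MP_eedf80_an.Extend

/-!
PART F3: symmetrisation.
-/

set_option autoImplicit false

namespace Pool.Agent.CFP

open Set Function Filter Topology

section F

variable {y₁ y₂ : ℝ} {Q : ℝ → ℝ}

/-- PART F3: symmetrisation. -/
theorem symmetrise (hy : y₁ < y₂) (hQ : Continuous Q) (hper : ∀ t, Q (t + 1) = Q t)
    (nc : ∀ a b, a < b → ∃ t ∈ Icc a b, Q t ≠ Q a) (hM : MinProp y₁ y₂ Q)
    (hlo : ∃ t, Q t ≤ y₁) (hhi : ∃ t, y₂ ≤ Q t)
    (hw : ∀ L : ℝ, ∃ (α : ℝ) (γ : ℝ → ℝ), DecOn γ α (α + L) ∧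
      ∀ z ∈ Icc α (α + L), Q (γ z) = Q z) :
    ∃ ζ : ℝ ≃o ℝ, (∀ z, ζ (z + 1) = ζ z + 1) ∧ ∀ y, Q (ζ.symm (-y)) = Q (ζ.symm y) := by
  have hper' : ∀ t, Q (-(t + 1)) = Q (-t) := by
    intro t
    have := hper (-(t + 1))
    rw [← this]; congr 1; ring
  obtain ⟨r', N, hN1, hr'Q, hr'1⟩ := extend (Q₁ := fun z => Q (-z)) hy hM hper' hper
    (by obtain ⟨t, ht⟩ := hlo; exact ⟨-t, by simpa using ht⟩)
    (by obtain ⟨t, ht⟩ := hhi; exact ⟨-t, by simpa using ht⟩)
    (fun L => by
      obtain ⟨α, γ, ⟨hm, hc⟩, hγ⟩ := hw L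
      have hmem : ∀ z ∈ Icc (-(α + L)) (-(α + L) + L), -z ∈ Icc α (α + L) := fun z hz =>
        ⟨by linarith [hz.2], by linarith [hz.1]⟩
      refine ⟨-(α + L), fun z => γ (-z), ⟨?_, ?_⟩, ?_⟩
      · intro u hu v hv huv
        exact hm (hmem v hv) (hmem u hu) (by linarith)
      · exact hc.comp (by fun_prop) hmem
      · intro z hz
        exact hγ _ (hmem z hz))
  -- the decreasing symmetry
  set r : ℝ → ℝ := fun z => r' (-z) with hr
  have hrc : Continuous r := r'.continuous.comp continuous_neg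
  have hranti : StrictAnti r := fun u v huv => r'.strictMono (by linarith)
  have hrQ : ∀ z, Q (r z) = Q z := by
    intro z
    have := hr'Q (-z)
    simpa using this
  have hrsurj : Surjective r := by
    intro y
    refine ⟨-(r'.symm y), ?_⟩
    simp [hr]
  -- a fixed point
  obtain ⟨z₀, hz₀⟩ : ∃ z₀, r z₀ = z₀ := by
    have hg : Continuous (fun x => r x - x) := hrc.sub continuous_id
    have h1 : r |r 0| ≤ r 0 := hranti.antitone (abs_nonneg _)
    have h2 : r 0 ≤ r (-|r 0|) := hranti.antitone (by simp)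
    have h3 := le_abs_self (r 0)
    have h4 := neg_abs_le (r 0)
    obtain ⟨w, hw⟩ := mem_range_of_exists_le_of_exists_ge hg (c := (0 : ℝ))
      ⟨|r 0|, by linarith⟩ ⟨-|r 0|, by linarith⟩
    exact ⟨w, by simpa [sub_eq_zero] using hw⟩
  -- its square is the identity
  have hdm : StrictMono (fun z => r (r z)) := fun u v huv => hranti (hranti huv)
  have hdsurj : Surjective (fun z => r (r z)) := hrsurj.comp hrsurj
  obtain ⟨j, hj⟩ := rigid hy hQ hper nc hM hlo hhi (OrderIso.refl ℝ)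
    (hdm.orderIsoOfSurjective _ hdsurj) (fun t => by
      show Q t = Q (r (r t))
      rw [hrQ, hrQ])
  have hj' : ∀ t, r (r t) = t + j := hj
  have hj0 : (j : ℝ) = 0 := by
    have := hj' z₀
    rw [hz₀, hz₀] at this
    linarith
  have hrr : ∀ t, r (r t) = t := by
    intro t
    rw [hj', hj0, add_zero]
  have hr1 : ∀ z, r (z + 1) = r z - N := by
    intro z
    have := hr'1 (-(z + 1))
    have e : -(z + 1) + 1 = -z := by ring
    rw [e] at this
    show r' (-(z + 1)) = r' (-z) - N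
    linarith
  have hrn : ∀ (n : ℕ) z, r (z - n) = r z + n * N := by
    intro n
    induction n with
    | zero => intro z; simp
    | succ n ih =>
      intro z
      have h1 := hr1 (z - (n + 1 : ℕ))
      have e : z - ((n + 1 : ℕ) : ℝ) + 1 = z - n := by push_cast; ring
      rw [e, ih] at h1
      push_cast at h1 ⊢
      linarith
  have hNN : (N : ℝ) = 1 := by
    have h1 := hrr (0 + 1)
    rw [hr1, hrn, hrr] at h1
    have h2 : ((N * N : ℕ) : ℝ) = ((1 : ℕ) : ℝ) := by push_cast; linarith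
    have h3 : N * N = 1 := by exact_mod_cast h2
    have h4 : N = 1 := Nat.eq_one_of_mul_eq_one_left h3
    rw [h4]; simp
  -- the conjugacy
  set ζ : ℝ → ℝ := fun z => (z - r z) / 2 with hζ
  have hζm : StrictMono ζ := by
    intro u v huv
    have := hranti huv
    simp only [hζ]
    linarith
  have hζc : Continuous ζ := by
    simp only [hζ]
    fun_prop
  have hζ1 : ∀ z, ζ (z + 1) = ζ z + 1 := by
    intro z
    simp only [hζ]
    rw [hr1, hNN]; ring
  have hζn : ∀ (n : ℕ) z, ζ (z + n) = ζ z + n := by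
    intro n
    induction n with
    | zero => intro z; simp
    | succ n ih =>
      intro z
      have e : z + ((n + 1 : ℕ) : ℝ) = z + n + 1 := by push_cast; ring
      rw [e, hζ1, ih]
      push_cast; ring
  have hζsurj : Surjective ζ := by
    intro y
    obtain ⟨n, hn⟩ := exists_nat_ge (|y| + |ζ 0|)
    have h1 := hζn n 0
    have h2 := hζn n (0 - n)
    rw [sub_add_cancel] at h2
    have h3 := le_abs_self y
    have h4 := neg_abs_le y
    have h5 := le_abs_self (ζ 0)
    have h6 := neg_abs_le (ζ 0)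
    exact mem_range_of_exists_le_of_exists_ge hζc ⟨0 - n, by linarith⟩ ⟨0 + n, by linarith⟩
  have hζr : ∀ z, ζ (r z) = -ζ z := by
    intro z
    simp only [hζ]
    rw [hrr]; ring
  refine ⟨hζm.orderIsoOfSurjective _ hζsurj, hζ1, fun y => ?_⟩
  set Z := hζm.orderIsoOfSurjective _ hζsurj with hZ
  have hZr : ∀ z, Z (r z) = -Z z := hζr
  have h1 : Z.symm (-y) = r (Z.symm y) := by
    rw [OrderIso.symm_apply_eq, hZr, OrderIso.apply_symm_apply]
  rw [h1, hrQ]

end F

end Pool.Agent.CFP
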