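import Pool.Agent.Lib_MP_eedf80_an.Basic

/-!
Part W: windows at infinity.
-/

set_option autoImplicit false

namespace Pool.Agent.CFP

open Set Function

/-- Iterates of a point above the identity are unbounded. -/
theorem orbit_unbounded (θ : ℝ ≃o ℝ) (hθ : ∀ u > 0, u < θ u) {u : ℝ} (hu : 0 < u) (R : ℝ) :
    ∃ n₀ : ℕ, ∀ n ≥ n₀, R ≤ (θ ^ n) u := by
  have hstep : ∀ n, (θ ^ (n + 1)) u = θ ((θ ^ n) u) := fun n => by
    rw [pow_succ']; rfl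
  have hpos : ∀ n, 0 < (θ ^ n) u := by
    intro n
    induction n with
    | zero => simpa using hu
    | succ n ih => rw [hstep]; exact ih.trans (hθ _ ih)
  have hmono : Monotone fun n => (θ ^ n) u := by
    refine monotone_nat_of_le_succ fun n => ?_
    rw [hstep]
    exact (hθ _ (hpos n)).le
  by_contra hcon
  push Not at hcon
  have hbdd : BddAbove (range fun n => (θ ^ n) u) := by
    refine ⟨R, ?_⟩
    rintro _ ⟨n, rfl⟩
    obtain ⟨m, hm, hmR⟩ := hcon n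
    exact (hmono hm).trans hmR.le
  set s := ⨆ n, (θ ^ n) u with hs
  have hle : ∀ n, (θ ^ n) u ≤ s := fun n => le_ciSup hbdd n
  have hs0 : 0 < s := lt_of_lt_of_le (hpos 0) (hle 0)
  have h1 : θ.symm s < s := by
    have h2 := hθ s hs0
    have h3 : θ (θ.symm s) < θ s := by rw [OrderIso.apply_symm_apply]; exact h2
    exact θ.lt_iff_lt.1 h3
  obtain ⟨n, hn⟩ := exists_lt_of_lt_ciSup h1
  have h4 : s < θ ((θ ^ n) u) := by
    have h5 := θ.strictMono hn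
    rwa [OrderIso.apply_symm_apply] at h5
  rw [← hstep] at h4
  exact absurd (hle (n + 1)) (not_le.2 h4)

section Win

variable {y₁ y₂ : ℝ} {P Q : ℝ → ℝ} {Φ Ψ : ℝ ≃o ℝ}

theorem per_int (hper : ∀ t, Q (t + 1) = Q t) (k : ℤ) (t : ℝ) : Q (t + k) = Q t := by
  have h : Function.Periodic Q 1 := hper
  have := h.int_mul k t
  simpa using this

/-- The windows are long. -/
theorem Core.window_long (C : Core y₁ y₂ P Φ Ψ) {Θ : ℝ ≃o ℝ}
    (hQ : Continuous Q) (hper : ∀ t, Q (t + 1) = Q t) (hQP : ∀ t, 0 ≤ t → Q t = P (Θ t))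
    {b₁ b₂ c : ℝ} (hb : 0 < b₁) (hbb : b₁ < b₂) (hc : 0 < c) (L : ℝ) :
    ∃ n : ℕ, Θ 0 ≤ ((Φ * Ψ) ^ n) b₁ ∧ Θ 0 ≤ ((Φ * Ψ) ^ n) c ∧
      L ≤ Θ.symm (((Φ * Ψ) ^ n) b₂) - Θ.symm (((Φ * Ψ) ^ n) b₁) := by
  have hH : ∀ u > 0, u < (Φ * Ψ) u := fun u hu => by
    have h1 := C.posΨ u hu
    exact h1.trans (C.posΦ _ (hu.trans h1))
  obtain ⟨K, hK⟩ := exists_nat_ge L
  obtain ⟨M, hM⟩ := Alt.bounded (a := 0) (b := (K : ℝ) + 1) C.y hQ.continuousOn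
  obtain ⟨n₁, hn₁⟩ := orbit_unbounded (Φ * Ψ) hH hb (Θ 0)
  obtain ⟨n₂, hn₂⟩ := orbit_unbounded (Φ * Ψ) hH hc (Θ 0)
  obtain ⟨n₃, hn₃⟩ := C.grow b₁ b₂ (M + 1) hb hbb
  set n := max n₁ (max n₂ n₃) with hn
  refine ⟨n, hn₁ n (le_max_left _ _), hn₂ n ((le_max_left _ _).trans (le_max_right _ _)), ?_⟩
  by_contra hcon
  push Not at hcon
  have hb1 := hn₁ n (le_max_left _ _)
  obtain ⟨t, e, ht1, ht2, ht3⟩ := hn₃ n ((le_max_right _ _).trans (le_max_right _ _))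
  set A := Θ.symm (((Φ * Ψ) ^ n) b₁) with hA
  set B := Θ.symm (((Φ * Ψ) ^ n) b₂) with hB
  have hA0 : 0 ≤ A := by
    have h1 := Θ.symm.monotone hb1
    rwa [OrderIso.symm_apply_apply] at h1
  have hfl : (⌊A⌋ : ℝ) ≤ A := Int.floor_le A
  have hfl' : A < ⌊A⌋ + 1 := Int.lt_floor_add_one A
  have hAlt : Alt y₁ y₂ Q 0 ((K : ℝ) + 1) (M + 1) := by
    refine ⟨fun i => Θ.symm (t i) - ⌊A⌋, e, ?_, ?_, ?_⟩
    · intro i hi
      have h1 := Θ.symm.monotone (ht1 i hi).1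
      have h2 := Θ.symm.monotone (ht1 i hi).2
      rw [← hA] at h1
      rw [← hB] at h2
      constructor
      · linarith
      · show Θ.symm (t i) - ⌊A⌋ ≤ (K : ℝ) + 1
        linarith
    · intro i hi
      have h1 := Θ.symm.strictMono (ht2 i hi)
      show Θ.symm (t i) - (⌊A⌋ : ℝ) < Θ.symm (t (i + 1)) - ⌊A⌋
      linarith
    · intro i hi
      have h1 : Q (Θ.symm (t i) - ⌊A⌋) = P (t i) := by
        have h2 := per_int hper (-⌊A⌋) (Θ.symm (t i))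
        have h3 : Θ.symm (t i) + ((-⌊A⌋ : ℤ) : ℝ) = Θ.symm (t i) - ⌊A⌋ := by push_cast; ring
        rw [h3] at h2
        have h4 := Θ.symm.monotone (ht1 i hi).1
        rw [← hA] at h4
        rw [h2, hQP _ (hA0.trans h4), OrderIso.apply_symm_apply]
      show (_ → Q (Θ.symm (t i) - ⌊A⌋) ≤ y₁) ∧ (_ → y₂ ≤ Q (Θ.symm (t i) - ⌊A⌋))
      rw [h1]
      exact ht3 i hi
  have := hM _ hAlt
  omega

/-- PART W. -/
theorem Core.windows_inc (C : Core y₁ y₂ P Φ Ψ) {Θ : ℝ ≃o ℝ} (hΘ : 0 < Θ 0)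
    (hQ : Continuous Q) (hper : ∀ t, Q (t + 1) = Q t) (hQP : ∀ t, 0 ≤ t → Q t = P (Θ t))
    {q γ : ℝ → ℝ} {b₁ b₂ : ℝ} (hb : 0 < b₁) (hbb : b₁ < b₂) (hγ : IncOn γ b₁ b₂)
    (hpos : ∀ u ∈ Icc b₁ b₂, 0 < γ u)
    (hq : ∀ n : ℕ, ∀ u ∈ Icc b₁ b₂, P (((Φ * Ψ) ^ n) (γ u)) = q (P (((Φ * Ψ) ^ n) u))) :
    ∀ L : ℝ, ∃ (α : ℝ) (γ' : ℝ → ℝ), IncOn γ' α (α + L) ∧
      ∀ z ∈ Icc α (α + L), Q (γ' z) = q (Q z) := by
  intro L
  have hb1m : b₁ ∈ Icc b₁ b₂ := ⟨le_rfl, hbb.le⟩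
  obtain ⟨n, hn1, hn2, hn3⟩ := C.window_long hQ hper hQP hb hbb (hpos b₁ hb1m) L
  set K := (Φ * Ψ) ^ n with hK
  have hmem : ∀ z ∈ Icc (Θ.symm (K b₁)) (Θ.symm (K b₁) + L), K.symm (Θ z) ∈ Icc b₁ b₂ := by
    intro z hz
    constructor
    · rw [OrderIso.le_symm_apply, ← OrderIso.symm_apply_le]; exact hz.1
    · rw [OrderIso.symm_apply_le, ← OrderIso.le_symm_apply]
      exact hz.2.trans (by linarith)
  refine ⟨Θ.symm (K b₁), fun z => Θ.symm (K (γ (K.symm (Θ z)))), ⟨?_, ?_⟩, ?_⟩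
  · intro x hx y hy hxy
    refine Θ.symm.strictMono (K.strictMono (hγ.1 (hmem x hx) (hmem y hy) ?_))
    exact K.symm.strictMono (Θ.strictMono hxy)
  · refine Θ.symm.continuous.comp_continuousOn (K.continuous.comp_continuousOn ?_)
    exact hγ.2.comp (K.symm.continuous.comp Θ.continuous).continuousOn hmem
  · intro z hz
    have hz0 : 0 ≤ z := by
      have h1 := Θ.symm.monotone hn1
      rw [OrderIso.symm_apply_apply] at h1
      exact h1.trans hz.1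
    have hu := hmem z hz
    have hγ0 : 0 ≤ Θ.symm (K (γ (K.symm (Θ z)))) := by
      rw [OrderIso.le_symm_apply]
      refine hn2.trans (K.monotone ?_)
      exact hγ.1.monotoneOn hb1m hu hu.1
    show Q (Θ.symm (K (γ (K.symm (Θ z))))) = q (Q z)
    rw [hQP _ hγ0, OrderIso.apply_symm_apply, hq n _ hu, ← hK, OrderIso.apply_symm_apply,
      hQP z hz0]

theorem Core.windows_dec (C : Core y₁ y₂ P Φ Ψ) {Θ : ℝ ≃o ℝ} (hΘ : 0 < Θ 0)
    (hQ : Continuous Q) (hper : ∀ t, Q (t + 1) = Q t) (hQP : ∀ t, 0 ≤ t → Q t = P (Θ t))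
    {q γ : ℝ → ℝ} {b₁ b₂ : ℝ} (hb : 0 < b₁) (hbb : b₁ < b₂) (hγ : DecOn γ b₁ b₂)
    (hpos : ∀ u ∈ Icc b₁ b₂, 0 < γ u)
    (hq : ∀ n : ℕ, ∀ u ∈ Icc b₁ b₂, P (((Φ * Ψ) ^ n) (γ u)) = q (P (((Φ * Ψ) ^ n) u))) :
    ∀ L : ℝ, ∃ (α : ℝ) (γ' : ℝ → ℝ), DecOn γ' α (α + L) ∧
      ∀ z ∈ Icc α (α + L), Q (γ' z) = q (Q z) := by
  intro L
  have hb2m : b₂ ∈ Icc b₁ b₂ := ⟨hbb.le, le_rfl⟩
  obtain ⟨n, hn1, hn2, hn3⟩ := C.window_long hQ hper hQP hb hbb (hpos b₂ hb2m) L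
  set K := (Φ * Ψ) ^ n with hK
  have hmem : ∀ z ∈ Icc (Θ.symm (K b₁)) (Θ.symm (K b₁) + L), K.symm (Θ z) ∈ Icc b₁ b₂ := by
    intro z hz
    constructor
    · rw [OrderIso.le_symm_apply, ← OrderIso.symm_apply_le]; exact hz.1
    · rw [OrderIso.symm_apply_le, ← OrderIso.le_symm_apply]
      exact hz.2.trans (by linarith)
  refine ⟨Θ.symm (K b₁), fun z => Θ.symm (K (γ (K.symm (Θ z)))), ⟨?_, ?_⟩, ?_⟩
  · intro x hx y hy hxy
    refine Θ.symm.strictMono (K.strictMono (hγ.1 (hmem x hx) (hmem y hy) ?_))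
    exact K.symm.strictMono (Θ.strictMono hxy)
  · refine Θ.symm.continuous.comp_continuousOn (K.continuous.comp_continuousOn ?_)
    exact hγ.2.comp (K.symm.continuous.comp Θ.continuous).continuousOn hmem
  · intro z hz
    have hz0 : 0 ≤ z := by
      have h1 := Θ.symm.monotone hn1
      rw [OrderIso.symm_apply_apply] at h1
      exact h1.trans hz.1
    have hu := hmem z hz
    have hγ0 : 0 ≤ Θ.symm (K (γ (K.symm (Θ z)))) := by
      rw [OrderIso.le_symm_apply]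
      refine hn2.trans (K.monotone ?_)
      exact hγ.1.antitoneOn hu hb2m hu.2
    show Q (Θ.symm (K (γ (K.symm (Θ z))))) = q (Q z)
    rw [hQP _ hγ0, OrderIso.apply_symm_apply, hq n _ hu, ← hK, OrderIso.apply_symm_apply,
      hQP z hz0]

end Win

end Pool.Agent.CFP
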