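import Pool.Agent.Lib_MP_eedf80_an.Basic
import Pool.Agent.Lib_MP_eedf80_an.PreA1
import Pool.Agent.Lib_MP_eedf80_an.PreA2
import Pool.Agent.Lib_MP_eedf80_an.PreA3
import Pool.Agent.Lib_MP_eedf80_an.PreA4
import Pool.Agent.Lib_MP_eedf80_an.CaseR
import Pool.Agent.Lib_MP_eedf80_an.Leaf0
import Pool.Agent.Lib_MP_eedf80_an.Leaf1
import Pool.Agent.Lib_MP_eedf80_an.Leaf2
import Pool.Agent.Lib_MP_eedf80_an.Match1
import Pool.Agent.Lib_MP_eedf80_an.Match2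
import Pool.Agent.Lib_MP_eedf80_an.Match3
import Pool.Agent.Lib_MP_eedf80_an.Comb
import Pool.Agent.Lib_MP_eedf80_an.Agree
import Pool.Agent.Lib_MP_eedf80_an.Enum
import Pool.Agent.Lib_MP_eedf80_an.Enum2
import Pool.Agent.Lib_MP_eedf80_an.Chain
import Pool.Agent.Lib_MP_eedf80_an.Pair
import Pool.Agent.Lib_MP_eedf80_an.Code
import Pool.Agent.Lib_MP_eedf80_an.Glue
import Pool.Agent.Lib_MP_eedf80_an.Linearise
import Pool.Agent.Lib_MP_eedf80_an.Model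
import Pool.Agent.Lib_MP_eedf80_an.Windows
import Pool.Agent.Lib_MP_eedf80_an.Rigid
import Pool.Agent.Lib_MP_eedf80_an.Extend
import Pool.Agent.Lib_MP_eedf80_an.Sym
import Pool.Agent.Lib_MP_eedf80_an.Endgame

/-!
Assembly of the parts.
-/

set_option autoImplicit false

namespace Pool.Agent.CFP

open Set Function

variable {f g P Q : ℝ → ℝ} {y₁ y₂ s₁ s₂ x δ : ℝ} {k : ℕ} {Φ Ψ : ℝ ≃o ℝ}

theorem act_nat (hc : Φ * Ψ = Ψ * Φ) (n : ℕ) : act Φ Ψ (n : ℤ) (n : ℤ) = (Φ * Ψ) ^ n := by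
  unfold act
  have h : Commute Φ Ψ := hc
  rw [zpow_natCast, zpow_natCast, h.mul_pow]

theorem Leaf.P_pow (L : Leaf f g y₁ y₂ k x δ P Φ Ψ) (hc : Φ * Ψ = Ψ * Φ) (n : ℕ) (u : ℝ) :
    P (((Φ * Ψ) ^ n) u) = W f g (k * n) (k * n) (P u) := by
  rw [← act_nat hc n]
  exact L.P_act n n u

/-- Rigidity is invariant under coordinate changes commuting with the translation. -/
theorem rigid_conj {ζ : ℝ ≃o ℝ} (hζ : ∀ z, ζ (z + 1) = ζ z + 1)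
    (rig : ∀ δ₁ δ₂ : ℝ ≃o ℝ, (∀ t, Q (δ₁ t) = Q (δ₂ t)) → ∃ j : ℤ, ∀ t, δ₂ t = δ₁ t + j)
    (δ₁ δ₂ : ℝ ≃o ℝ) (h : ∀ t, Q (ζ.symm (δ₁ t)) = Q (ζ.symm (δ₂ t))) :
    ∃ j : ℤ, ∀ t, δ₂ t = δ₁ t + j := by
  obtain ⟨j, hj⟩ := rig (ζ.symm * δ₁) (ζ.symm * δ₂) h
  refine ⟨j, fun t => ?_⟩
  have hint : ∀ (j : ℤ) (z : ℝ), ζ (z + j) = ζ z + j := by
    intro j
    induction j using Int.induction_on with
    | zero => intro z; simp
    | succ i ih =>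
      intro z
      have := hζ (z + i)
      push_cast at ih ⊢
      rw [← add_assoc, this, ih, add_assoc]
    | pred i ih =>
      intro z
      have := hζ (z + (-(i : ℝ) - 1))
      push_cast at ih ⊢
      have e1 : z + (-(i : ℝ) - 1) + 1 = z + -(i : ℝ) := by ring
      rw [e1, ih] at this
      linarith
  have h1 := hj t
  have h2 : ζ ((ζ.symm * δ₂) t) = ζ ((ζ.symm * δ₁) t + j) := by rw [h1]
  rw [hint] at h2
  simpa using h2

theorem MinProp.conj {ζ : ℝ ≃o ℝ} (hζ : ∀ z, ζ (z + 1) = ζ z + 1) (h : MinProp y₁ y₂ Q) :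
    MinProp y₁ y₂ (fun y => Q (ζ.symm y)) := by
  obtain ⟨L₀, hL, h⟩ := h
  refine ⟨L₀, hL, ?_⟩
  intro α β γ₁ γ₂ h₁ h₂ hQ hlt z hz1 hz2 hc
  have hcont : Continuous ζ.symm := ζ.symm.continuous
  have hi : ∀ γ : ℝ → ℝ, IncOn γ α β → IncOn (fun u => ζ.symm (γ u)) α β := by
    intro γ hγ
    exact ⟨fun a ha b hb hab => ζ.symm.strictMono (hγ.1 ha hb hab),
      hcont.comp_continuousOn hγ.2⟩
  obtain ⟨N, hN⟩ := h α β (fun u => ζ.symm (γ₁ u)) (fun u => ζ.symm (γ₂ u)) (hi _ h₁) (hi _ h₂)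
    hQ (fun u hu => ζ.symm.strictMono (hlt u hu)) z hz1 (fun i hi => by rw [hz2 i hi]) hc
  refine ⟨N, fun u hu => ?_⟩
  have hint : ∀ (j : ℕ) (z : ℝ), ζ (z + j) = ζ z + j := by
    intro j
    induction j with
    | zero => intro z; simp
    | succ i ih =>
      intro z
      push_cast
      rw [← add_assoc, hζ, ih, add_assoc]
  have h1 := hN u hu
  have h2 : ζ (ζ.symm (γ₂ u)) = ζ (ζ.symm (γ₁ u) + N) := by rw [h1]
  rw [hint] at h2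
  simpa using h2

theorem DecOn.reflect {γ : ℝ → ℝ} {a b : ℝ} (h : DecOn γ a b) :
    IncOn (fun z => γ (-z)) (-b) (-a) := by
  constructor
  · intro x hx y hy hxy
    exact h.1 ⟨by linarith [hy.2], by linarith [hy.1]⟩ ⟨by linarith [hx.2], by linarith [hx.1]⟩
      (by linarith)
  · refine h.2.comp continuous_neg.continuousOn ?_
    intro x hx
    exact ⟨by linarith [hx.2], by linarith [hx.1]⟩

/-- transport of windows to the symmetric coordinate -/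
theorem windows_conj {ζ : ℝ ≃o ℝ} (hζ : ∀ z, ζ (z + 1) = ζ z + 1) {q : ℝ → ℝ}
    (hw : ∀ L : ℝ, ∃ (α : ℝ) (γ : ℝ → ℝ), IncOn γ α (α + L) ∧
      ∀ z ∈ Icc α (α + L), Q (γ z) = q (Q z)) :
    ∀ L : ℝ, ∃ (α : ℝ) (γ : ℝ → ℝ), IncOn γ α (α + L) ∧
      ∀ z ∈ Icc α (α + L), Q (ζ.symm (γ z)) = q (Q (ζ.symm z)) := by
  intro L
  obtain ⟨n, hn⟩ := exists_nat_ge L
  obtain ⟨α, γ, h1, h2⟩ := hw n
  have hint : ∀ (j : ℕ) (z : ℝ), ζ (z + j) = ζ z + j := by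
    intro j
    induction j with
    | zero => intro z; simp
    | succ i ih =>
      intro z
      push_cast
      rw [← add_assoc, hζ, ih, add_assoc]
  have hmap : ∀ z ∈ Icc (ζ α) (ζ α + L), ζ.symm z ∈ Icc α (α + n) := by
    intro z hz
    constructor
    · rw [← ζ.le_iff_le]; simpa using hz.1
    · rw [← ζ.le_iff_le, hint]; simp; linarith [hz.2]
  refine ⟨ζ α, fun z => ζ (γ (ζ.symm z)), ⟨?_, ?_⟩, ?_⟩
  · intro a ha b hb hab
    exact ζ.strictMono (h1.1 (hmap a ha) (hmap b hb) (ζ.symm.strictMono hab))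
  · exact ζ.continuous.comp_continuousOn (h1.2.comp ζ.symm.continuous.continuousOn hmap)
  · intro z hz
    have := h2 _ (hmap z hz)
    simpa using this

theorem windows_conj_dec {ζ : ℝ ≃o ℝ} (hζ : ∀ z, ζ (z + 1) = ζ z + 1) {q : ℝ → ℝ}
    (hw : ∀ L : ℝ, ∃ (α : ℝ) (γ : ℝ → ℝ), DecOn γ α (α + L) ∧
      ∀ z ∈ Icc α (α + L), Q (γ z) = q (Q z)) :
    ∀ L : ℝ, ∃ (α : ℝ) (γ : ℝ → ℝ), DecOn γ α (α + L) ∧
      ∀ z ∈ Icc α (α + L), Q (ζ.symm (γ z)) = q (Q (ζ.symm z)) := by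
  intro L
  obtain ⟨n, hn⟩ := exists_nat_ge L
  obtain ⟨α, γ, h1, h2⟩ := hw n
  have hint : ∀ (j : ℕ) (z : ℝ), ζ (z + j) = ζ z + j := by
    intro j
    induction j with
    | zero => intro z; simp
    | succ i ih =>
      intro z
      push_cast
      rw [← add_assoc, hζ, ih, add_assoc]
  have hmap : ∀ z ∈ Icc (ζ α) (ζ α + L), ζ.symm z ∈ Icc α (α + n) := by
    intro z hz
    constructor
    · rw [← ζ.le_iff_le]; simpa using hz.1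
    · rw [← ζ.le_iff_le, hint]; simp; linarith [hz.2]
  refine ⟨ζ α, fun z => ζ (γ (ζ.symm z)), ⟨?_, ?_⟩, ?_⟩
  · intro a ha b hb hab
    exact ζ.strictMono (h1.1 (hmap a ha) (hmap b hb) (ζ.symm.strictMono hab))
  · exact ζ.continuous.comp_continuousOn (h1.2.comp ζ.symm.continuous.continuousOn hmap)
  · intro z hz
    have := h2 _ (hmap z hz)
    simpa using this

/-- Either kind of windows for `q` gives increasing windows when `Q` is even. -/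
theorem inc_of_dec {q : ℝ → ℝ} (hev : ∀ t, Q (-t) = Q t)
    (hw : ∀ L : ℝ, ∃ (α : ℝ) (γ : ℝ → ℝ), DecOn γ α (α + L) ∧
      ∀ z ∈ Icc α (α + L), Q (γ z) = q (Q z)) :
    ∀ L : ℝ, ∃ (α : ℝ) (γ : ℝ → ℝ), IncOn γ α (α + L) ∧
      ∀ z ∈ Icc α (α + L), Q (γ z) = q (Q z) := by
  intro L
  obtain ⟨α, γ, h1, h2⟩ := hw L
  refine ⟨-(α + L), fun z => γ (-z), ?_, ?_⟩
  · have := h1.reflect
    have e1 : -(α + L) + L = -α := by ring
    rw [e1]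
    exact this
  · intro z hz
    have := h2 (-z) ⟨by linarith [hz.2], by linarith [hz.1]⟩
    rw [this, hev]

theorem Red.false (R : Red f g y₁ y₂ s₁ s₂) : False := by
  obtain ⟨k, x, δ, P, Φ, Ψ, L⟩ := R.exists_leaf
  have C := L.core R
  obtain ⟨γ, b₁, b₂, hb1, hbb, hγ, hγ0, hγb, hγP⟩ := L.match_inc R
  have hunb : ∀ M : ℝ, ∃ u v, M < u ∧ u < v ∧ P u ≤ y₁ ∧ y₂ ≤ P v := by
    intro M
    -- far out on the leaf
    obtain ⟨A, B, h1, h2, h3, h4⟩ := C.exists_chain 1 0 (fun u hu => by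
      simpa [Pool.Agent.CFP.act] using C.posΦ u hu) 0
    obtain ⟨l₀, hl₀⟩ := h3 1 2 2 (by norm_num) (by norm_num)
    obtain ⟨l₁, hl₁⟩ := h4 (M + 1) 1 (by norm_num)
    obtain ⟨t, e, g1, g2, g3⟩ := hl₀ (max l₀ l₁) (le_max_left _ _)
    have g4 := hl₁ (max l₀ l₁) (le_max_right _ _)
    have t0 := g1 0 (by omega)
    have t1 := g1 1 (by omega)
    have s0 := g2 0 (by omega)
    have s1 := g2 1 (by omega)
    have k0 := g3 0 (by omega)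
    have k1 := g3 1 (by omega)
    have k2 := g3 2 (by omega)
    by_cases hE : Even e
    · refine ⟨t 0, t 1, by linarith [t0.1], s0, k0.1 (by simpa using hE), k1.2 ?_⟩
      rw [add_comm, Nat.even_add_one]; simpa using hE
    · refine ⟨t 1, t 2, by linarith [t1.1], s1, k1.1 ?_, k2.2 ?_⟩
      · rw [add_comm, Nat.even_add_one]; exact hE
      · rw [add_comm, Nat.even_add]; simpa using hE
  obtain ⟨d, hd⟩ := exists_enum C.y C.contP hunb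
  obtain ⟨Θ, Q, hΘ, hQ, hper, hQP, hM⟩ := periodic_model C.y C.contP C.nonconst hd
    (C.eventually_same hb1 hbb hγ hγ0 hγb hγP hd)
  -- integer periodicity
  have hperN : ∀ (n : ℕ) (t : ℝ), Q (t + n) = Q t := by
    intro n
    induction n with
    | zero => intro t; simp
    | succ n ih => intro t; push_cast; rw [← add_assoc, hper, ih]
  have nc : ∀ a b, a < b → ∃ t ∈ Icc a b, Q t ≠ Q a := by
    intro a b hab
    obtain ⟨n, hn⟩ := exists_nat_ge (-a)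
    have ha0 : 0 ≤ a + n := by linarith
    have h1 : 0 < Θ (a + n) := hΘ.trans_le (Θ.monotone ha0)
    obtain ⟨s, hs, hs'⟩ := C.nonconst (Θ (a + n)) (Θ (b + n)) h1 (Θ.strictMono (by linarith))
    have hs1 : a + n ≤ Θ.symm s := by rw [← Θ.le_iff_le]; simpa using hs.1
    have hs2 : Θ.symm s ≤ b + n := by rw [← Θ.le_iff_le]; simpa using hs.2
    refine ⟨Θ.symm s - n, ⟨by linarith, by linarith⟩, ?_⟩
    have e1 := hperN n (Θ.symm s - n)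
    rw [sub_add_cancel] at e1
    rw [← e1, ← hperN n a, hQP _ ha0, hQP _ (ha0.trans hs1)]
    simpa using hs'
  obtain ⟨u₀, v₀, hu₀, huv₀, hPu, hPv⟩ := hunb (Θ 0)
  have hlo : ∃ t, Q t ≤ y₁ := by
    refine ⟨Θ.symm u₀, ?_⟩
    have h1 : 0 ≤ Θ.symm u₀ := by rw [← Θ.le_iff_le]; simpa using hu₀.le
    rw [hQP _ h1]; simpa using hPu
  have hhi : ∃ t, y₂ ≤ Q t := by
    refine ⟨Θ.symm v₀, ?_⟩
    have h1 : 0 ≤ Θ.symm v₀ := by rw [← Θ.le_iff_le]; simpa using (hu₀.trans huv₀).le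
    rw [hQP _ h1]; simpa using hPv
  have hQm : ∀ t, Q t ∈ Icc (0 : ℝ) 1 := by
    intro t
    obtain ⟨n, hn⟩ := exists_nat_ge (-t)
    rw [← hperN n t, hQP _ (by linarith)]
    exact L.mapP _
  -- decreasing windows and symmetrisation
  obtain ⟨γd, c₁, c₂, hc1, hcc, hγd, hγd0, hγdP⟩ := L.match_dec R
  have hwd := C.windows_dec hΘ hQ hper hQP (q := id) hc1 hcc hγd hγd0 (fun n u hu => by
    rw [L.P_pow C.comm, L.P_pow C.comm, hγdP u hu]; rfl)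
  obtain ⟨ζ, hζ1, hζ2⟩ := symmetrise C.y hQ hper nc hM hlo hhi (fun L' => by
    obtain ⟨α, γ', h1, h2⟩ := hwd L'
    exact ⟨α, γ', h1, h2⟩)
  set Q' : ℝ → ℝ := fun y => Q (ζ.symm y) with hQ'
  have hζs : ∀ y, ζ.symm (y + 1) = ζ.symm y + 1 := by
    intro y
    apply ζ.injective
    rw [hζ1]; simp
  have hQ'c : Continuous Q' := hQ.comp ζ.symm.continuous
  have hper' : ∀ t, Q' (t + 1) = Q' t := by
    intro t; simp only [hQ', hζs, hper]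
  have hev : ∀ t, Q' (-t) = Q' t := hζ2
  have hlo' : ∃ t, Q' t ≤ y₁ := by
    obtain ⟨t, ht⟩ := hlo
    exact ⟨ζ t, by simpa [hQ'] using ht⟩
  have hhi' : ∃ t, y₂ ≤ Q' t := by
    obtain ⟨t, ht⟩ := hhi
    exact ⟨ζ t, by simpa [hQ'] using ht⟩
  have rig : ∀ δ₁ δ₂ : ℝ ≃o ℝ, (∀ t, Q (δ₁ t) = Q (δ₂ t)) → ∃ j : ℤ, ∀ t, δ₂ t = δ₁ t + j :=
    fun δ₁ δ₂ h => rigid C.y hQ hper nc hM hlo hhi δ₁ δ₂ h
  have rig' : ∀ δ₁ δ₂ : ℝ ≃o ℝ, (∀ t, Q' (δ₁ t) = Q' (δ₂ t)) → ∃ j : ℤ, ∀ t, δ₂ t = δ₁ t + j :=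
    fun δ₁ δ₂ h => rigid_conj hζ1 rig δ₁ δ₂ h
  have hM' : MinProp y₁ y₂ Q' := hM.conj hζ1
  -- windows for the two maps
  have hwin : ∀ q : ℝ → ℝ, (∀ n x, W f g n n (q x) = q (W f g n n x)) →
      (∃ (γ : ℝ → ℝ) (b₁ b₂ : ℝ), 0 < b₁ ∧ b₁ < b₂ ∧ (IncOn γ b₁ b₂ ∨ DecOn γ b₁ b₂) ∧
      (∀ u ∈ Icc b₁ b₂, 0 < γ u) ∧ ∀ u ∈ Icc b₁ b₂, P (γ u) = q (P u)) →
      ∀ L : ℝ, ∃ (α : ℝ) (γ : ℝ → ℝ), IncOn γ α (α + L) ∧
        ∀ z ∈ Icc α (α + L), Q' (γ z) = q (Q' z) := by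
    rintro q hq ⟨γ, b₁, b₂, h1, h2, h3, h4, h5⟩
    have hqq : ∀ n : ℕ, ∀ u ∈ Icc b₁ b₂, P (((Φ * Ψ) ^ n) (γ u)) = q (P (((Φ * Ψ) ^ n) u)) := by
      intro n u hu
      rw [L.P_pow C.comm, L.P_pow C.comm, h5 u hu, hq]
    rcases h3 with h3 | h3
    · exact windows_conj hζ1 (C.windows_inc hΘ hQ hper hQP h1 h2 h3 h4 hqq)
    · exact inc_of_dec hev (windows_conj_dec hζ1 (C.windows_dec hΘ hQ hper hQP h1 h2 h3 h4 hqq))
  have hwf := hwin f (fun n x => W_f R.comm n n x) (L.match_f R)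
  have hwg := hwin g (fun n x => W_g R.comm n n x) (L.match_g R)
  -- values of `f ∘ Q'`
  have hsurj : ∀ y ∈ Icc y₁ y₂, ∃ t, Q' t = y := by
    intro y hy
    obtain ⟨a, ha⟩ := hlo'
    obtain ⟨b, hb⟩ := hhi'
    have hpc : IsPreconnected (range Q') := isPreconnected_range hQ'c
    exact hpc.Icc_subset (mem_range_self a) (mem_range_self b) ⟨ha.trans hy.1, hy.2.trans hb⟩
  have hval : ∀ q : ℝ → ℝ, Icc y₁ y₂ ⊆ q '' Icc y₁ y₂ →
      (∃ t, q (Q' t) ≤ y₁) ∧ ∃ t, y₂ ≤ q (Q' t) := by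
    intro q hq
    have hy := C.y.le
    constructor
    · obtain ⟨y, hy1, hy2⟩ := hq ⟨le_rfl, hy⟩
      obtain ⟨t, ht⟩ := hsurj y hy1
      exact ⟨t, by rw [ht, hy2]⟩
    · obtain ⟨y, hy1, hy2⟩ := hq ⟨hy, le_rfl⟩
      obtain ⟨t, ht⟩ := hsurj y hy1
      exact ⟨t, by rw [ht, hy2]⟩
  obtain ⟨F, Nf, hNf, hF, hF1⟩ := extend C.y hM' (Q₁ := fun z => f (Q' z))
    (fun t => by simp only [hper']) hper' (hval f R.covf).1 (hval f R.covf).2 hwf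
  obtain ⟨G, Ng, hNg, hG, hG1⟩ := extend C.y hM' (Q₁ := fun z => g (Q' z))
    (fun t => by simp only [hper']) hper' (hval g R.covg).1 (hval g R.covg).2 hwg
  exact endgame R hQ'c (fun t => hQm _) hper' hev hlo' hhi' rig' F G Nf Ng hNf hNg hF hG hF1 hG1

theorem main (f g : ℝ → ℝ) (hf : MapsTo f (Icc (0 : ℝ) 1) (Icc (0 : ℝ) 1))
    (hg : MapsTo g (Icc (0 : ℝ) 1) (Icc (0 : ℝ) 1)) (cf : ContDiffOn ℝ 1 f (Icc (0 : ℝ) 1))
    (cg : ContDiffOn ℝ 1 g (Icc (0 : ℝ) 1)) (hc : ∀ x ∈ Icc (0 : ℝ) 1, f (g x) = g (f x)) :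
    ∃ x ∈ Icc (0 : ℝ) 1, f x = x ∧ g x = x := by
  by_contra hno
  obtain ⟨F, G, a₀, b₀, y₁, y₂, s₁, s₂, h⟩ := exists_pre f g hf hg cf cg hc hno
  obtain ⟨π, h1, h2, h3, h4, h5⟩ := exists_pi h
  obtain ⟨F', G', hq⟩ := exists_qdata h h1 h2 h3 h4 h5
  exact hq.red.false

end Pool.Agent.CFP
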