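import Mathlib

/-!
Definitions for the common fixed point problem (MP_eedf80_an).
Blueprint: Blueprint.md in this folder.
-/

set_option autoImplicit false

namespace Pool.Agent.CFP

open Set Function

/-- The word `f^p g^q`. -/
def W (f g : ℝ → ℝ) (p q : ℕ) : ℝ → ℝ := f^[p] ∘ g^[q]

/-- `m + 1` increasing points of `[a, b]` on which `F` is alternately `≤ y₁` and `≥ y₂`. -/
def Alt (y₁ y₂ : ℝ) (F : ℝ → ℝ) (a b : ℝ) (m : ℕ) : Prop :=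
  ∃ (t : ℕ → ℝ) (e : ℕ), (∀ i ≤ m, t i ∈ Icc a b) ∧ (∀ i < m, t i < t (i + 1)) ∧
    ∀ i ≤ m, (Even (i + e) → F (t i) ≤ y₁) ∧ (¬ Even (i + e) → y₂ ≤ F (t i))

/-- `c` is a fixed point of `F` which is repelling on the side `s` (`s = 1` or `s = -1`). -/
def Side (F : ℝ → ℝ) (c s : ℝ) : Prop :=
  F c = c ∧ ∃ ε > 0, ∀ r ∈ Ioo (0 : ℝ) ε,
    c + s * r ∈ Icc (0 : ℝ) 1 ∧ 0 < s * (F (c + s * r) - (c + s * r))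

/-- `F` maps the one-sided germ `(c, s)` strictly monotonically to the germ `(F c, s')`. -/
def Push (F : ℝ → ℝ) (c s s' : ℝ) : Prop :=
  ∃ ε > 0, StrictMonoOn (fun r => s' * F (c + s * r)) (Icc (0 : ℝ) ε)

/-- Original pair, on a minimal invariant interval, with a horseshoe for `f ∘ g`. -/
structure Pre (f g : ℝ → ℝ) (a₀ b₀ y₁ y₂ s₁ s₂ : ℝ) : Prop where
  ab : a₀ < b₀
  contf : Continuous f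
  contg : Continuous g
  mapf : ∀ x, f x ∈ Icc a₀ b₀
  mapg : ∀ x, g x ∈ Icc a₀ b₀
  comm : ∀ x, f (g x) = g (f x)
  leftf : ∀ x ≤ a₀, f x = f a₀
  leftg : ∀ x ≤ a₀, g x = g a₀
  rightf : ∀ x, b₀ ≤ x → f x = f b₀
  rightg : ∀ x, b₀ ≤ x → g x = g b₀
  C1f : ContDiffOn ℝ 1 f (Icc a₀ b₀)
  C1g : ContDiffOn ℝ 1 g (Icc a₀ b₀)
  y1 : a₀ ≤ y₁
  y1s1 : y₁ < s₁
  s1s2 : s₁ < s₂
  s2y2 : s₂ < y₂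
  y2 : y₂ ≤ b₀
  hy1 : y₂ ≤ f (g y₁)
  hs1 : f (g s₁) ≤ y₁
  hs2 : y₂ ≤ f (g s₂)
  hy2 : f (g y₂) ≤ y₁
  covf : Icc y₁ y₂ ⊆ f '' Icc y₁ y₂
  covg : Icc y₁ y₂ ⊆ g '' Icc y₁ y₂
  minimal : ∀ a b, a₀ ≤ a → a ≤ b → b ≤ b₀ →
    MapsTo f (Icc a b) (Icc a b) → MapsTo g (Icc a b) (Icc a b) → a = a₀ ∧ b = b₀

/-- An interval whose iterates under `f ∘ g` never cover `[y₁, y₂]`. -/
def Thin (f g : ℝ → ℝ) (y₁ y₂ a b : ℝ) : Prop := ∀ n, ¬ Icc y₁ y₂ ⊆ W f g n n '' Icc a b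

/-- The quotient data: `π` collapses thin intervals, `F, G` are the quotient maps. -/
structure QData (f g : ℝ → ℝ) (a₀ b₀ y₁ y₂ s₁ s₂ : ℝ) (π F G : ℝ → ℝ) : Prop where
  pre : Pre f g a₀ b₀ y₁ y₂ s₁ s₂
  mono : Monotone π
  cont : Continuous π
  left : ∀ x ≤ a₀, π x = 0
  right : ∀ x, b₀ ≤ x → π x = 1
  fib : ∀ x y, a₀ ≤ x → x ≤ y → y ≤ b₀ → (π x = π y ↔ Thin f g y₁ y₂ x y)
  contF : Continuous F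
  contG : Continuous G
  mapF : ∀ t, F t ∈ Icc (0 : ℝ) 1
  mapG : ∀ t, G t ∈ Icc (0 : ℝ) 1
  semiF : ∀ x, F (π x) = π (f x)
  semiG : ∀ x, G (π x) = π (g x)
  commFG : ∀ t, F (G t) = G (F t)

/-- Reduced pair: what remains after collapsing thin intervals. -/
structure Red (f g : ℝ → ℝ) (y₁ y₂ s₁ s₂ : ℝ) : Prop where
  contf : Continuous f
  contg : Continuous g
  mapf : ∀ x, f x ∈ Icc (0 : ℝ) 1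
  mapg : ∀ x, g x ∈ Icc (0 : ℝ) 1
  comm : ∀ x, f (g x) = g (f x)
  y1 : 0 ≤ y₁
  y1s1 : y₁ < s₁
  s1s2 : s₁ < s₂
  s2y2 : s₂ < y₂
  y2 : y₂ ≤ 1
  hy1 : y₂ ≤ f (g y₁)
  hs1 : f (g s₁) ≤ y₁
  hs2 : y₂ ≤ f (g s₂)
  hy2 : f (g y₂) ≤ y₁
  covf : Icc y₁ y₂ ⊆ f '' Icc y₁ y₂
  covg : Icc y₁ y₂ ⊆ g '' Icc y₁ y₂
  active : ∀ a b, 0 ≤ a → a < b → b ≤ 1 → ∃ n, Icc y₁ y₂ ⊆ W f g n n '' Icc a b
  minimal : ∀ a b, 0 ≤ a → a ≤ b → b ≤ 1 →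
    MapsTo f (Icc a b) (Icc a b) → MapsTo g (Icc a b) (Icc a b) → a = 0 ∧ b = 1
  expbd : ∃ K : ℕ, ∀ n m, Alt y₁ y₂ (W f g n n) 0 1 m → m ≤ K ^ (n + 1)
  fin : ∀ p q, 1 ≤ p → 1 ≤ q → {x | W f g p q x = x}.Finite
  hon : ∀ p q, 1 ≤ p → 1 ≤ q → ∀ c s : ℝ, (s = 1 ∨ s = -1) → Side (W f g p q) c s →
    ∃ ε > 0, InjOn f ((fun r => c + s * r) '' Icc (0 : ℝ) ε) ∧
      InjOn g ((fun r => c + s * r) '' Icc (0 : ℝ) ε)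
  odd : ∀ p q, 1 ≤ p → 1 ≤ q → ∀ c ∈ Ioo (0 : ℝ) 1, W f g p q c = c →
    (∃ ε > 0, (∀ t ∈ Ioo c (c + ε), W f g p q t < t) ∧ ∀ t ∈ Ioo (c - ε) c, t < W f g p q t) →
    Side (W f g (2 * p) (2 * q)) c 1 ∧ Side (W f g (2 * p) (2 * q)) c (-1)

/-- The leaf (inverse limit branch) of the right germ of the fixed point `x` of `f ∘ g`,
with lifts `Φ, Ψ` of `f^k, g^k`. -/
structure Leaf (f g : ℝ → ℝ) (y₁ y₂ : ℝ) (k : ℕ) (x δ : ℝ) (P : ℝ → ℝ) (Φ Ψ : ℝ ≃o ℝ) :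
    Prop where
  k1 : 1 ≤ k
  y1x : y₁ < x
  δpos : 0 < δ
  xδ : x + δ < y₂
  contP : Continuous P
  mapP : ∀ u, P u ∈ Icc (0 : ℝ) 1
  P0 : ∀ u ≤ 0, P u = x
  Pδ : ∀ u ∈ Icc (0 : ℝ) δ, P u = x + u
  Φ0 : ∀ u ≤ 0, Φ u = u
  Ψ0 : ∀ u ≤ 0, Ψ u = u
  comm : ∀ u, Φ (Ψ u) = Ψ (Φ u)
  PΦ : ∀ u, P (Φ u) = f^[k] (P u)
  PΨ : ∀ u, P (Ψ u) = g^[k] (P u)
  exp : ∀ u > 0, u < Φ (Ψ u)
  other : ∃ z, 0 < z ∧ z < 1 ∧ z ≠ x ∧ f^[k] z = z ∧ g^[k] z = z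

/-- The action of `ℤ × ℤ` on the line generated by `Φ, Ψ`. -/
noncomputable def act (Φ Ψ : ℝ ≃o ℝ) (a b : ℤ) : ℝ ≃o ℝ := Φ ^ a * Ψ ^ b

/-- Abstract leaf, all that Part E needs. -/
structure Core (y₁ y₂ : ℝ) (P : ℝ → ℝ) (Φ Ψ : ℝ ≃o ℝ) : Prop where
  y : y₁ < y₂
  contP : Continuous P
  Φ0 : ∀ u ≤ 0, Φ u = u
  Ψ0 : ∀ u ≤ 0, Ψ u = u
  comm : Φ * Ψ = Ψ * Φ
  posΦ : ∀ u > 0, u < Φ u
  posΨ : ∀ u > 0, u < Ψ u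
  PΦ : ∀ u v, P u = P v → P (Φ u) = P (Φ v)
  PΨ : ∀ u v, P u = P v → P (Ψ u) = P (Ψ v)
  free : ∀ a b : ℤ, (∃ u > 0, act Φ Ψ a b u = u) → a = 0 ∧ b = 0
  dense : ∀ u v, 0 < u → u < v → ∃ a b : ℤ, u < act Φ Ψ a b u ∧ act Φ Ψ a b u < v
  nonconst : ∀ u v, 0 < u → u < v → ∃ t ∈ Icc u v, P t ≠ P u
  grow : ∀ (u v : ℝ) (m : ℕ), 0 < u → u < v → ∃ n₀ : ℕ, ∀ n ≥ n₀,
    Alt y₁ y₂ P (((Φ * Ψ) ^ n) u) (((Φ * Ψ) ^ n) v) m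

/-- `γ` on `[b₁, b₂]` is strictly increasing (decreasing) and continuous. -/
def IncOn (γ : ℝ → ℝ) (a b : ℝ) : Prop := StrictMonoOn γ (Icc a b) ∧ ContinuousOn γ (Icc a b)

/-- See `IncOn`. -/
def DecOn (γ : ℝ → ℝ) (a b : ℝ) : Prop := StrictAntiOn γ (Icc a b) ∧ ContinuousOn γ (Icc a b)

/-- Rigidity of the increasing local symmetries of a periodic function. -/
def MinProp (y₁ y₂ : ℝ) (Q : ℝ → ℝ) : Prop :=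
  ∃ L₀ : ℕ, 2 ≤ L₀ ∧ ∀ (α β : ℝ) (γ₁ γ₂ : ℝ → ℝ), IncOn γ₁ α β → IncOn γ₂ α β →
    (∀ u ∈ Icc α β, Q (γ₁ u) = Q (γ₂ u)) → (∀ u ∈ Icc α β, γ₁ u < γ₂ u) →
    ∀ z : ℕ → ℝ, (∀ i ≤ L₀, z i ∈ Icc α β) → (∀ i < L₀, γ₁ (z (i + 1)) = γ₂ (z i)) →
      (∃ u v, z 0 ≤ u ∧ u ≤ v ∧ v ≤ z L₀ ∧ Q (γ₁ u) ≤ y₁ ∧ y₂ ≤ Q (γ₁ v)) →
      ∃ N : ℕ, ∀ u ∈ Icc α β, γ₂ u = γ₁ u + N

/-- An up-crossing of `[y₁, y₂]`: starts at `d`, ends at `e`. -/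
def UpX (y₁ y₂ : ℝ) (F : ℝ → ℝ) (d e : ℝ) : Prop :=
  d < e ∧ F d = y₁ ∧ F e = y₂ ∧ ∀ t ∈ Ioo d e, y₁ < F t ∧ F t < y₂

/-- The starting points of up-crossings. -/
def Starts (y₁ y₂ : ℝ) (F : ℝ → ℝ) : Set ℝ := {d | ∃ e, UpX y₁ y₂ F d e}

/-- `d` enumerates the positive starting points of `Q`. -/
structure Enum (y₁ y₂ : ℝ) (Q : ℝ → ℝ) (d : ℕ → ℝ) : Prop where
  mono : StrictMono d
  pos : ∀ i, 0 < d i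
  mem : ∀ x, 0 < x → (x ∈ Starts y₁ y₂ Q ↔ ∃ i, d i = x)
  top : Filter.Tendsto d Filter.atTop Filter.atTop

/-- `Q` on `[a, b]` and `Q` on `[c, d]` agree up to an increasing reparametrisation. -/
def Same (Q : ℝ → ℝ) (a b c d : ℝ) : Prop :=
  ∃ θ : Icc a b ≃o Icc c d, ∀ t : Icc a b, Q (θ t) = Q t

end Pool.Agent.CFP
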