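import Pool.Agent.Lib_MP_eedf80_an.Match1
import Pool.Agent.Lib_MP_eedf80_an.Sides

/-!
PART M2: increasing and decreasing matchings of the leaf with itself.
-/

set_option autoImplicit false

namespace Pool.Agent.CFP

open Set Function

section Match

variable {f g P : ℝ → ℝ} {y₁ y₂ s₁ s₂ x δ : ℝ} {k : ℕ} {Φ Ψ : ℝ ≃o ℝ}

/-- The semiconjugacy with the powers of `Φ ∘ Ψ`. -/
lemma Leaf.P_powM (R : Red f g y₁ y₂ s₁ s₂) (L : Leaf f g y₁ y₂ k x δ P Φ Ψ) (n : ℕ) (u : ℝ) :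
    P (((Φ * Ψ) ^ n) u) = W f g (k * n) (k * n) (P u) := by
  induction n with
  | zero => rfl
  | succ n ih =>
    have h1 : ((Φ * Ψ) ^ (n + 1)) u = Φ (Ψ (((Φ * Ψ) ^ n) u)) := by
      rw [pow_succ']; rfl
    rw [h1, L.PΦ, L.PΨ, ih]
    have h2 := W_W R.comm k k (k * n) (k * n) (P u)
    rw [show k * (n + 1) = k + k * n by ring, ← h2]
    rfl

/-- Powers of `Φ ∘ Ψ` expand. -/
lemma Leaf.lt_powM (L : Leaf f g y₁ y₂ k x δ P Φ Ψ) {n : ℕ} (hn : 1 ≤ n) {u : ℝ} (hu : 0 < u) :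
    u < ((Φ * Ψ) ^ n) u := by
  induction n, hn using Nat.le_induction with
  | base => rw [pow_one]; exact L.exp u hu
  | succ n _ ih =>
    have h1 : ((Φ * Ψ) ^ (n + 1)) u = Φ (Ψ (((Φ * Ψ) ^ n) u)) := by
      rw [pow_succ']; rfl
    rw [h1]
    exact ih.trans (L.exp _ (hu.trans ih))

/-- The basic matching defined by a fixed point of a long word. -/
lemma Leaf.match_basic (R : Red f g y₁ y₂ s₁ s₂) (L : Leaf f g y₁ y₂ k x δ P Φ Ψ) {n : ℕ}
    (hn : 1 ≤ n) {c : ℝ} (hc1 : x < c) (hc2 : c < x + δ)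
    (hc : W f g (k * n) (k * n) c = c) :
    ∃ e₀ > 0, ∀ e, 0 < e → e ≤ e₀ →
      let γ : ℝ → ℝ := fun u => W f g (k * n) (k * n) (x + ((Φ * Ψ) ^ n).symm u) - x
      let b₁ := ((Φ * Ψ) ^ n) (c - x)
      let b₂ := ((Φ * Ψ) ^ n) (c - x + e)
      0 < b₁ ∧ b₁ < b₂ ∧ ContinuousOn γ (Icc b₁ b₂) ∧
        (∀ u ∈ Icc b₁ b₂, 0 < γ u ∧ γ u < b₁ ∧ P (γ u) = P u) := by
  set w := W f g (k * n) (k * n) with hwdef
  have hw : Continuous w := R.contW (k * n) (k * n)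
  have huc : 0 < c - x := by linarith
  have hb₁ : c - x < ((Φ * Ψ) ^ n) (c - x) := L.lt_powM hn huc
  -- small range
  have hcont : Continuous fun v => w (x + v) - x := by fun_prop
  have hval : w (x + (c - x)) - x = c - x := by rw [add_sub_cancel, hc]
  have hev : ∀ᶠ v in nhds (c - x), w (x + v) - x ∈ Ioo 0 (min δ (((Φ * Ψ) ^ n) (c - x))) := by
    apply hcont.continuousAt.eventually_mem
    rw [hval]
    exact Ioo_mem_nhds huc (lt_min (by linarith) hb₁)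
  obtain ⟨η, hη, hη'⟩ := Metric.eventually_nhds_iff.1 hev
  refine ⟨min (η / 2) (x + δ - c), lt_min (by linarith) (by linarith), ?_⟩
  intro e he0 he
  have l1 : e ≤ η / 2 := he.trans (min_le_left _ _)
  have l2 : e ≤ x + δ - c := he.trans (min_le_right _ _)
  refine ⟨huc.trans hb₁, ((Φ * Ψ) ^ n).strictMono (by linarith), ?_, ?_⟩
  · have hcs : Continuous ((Φ * Ψ) ^ n).symm := ((Φ * Ψ) ^ n).symm.continuous
    exact (by fun_prop : Continuous fun u => w (x + ((Φ * Ψ) ^ n).symm u) - x).continuousOn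
  · intro u hu
    set v := ((Φ * Ψ) ^ n).symm u with hv
    have huv : u = ((Φ * Ψ) ^ n) v := by rw [hv, OrderIso.apply_symm_apply]
    have hv1 : c - x ≤ v := by
      have := hu.1
      rw [huv] at this
      exact ((Φ * Ψ) ^ n).le_iff_le.1 this
    have hv2 : v ≤ c - x + e := by
      have := hu.2
      rw [huv] at this
      exact ((Φ * Ψ) ^ n).le_iff_le.1 this
    have hmem := hη' (y := v) (by
      rw [Real.dist_eq, abs_of_nonneg (by linarith)]; linarith)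
    have hγδ : w (x + v) - x < δ := hmem.2.trans_le (min_le_left _ _)
    have hγb : w (x + v) - x < ((Φ * Ψ) ^ n) (c - x) := hmem.2.trans_le (min_le_right _ _)
    refine ⟨hmem.1, hγb, ?_⟩
    show P (w (x + v) - x) = P u
    rw [L.Pδ _ ⟨hmem.1.le, hγδ.le⟩, huv, L.P_powM R, L.Pδ v ⟨by linarith, by linarith⟩]
    ring

/-- PART M2. -/
theorem Leaf.match_inc (R : Red f g y₁ y₂ s₁ s₂) (L : Leaf f g y₁ y₂ k x δ P Φ Ψ) :
    ∃ (γ : ℝ → ℝ) (b₁ b₂ : ℝ), 0 < b₁ ∧ b₁ < b₂ ∧ IncOn γ b₁ b₂ ∧ 0 < γ b₁ ∧ γ b₂ < b₁ ∧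
      ∀ u ∈ Icc b₁ b₂, P (γ u) = P u := by
  have hx0 : 0 ≤ x := R.y1.trans L.y1x.le
  obtain ⟨n, hn, ⟨c, hc, hside, -⟩, -⟩ := R.exists_even_odd (a := x) (b := x + δ) hx0
    (by linarith [L.δpos]) (L.xδ.le.trans R.y2) L.k1
  have hkn : 1 ≤ k * n := Nat.mul_pos L.k1 hn
  obtain ⟨e₀, he₀, hmain⟩ := L.match_basic R hn hc.1 hc.2 hside.1
  obtain ⟨ε, hε, hmono⟩ := R.push_self hkn hkn (Or.inl rfl) hside
  obtain ⟨h1, h2, h3, h4⟩ := hmain (min e₀ ε) (lt_min he₀ hε) (min_le_left _ _)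
  refine ⟨_, _, _, h1, h2, ⟨?_, h3⟩, (h4 _ (left_mem_Icc.2 h2.le)).1,
    (h4 _ (right_mem_Icc.2 h2.le)).2.1, fun u hu => (h4 u hu).2.2⟩
  intro u hu u' hu' huu'
  have key : ∀ u ∈ Icc (((Φ * Ψ) ^ n) (c - x)) (((Φ * Ψ) ^ n) (c - x + min e₀ ε)),
      ((Φ * Ψ) ^ n).symm u - (c - x) ∈ Icc 0 ε := by
    intro u hu
    have h5 : c - x ≤ ((Φ * Ψ) ^ n).symm u := by
      rw [OrderIso.le_symm_apply]; exact hu.1
    have h6 : ((Φ * Ψ) ^ n).symm u ≤ c - x + min e₀ ε := by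
      rw [OrderIso.symm_apply_le]; exact hu.2
    have := min_le_right e₀ ε
    exact ⟨by linarith, by linarith⟩
  have h7 := hmono (key u hu) (key u' hu') (by
    have := ((Φ * Ψ) ^ n).symm.strictMono huu'
    linarith)
  simp only [one_mul] at h7
  have e1 : ∀ v : ℝ, c + (v - (c - x)) = x + v := fun v => by ring
  rw [e1, e1] at h7
  show W f g (k * n) (k * n) (x + ((Φ * Ψ) ^ n).symm u) - x <
    W f g (k * n) (k * n) (x + ((Φ * Ψ) ^ n).symm u') - x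
  linarith

theorem Leaf.match_dec (R : Red f g y₁ y₂ s₁ s₂) (L : Leaf f g y₁ y₂ k x δ P Φ Ψ) :
    ∃ (γ : ℝ → ℝ) (b₁ b₂ : ℝ), 0 < b₁ ∧ b₁ < b₂ ∧ DecOn γ b₁ b₂ ∧
      (∀ u ∈ Icc b₁ b₂, 0 < γ u) ∧ ∀ u ∈ Icc b₁ b₂, P (γ u) = P u := by
  have hx0 : 0 ≤ x := R.y1.trans L.y1x.le
  obtain ⟨n, hn, -, ⟨c, hc, hfix, ε₁, hε₁, hr, hl⟩⟩ := R.exists_even_odd (a := x) (b := x + δ) hx0
    (by linarith [L.δpos]) (L.xδ.le.trans R.y2) L.k1
  have hkn : 1 ≤ k * n := Nat.mul_pos L.k1 hn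
  have hδ1 : x + δ < 1 := L.xδ.trans_le R.y2
  have hside := (R.odd (k * n) (k * n) hkn hkn c ⟨hx0.trans_lt hc.1, hc.2.trans hδ1⟩ hfix
    ⟨ε₁, hε₁, hr, hl⟩).1
  obtain ⟨e₀, he₀, hmain⟩ := L.match_basic R hn hc.1 hc.2 hfix
  obtain ⟨s', hs', ⟨ε, hε, hmono⟩, -⟩ := R.pushW (by omega) (by omega) (Or.inl rfl) hside
    (k * n) (k * n)
  -- the word is decreasing on the right of `c`
  have hs1 : s' = -1 := by
    rcases hs' with rfl | h
    · exfalso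
      obtain ⟨-, ε₂, hε₂, hside2⟩ := hside
      set r := min (ε₁ / 2) (min ε (ε₂ / 2)) with hrdef
      have hr0 : 0 < r := lt_min (by linarith) (lt_min hε (by linarith))
      have l1 : r ≤ ε₁ / 2 := min_le_left _ _
      have l2 : r ≤ ε := (min_le_right _ _).trans (min_le_left _ _)
      have l3 : r ≤ ε₂ / 2 := (min_le_right _ _).trans (min_le_right _ _)
      have h1 := hr (c + r) ⟨by linarith, by linarith⟩
      have h2 := hmono (left_mem_Icc.2 hε.le) ⟨hr0.le, l2⟩ hr0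
      simp only [one_mul, add_zero] at h2
      rw [hfix] at h2
      have h3 := hr (W f g (k * n) (k * n) (c + r)) ⟨h2, by linarith⟩
      obtain ⟨-, h4⟩ := hside2 r ⟨hr0, by linarith⟩
      simp only [one_mul] at h4
      rw [W_W R.comm] at h3
      rw [two_mul] at h4
      linarith
    · exact h
  subst hs1
  obtain ⟨h1, h2, h3, h4⟩ := hmain (min e₀ ε) (lt_min he₀ hε) (min_le_left _ _)
  refine ⟨_, _, _, h1, h2, ⟨?_, h3⟩, fun u hu => (h4 u hu).1, fun u hu => (h4 u hu).2.2⟩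
  intro u hu u' hu' huu'
  have key : ∀ u ∈ Icc (((Φ * Ψ) ^ n) (c - x)) (((Φ * Ψ) ^ n) (c - x + min e₀ ε)),
      ((Φ * Ψ) ^ n).symm u - (c - x) ∈ Icc 0 ε := by
    intro u hu
    have h5 : c - x ≤ ((Φ * Ψ) ^ n).symm u := by
      rw [OrderIso.le_symm_apply]; exact hu.1
    have h6 : ((Φ * Ψ) ^ n).symm u ≤ c - x + min e₀ ε := by
      rw [OrderIso.symm_apply_le]; exact hu.2
    have := min_le_right e₀ ε
    exact ⟨by linarith, by linarith⟩
  have h7 := hmono (key u hu) (key u' hu') (by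
    have := ((Φ * Ψ) ^ n).symm.strictMono huu'
    linarith)
  simp only [one_mul] at h7
  have e1 : ∀ v : ℝ, c + (v - (c - x)) = x + v := fun v => by ring
  rw [e1, e1] at h7
  show W f g (k * n) (k * n) (x + ((Φ * Ψ) ^ n).symm u') - x <
    W f g (k * n) (k * n) (x + ((Φ * Ψ) ^ n).symm u) - x
  linarith

end Match

end Pool.Agent.CFP
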