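import Pool.Agent.Lib_MP_eedf80_an.Basic
import Pool.Agent.Lib_MP_eedf80_an.Comb
import Pool.Agent.Lib_MP_eedf80_an.Enum
import Pool.Agent.Lib_MP_eedf80_an.Enum2
import Pool.Agent.Lib_MP_eedf80_an.Glue
import Pool.Agent.Lib_MP_eedf80_an.Linearise
import Pool.Agent.Lib_MP_eedf80_an.Agree

/-!
# Part E9: the periodic model
-/

set_option autoImplicit false

namespace Pool.Agent.CFP

open Set Function

namespace Model

variable {y₁ y₂ : ℝ} {P : ℝ → ℝ}

theorem same_refl (Q : ℝ → ℝ) (a b : ℝ) : Same Q a b a b := ⟨OrderIso.refl _, fun _ => rfl⟩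

theorem same_symm {Q : ℝ → ℝ} {a b c d : ℝ} (h : Same Q a b c d) : Same Q c d a b := by
  obtain ⟨θ, hθ⟩ := h
  exact ⟨θ.symm, fun t => by rw [← hθ (θ.symm t), θ.apply_symm_apply]⟩

theorem same_trans {Q : ℝ → ℝ} {a b c d e f : ℝ} (h : Same Q a b c d) (h' : Same Q c d e f) :
    Same Q a b e f := by
  obtain ⟨θ, hθ⟩ := h
  obtain ⟨θ', hθ'⟩ := h'
  exact ⟨θ.trans θ', fun t => by rw [OrderIso.trans_apply, hθ', hθ]⟩

/-- A crossing inside `[a, b]`. -/
def Cr (y₁ y₂ : ℝ) (P : ℝ → ℝ) (a b : ℝ) : Prop :=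
  ∃ c e, a ≤ c ∧ c ≤ e ∧ e ≤ b ∧ P c ≤ y₁ ∧ y₂ ≤ P e

theorem idx_mono {d : ℕ → ℝ} (hd : Enum y₁ y₂ P d) {u v : ℝ} (h : u ≤ v) :
    hd.idx u ≤ hd.idx v := by
  classical
  unfold Enum.idx
  exact Nat.find_mono fun n hn => h.trans hn

theorem le_idx {d : ℕ → ℝ} (hd : Enum y₁ y₂ P d) (u : ℝ) : u ≤ d (hd.idx u) := by
  classical
  unfold Enum.idx
  exact Nat.find_spec (p := fun i => u ≤ d i) _

theorem lt_of_lt_idx {d : ℕ → ℝ} (hd : Enum y₁ y₂ P d) {u : ℝ} {i : ℕ} (h : i < hd.idx u) :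
    d i < u := by
  classical
  unfold Enum.idx at h
  exact not_le.1 (Nat.find_min (p := fun i => u ≤ d i) _ h)

theorem idx_eq {d : ℕ → ℝ} (hd : Enum y₁ y₂ P d) (k : ℕ) : hd.idx (d k) = k := by
  apply le_antisymm
  · by_contra h
    exact absurd (lt_of_lt_idx hd (not_le.1 h)) (lt_irrefl _)
  · by_contra h
    have h1 := le_idx hd (d k)
    exact absurd (hd.mono (not_le.1 h)) (not_lt.2 h1)

theorem key (hy : y₁ < y₂) (hP : Continuous P) {d : ℕ → ℝ} (hd : Enum y₁ y₂ P d)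
    {s : ℝ → ℝ} {x : ℕ → ℝ} {L : ℕ} (hL : 8 ≤ L) (hx0 : 0 < x 0) (hx : ∀ i, x (i + 1) = s (x i))
    (hxi : ∀ i ≤ L, x i ∈ Icc (x 0) (x L)) (hs : IncOn s (x 0) (x L))
    (hlt : ∀ t ∈ Icc (x 0) (x L), t < s t) (hPs : ∀ t ∈ Icc (x 0) (x L), P (s t) = P t)
    (hcr : Cr y₁ y₂ P (x 0) (x L)) :
    ∃ r, 1 ≤ r ∧ (∀ i, hd.idx (x 0) ≤ i → i + 1 < hd.idx (x 0) + (L - 2) * r →
      Same P (d i) (d (i + 1)) (d (i + r)) (d (i + r + 1))) ∧
      d (hd.idx (x 0)) ∈ Icc (x 0) (x L) ∧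
      s (d (hd.idx (x 0))) = d (hd.idx (x 0) + r) := by
  have xlt : ∀ i ≤ L, x i < x (i + 1) := fun i hi => by
    rw [hx]; exact hlt _ (hxi i hi)
  have xmono : ∀ i j, i ≤ j → j ≤ L + 1 → x i ≤ x j := by
    intro i j hij
    induction j, hij using Nat.le_induction with
    | base => intro _; exact le_rfl
    | succ n hn ih => intro h; exact (ih (by omega)).trans (xlt n (by omega)).le
  -- transport down and up
  have down : ∀ k, k + 2 ≤ L → Cr y₁ y₂ P (x (k + 1)) (x (k + 3)) →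
      Cr y₁ y₂ P (x k) (x (k + 2)) := by
    rintro k hk ⟨c, e, h1, h2, h3, h4, h5⟩
    have hsub : Icc (x k) (x (k + 2)) ⊆ Icc (x 0) (x L) :=
      Icc_subset_Icc (xmono 0 k (by omega) (by omega)) (xmono (k + 2) L hk (by omega))
    have himg := intermediate_value_Icc (xmono k (k + 2) (by omega) (by omega))
      (hs.2.mono hsub)
    rw [← hx, ← hx] at himg
    obtain ⟨c', hc', hc2⟩ := himg ⟨h1, h2.trans h3⟩
    obtain ⟨e', he', he2⟩ := himg ⟨h1.trans h2, h3⟩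
    refine ⟨c', e', hc'.1, ?_, he'.2, ?_, ?_⟩
    · by_contra h
      have := hs.1 (hsub he') (hsub hc') (not_le.1 h)
      rw [hc2, he2] at this
      exact absurd h2 (not_le.2 this)
    · rw [← hPs _ (hsub hc'), hc2]; exact h4
    · rw [← hPs _ (hsub he'), he2]; exact h5
  have up : ∀ k, k + 2 ≤ L → Cr y₁ y₂ P (x k) (x (k + 2)) →
      Cr y₁ y₂ P (x (k + 1)) (x (k + 3)) := by
    rintro k hk ⟨c, e, h1, h2, h3, h4, h5⟩
    have hsub : Icc (x k) (x (k + 2)) ⊆ Icc (x 0) (x L) :=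
      Icc_subset_Icc (xmono 0 k (by omega) (by omega)) (xmono (k + 2) L hk (by omega))
    have hk1 : x k ∈ Icc (x k) (x (k + 2)) := left_mem_Icc.2 (xmono k (k + 2) (by omega) (by omega))
    have hk2 : x (k + 2) ∈ Icc (x k) (x (k + 2)) :=
      right_mem_Icc.2 (xmono k (k + 2) (by omega) (by omega))
    have hcm : c ∈ Icc (x k) (x (k + 2)) := ⟨h1, h2.trans h3⟩
    have hem : e ∈ Icc (x k) (x (k + 2)) := ⟨h1.trans h2, h3⟩
    refine ⟨s c, s e, ?_, ?_, ?_, ?_, ?_⟩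
    · rw [hx]; exact hs.1.monotoneOn (hsub hk1) (hsub hcm) h1
    · exact hs.1.monotoneOn (hsub hcm) (hsub hem) h2
    · rw [show k + 3 = (k + 2) + 1 from rfl, hx]
      exact hs.1.monotoneOn (hsub hem) (hsub hk2) h3
    · rw [hPs _ (hsub hcm)]; exact h4
    · rw [hPs _ (hsub hem)]; exact h5
  -- locate a crossing
  have loc : ∃ k, k < L ∧ Cr y₁ y₂ P (x k) (x (k + 2)) := by
    obtain ⟨c, e, h1, h2, h3, h4, h5⟩ := hcr
    have hcomp : IsCompact {w ∈ Icc c e | P w ≤ y₁} :=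
      isCompact_Icc.inter_right (isClosed_le hP continuous_const)
    obtain ⟨a, ha, hmax⟩ := hcomp.exists_isGreatest ⟨c, ⟨le_rfl, h2⟩, h4⟩
    have hae : a < e := by
      rcases ha.1.2.eq_or_lt with h | h
      · have := ha.2; rw [h] at this; linarith
      · exact h
    have haL : a < x L := hae.trans_le h3
    have hex : ∃ j, a < x j := ⟨L, haL⟩
    classical
    obtain ⟨j, hj, hjmin⟩ : ∃ j, a < x j ∧ ∀ i < j, ¬ a < x i :=
      ⟨Nat.find hex, Nat.find_spec hex, fun i hi => Nat.find_min hex hi⟩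
    have hj0 : j ≠ 0 := by
      rintro rfl
      exact absurd hj (not_lt.2 (h1.trans ha.1.1))
    have hjL : j ≤ L := by
      by_contra h
      exact hjmin L (not_le.1 h) haL
    obtain ⟨k, rfl⟩ := Nat.exists_eq_succ_of_ne_zero hj0
    have hk : x k ≤ a := not_lt.1 (hjmin k (Nat.lt_succ_self k))
    have ham : a ∈ Icc (x 0) (x L) := ⟨h1.trans ha.1.1, haL.le⟩
    have hsa : a < s a := hlt a ham
    have hse : e < s a := by
      by_contra h
      have : s a ≤ a := hmax ⟨⟨ha.1.1.trans hsa.le, not_lt.1 h⟩, by rw [hPs a ham]; exact ha.2⟩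
      exact absurd hsa (not_lt.2 this)
    refine ⟨k, by omega, a, e, hk, hae.le, ?_, ha.2, h5⟩
    refine hse.le.trans ?_
    rw [show k + 2 = (k + 1) + 1 from rfl, hx]
    exact hs.1.monotoneOn ham (hxi (k + 1) hjL) hj.le
  have cr0 : Cr y₁ y₂ P (x 0) (x 2) := by
    obtain ⟨k, hk, hc⟩ := loc
    induction k with
    | zero => exact hc
    | succ n ih => exact ih (by omega) (down n (by omega) hc)
  have cr : ∀ j, j + 1 ≤ L → Cr y₁ y₂ P (x j) (x (j + 2)) := by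
    intro j
    induction j with
    | zero => intro _; exact cr0
    | succ n ih => intro h; exact up n (by omega) (ih (by omega))
  -- counting
  have hid : IncOn (fun t : ℝ => t) (x 0) (x L) :=
    ⟨fun a _ b _ h => h, continuous_id.continuousOn⟩
  have hpos : ∀ u ∈ Icc (x 0) (x L), 0 < u := fun u hu => hx0.trans_le hu.1
  have hpos2 : ∀ u ∈ Icc (x 0) (x L), 0 < s u := fun u hu => (hpos u hu).trans (hlt u hu)
  obtain ⟨c, e, hc1, hc2, hc3, hc4, hc5⟩ := cr (L - 2) (by omega)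
  rw [show L - 2 + 2 = L by omega] at hc3
  have shift : ∀ u v, x 0 ≤ u → u ≤ v → v ≤ x (L - 2) →
      hd.idx v + hd.idx (s u) = hd.idx (s v) + hd.idx u := by
    intro u v hu huv hv
    exact hd.pair_shift hy hP hid hs hpos hpos2 (fun u hu => (hPs u hu).symm) hu huv
      (hv.trans hc1) hc2 hc3 hc4 hc5
  obtain ⟨r, hr⟩ : ∃ r, hd.idx (x 1) = hd.idx (x 0) + r :=
    Nat.exists_eq_add_of_le (idx_mono hd (xmono 0 1 (by omega) (by omega)))
  have hN : ∀ i, i + 1 ≤ L - 1 → hd.idx (x i) = hd.idx (x 0) + i * r ∧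
      hd.idx (x (i + 1)) = hd.idx (x 0) + (i + 1) * r := by
    intro i
    induction i with
    | zero => intro _; simp [hr]
    | succ n ih =>
      intro h
      obtain ⟨i1, i2⟩ := ih (by omega)
      refine ⟨i2, ?_⟩
      have := shift (x n) (x (n + 1)) (xmono 0 n (by omega) (by omega))
        (xmono n (n + 1) (by omega) (by omega)) (xmono (n + 1) (L - 2) (by omega) (by omega))
      rw [← hx, ← hx, i1, i2] at this
      have e2 : hd.idx (x (n + 1 + 1)) + (hd.idx (x 0) + n * r) =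
          (hd.idx (x 0) + (n + 1 + 1) * r) + (hd.idx (x 0) + n * r) := by
        rw [← this]; ring
      exact Nat.add_right_cancel e2
  have hr1 : 1 ≤ r := by
    obtain ⟨c0, e0, a1, a2, a3, a4, a5⟩ := cr 0 (by omega)
    obtain ⟨c2, e2, b1, b2, b3, b4, b5⟩ := cr 2 (by omega)
    have n1 : c0 < e0 := by
      rcases a2.eq_or_lt with h | h
      · rw [h] at a4; linarith
      · exact h
    have n2 : e0 < c2 := by
      rcases (a3.trans b1).eq_or_lt with h | h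
      · rw [h] at a5; linarith
      · exact h
    have n3 : c2 < e2 := by
      rcases b2.eq_or_lt with h | h
      · rw [h] at b4; linarith
      · exact h
    have halt : Alt y₁ y₂ P (x 0) (x 4) (2 * 1 + 1) := by
      refine ⟨fun i => if i = 0 then c0 else if i = 1 then e0 else if i = 2 then c2 else e2, 0,
        ?_, ?_, ?_⟩
      · intro i hi
        interval_cases i <;> simp
        · exact ⟨a1, by linarith⟩
        · exact ⟨by linarith, by linarith⟩
        · exact ⟨by linarith, by linarith⟩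
        · exact ⟨by linarith, by linarith⟩
      · intro i hi
        interval_cases i <;> simp
        · exact n1
        · exact n2
        · exact n3
      · intro i hi
        interval_cases i
        · simp; exact a4
        · simp; exact a5
        · simp; exact b4
        · refine ⟨fun h => absurd h (by decide), fun _ => ?_⟩
          simp; exact b5
    have h1 := hd.idx_alt hy hP hx0 halt
    rw [(hN 4 (by omega)).1] at h1
    by_contra h
    have h0 : r = 0 := by omega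
    rw [h0] at h1
    omega
  -- the first start
  set N := hd.idx (x 0) with hNdef
  have t1 : x 0 ≤ d N := le_idx hd (x 0)
  have t2 : d N < x 1 := lt_of_lt_idx hd (by omega)
  have tm : d N ∈ Icc (x 0) (x L) := ⟨t1, t2.le.trans (xmono 1 L (by omega) (by omega))⟩
  have t4 : hd.idx (s (d N)) = N + r := by
    have := shift (x 0) (d N) le_rfl t1 (t2.le.trans (xmono 1 (L - 2) (by omega) (by omega)))
    rw [idx_eq hd N, ← hx] at this
    rw [show (0 : ℕ) + 1 = 1 from rfl, hr] at this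
    omega
  refine ⟨r, hr1, ?_, tm, ?_⟩
  · intro i hi1 hi2
    refine hd.pair_same hy hP hid hs hpos hpos2 (fun u hu => (hPs u hu).symm)
      (v := x (L - 2)) (xmono 0 (L - 2) (by omega) (by omega)) hc1 hc2 hc3 hc4 hc5 ?_ hi1 ?_
    · rw [← hx]; exact hr
    · rw [(hN (L - 2) (by omega)).1]; exact hi2
  · obtain ⟨e', q1, q2, q3, q4⟩ := (hd.mem (d N) (hd.pos N)).2 ⟨N, rfl⟩
    obtain ⟨c1, e1, a1, a2, a3, a4, a5⟩ := cr 1 (by omega)
    have he'1 : e' ≤ c1 := by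
      by_contra h
      have := (q4 c1 ⟨t2.trans_le a1, not_le.1 h⟩).1
      linarith
    have he'm : e' ∈ Icc (x 0) (x L) :=
      ⟨t1.trans q1.le, (he'1.trans a2).trans (a3.trans (xmono 3 L (by omega) (by omega)))⟩
    have hst : s (d N) ∈ Starts y₁ y₂ P := by
      refine ⟨s e', hs.1 tm he'm q1, ?_, ?_, ?_⟩
      · rw [hPs _ tm]; exact q2
      · rw [hPs _ he'm]; exact q3
      · intro t ht
        have hsub : Icc (d N) e' ⊆ Icc (x 0) (x L) := Icc_subset_Icc tm.1 he'm.2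
        obtain ⟨w, hw, rfl⟩ := intermediate_value_Icc q1.le (hs.2.mono hsub) ⟨ht.1.le, ht.2.le⟩
        rw [hPs _ (hsub hw)]
        refine q4 w ⟨?_, ?_⟩
        · rcases hw.1.eq_or_lt with h | h
          · rw [← h] at ht; exact absurd ht.1 (lt_irrefl _)
          · exact h
        · rcases hw.2.eq_or_lt with h | h
          · rw [h] at ht; exact absurd ht.2 (lt_irrefl _)
          · exact h
    obtain ⟨k, hk⟩ := (hd.mem _ (hpos2 _ tm)).1 hst
    rw [← hk, idx_eq] at t4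
    rw [← hk, t4]

end Model

/-- PART E9: the periodic model. -/
theorem periodic_model {y₁ y₂ : ℝ} {P : ℝ → ℝ} (hy : y₁ < y₂) (hP : Continuous P)
    (nc : ∀ u v, 0 < u → u < v → ∃ t ∈ Icc u v, P t ≠ P u) {d : ℕ → ℝ} (hd : Enum y₁ y₂ P d)
    (hper : ∃ p i₀, 1 ≤ p ∧ ∀ i, i₀ ≤ i → Same P (d i) (d (i + 1)) (d (i + p)) (d (i + p + 1))) :
    ∃ (Θ : ℝ ≃o ℝ) (Q : ℝ → ℝ), 0 < Θ 0 ∧ Continuous Q ∧ (∀ t, Q (t + 1) = Q t) ∧
      (∀ t, 0 ≤ t → Q t = P (Θ t)) ∧ MinProp y₁ y₂ Q := by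
  classical
  obtain ⟨p, ⟨hp, i₀, hi₀⟩, hmin⟩ : ∃ p, (1 ≤ p ∧ ∃ i₀, ∀ i, i₀ ≤ i →
      Same P (d i) (d (i + 1)) (d (i + p)) (d (i + p + 1))) ∧
      ∀ p', (1 ≤ p' ∧ ∃ i₀, ∀ i, i₀ ≤ i →
      Same P (d i) (d (i + 1)) (d (i + p')) (d (i + p' + 1))) → p ≤ p' := by
    have hex : ∃ p, 1 ≤ p ∧ ∃ i₀, ∀ i, i₀ ≤ i →
      Same P (d i) (d (i + 1)) (d (i + p)) (d (i + p + 1)) := by
      obtain ⟨p, i₀, h1, h2⟩ := hper
      exact ⟨p, h1, i₀, h2⟩
    exact ⟨Nat.find hex, Nat.find_spec hex, fun p' h => Nat.find_min' hex h⟩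
  obtain ⟨θ, hθ1, hθ2, hθ3⟩ := hd.glue hP hp hi₀
  obtain ⟨Θ, hΘ0, hΘ1⟩ := linearise θ hθ1 (d i₀)
  have hdi : 0 < d i₀ := hd.pos i₀
  have hge : ∀ t, 0 ≤ t → d i₀ ≤ Θ t := fun t ht => by
    rw [← hΘ0]; exact Θ.monotone ht
  have hstep : ∀ t, 0 ≤ t → P (Θ (t + 1)) = P (Θ t) := fun t ht => by
    rw [hΘ1, hθ2 _ (hge t ht)]
  have hstepn : ∀ (n : ℕ) (t : ℝ), 0 ≤ t → P (Θ (t + n)) = P (Θ t) := by
    intro n
    induction n with
    | zero => intro t _; simp
    | succ m ih =>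
      intro t ht
      rw [Nat.cast_succ, ← add_assoc, hstep _ (by positivity), ih t ht]
  obtain ⟨Q, hQdef⟩ : ∃ Q : ℝ → ℝ, Q = (fun t => P (Θ t)) ∘ Int.fract := ⟨_, rfl⟩
  have hQper : ∀ t, Q (t + 1) = Q t := fun t => by
    rw [hQdef]; simp only [comp_apply, Int.fract_add_one]
  have hQn : ∀ (n : ℕ) t, Q (t + n) = Q t := fun n t => by
    rw [hQdef]; simp only [comp_apply, Int.fract_add_natCast]
  have hQP : ∀ t, 0 ≤ t → Q t = P (Θ t) := by
    intro t ht
    obtain ⟨n, hn⟩ := Int.eq_ofNat_of_zero_le (Int.floor_nonneg.2 ht)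
    have h1 : t = Int.fract t + n := by
      have := (Int.fract_add_floor t).symm
      rw [hn] at this
      exact_mod_cast this
    have h2 := hstepn n (Int.fract t) (Int.fract_nonneg t)
    rw [← h1] at h2
    rw [hQdef, comp_apply]
    exact h2.symm
  have hQc : Continuous Q := by
    rw [hQdef]
    refine ContinuousOn.comp_fract'' (hP.comp Θ.continuous).continuousOn ?_
    have := hstep 0 le_rfl
    rw [zero_add] at this
    exact this.symm
  refine ⟨Θ, Q, by rw [hΘ0]; exact hdi, hQc, hQper, hQP, p + 8, by omega, ?_⟩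
  intro α β γ₁ γ₂ h₁ h₂ hQQ hlt z hz hzz hcross
  obtain ⟨u, v, hzu, huv, hvz, hu, hv⟩ := hcross
  obtain ⟨L, hL⟩ : ∃ L, L = p + 8 := ⟨_, rfl⟩
  rw [← hL] at hz hzz hvz
  have hαβ : α ≤ β := (hz 0 (by omega)).1.trans (hz 0 (by omega)).2
  obtain ⟨n, hn⟩ := exists_nat_gt (-γ₁ α)
  have hpos1 : ∀ w ∈ Icc α β, 0 < γ₁ w + n := by
    intro w hw
    have := h₁.1.monotoneOn (left_mem_Icc.2 hαβ) hw hw.1
    linarith
  have hpos2 : ∀ w ∈ Icc α β, 0 < γ₂ w + n := fun w hw => by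
    have := hpos1 w hw
    have := hlt w hw
    linarith
  have hG1P : ∀ w ∈ Icc α β, P (Θ (γ₁ w + n)) = Q (γ₁ w) := fun w hw => by
    rw [← hQP _ (hpos1 w hw).le, hQn]
  have hG2P : ∀ w ∈ Icc α β, P (Θ (γ₂ w + n)) = Q (γ₂ w) := fun w hw => by
    rw [← hQP _ (hpos2 w hw).le, hQn]
  have incG : ∀ {γ : ℝ → ℝ} {a b : ℝ} (c : ℝ), IncOn γ a b → IncOn (fun w => Θ (γ w + c)) a b := by
    intro γ a b c h
    exact ⟨fun x hx y hy' hxy => Θ.strictMono (by have := h.1 hx hy' hxy; linarith),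
      Θ.continuous.comp_continuousOn (h.2.add continuousOn_const)⟩
  have zlt : ∀ i < L, z i < z (i + 1) := by
    intro i hi
    have h3 : γ₁ (z i) < γ₁ (z (i + 1)) := by rw [hzz i hi]; exact hlt _ (hz i hi.le)
    exact (h₁.1.lt_iff_lt (hz i hi.le) (hz (i + 1) hi)).1 h3
  have zmono : ∀ i j, i ≤ j → j ≤ L → z i ≤ z j := by
    intro i j hij
    induction j, hij using Nat.le_induction with
    | base => intro _; exact le_rfl
    | succ m hm ih => intro h; exact (ih (by omega)).trans (zlt m (by omega)).le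
  have z0L : z 0 ≤ z L := zmono 0 L (by omega) le_rfl
  have hsub : Icc (z 0) (z L) ⊆ Icc α β := Icc_subset_Icc (hz 0 (by omega)).1 (hz L le_rfl).2
  have h₁' : IncOn γ₁ (z 0) (z L) := ⟨h₁.1.mono hsub, h₁.2.mono hsub⟩
  have h₂' : IncOn γ₂ (z 0) (z L) := ⟨h₂.1.mono hsub, h₂.2.mono hsub⟩
  obtain ⟨κ, hκ, hκ1, hκ2⟩ := (incG (n : ℝ) h₁').inverse z0L
  obtain ⟨s, hsdef⟩ : ∃ s : ℝ → ℝ, s = fun t => Θ (γ₂ (κ t) + n) := ⟨_, rfl⟩
  obtain ⟨x, hxdef⟩ : ∃ x : ℕ → ℝ, x = fun i => s^[i] (Θ (γ₁ (z 0) + n)) := ⟨_, rfl⟩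
  have hx : ∀ i, x (i + 1) = s (x i) := fun i => by
    rw [hxdef]; exact Function.iterate_succ_apply' s i _
  have hxz : ∀ i ≤ L, x i = Θ (γ₁ (z i) + n) := by
    intro i
    induction i with
    | zero => intro _; rw [hxdef]; rfl
    | succ m ih =>
      intro h
      have hzm : z m ∈ Icc (z 0) (z L) := ⟨zmono 0 m (by omega) (by omega), zmono m L (by omega) le_rfl⟩
      have e1 := hκ1 (z m) hzm
      rw [hx, ih (by omega), hsdef]
      simp only at e1 ⊢
      rw [e1, hzz m (by omega)]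
  have mem_iff : ∀ t ∈ Icc (x 0) (x L), κ t ∈ Icc (z 0) (z L) ∧ Θ (γ₁ (κ t) + n) = t := by
    intro t ht
    rw [hxz 0 (by omega), hxz L le_rfl] at ht
    exact hκ2 t ht
  have hsInc : IncOn s (x 0) (x L) := by
    rw [hxz 0 (by omega), hxz L le_rfl, hsdef]
    have hi := incG (n : ℝ) h₂'
    refine ⟨?_, ?_⟩
    · intro a ha b hb hab
      exact hi.1 (hκ2 a ha).1 (hκ2 b hb).1 (hκ.1 ha hb hab)
    · exact hi.2.comp hκ.2 fun a ha => (hκ2 a ha).1
  obtain ⟨r, hr1, hsame, htm, hst⟩ := Model.key (x := x) (s := s) hy hP hd (L := L) (by omega)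
    (by rw [hxz 0 (by omega)]; exact hdi.trans_le (hge _ (hpos1 _ (hz 0 (by omega))).le)) hx
    (fun i hi => by
      rw [hxz 0 (by omega), hxz i hi, hxz L le_rfl]
      have hi1 := incG (n : ℝ) h₁'
      have m0 : z 0 ∈ Icc (z 0) (z L) := left_mem_Icc.2 z0L
      have mi : z i ∈ Icc (z 0) (z L) := ⟨zmono 0 i (by omega) hi, zmono i L hi le_rfl⟩
      have mL : z L ∈ Icc (z 0) (z L) := right_mem_Icc.2 z0L
      exact ⟨hi1.1.monotoneOn m0 mi mi.1, hi1.1.monotoneOn mi mL mi.2⟩)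
    hsInc
    (fun t ht => by
      obtain ⟨m1, m2⟩ := mem_iff t ht
      rw [hsdef]
      calc t = Θ (γ₁ (κ t) + n) := m2.symm
        _ < Θ (γ₂ (κ t) + n) := Θ.strictMono (by have := hlt _ (hsub m1); linarith))
    (fun t ht => by
      obtain ⟨m1, m2⟩ := mem_iff t ht
      rw [hsdef]
      simp only
      rw [hG2P _ (hsub m1), ← hQQ _ (hsub m1), ← hG1P _ (hsub m1), m2])
    (by
      have hi1 := incG (n : ℝ) h₁'
      have mu : u ∈ Icc (z 0) (z L) := ⟨hzu, huv.trans hvz⟩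
      have mv : v ∈ Icc (z 0) (z L) := ⟨hzu.trans huv, hvz⟩
      refine ⟨Θ (γ₁ u + n), Θ (γ₁ v + n), ?_, ?_, ?_, ?_, ?_⟩
      · rw [hxz 0 (by omega)]; exact hi1.1.monotoneOn (left_mem_Icc.2 z0L) mu mu.1
      · exact hi1.1.monotoneOn mu mv huv
      · rw [hxz L le_rfl]; exact hi1.1.monotoneOn mv (right_mem_Icc.2 z0L) mv.2
      · rw [hG1P _ (hsub mu)]; exact hu
      · rw [hG1P _ (hsub mv)]; exact hv)
  -- the letters
  obtain ⟨a, hadef⟩ : ∃ a : ℕ → Set ℕ,
      a = fun i => {j | Same P (d i) (d (i + 1)) (d j) (d (j + 1))} := ⟨_, rfl⟩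
  have ha : ∀ i k, a i = a k ↔ Same P (d i) (d (i + 1)) (d k) (d (k + 1)) := by
    intro i k
    rw [hadef]
    constructor
    · intro h
      have : k ∈ {j | Same P (d k) (d (k + 1)) (d j) (d (j + 1))} := Model.same_refl _ _ _
      rw [← show {j | Same P (d i) (d (i + 1)) (d j) (d (j + 1))} =
        {j | Same P (d k) (d (k + 1)) (d j) (d (j + 1))} from h] at this
      exact this
    · intro h
      ext j
      exact ⟨fun h' => Model.same_trans (Model.same_symm h) h', fun h' => Model.same_trans h h'⟩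
  obtain ⟨N, hN⟩ : ∃ N, N = hd.idx (x 0) := ⟨_, rfl⟩
  rw [← hN] at hsame htm hst
  have hNi : i₀ ≤ N := by
    by_contra h
    have h1 : x 0 ≤ d N := by rw [hN]; exact Model.le_idx hd _
    have h2 := hd.mono (not_le.1 h)
    have h3 : d i₀ < x 0 := by
      rw [hxz 0 (by omega), ← hΘ0]
      exact Θ.strictMono (hpos1 _ (hz 0 (by omega)))
    linarith
  have hdvd : p ∣ r := by
    obtain ⟨T, hT⟩ : ∃ T, T = (L - 2) * r := ⟨_, rfl⟩
    have hT2 : p + 1 ≤ T := by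
      rw [hT]
      calc p + 1 ≤ (L - 2) * 1 := by omega
        _ ≤ (L - 2) * r := Nat.mul_le_mul_left _ hr1
    refine min_period_dvd a p i₀ hp (fun i hi => (ha _ _).2 (hi₀ i hi)) ?_ r N (N + T + r - 1) hr1
      hNi (by omega) ?_
    · intro p' i₁ hp' h
      exact hmin p' ⟨hp', i₁, fun i hi => (ha _ _).1 (h i hi)⟩
    · intro i hi1 hi2
      rw [ha]
      exact hsame i hi1 (by rw [← hT]; omega)
  obtain ⟨j, rfl⟩ := hdvd
  have hθd : ∀ (m i : ℕ), i₀ ≤ i → θ^[m] (d i) = d (i + p * m) := by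
    intro m
    induction m with
    | zero => intro i _; simp
    | succ q ih =>
      intro i hi
      rw [Function.iterate_succ_apply', ih i hi, hθ3 _ (by omega)]
      congr 1
      ring
  have hΘj : ∀ (m : ℕ) (t : ℝ), Θ (t + m) = θ^[m] (Θ t) := by
    intro m
    induction m with
    | zero => intro t; simp
    | succ q ih =>
      intro t
      rw [Nat.cast_succ, ← add_assoc, hΘ1, ih, Function.iterate_succ_apply']
  refine ⟨j, ?_⟩
  obtain ⟨m1, m2⟩ := mem_iff _ htm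
  have hfin := agree (Q := P) hP (lo := 0) (α := α) (β := β) nc
    (incG ((n : ℝ) + j) h₁) (incG (n : ℝ) h₂)
    (fun w hw => hdi.trans_le (hge _ (by
      have h1 := hpos1 w hw
      have h2 : (0 : ℝ) ≤ j := Nat.cast_nonneg j
      linarith)))
    (fun w hw => hdi.trans_le (hge _ (hpos2 w hw).le))
    (fun w hw => by
      rw [← add_assoc, hstepn j _ (hpos1 w hw).le, hG1P w hw, hG2P w hw, hQQ w hw])
    (t₀ := κ (d N)) (hsub m1)
    (by
      rw [← add_assoc, hΘj, m2, hθd j N hNi, ← hst, hsdef])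
  intro w hw
  have := Θ.injective (hfin w hw)
  linarith

end Pool.Agent.CFP
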