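import Pool.Agent.Lib_MP_eedf80_an.PreA3

/-!
PART A4a: the fields of `Red` for the quotient maps, except `fin`, `hon`, `odd`.
-/

set_option autoImplicit false

namespace Pool.Agent.CFP

open Set Function

namespace PreA4

variable {f g π F G : ℝ → ℝ} {a₀ b₀ y₁ y₂ s₁ s₂ : ℝ}

theorem W_W' (hc : ∀ x, f (g x) = g (f x)) (p q p' q' : ℕ) (x : ℝ) :
    W f g p q (W f g p' q' x) = W f g (p + p') (q + q') x := by
  have hc' : Function.Commute f g := fun x => hc x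
  have h1 : Function.Commute (f^[p']) (g^[q]) := hc'.iterate_iterate p' q
  simp only [W, Function.comp]
  rw [← h1.eq, ← Function.iterate_add_apply, ← Function.iterate_add_apply]

theorem W_iter' (hc : ∀ x, f (g x) = g (f x)) (p q n : ℕ) (x : ℝ) :
    (W f g p q)^[n] x = W f g (n * p) (n * q) x := by
  induction n generalizing x with
  | zero => simp [W]
  | succ n ih =>
    rw [Function.iterate_succ_apply, ih, W_W' hc]
    congr 1 <;> ring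

theorem W_one_zero (x : ℝ) : W f g 1 0 x = f x := by simp [W]

theorem W_zero_one (x : ℝ) : W f g 0 1 x = g x := by simp [W]

theorem y12 (h : Pre f g a₀ b₀ y₁ y₂ s₁ s₂) : y₁ < y₂ := h.y1s1.trans (h.s1s2.trans h.s2y2)

theorem cov_iter {u : ℝ → ℝ} {S : Set ℝ} (hu : S ⊆ u '' S) (n : ℕ) : S ⊆ u^[n] '' S := by
  induction n with
  | zero => simp
  | succ n ih =>
    intro z hz
    obtain ⟨w, hw, rfl⟩ := ih hz
    obtain ⟨v, hv, rfl⟩ := hu hw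
    exact ⟨v, hv, Function.iterate_succ_apply _ _ _⟩

/-- every word covers `I₀` from `I₀` -/
theorem covW (h : Pre f g a₀ b₀ y₁ y₂ s₁ s₂) (p q : ℕ) :
    Icc y₁ y₂ ⊆ W f g p q '' Icc y₁ y₂ := by
  intro z hz
  obtain ⟨w, hw, rfl⟩ := cov_iter h.covf p hz
  obtain ⟨v, hv, rfl⟩ := cov_iter h.covg q hw
  exact ⟨v, hv, rfl⟩

theorem contWpq (h : Pre f g a₀ b₀ y₁ y₂ s₁ s₂) (p q : ℕ) : Continuous (W f g p q) :=
  (h.contf.iterate p).comp (h.contg.iterate q)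

theorem mapsW (h : Pre f g a₀ b₀ y₁ y₂ s₁ s₂) (p q : ℕ) :
    MapsTo (W f g p q) (Icc a₀ b₀) (Icc a₀ b₀) := by
  have h1 : MapsTo f (Icc a₀ b₀) (Icc a₀ b₀) := fun x _ => h.mapf x
  have h2 : MapsTo g (Icc a₀ b₀) (Icc a₀ b₀) := fun x _ => h.mapg x
  exact (h1.iterate p).comp (h2.iterate q)

theorem semiW (h : QData f g a₀ b₀ y₁ y₂ s₁ s₂ π F G) (p q : ℕ) (x : ℝ) :
    W F G p q (π x) = π (W f g p q x) := by
  have h1 : Function.Semiconj π f F := fun x => (h.semiF x).symm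
  have h2 : Function.Semiconj π g G := fun x => (h.semiG x).symm
  have h3 := h1.iterate_right p
  have h4 := h2.iterate_right q
  simp only [W, Function.comp]
  rw [h3.eq, h4.eq]

theorem pi_mem' (h : QData f g a₀ b₀ y₁ y₂ s₁ s₂ π F G) (x : ℝ) : π x ∈ Icc (0 : ℝ) 1 :=
  PreA3.pi_mem h.mono h.left h.right x

theorem lt_of_pi (h : QData f g a₀ b₀ y₁ y₂ s₁ s₂ π F G) {x y : ℝ} (hxy : π x < π y) : x < y := by
  by_contra hcon
  exact absurd (h.mono (not_lt.1 hcon)) (not_le.2 hxy)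

theorem lift (h : QData f g a₀ b₀ y₁ y₂ s₁ s₂ π F G) {t : ℝ} (ht : t ∈ Icc (0 : ℝ) 1) :
    ∃ x ∈ Icc a₀ b₀, π x = t := by
  have := intermediate_value_Icc h.pre.ab.le h.cont.continuousOn
    (show t ∈ Icc (π a₀) (π b₀) by rw [h.left a₀ le_rfl, h.right b₀ le_rfl]; exact ht)
  obtain ⟨x, hx, hx'⟩ := this
  exact ⟨x, hx, hx'⟩

theorem lift_btw (h : QData f g a₀ b₀ y₁ y₂ s₁ s₂ π F G) {x y t : ℝ} (hxy : x ≤ y)
    (ht : t ∈ Icc (π x) (π y)) : ∃ z ∈ Icc x y, π z = t := by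
  obtain ⟨z, hz, hz'⟩ := intermediate_value_Icc hxy h.cont.continuousOn ht
  exact ⟨z, hz, hz'⟩

theorem not_thin (h : QData f g a₀ b₀ y₁ y₂ s₁ s₂ π F G) {x y : ℝ} (hx : a₀ ≤ x) (hy : y ≤ b₀)
    (hxy : π x < π y) : ∃ n, Icc y₁ y₂ ⊆ W f g n n '' Icc x y := by
  have hle := (lt_of_pi h hxy).le
  have := (h.fib x y hx hle hy).not.1 hxy.ne
  simpa only [Thin, not_forall, not_not] using this

theorem pi_lt (h : QData f g a₀ b₀ y₁ y₂ s₁ s₂ π F G) {x y : ℝ} (hx : a₀ ≤ x) (hxy : x ≤ y)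
    (hy : y ≤ b₀) {n : ℕ} (hn : Icc y₁ y₂ ⊆ W f g n n '' Icc x y) : π x < π y := by
  refine lt_of_le_of_ne (h.mono hxy) fun he => ?_
  exact (h.fib x y hx hxy hy).1 he n hn

/-- small intervals are not invariant -/
theorem no_inv (h : QData f g a₀ b₀ y₁ y₂ s₁ s₂ π F G) {x y : ℝ} (hx : a₀ ≤ x) (hy : y ≤ b₀)
    (hxy : π x < π y) (hsm : π y - π x < π y₂ - π y₁) {p q : ℕ} (hp : 1 ≤ p) (hq : 1 ≤ q) :
    ¬ MapsTo (W f g p q) (Icc x y) (Icc x y) := by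
  intro hm
  obtain ⟨n, hn⟩ := not_thin h hx hy hxy
  have hcov : Icc y₁ y₂ ⊆ Icc x y := by
    intro z hz
    obtain ⟨w, hw, rfl⟩ := covW h.pre (n * (p - 1)) (n * (q - 1)) hz
    obtain ⟨v, hv, rfl⟩ := hn hw
    rw [W_W' h.pre.comm]
    have e1 : n * (p - 1) + n = n * p := by
      obtain ⟨p', rfl⟩ : ∃ p', p = p' + 1 := ⟨p - 1, by omega⟩
      simp; ring
    have e2 : n * (q - 1) + n = n * q := by
      obtain ⟨q', rfl⟩ : ∃ q', q = q' + 1 := ⟨q - 1, by omega⟩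
      simp; ring
    rw [e1, e2, ← W_iter' h.pre.comm]
    exact hm.iterate n hv
  have k1 := (hcov (left_mem_Icc.2 (y12 h.pre).le)).1
  have k2 := (hcov (right_mem_Icc.2 (y12 h.pre).le)).2
  have m1 := h.mono k1
  have m2 := h.mono k2
  linarith

/-- words map active intervals to active intervals -/
theorem img_active (h : QData f g a₀ b₀ y₁ y₂ s₁ s₂ π F G) {x y lo hi : ℝ} (hx : a₀ ≤ x)
    (hy : y ≤ b₀) (hxy : π x < π y) (p q : ℕ) (hm : MapsTo (W f g p q) (Icc x y) (Icc lo hi))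
    (hlo : a₀ ≤ lo) (hlh : lo ≤ hi) (hhi : hi ≤ b₀) : π lo < π hi := by
  obtain ⟨n, hn⟩ := not_thin h hx hy hxy
  refine pi_lt h hlo hlh hhi (n := n) ?_
  intro z hz
  obtain ⟨w, hw, rfl⟩ := covW h.pre p q hz
  obtain ⟨v, hv, rfl⟩ := hn hw
  refine ⟨W f g p q v, hm hv, ?_⟩
  rw [W_W' h.pre.comm, W_W' h.pre.comm, add_comm n p, add_comm n q]

/-- preimage of an interval -/
theorem preim (h : QData f g a₀ b₀ y₁ y₂ s₁ s₂ π F G) {a b : ℝ} (ha : 0 ≤ a) (hab : a ≤ b)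
    (hb : b ≤ 1) : ∃ x y, a₀ ≤ x ∧ x ≤ y ∧ y ≤ b₀ ∧ π x = a ∧ π y = b ∧
      ∀ z, a₀ ≤ z → z ≤ b₀ → (z ∈ Icc x y ↔ π z ∈ Icc a b) := by
  have hK : IsCompact (Icc a₀ b₀ ∩ π ⁻¹' Icc a b) :=
    isCompact_Icc.inter_right (isClosed_Icc.preimage h.cont)
  have hne : (Icc a₀ b₀ ∩ π ⁻¹' Icc a b).Nonempty := by
    obtain ⟨x, hx, hx'⟩ := lift h (t := a) ⟨ha, hab.trans hb⟩
    exact ⟨x, hx, by simp [hx', hab]⟩
  obtain ⟨x, ⟨hx1, hx2⟩, hxl⟩ := hK.exists_isLeast hne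
  obtain ⟨y, ⟨hy1, hy2⟩, hyl⟩ := hK.exists_isGreatest hne
  have hxa : π x = a := by
    apply le_antisymm _ hx2.1
    obtain ⟨z, hz, hz'⟩ := lift h (t := a) ⟨ha, hab.trans hb⟩
    rw [← hz']
    exact h.mono (hxl ⟨hz, by simp [hz', hab]⟩)
  have hyb : π y = b := by
    apply le_antisymm hy2.2
    obtain ⟨z, hz, hz'⟩ := lift h (t := b) ⟨ha.trans hab, hb⟩
    rw [← hz']
    exact h.mono (hyl ⟨hz, by simp [hz', hab]⟩)
  refine ⟨x, y, hx1.1, hxl ⟨hy1, hy2⟩, hy1.2, hxa, hyb, ?_⟩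
  intro z hz1 hz2
  constructor
  · intro hz
    rw [← hxa, ← hyb]
    exact ⟨h.mono hz.1, h.mono hz.2⟩
  · intro hz
    exact ⟨hxl ⟨⟨hz1, hz2⟩, hz⟩, hyl ⟨⟨hz1, hz2⟩, hz⟩⟩

/-- small intervals are not invariant, quotient version -/
theorem no_inv' (h : QData f g a₀ b₀ y₁ y₂ s₁ s₂ π F G) {a b : ℝ} (ha : 0 ≤ a) (hb : b ≤ 1)
    (hab : a < b) (hsm : b - a < π y₂ - π y₁) {p q : ℕ} (hp : 1 ≤ p) (hq : 1 ≤ q) :
    ¬ MapsTo (W F G p q) (Icc a b) (Icc a b) := by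
  intro hm
  obtain ⟨x, y, hx, hxy, hy, hxa, hyb, hz⟩ := preim h ha hab.le hb
  refine no_inv h hx hy (by rw [hxa, hyb]; exact hab) (by rw [hxa, hyb]; exact hsm) hp hq ?_
  intro z hz'
  have hzm : z ∈ Icc a₀ b₀ := ⟨hx.trans hz'.1, hz'.2.trans hy⟩
  have hwm := mapsW h.pre p q hzm
  rw [hz _ hwm.1 hwm.2, ← semiW h]
  exact hm ((hz z hzm.1 hzm.2).1 hz')

end PreA4

open PreA4

section

variable {f g π F G : ℝ → ℝ} {a₀ b₀ y₁ y₂ s₁ s₂ : ℝ}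

theorem QData.y1s1 (h : QData f g a₀ b₀ y₁ y₂ s₁ s₂ π F G) : π y₁ < π s₁ := by
  have P := h.pre
  refine pi_lt h P.y1 P.y1s1.le (P.s1s2.le.trans (P.s2y2.le.trans P.y2)) (n := 1) ?_
  have hc := contWpq P 1 1
  refine (Icc_subset_Icc ?_ ?_).trans (intermediate_value_Icc' P.y1s1.le hc.continuousOn)
  · simpa [W] using P.hs1
  · simpa [W] using P.hy1

theorem QData.s1s2 (h : QData f g a₀ b₀ y₁ y₂ s₁ s₂ π F G) : π s₁ < π s₂ := by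
  have P := h.pre
  refine pi_lt h (P.y1.trans P.y1s1.le) P.s1s2.le (P.s2y2.le.trans P.y2) (n := 1) ?_
  have hc := contWpq P 1 1
  refine (Icc_subset_Icc ?_ ?_).trans (intermediate_value_Icc P.s1s2.le hc.continuousOn)
  · simpa [W] using P.hs1
  · simpa [W] using P.hs2

theorem QData.s2y2 (h : QData f g a₀ b₀ y₁ y₂ s₁ s₂ π F G) : π s₂ < π y₂ := by
  have P := h.pre
  refine pi_lt h (P.y1.trans (P.y1s1.le.trans P.s1s2.le)) P.s2y2.le P.y2 (n := 1) ?_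
  have hc := contWpq P 1 1
  refine (Icc_subset_Icc ?_ ?_).trans (intermediate_value_Icc' P.s2y2.le hc.continuousOn)
  · simpa [W] using P.hy2
  · simpa [W] using P.hs2

theorem QData.covF (h : QData f g a₀ b₀ y₁ y₂ s₁ s₂ π F G) :
    Icc (π y₁) (π y₂) ⊆ F '' Icc (π y₁) (π y₂) := by
  intro t ht
  obtain ⟨x, hx, rfl⟩ := lift_btw h (y12 h.pre).le ht
  obtain ⟨z, hz, rfl⟩ := h.pre.covf hx
  exact ⟨π z, ⟨h.mono hz.1, h.mono hz.2⟩, h.semiF z⟩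

theorem QData.covG (h : QData f g a₀ b₀ y₁ y₂ s₁ s₂ π F G) :
    Icc (π y₁) (π y₂) ⊆ G '' Icc (π y₁) (π y₂) := by
  intro t ht
  obtain ⟨x, hx, rfl⟩ := lift_btw h (y12 h.pre).le ht
  obtain ⟨z, hz, rfl⟩ := h.pre.covg hx
  exact ⟨π z, ⟨h.mono hz.1, h.mono hz.2⟩, h.semiG z⟩

theorem QData.active (h : QData f g a₀ b₀ y₁ y₂ s₁ s₂ π F G) :
    ∀ a b, 0 ≤ a → a < b → b ≤ 1 → ∃ n, Icc (π y₁) (π y₂) ⊆ W F G n n '' Icc a b := by
  intro a b ha hab hb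
  obtain ⟨x, hx, rfl⟩ := lift h (t := a) ⟨ha, hab.le.trans hb⟩
  obtain ⟨y, hy, rfl⟩ := lift h (t := b) ⟨ha.trans hab.le, hb⟩
  obtain ⟨n, hn⟩ := not_thin h hx.1 hy.2 hab
  refine ⟨n, ?_⟩
  intro t ht
  obtain ⟨z, hz, rfl⟩ := lift_btw h (y12 h.pre).le ht
  obtain ⟨w, hw, rfl⟩ := hn hz
  exact ⟨π w, ⟨h.mono hw.1, h.mono hw.2⟩, semiW h n n w⟩

theorem QData.minimal (h : QData f g a₀ b₀ y₁ y₂ s₁ s₂ π F G) :
    ∀ a b, 0 ≤ a → a ≤ b → b ≤ 1 → MapsTo F (Icc a b) (Icc a b) →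
      MapsTo G (Icc a b) (Icc a b) → a = 0 ∧ b = 1 := by
  intro a b ha hab hb hF hG
  obtain ⟨x, y, hx, hxy, hy, hxa, hyb, hz⟩ := preim h ha hab hb
  have key : ∀ u U : ℝ → ℝ, (∀ x, u x ∈ Icc a₀ b₀) → (∀ x, U (π x) = π (u x)) →
      MapsTo U (Icc a b) (Icc a b) → MapsTo u (Icc x y) (Icc x y) := by
    intro u U hu hs hU z hz'
    have hzm : z ∈ Icc a₀ b₀ := ⟨hx.trans hz'.1, hz'.2.trans hy⟩
    rw [hz _ (hu z).1 (hu z).2, ← hs]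
    exact hU ((hz z hzm.1 hzm.2).1 hz')
  obtain ⟨e1, e2⟩ := h.pre.minimal x y hx hxy hy (key f F h.pre.mapf h.semiF hF)
    (key g G h.pre.mapg h.semiG hG)
  subst e1 e2
  exact ⟨by rw [← hxa, h.left _ le_rfl], by rw [← hyb, h.right _ le_rfl]⟩

end

end Pool.Agent.CFP
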