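import Pool.Agent.Lib_MP_eedf80_an.PreA4a

/-!
PART A4b: the fields `fin`, `hon`, `odd` of `Red` for the quotient maps.
-/

set_option autoImplicit false

namespace Pool.Agent.CFP

open Set Function Filter Topology

namespace PreA4

variable {f g π F G : ℝ → ℝ} {a₀ b₀ y₁ y₂ s₁ s₂ : ℝ}

/-! ### Reflection -/

theorem W_refl (p q : ℕ) (x : ℝ) :
    W (fun x => -f (-x)) (fun x => -g (-x)) p q x = -W f g p q (-x) := by
  have h1 : Function.Semiconj (fun x : ℝ => -x) f (fun x => -f (-x)) := fun x => by simp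
  have h2 : Function.Semiconj (fun x : ℝ => -x) g (fun x => -g (-x)) := fun x => by simp
  have h3 := (h1.iterate_right p).eq
  have h4 := (h2.iterate_right q).eq
  simp only [W, Function.comp]
  have h5 := h4 (-x)
  rw [neg_neg] at h5
  rw [← h5]
  exact (h3 _).symm

theorem W_refl' (p q : ℕ) (x : ℝ) :
    W (fun x => 1 - F (1 - x)) (fun x => 1 - G (1 - x)) p q x = 1 - W F G p q (1 - x) := by
  have h1 : Function.Semiconj (fun x : ℝ => 1 - x) F (fun x => 1 - F (1 - x)) := fun x => by simp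
  have h2 : Function.Semiconj (fun x : ℝ => 1 - x) G (fun x => 1 - G (1 - x)) := fun x => by simp
  have h3 := (h1.iterate_right p).eq
  have h4 := (h2.iterate_right q).eq
  simp only [W, Function.comp]
  have h5 := h4 (1 - x)
  rw [sub_sub_cancel] at h5
  rw [← h5]
  exact (h3 _).symm

theorem thin_refl {x y : ℝ} : Thin (fun x => -f (-x)) (fun x => -g (-x)) (-y₂) (-y₁) x y ↔
    Thin f g y₁ y₂ (-y) (-x) := by
  have key : ∀ n, (Icc (-y₂) (-y₁) ⊆
      W (fun x => -f (-x)) (fun x => -g (-x)) n n '' Icc x y) ↔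
      Icc y₁ y₂ ⊆ W f g n n '' Icc (-y) (-x) := by
    intro n
    constructor
    · intro hs z hz
      obtain ⟨w, hw, hwz⟩ := hs (show -z ∈ Icc (-y₂) (-y₁) from ⟨neg_le_neg hz.2, neg_le_neg hz.1⟩)
      rw [W_refl] at hwz
      exact ⟨-w, ⟨neg_le_neg hw.2, neg_le_neg hw.1⟩, neg_injective hwz⟩
    · intro hs z hz
      obtain ⟨w, hw, hwz⟩ := hs (show -z ∈ Icc y₁ y₂ from
        ⟨by linarith [hz.2], by linarith [hz.1]⟩)
      refine ⟨-w, ⟨by linarith [hw.2], by linarith [hw.1]⟩, ?_⟩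
      rw [W_refl, neg_neg, hwz, neg_neg]
  simp only [Thin, key]

theorem pre_refl (h : Pre f g a₀ b₀ y₁ y₂ s₁ s₂) :
    Pre (fun x => -f (-x)) (fun x => -g (-x)) (-b₀) (-a₀) (-y₂) (-y₁) (-s₂) (-s₁) := by
  have hC1 : ∀ u : ℝ → ℝ, ContDiffOn ℝ 1 u (Icc a₀ b₀) →
      ContDiffOn ℝ 1 (fun x => -u (-x)) (Icc (-b₀) (-a₀)) := by
    intro u hu
    refine (hu.comp contDiff_neg.contDiffOn ?_).neg
    intro x hx
    exact ⟨by linarith [hx.2], by linarith [hx.1]⟩
  have hcov : ∀ u : ℝ → ℝ, Icc y₁ y₂ ⊆ u '' Icc y₁ y₂ →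
      Icc (-y₂) (-y₁) ⊆ (fun x => -u (-x)) '' Icc (-y₂) (-y₁) := by
    intro u hu z hz
    obtain ⟨w, hw, hwz⟩ := hu (show -z ∈ Icc y₁ y₂ from ⟨by linarith [hz.2], by linarith [hz.1]⟩)
    refine ⟨-w, ⟨neg_le_neg hw.2, neg_le_neg hw.1⟩, ?_⟩
    simp only [neg_neg, hwz]
  have hmap : ∀ (u : ℝ → ℝ) (a b : ℝ), MapsTo (fun x => -u (-x)) (Icc a b) (Icc a b) →
      MapsTo u (Icc (-b) (-a)) (Icc (-b) (-a)) := by
    intro u a b hu x hx
    have := hu (show -x ∈ Icc a b from ⟨by linarith [hx.2], by linarith [hx.1]⟩)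
    simp only [neg_neg] at this
    exact ⟨by linarith [this.2], by linarith [this.1]⟩
  refine
    { ab := neg_lt_neg h.ab
      contf := (h.contf.comp continuous_neg).neg
      contg := (h.contg.comp continuous_neg).neg
      mapf := fun x => ⟨neg_le_neg (h.mapf _).2, neg_le_neg (h.mapf _).1⟩
      mapg := fun x => ⟨neg_le_neg (h.mapg _).2, neg_le_neg (h.mapg _).1⟩
      comm := fun x => by simp only [neg_neg, h.comm]
      leftf := fun x hx => by
        simp only [neg_neg]; rw [h.rightf (-x) (by linarith)]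
      leftg := fun x hx => by
        simp only [neg_neg]; rw [h.rightg (-x) (by linarith)]
      rightf := fun x hx => by
        simp only [neg_neg]; rw [h.leftf (-x) (by linarith)]
      rightg := fun x hx => by
        simp only [neg_neg]; rw [h.leftg (-x) (by linarith)]
      C1f := hC1 f h.C1f
      C1g := hC1 g h.C1g
      y1 := neg_le_neg h.y2
      y1s1 := neg_lt_neg h.s2y2
      s1s2 := neg_lt_neg h.s1s2
      s2y2 := neg_lt_neg h.y1s1
      y2 := neg_le_neg h.y1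
      hy1 := by simp only [neg_neg]; exact neg_le_neg h.hy2
      hs1 := by simp only [neg_neg]; exact neg_le_neg h.hs2
      hs2 := by simp only [neg_neg]; exact neg_le_neg h.hs1
      hy2 := by simp only [neg_neg]; exact neg_le_neg h.hy1
      covf := hcov f h.covf
      covg := hcov g h.covg
      minimal := fun a b ha hab hb hf hg => by
        have := h.minimal (-b) (-a) (by linarith) (by linarith) (by linarith)
          (hmap f a b hf) (hmap g a b hg)
        exact ⟨by linarith [this.2], by linarith [this.1]⟩ }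

theorem refl (h : QData f g a₀ b₀ y₁ y₂ s₁ s₂ π F G) :
    QData (fun x => -f (-x)) (fun x => -g (-x)) (-b₀) (-a₀) (-y₂) (-y₁) (-s₂) (-s₁)
      (fun x => 1 - π (-x)) (fun t => 1 - F (1 - t)) (fun t => 1 - G (1 - t)) where
  pre := pre_refl h.pre
  mono := fun x y hxy => sub_le_sub_left (h.mono (neg_le_neg hxy)) 1
  cont := continuous_const.sub (h.cont.comp continuous_neg)
  left := fun x hx => by simp only [h.right (-x) (by linarith), sub_self]
  right := fun x hx => by simp only [h.left (-x) (by linarith), sub_zero]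
  fib := fun x y hx hxy hy => by
    rw [thin_refl, ← h.fib (-y) (-x) (by linarith) (by linarith) (by linarith)]
    constructor
    · intro he; linarith
    · intro he; linarith
  contF := continuous_const.sub (h.contF.comp (continuous_const.sub continuous_id))
  contG := continuous_const.sub (h.contG.comp (continuous_const.sub continuous_id))
  mapF := fun t => ⟨by linarith [(h.mapF (1 - t)).2], by linarith [(h.mapF (1 - t)).1]⟩
  mapG := fun t => ⟨by linarith [(h.mapG (1 - t)).2], by linarith [(h.mapG (1 - t)).1]⟩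
  semiF := fun x => by simp only [sub_sub_cancel, neg_neg, h.semiF]
  semiG := fun x => by simp only [sub_sub_cancel, neg_neg, h.semiG]
  commFG := fun t => by simp only [sub_sub_cancel, h.commFG]

/-! ### Smoothness -/

theorem contDiffW (h : Pre f g a₀ b₀ y₁ y₂ s₁ s₂) (p q : ℕ) :
    ContDiffOn ℝ 1 (W f g p q) (Icc a₀ b₀) := by
  have key : ∀ u : ℝ → ℝ, ContDiffOn ℝ 1 u (Icc a₀ b₀) → (∀ x, u x ∈ Icc a₀ b₀) → ∀ n : ℕ,
      ContDiffOn ℝ 1 (u^[n]) (Icc a₀ b₀) ∧ MapsTo (u^[n]) (Icc a₀ b₀) (Icc a₀ b₀) := by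
    intro u hu hm n
    have hmap : MapsTo u (Icc a₀ b₀) (Icc a₀ b₀) := fun x _ => hm x
    induction n with
    | zero => exact ⟨contDiff_id.contDiffOn, mapsTo_id _⟩
    | succ n ih =>
      rw [Function.iterate_succ']
      exact ⟨hu.comp ih.1 ih.2, hmap.comp ih.2⟩
  exact (key f h.C1f h.mapf p).1.comp (key g h.C1g h.mapg q).1 (key g h.C1g h.mapg q).2

theorem mono_near {w : ℝ → ℝ} {r : ℝ} (hab : a₀ < b₀) (hw : ContDiffOn ℝ 1 w (Icc a₀ b₀))
    (hr : r ∈ Icc a₀ b₀) (hd : 0 < derivWithin w (Icc a₀ b₀) r) :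
    ∃ ε > 0, StrictMonoOn w (Icc a₀ b₀ ∩ Icc (r - ε) (r + ε)) := by
  have hc := hw.continuousOn_derivWithin (uniqueDiffOn_Icc hab) (le_refl 1)
  have hev := (hc r hr).eventually_const_lt hd
  obtain ⟨δ, hδ, hball⟩ := Metric.mem_nhdsWithin_iff.1 hev
  refine ⟨δ / 2, by positivity, ?_⟩
  apply strictMonoOn_of_deriv_pos ((convex_Icc _ _).inter (convex_Icc _ _))
  · exact hw.continuousOn.mono inter_subset_left
  · intro x hx
    rw [interior_inter, interior_Icc, interior_Icc] at hx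
    have hx1 : x ∈ Icc a₀ b₀ := Ioo_subset_Icc_self hx.1
    have hx2 : x ∈ Metric.ball r δ := by
      rw [Metric.mem_ball, Real.dist_eq, abs_lt]
      exact ⟨by linarith [hx.2.1], by linarith [hx.2.2]⟩
    have := hball ⟨hx2, hx1⟩
    rw [Set.mem_ofPred_eq, derivWithin_of_mem_nhds (Icc_mem_nhds hx.1.1 hx.1.2)] at this
    exact this

theorem anti_near {w : ℝ → ℝ} {r : ℝ} (hab : a₀ < b₀) (hw : ContDiffOn ℝ 1 w (Icc a₀ b₀))
    (hr : r ∈ Icc a₀ b₀) (hd : derivWithin w (Icc a₀ b₀) r < 0) :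
    ∃ ε > 0, StrictAntiOn w (Icc a₀ b₀ ∩ Icc (r - ε) (r + ε)) := by
  obtain ⟨ε, hε, hm⟩ := mono_near hab hw.neg hr (by
    have : derivWithin (-w) (Icc a₀ b₀) r = -derivWithin w (Icc a₀ b₀) r := derivWithin.neg ..
    rw [show (fun x => -w x) = -w from rfl, this]; linarith)
  refine ⟨ε, hε, fun x hx y hy hxy => ?_⟩
  have := hm hx hy hxy
  simp only at this
  linarith

theorem hasD (h : Pre f g a₀ b₀ y₁ y₂ s₁ s₂) (p q : ℕ) {x : ℝ} (hx : x ∈ Icc a₀ b₀) :
    HasDerivWithinAt (W f g p q) (derivWithin (W f g p q) (Icc a₀ b₀) x) (Icc a₀ b₀) x :=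
  ((contDiffW h p q).differentiableOn (by norm_num) x hx).hasDerivWithinAt

theorem chain (h : Pre f g a₀ b₀ y₁ y₂ s₁ s₂) (p q p' q' : ℕ) {x : ℝ} (hx : x ∈ Icc a₀ b₀) :
    derivWithin (W f g (p + p') (q + q')) (Icc a₀ b₀) x =
      derivWithin (W f g p q) (Icc a₀ b₀) (W f g p' q' x) *
        derivWithin (W f g p' q') (Icc a₀ b₀) x := by
  have h1 := (hasD h p q (mapsW h p' q' hx)).comp x (hasD h p' q' hx) (mapsW h p' q')
  have h2 : W f g p q ∘ W f g p' q' = W f g (p + p') (q + q') := by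
    funext z; exact W_W' h.comm p q p' q' z
  rw [h2] at h1
  exact h1.derivWithin (uniqueDiffOn_Icc h.ab x hx)

/-! ### Fibres -/

theorem right_end (h : QData f g a₀ b₀ y₁ y₂ s₁ s₂ π F G) {c : ℝ} (hc0 : 0 ≤ c) (hc1 : c < 1) :
    ∃ r, a₀ ≤ r ∧ r < b₀ ∧ π r = c ∧ ∀ x, r < x → c < π x := by
  obtain ⟨x, y, hx, hxy, hy, hxa, hyb, hz⟩ := preim h hc0 le_rfl hc1.le
  refine ⟨y, hx.trans hxy, ?_, hyb, ?_⟩
  · refine lt_of_le_of_ne hy fun he => ?_
    rw [he, h.right _ le_rfl] at hyb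
    linarith
  · intro z hyz
    rcases le_total z b₀ with hzb | hzb
    · have h1 : c ≤ π z := by rw [← hyb]; exact h.mono hyz.le
      refine lt_of_le_of_ne h1 fun he => ?_
      have := (hz z (hx.trans (hxy.trans hyz.le)) hzb).2 (by rw [← he]; exact ⟨le_rfl, le_rfl⟩)
      linarith [this.2]
    · rw [h.right z hzb]; exact hc1

theorem fibre (h : QData f g a₀ b₀ y₁ y₂ s₁ s₂ π F G) {c : ℝ} (hc0 : 0 < c) (hc1 : c < 1) :
    ∃ l r, a₀ < l ∧ l ≤ r ∧ r < b₀ ∧ ∀ z, π z = c ↔ z ∈ Icc l r := by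
  obtain ⟨x, y, hx, hxy, hy, hxa, hyb, hz⟩ := preim h hc0.le le_rfl hc1.le
  refine ⟨x, y, ?_, hxy, ?_, ?_⟩
  · refine lt_of_le_of_ne hx fun he => ?_
    rw [← he, h.left _ le_rfl] at hxa
    linarith
  · refine lt_of_le_of_ne hy fun he => ?_
    rw [he, h.right _ le_rfl] at hyb
    linarith
  · intro z
    rcases lt_or_ge z a₀ with h1 | h1
    · rw [h.left z h1.le]
      constructor
      · intro he; linarith
      · intro he; linarith [he.1]
    · rcases lt_or_ge b₀ z with h2 | h2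
      · rw [h.right z h2.le]
        constructor
        · intro he; linarith
        · intro he; linarith [he.2]
      · rw [hz z h1 h2]
        constructor
        · intro he; rw [he]; exact ⟨le_rfl, le_rfl⟩
        · intro he; exact le_antisymm he.2 he.1

/-- points close to `r` are mapped close to `c` -/
theorem near (h : QData f g a₀ b₀ y₁ y₂ s₁ s₂ π F G) (r : ℝ) {ε : ℝ} (hε : 0 < ε) :
    ∃ η > 0, ∀ x, |x - r| ≤ η → |π x - π r| < ε := by
  obtain ⟨δ, hδ, hh⟩ := Metric.continuous_iff.1 h.cont r ε hε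
  refine ⟨δ / 2, by positivity, fun x hx => ?_⟩
  have := hh x (by rw [Real.dist_eq]; linarith)
  rwa [Real.dist_eq] at this

/-! ### fin -/

theorem fin_right (h : QData f g a₀ b₀ y₁ y₂ s₁ s₂ π F G) {p q : ℕ} (hp : 1 ≤ p) (hq : 1 ≤ q)
    {c : ℝ} (hc0 : 0 ≤ c) (hc1 : c < 1)
    (hacc : ∀ ε > 0, ∃ s ∈ Ioo c (c + ε), W F G p q s = s) : False := by
  obtain ⟨r, hr1, hr2, hr3, hr4⟩ := right_end h hc0 hc1
  have P := h.pre
  have hrI : r ∈ Icc a₀ b₀ := ⟨hr1, hr2.le⟩
  have hwc := contWpq P p q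
  -- fixed points close to r
  have claim : ∀ η > 0, ∀ ε > 0, ∃ x, r < x ∧ x < r + η ∧ x ≤ b₀ ∧ π x < c + ε ∧
      W f g p q x = x := by
    intro η hη ε hε
    have h1 : c < π (min (r + η) b₀) := hr4 _ (lt_min (by linarith) hr2)
    obtain ⟨s, hs, hfix⟩ := hacc (min (π (min (r + η) b₀) - c) ε) (lt_min (by linarith) hε)
    have hs1 : s < π (min (r + η) b₀) := by
      have := hs.2
      have := min_le_left (π (min (r + η) b₀) - c) ε
      linarith
    have hs2 : s < c + ε := by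
      have := hs.2
      have := min_le_right (π (min (r + η) b₀) - c) ε
      linarith
    have hsm : s ∈ Icc (0 : ℝ) 1 := ⟨hc0.trans hs.1.le, hs1.le.trans (pi_mem' h _).2⟩
    obtain ⟨x, y, hx, hxy, hy, hxa, hyb, hz⟩ := preim h hsm.1 le_rfl hsm.2
    have hmaps : MapsTo (W f g p q) (Icc x y) (Icc x y) := by
      intro z hz'
      have hzm : z ∈ Icc a₀ b₀ := ⟨hx.trans hz'.1, hz'.2.trans hy⟩
      have hwm := mapsW P p q hzm
      rw [hz _ hwm.1 hwm.2, ← semiW h]
      have : π z = s := by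
        have := (hz z hzm.1 hzm.2).1 hz'
        exact le_antisymm this.2 this.1
      rw [this, hfix]
      exact ⟨le_rfl, le_rfl⟩
    obtain ⟨z, hz', hzf⟩ := exists_mem_Icc_isFixedPt_of_mapsTo hwc.continuousOn hxy hmaps
    have hzs : π z = s := le_antisymm (by rw [← hyb]; exact h.mono hz'.2)
      (by rw [← hxa]; exact h.mono hz'.1)
    have hz1 : r < z := lt_of_pi h (by rw [hr3, hzs]; exact hs.1)
    have hz2 : z < min (r + η) b₀ := lt_of_pi h (by rw [hzs]; exact hs1)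
    exact ⟨z, hz1, hz2.trans_le (min_le_left _ _), (hz2.trans_le (min_le_right _ _)).le,
      by rw [hzs]; exact hs2, hzf⟩
  have hwr : W f g p q r = r := by
    have hcl : IsClosed {x | W f g p q x = x} := isClosed_eq hwc continuous_id
    have : r ∈ closure {x | W f g p q x = x} := by
      rw [Metric.mem_closure_iff]
      intro ε hε
      obtain ⟨x, h1, h2, -, -, h5⟩ := claim ε hε 1 one_pos
      refine ⟨x, h5, ?_⟩
      rw [Real.dist_eq, abs_lt]
      exact ⟨by linarith, by linarith⟩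
    rwa [hcl.closure_eq] at this
  have hd1 : derivWithin (W f g p q) (Icc a₀ b₀) r = 1 := by
    by_contra hne
    have h1 : HasDerivWithinAt (fun x => W f g p q x - x)
        (derivWithin (W f g p q) (Icc a₀ b₀) r - 1) (Icc a₀ b₀) r :=
      (hasD P p q hrI).sub (hasDerivWithinAt_id r _)
    have h2 := h1.eventually_ne (c := 0) (sub_ne_zero.2 hne)
    obtain ⟨δ, hδ, hball⟩ := Metric.mem_nhdsWithin_iff.1 h2
    obtain ⟨x, k1, k2, k3, -, k5⟩ := claim δ hδ 1 one_pos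
    refine hball ⟨?_, ⟨⟨hr1.trans k1.le, k3⟩, k1.ne'⟩⟩ (by simp only [k5, sub_self])
    rw [Metric.mem_ball, Real.dist_eq, abs_lt]
    exact ⟨by linarith, by linarith⟩
  obtain ⟨ε, hε, hm⟩ := mono_near P.ab (contDiffW P p q) hrI (by rw [hd1]; exact one_pos)
  have hgap : 0 < π y₂ - π y₁ := by
    have := h.y1s1.trans (h.s1s2.trans h.s2y2)
    linarith
  obtain ⟨x₂, a1, a2, a3, a4, a5⟩ := claim ε hε _ hgap
  obtain ⟨x₁, b1, b2, b3, b4, b5⟩ := claim ε hε (π x₂ - c) (by linarith [hr4 x₂ a1])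
  have hpi : π x₁ < π x₂ := by linarith
  have hx12 : x₁ < x₂ := lt_of_pi h hpi
  refine no_inv h (hr1.trans b1.le) a3 hpi (by linarith [hr4 x₁ b1]) hp hq ?_
  have hmono := hm.monotoneOn
  have hmem : ∀ z ∈ Icc x₁ x₂, z ∈ Icc a₀ b₀ ∩ Icc (r - ε) (r + ε) := fun z hz =>
    ⟨⟨by linarith [hz.1], by linarith [hz.2]⟩, ⟨by linarith [hz.1], by linarith [hz.2]⟩⟩
  intro z hz
  constructor
  · rw [← b5]
    exact hmono (hmem _ ⟨le_rfl, hx12.le⟩) (hmem _ hz) hz.1
  · rw [← a5]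
    exact hmono (hmem _ hz) (hmem _ ⟨hx12.le, le_rfl⟩) hz.2

theorem W_mem01 (h : QData f g a₀ b₀ y₁ y₂ s₁ s₂ π F G) {p : ℕ} (q : ℕ) (hp : 1 ≤ p) (x : ℝ) :
    W F G p q x ∈ Icc (0 : ℝ) 1 := by
  obtain ⟨p', rfl⟩ : ∃ p', p = p' + 1 := ⟨p - 1, by omega⟩
  simp only [W, Function.comp, Function.iterate_succ_apply']
  exact h.mapF _

theorem contWFG (h : QData f g a₀ b₀ y₁ y₂ s₁ s₂ π F G) (p q : ℕ) : Continuous (W F G p q) :=
  (h.contF.iterate p).comp (h.contG.iterate q)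

end PreA4

open PreA4

variable {f g π F G : ℝ → ℝ} {a₀ b₀ y₁ y₂ s₁ s₂ : ℝ}

theorem QData.fin (h : QData f g a₀ b₀ y₁ y₂ s₁ s₂ π F G) :
    ∀ p q, 1 ≤ p → 1 ≤ q → {x | W F G p q x = x}.Finite := by
  intro p q hp hq
  by_contra hinf
  have hsub : {x | W F G p q x = x} ⊆ Icc (0 : ℝ) 1 := by
    intro x hx
    rw [← show W F G p q x = x from hx]
    exact W_mem01 h q hp x
  obtain ⟨c, hc, hacc⟩ := Set.Infinite.exists_accPt_of_subset_isCompact hinf isCompact_Icc hsub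
  have hR : ∃ ε > 0, ∀ s ∈ Ioo c (c + ε), W F G p q s ≠ s := by
    by_contra hcon
    push Not at hcon
    obtain ⟨s, hs, hfs⟩ := hcon 1 one_pos
    have hs1 := (hsub hfs).2
    exact fin_right h hp hq hc.1 (hs.1.trans_le hs1) hcon
  have hL : ∃ ε > 0, ∀ s ∈ Ioo (c - ε) c, W F G p q s ≠ s := by
    by_contra hcon
    push Not at hcon
    obtain ⟨s, hs, hfs⟩ := hcon 1 one_pos
    have hs1 := (hsub hfs).1
    refine fin_right (refl h) hp hq (c := 1 - c) (by linarith [hc.2]) (by linarith [hs.2]) ?_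
    intro ε hε
    obtain ⟨s, hs, hfs⟩ := hcon ε hε
    refine ⟨1 - s, ⟨by linarith [hs.2], by linarith [hs.1]⟩, ?_⟩
    rw [W_refl', sub_sub_cancel, hfs]
  obtain ⟨ε₁, h1, h1'⟩ := hR
  obtain ⟨ε₂, h2, h2'⟩ := hL
  rw [accPt_iff_nhds] at hacc
  obtain ⟨s, ⟨hs1, hs2⟩, hs3⟩ := hacc (Ioo (c - ε₂) (c + ε₁))
    (Ioo_mem_nhds (by linarith) (by linarith))
  rcases lt_or_gt_of_ne hs3 with hlt | hlt
  · exact h2' s ⟨hs1.1, hlt⟩ hs2
  · exact h1' s ⟨hlt, hs1.2⟩ hs2

end Pool.Agent.CFP
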