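import Pool.Agent.Lib_MP_eedf80_an.PreA4b

/-!
PART A4b, continued: the fields `hon` and `odd` of `Red` for the quotient maps.
-/

set_option autoImplicit false

namespace Pool.Agent.CFP

open Set Function Filter Topology

namespace PreA4

variable {f g π F G : ℝ → ℝ} {a₀ b₀ y₁ y₂ s₁ s₂ : ℝ}

/-! ### hon -/

theorem deriv_ge_one {w : ℝ → ℝ} {r d η : ℝ} (hr1 : a₀ ≤ r) (hr2 : r < b₀) (hη : 0 < η)
    (hd : HasDerivWithinAt w d (Icc a₀ b₀) r) (hwr : w r = r)
    (hw : ∀ x, r < x → x < r + η → x ≤ w x) : 1 ≤ d := by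
  have hmem : Icc a₀ b₀ ∈ 𝓝[>] r := Icc_mem_nhdsGT_of_mem ⟨hr1, hr2⟩
  have h1 : HasDerivWithinAt w d (Ioi r) r := hd.mono_of_mem_nhdsWithin hmem
  rw [hasDerivWithinAt_iff_tendsto_slope' (self_notMem_Ioi)] at h1
  refine ge_of_tendsto h1 ?_
  have h2 : Ioo r (r + η) ∈ 𝓝[>] r := Ioo_mem_nhdsGT (by linarith)
  filter_upwards [h2] with x hx
  rw [slope_def_field, hwr, le_div_iff₀ (by linarith [hx.1])]
  linarith [hw x hx.1 hx.2]

theorem inj_right (h : QData f g a₀ b₀ y₁ y₂ s₁ s₂ π F G) {c r : ℝ} (hr1 : a₀ ≤ r) (hr2 : r < b₀)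
    (hr3 : π r = c) (hr4 : ∀ x, r < x → c < π x) (i j : ℕ)
    (hd : derivWithin (W f g i j) (Icc a₀ b₀) r ≠ 0) :
    ∃ ε > 0, InjOn (W F G i j) (Icc c (c + ε)) := by
  have P := h.pre
  have hrI : r ∈ Icc a₀ b₀ := ⟨hr1, hr2.le⟩
  have key : ∃ ε > 0, (StrictMonoOn (W f g i j) (Icc a₀ b₀ ∩ Icc (r - ε) (r + ε)) ∨
      StrictAntiOn (W f g i j) (Icc a₀ b₀ ∩ Icc (r - ε) (r + ε))) := by
    rcases lt_or_gt_of_ne hd with hd' | hd'
    · obtain ⟨ε, h1, h2⟩ := anti_near P.ab (contDiffW P i j) hrI hd'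
      exact ⟨ε, h1, Or.inr h2⟩
    · obtain ⟨ε, h1, h2⟩ := mono_near P.ab (contDiffW P i j) hrI hd'
      exact ⟨ε, h1, Or.inl h2⟩
  obtain ⟨ε, hε, hma⟩ := key
  set R := min (r + ε) b₀ with hR
  have hrR : r < R := lt_min (by linarith) hr2
  have hR1 : R ≤ r + ε := min_le_left _ _
  have hR2 : R ≤ b₀ := min_le_right _ _
  refine ⟨π R - c, by linarith [hr4 R hrR], ?_⟩
  have main : ∀ t₁ ∈ Icc c (c + (π R - c)), ∀ t₂ ∈ Icc c (c + (π R - c)), t₁ < t₂ →
      W F G i j t₁ ≠ W F G i j t₂ := by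
    intro t₁ ht₁ t₂ ht₂ h12 heq
    obtain ⟨x₁, hx₁, rfl⟩ := lift_btw h hrR.le (t := t₁) ⟨by rw [hr3]; exact ht₁.1,
      by linarith [ht₁.2]⟩
    obtain ⟨x₂, hx₂, rfl⟩ := lift_btw h hrR.le (t := t₂) ⟨by rw [hr3]; exact ht₂.1,
      by linarith [ht₂.2]⟩
    have hx12 : x₁ < x₂ := lt_of_pi h h12
    rw [semiW h, semiW h] at heq
    have hmem : ∀ z ∈ Icc x₁ x₂, z ∈ Icc a₀ b₀ ∩ Icc (r - ε) (r + ε) := fun z hz =>
      ⟨⟨by linarith [hz.1, hx₁.1], by linarith [hz.2, hx₂.2]⟩,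
        ⟨by linarith [hz.1, hx₁.1], by linarith [hz.2, hx₂.2]⟩⟩
    have hm1 := mapsW P i j (hmem x₁ ⟨le_rfl, hx12.le⟩).1
    have hm2 := mapsW P i j (hmem x₂ ⟨hx12.le, le_rfl⟩).1
    rcases hma with hmono | hanti
    · have hle := hmono.monotoneOn (hmem x₁ ⟨le_rfl, hx12.le⟩) (hmem x₂ ⟨hx12.le, le_rfl⟩) hx12.le
      have := img_active h (hr1.trans hx₁.1) (hx₂.2.trans hR2) h12 i j
        (lo := W f g i j x₁) (hi := W f g i j x₂) (by
          intro z hz
          exact ⟨hmono.monotoneOn (hmem x₁ ⟨le_rfl, hx12.le⟩) (hmem z hz) hz.1,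
            hmono.monotoneOn (hmem z hz) (hmem x₂ ⟨hx12.le, le_rfl⟩) hz.2⟩) hm1.1 hle hm2.2
      exact this.ne heq
    · have hle := hanti.antitoneOn (hmem x₁ ⟨le_rfl, hx12.le⟩) (hmem x₂ ⟨hx12.le, le_rfl⟩) hx12.le
      have := img_active h (hr1.trans hx₁.1) (hx₂.2.trans hR2) h12 i j
        (lo := W f g i j x₂) (hi := W f g i j x₁) (by
          intro z hz
          exact ⟨hanti.antitoneOn (hmem z hz) (hmem x₂ ⟨hx12.le, le_rfl⟩) hz.2,
            hanti.antitoneOn (hmem x₁ ⟨le_rfl, hx12.le⟩) (hmem z hz) hz.1⟩) hm2.1 hle hm1.2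
      exact this.ne heq.symm
  intro t₁ ht₁ t₂ ht₂ heq
  by_contra hne
  rcases lt_or_gt_of_ne hne with hlt | hlt
  · exact main t₁ ht₁ t₂ ht₂ hlt heq
  · exact main t₂ ht₂ t₁ ht₁ hlt heq.symm

theorem hon_right (h : QData f g a₀ b₀ y₁ y₂ s₁ s₂ π F G) {p q : ℕ} (hp : 1 ≤ p) (hq : 1 ≤ q)
    {c : ℝ} (hs : Side (W F G p q) c 1) :
    ∃ ε > 0, InjOn F (Icc c (c + ε)) ∧ InjOn G (Icc c (c + ε)) := by
  have P := h.pre
  obtain ⟨hfix, ε, hε, hside⟩ := hs
  have hc01 : c ∈ Icc (0 : ℝ) 1 := by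
    rw [← hfix]; exact W_mem01 h q hp c
  have hc1 : c < 1 := by
    have := (hside (ε / 2) ⟨by positivity, by linarith⟩).1.2
    linarith
  obtain ⟨r, hr1, hr2, hr3, hr4⟩ := right_end h hc01.1 hc1
  have hrI : r ∈ Icc a₀ b₀ := ⟨hr1, hr2.le⟩
  obtain ⟨η, hη, hnear⟩ := near h r hε
  have hgt : ∀ x, r < x → x < r + η → x < W f g p q x := by
    intro x hx1 hx2
    have h1 := hnear x (by rw [abs_le]; exact ⟨by linarith, by linarith⟩)
    rw [hr3, abs_lt] at h1
    have h2 := hr4 x hx1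
    have h3 := (hside (π x - c) ⟨by linarith, by linarith⟩).2
    have h4 : c + 1 * (π x - c) = π x := by ring
    rw [h4, semiW h] at h3
    exact lt_of_pi h (by linarith)
  have hwr : W f g p q r = r := by
    apply le_antisymm
    · by_contra hcon
      have h1 := hr4 _ (not_le.1 hcon)
      rw [← semiW h, hr3, hfix] at h1
      exact lt_irrefl _ h1
    · by_contra hcon
      rw [not_le] at hcon
      have hev : ∀ᶠ x in 𝓝 r, W f g p q x < r :=
        (contWpq P p q).continuousAt.eventually_lt_const hcon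
      obtain ⟨δ, hδ, hb⟩ := Metric.eventually_nhds_iff.1 hev
      have hm : 0 < min δ η := lt_min hδ hη
      have k1 := min_le_left δ η
      have k2 := min_le_right δ η
      have h1 := hb (y := r + min δ η / 2) (by
        rw [Real.dist_eq, abs_lt]; exact ⟨by linarith, by linarith⟩)
      have h2 := hgt (r + min δ η / 2) (by linarith) (by linarith)
      linarith
  have hd := deriv_ge_one hr1 hr2 hη (hasD P p q hrI) hwr (fun x h1 h2 => (hgt x h1 h2).le)
  have hdf : derivWithin (W f g 1 0) (Icc a₀ b₀) r ≠ 0 := by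
    intro h0
    obtain ⟨p', rfl⟩ : ∃ p', p = p' + 1 := ⟨p - 1, by omega⟩
    have := chain P p' q 1 0 hrI
    rw [h0, mul_zero, add_zero] at this
    rw [this] at hd
    linarith
  have hdg : derivWithin (W f g 0 1) (Icc a₀ b₀) r ≠ 0 := by
    intro h0
    obtain ⟨q', rfl⟩ : ∃ q', q = q' + 1 := ⟨q - 1, by omega⟩
    have := chain P p q' 0 1 hrI
    rw [h0, mul_zero, add_zero] at this
    rw [this] at hd
    linarith
  obtain ⟨ε₁, h1, h1'⟩ := inj_right h hr1 hr2 hr3 hr4 1 0 hdf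
  obtain ⟨ε₂, h2, h2'⟩ := inj_right h hr1 hr2 hr3 hr4 0 1 hdg
  have e1 : W F G 1 0 = F := by funext x; exact W_one_zero x
  have e2 : W F G 0 1 = G := by funext x; exact W_zero_one x
  rw [e1] at h1'
  rw [e2] at h2'
  refine ⟨min ε₁ ε₂, lt_min h1 h2, h1'.mono ?_, h2'.mono ?_⟩
  · exact Icc_subset_Icc le_rfl (by linarith [min_le_left ε₁ ε₂])
  · exact Icc_subset_Icc le_rfl (by linarith [min_le_right ε₁ ε₂])

/-! ### odd -/

/-- contraction near a fixed point is impossible -/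
theorem no_contr (h : QData f g a₀ b₀ y₁ y₂ s₁ s₂ π F G) {r : ℝ} (hr1 : a₀ < r) (hr2 : r < b₀)
    (hr4 : ∀ x, r < x → π r < π x) {p q : ℕ} (hp : 1 ≤ p) (hq : 1 ≤ q)
    (hfix : W f g p q r = r) (hd : -1 < derivWithin (W f g p q) (Icc a₀ b₀) r) {η : ℝ}
    (hη : 0 < η) (hR : ∀ x, r < x → x ≤ r + η → W f g p q x ≤ x)
    (hL : ∀ x, x < r → r - η ≤ x → x ≤ W f g p q x) : False := by
  have P := h.pre
  have hrI : r ∈ Icc a₀ b₀ := ⟨hr1.le, hr2.le⟩
  have hder : HasDerivWithinAt (fun x => W f g p q x + x)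
      (derivWithin (W f g p q) (Icc a₀ b₀) r + 1) (Icc a₀ b₀) r :=
    (hasD P p q hrI).add (hasDerivWithinAt_id r _)
  have hC1 : ContDiffOn ℝ 1 (fun x => W f g p q x + x) (Icc a₀ b₀) :=
    (contDiffW P p q).add contDiff_id.contDiffOn
  obtain ⟨ε, hε, hm⟩ := mono_near P.ab hC1 hrI (by
    rw [hder.derivWithin (uniqueDiffOn_Icc P.ab r hrI)]; linarith)
  have hgap : 0 < π y₂ - π y₁ := by
    have := h.y1s1.trans (h.s1s2.trans h.s2y2)
    linarith
  obtain ⟨ρ, hρ, hnear⟩ := near h r (half_pos hgap)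
  obtain ⟨δ, hδ, d1, d2, d3, d4, d5⟩ : ∃ δ > 0, δ ≤ ε ∧ δ ≤ η ∧ δ ≤ ρ ∧ δ ≤ r - a₀ ∧ δ ≤ b₀ - r := by
    refine ⟨min ε (min η (min ρ (min (r - a₀) (b₀ - r)))), ?_, min_le_left _ _, ?_, ?_, ?_, ?_⟩
    · refine lt_min hε (lt_min hη (lt_min hρ (lt_min ?_ ?_))) <;> linarith
    · exact (min_le_right _ _).trans (min_le_left _ _)
    · exact (min_le_right _ _).trans ((min_le_right _ _).trans (min_le_left _ _))
    · exact (min_le_right _ _).trans ((min_le_right _ _).trans ((min_le_right _ _).trans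
        (min_le_left _ _)))
    · exact (min_le_right _ _).trans ((min_le_right _ _).trans ((min_le_right _ _).trans
        (min_le_right _ _)))
  have n1 := hnear (r - δ) (by rw [abs_le]; exact ⟨by linarith, by linarith⟩)
  have n2 := hnear (r + δ) (by rw [abs_le]; exact ⟨by linarith, by linarith⟩)
  rw [abs_lt] at n1 n2
  have m1 := h.mono (show r - δ ≤ r by linarith)
  have m2 := hr4 (r + δ) (by linarith)
  refine no_inv h (x := r - δ) (y := r + δ) (by linarith) (by linarith) (by linarith)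
    (by linarith) hp hq ?_
  have hmem : ∀ z ∈ Icc (r - δ) (r + δ), z ∈ Icc a₀ b₀ ∩ Icc (r - ε) (r + ε) := fun z hz =>
    ⟨⟨by linarith [hz.1], by linarith [hz.2]⟩, ⟨by linarith [hz.1], by linarith [hz.2]⟩⟩
  have hrm := hmem r ⟨by linarith, by linarith⟩
  intro z hz
  rcases lt_trichotomy z r with hzr | hzr | hzr
  · have k1 := hL z hzr (by linarith [hz.1])
    have k2 := hm (hmem z hz) hrm hzr
    simp only [hfix] at k2
    exact ⟨by linarith [hz.1], by linarith [hz.1]⟩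
  · subst hzr
    rw [hfix]; exact hz
  · have k1 := hR z hzr (by linarith [hz.2])
    have k2 := hm hrm (hmem z hz) hzr
    simp only [hfix] at k2
    exact ⟨by linarith [hz.2], by linarith [hz.2]⟩

/-- the derivative at the right end of the fibre of an odd point is negative -/
theorem odd_deriv (h : QData f g a₀ b₀ y₁ y₂ s₁ s₂ π F G) {p q : ℕ} (hp : 1 ≤ p) (hq : 1 ≤ q)
    {c l r : ℝ} (hl : a₀ < l) (hlr : l ≤ r) (hr : r < b₀) (hfib : ∀ z, π z = c ↔ z ∈ Icc l r)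
    (hfix : W F G p q c = c) {ε : ℝ} (hε : 0 < ε) (hR : ∀ t ∈ Ioo c (c + ε), W F G p q t < t)
    (hL : ∀ t ∈ Ioo (c - ε) c, t < W F G p q t) :
    derivWithin (W f g p q) (Icc a₀ b₀) r < 0 := by
  have P := h.pre
  have hwc := contWpq P p q
  have hpr : π r = c := (hfib r).2 ⟨hlr, le_rfl⟩
  have hpl : π l = c := (hfib l).2 ⟨le_rfl, hlr⟩
  have hgtr : ∀ x, r < x → c < π x := by
    intro x hx
    refine lt_of_le_of_ne (by rw [← hpr]; exact h.mono hx.le) fun he => ?_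
    linarith [((hfib x).1 he.symm).2]
  have hltl : ∀ x, x < l → π x < c := by
    intro x hx
    refine lt_of_le_of_ne (by rw [← hpl]; exact h.mono hx.le) fun he => ?_
    linarith [((hfib x).1 he).1]
  have hwC : ∀ x ∈ Icc l r, W f g p q x ∈ Icc l r := by
    intro x hx
    rw [← hfib, ← semiW h, (hfib x).2 hx, hfix]
  obtain ⟨ρ₁, hρ₁, hn₁⟩ := near h r hε
  obtain ⟨ρ₂, hρ₂, hn₂⟩ := near h l hε
  have hwR : ∀ x, r < x → x ≤ r + ρ₁ → W f g p q x < x := by
    intro x h1 h2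
    have h3 := hn₁ x (by rw [abs_le]; exact ⟨by linarith, by linarith⟩)
    rw [hpr, abs_lt] at h3
    have h4 := hR (π x) ⟨hgtr x h1, by linarith⟩
    rw [semiW h] at h4
    exact lt_of_pi h h4
  have hwL : ∀ x, x < l → l - ρ₂ ≤ x → x < W f g p q x := by
    intro x h1 h2
    have h3 := hn₂ x (by rw [abs_le]; exact ⟨by linarith, by linarith⟩)
    rw [hpl, abs_lt] at h3
    have h4 := hL (π x) ⟨by linarith, hltl x h1⟩
    rw [semiW h] at h4
    exact lt_of_pi h h4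
  have hgap : 0 < π y₂ - π y₁ := by
    have := h.y1s1.trans (h.s1s2.trans h.s2y2)
    linarith
  obtain ⟨ρ₃, hρ₃, hn₃⟩ := near h r hgap
  obtain ⟨ρ₄, hρ₄, hn₄⟩ := near h l hgap
  have hrI : r ∈ Icc a₀ b₀ := ⟨hl.le.trans hlr, hr.le⟩
  have hlI : l ∈ Icc a₀ b₀ := ⟨hl.le, hlr.trans hr.le⟩
  -- neighbourhoods for the values
  have nbh : ∀ x₀ lo : ℝ, lo < W f g p q x₀ → ∃ δ > 0, ∀ x, |x - x₀| ≤ δ → lo < W f g p q x := by
    intro x₀ lo hlo
    obtain ⟨δ, hδ, hb⟩ := Metric.eventually_nhds_iff.1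
      (hwc.continuousAt.eventually_const_lt hlo)
    exact ⟨δ / 2, by positivity, fun x hx => hb (by rw [Real.dist_eq]; linarith)⟩
  have nbh' : ∀ x₀ hi : ℝ, W f g p q x₀ < hi → ∃ δ > 0, ∀ x, |x - x₀| ≤ δ → W f g p q x < hi := by
    intro x₀ lo hlo
    obtain ⟨δ, hδ, hb⟩ := Metric.eventually_nhds_iff.1
      (hwc.continuousAt.eventually_lt_const hlo)
    exact ⟨δ / 2, by positivity, fun x hx => hb (by rw [Real.dist_eq]; linarith)⟩
  -- A: if w r = r then the fibre is a point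
  have hA : W f g p q r = r → l = r := by
    intro hwr
    by_contra hne
    have hlt : l < r := lt_of_le_of_ne hlr hne
    obtain ⟨δ₁, hδ₁, hb⟩ := nbh r l (by rw [hwr]; exact hlt)
    obtain ⟨δ, hδ, d1, d2, d3, d4⟩ : ∃ δ > 0, δ ≤ δ₁ ∧ δ ≤ ρ₁ ∧ δ ≤ ρ₃ ∧ δ ≤ b₀ - r := by
      refine ⟨min δ₁ (min ρ₁ (min ρ₃ (b₀ - r))), ?_, min_le_left _ _, ?_, ?_, ?_⟩
      · refine lt_min hδ₁ (lt_min hρ₁ (lt_min hρ₃ ?_)); linarith
      · exact (min_le_right _ _).trans (min_le_left _ _)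
      · exact (min_le_right _ _).trans ((min_le_right _ _).trans (min_le_left _ _))
      · exact (min_le_right _ _).trans ((min_le_right _ _).trans (min_le_right _ _))
    have k := hn₃ (r + δ) (by rw [abs_le]; exact ⟨by linarith, by linarith⟩)
    rw [abs_lt, hpr] at k
    have k2 := hgtr (r + δ) (by linarith)
    refine no_inv h (x := l) (y := r + δ) hl.le (by linarith) (by rw [hpl]; exact k2)
      (by rw [hpl]; linarith) hp hq ?_
    intro z hz
    rcases le_or_gt z r with hzr | hzr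
    · have := hwC z ⟨hz.1, hzr⟩
      exact ⟨this.1, by linarith [this.2]⟩
    · have k3 := hb z (by rw [abs_le]; exact ⟨by linarith, by linarith [hz.2]⟩)
      have k4 := hwR z hzr (by linarith [hz.2])
      exact ⟨k3.le, by linarith [hz.2]⟩
  have hA' : W f g p q l = l → l = r := by
    intro hwl
    by_contra hne
    have hlt : l < r := lt_of_le_of_ne hlr hne
    obtain ⟨δ₁, hδ₁, hb⟩ := nbh' l r (by rw [hwl]; exact hlt)
    obtain ⟨δ, hδ, d1, d2, d3, d4⟩ : ∃ δ > 0, δ ≤ δ₁ ∧ δ ≤ ρ₂ ∧ δ ≤ ρ₄ ∧ δ ≤ l - a₀ := by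
      refine ⟨min δ₁ (min ρ₂ (min ρ₄ (l - a₀))), ?_, min_le_left _ _, ?_, ?_, ?_⟩
      · refine lt_min hδ₁ (lt_min hρ₂ (lt_min hρ₄ ?_)); linarith
      · exact (min_le_right _ _).trans (min_le_left _ _)
      · exact (min_le_right _ _).trans ((min_le_right _ _).trans (min_le_left _ _))
      · exact (min_le_right _ _).trans ((min_le_right _ _).trans (min_le_right _ _))
    have k := hn₄ (l - δ) (by rw [abs_le]; exact ⟨by linarith, by linarith⟩)
    rw [abs_lt, hpl] at k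
    have k2 := hltl (l - δ) (by linarith)
    refine no_inv h (x := l - δ) (y := r) (by linarith) hr.le (by rw [hpr]; exact k2)
      (by rw [hpr]; linarith) hp hq ?_
    intro z hz
    rcases le_or_gt l z with hzr | hzr
    · have := hwC z ⟨hzr, hz.2⟩
      exact ⟨by linarith [this.1], this.2⟩
    · have k3 := hb z (by rw [abs_le]; exact ⟨by linarith [hz.1], by linarith⟩)
      have k4 := hwL z hzr (by linarith [hz.1])
      exact ⟨by linarith [hz.1], k3.le⟩
  -- B: if w r is not r then it is l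
  have hB : W f g p q r ≠ r → W f g p q r = l := by
    intro hne
    by_contra hne'
    have hm := hwC r ⟨hlr, le_rfl⟩
    have h1 : l < W f g p q r := lt_of_le_of_ne hm.1 (Ne.symm hne')
    have h2 : W f g p q r < r := lt_of_le_of_ne hm.2 hne
    obtain ⟨δ₁, hδ₁, hb₁⟩ := nbh r l h1
    obtain ⟨δ₂, hδ₂, hb₂⟩ := nbh' r r h2
    obtain ⟨δ, hδ, d1, d2, d3⟩ : ∃ δ > 0, δ ≤ δ₁ ∧ δ ≤ δ₂ ∧ δ ≤ b₀ - r := by
      refine ⟨min δ₁ (min δ₂ (b₀ - r)), ?_, min_le_left _ _, ?_, ?_⟩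
      · refine lt_min hδ₁ (lt_min hδ₂ ?_); linarith
      · exact (min_le_right _ _).trans (min_le_left _ _)
      · exact (min_le_right _ _).trans (min_le_right _ _)
    have := img_active h (x := r) (y := r + δ) (lo := l) (hi := r) hrI.1 (by linarith)
      (by rw [hpr]; exact hgtr _ (by linarith)) p q (by
        intro z hz
        exact ⟨(hb₁ z (by rw [abs_le]; exact ⟨by linarith [hz.1], by linarith [hz.2]⟩)).le,
          (hb₂ z (by rw [abs_le]; exact ⟨by linarith [hz.1], by linarith [hz.2]⟩)).le⟩)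
      hl.le hlr hr.le
    rw [hpl, hpr] at this
    exact lt_irrefl _ this
  have hB' : W f g p q l ≠ l → W f g p q l = r := by
    intro hne
    by_contra hne'
    have hm := hwC l ⟨le_rfl, hlr⟩
    have h1 : l < W f g p q l := lt_of_le_of_ne hm.1 (Ne.symm hne)
    have h2 : W f g p q l < r := lt_of_le_of_ne hm.2 hne'
    obtain ⟨δ₁, hδ₁, hb₁⟩ := nbh l l h1
    obtain ⟨δ₂, hδ₂, hb₂⟩ := nbh' l r h2
    obtain ⟨δ, hδ, d1, d2, d3⟩ : ∃ δ > 0, δ ≤ δ₁ ∧ δ ≤ δ₂ ∧ δ ≤ l - a₀ := by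
      refine ⟨min δ₁ (min δ₂ (l - a₀)), ?_, min_le_left _ _, ?_, ?_⟩
      · refine lt_min hδ₁ (lt_min hδ₂ ?_); linarith
      · exact (min_le_right _ _).trans (min_le_left _ _)
      · exact (min_le_right _ _).trans (min_le_right _ _)
    have := img_active h (x := l - δ) (y := l) (lo := l) (hi := r) (by linarith) hlI.2
      (by rw [hpl]; exact hltl _ (by linarith)) p q (by
        intro z hz
        exact ⟨(hb₁ z (by rw [abs_le]; exact ⟨by linarith [hz.1], by linarith [hz.2]⟩)).le,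
          (hb₂ z (by rw [abs_le]; exact ⟨by linarith [hz.1], by linarith [hz.2]⟩)).le⟩)
      hl.le hlr hr.le
    rw [hpl, hpr] at this
    exact lt_irrefl _ this
  by_cases hwr : W f g p q r = r
  · -- the fibre is a point
    have hlr' := hA hwr
    subst hlr'
    by_contra hcon
    rw [not_lt] at hcon
    refine no_contr h hl hr (by rw [hpr]; exact hgtr) hp hq hwr (by linarith)
      (lt_min hρ₁ hρ₂) ?_ ?_
    · intro x h1 h2
      exact (hwR x h1 (by linarith [min_le_left ρ₁ ρ₂])).le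
    · intro x h1 h2
      exact (hwL x h1 (by linarith [min_le_right ρ₁ ρ₂])).le
  · have hwrl := hB hwr
    have hlt : l < r := by
      refine lt_of_le_of_ne hlr fun he => hwr ?_
      rw [hwrl, he]
    have hwl : W f g p q l = r := hB' fun h' => hlt.ne (hA' h')
    have hd0 : derivWithin (W f g p q) (Icc a₀ b₀) r ≠ 0 := by
      intro h0
      have hch := chain P p q p q hrI
      rw [h0, mul_zero] at hch
      have hvr : W f g (p + p) (q + q) r = r := by
        rw [← W_W' P.comm, hwrl, hwl]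
      -- id - v is strictly increasing near r
      have hder : HasDerivWithinAt (fun x => x - W f g (p + p) (q + q) x)
          (1 - derivWithin (W f g (p + p) (q + q)) (Icc a₀ b₀) r) (Icc a₀ b₀) r :=
        (hasDerivWithinAt_id r _).sub (hasD P (p + p) (q + q) hrI)
      have hC1 : ContDiffOn ℝ 1 (fun x => x - W f g (p + p) (q + q) x) (Icc a₀ b₀) :=
        contDiff_id.contDiffOn.sub (contDiffW P (p + p) (q + q))
      obtain ⟨ε₁, hε₁, hm⟩ := mono_near P.ab hC1 hrI (by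
        rw [hder.derivWithin (uniqueDiffOn_Icc P.ab r hrI), hch]; norm_num)
      have harl : 0 < r - a₀ := by linarith
      have hbr : 0 < b₀ - r := by linarith
      refine no_contr h (by linarith) hr (by rw [hpr]; exact hgtr) (p := p + p) (q := q + q)
        (by omega) (by omega) hvr (by rw [hch]; norm_num)
        (lt_min hε₁ (lt_min harl hbr)) ?_ ?_
      · intro x h1 h2
        have e1 := min_le_left ε₁ (min (r - a₀) (b₀ - r))
        have e2 := (min_le_right ε₁ (min (r - a₀) (b₀ - r))).trans (min_le_right _ _)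
        have := hm ⟨hrI, by constructor <;> linarith⟩ (b := x)
          ⟨⟨by linarith, by linarith⟩, ⟨by linarith, by linarith⟩⟩ h1
        simp only [hvr] at this
        linarith
      · intro x h1 h2
        have e1 := min_le_left ε₁ (min (r - a₀) (b₀ - r))
        have e2 := (min_le_right ε₁ (min (r - a₀) (b₀ - r))).trans (min_le_left _ _)
        have := hm (a := x) ⟨⟨by linarith, by linarith⟩, ⟨by linarith, by linarith⟩⟩
          ⟨hrI, by constructor <;> linarith⟩ h1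
        simp only [hvr] at this
        linarith
    by_contra hcon
    have hpos : 0 < derivWithin (W f g p q) (Icc a₀ b₀) r :=
      lt_of_le_of_ne (not_lt.1 hcon) (Ne.symm hd0)
    obtain ⟨ε₁, hε₁, hm⟩ := mono_near P.ab (contDiffW P p q) hrI hpos
    obtain ⟨δ₂, hδ₂, hb₂⟩ := nbh' r r (by rw [hwrl]; exact hlt)
    obtain ⟨δ, hδ, d1, d2, d3⟩ : ∃ δ > 0, δ ≤ ε₁ ∧ δ ≤ δ₂ ∧ δ ≤ b₀ - r := by
      refine ⟨min ε₁ (min δ₂ (b₀ - r)), ?_, min_le_left _ _, ?_, ?_⟩
      · refine lt_min hε₁ (lt_min hδ₂ ?_); linarith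
      · exact (min_le_right _ _).trans (min_le_left _ _)
      · exact (min_le_right _ _).trans (min_le_right _ _)
    have hmem : ∀ z ∈ Icc r (r + δ), z ∈ Icc a₀ b₀ ∩ Icc (r - ε₁) (r + ε₁) := fun z hz =>
      ⟨⟨by linarith [hz.1, hrI.1], by linarith [hz.2]⟩,
        ⟨by linarith [hz.1], by linarith [hz.2]⟩⟩
    have := img_active h (x := r) (y := r + δ) (lo := l) (hi := r) hrI.1 (by linarith)
      (by rw [hpr]; exact hgtr _ (by linarith)) p q (by
        intro z hz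
        refine ⟨?_, (hb₂ z (by rw [abs_le]; exact ⟨by linarith [hz.1], by linarith [hz.2]⟩)).le⟩
        rw [← hwrl]
        exact hm.monotoneOn (hmem r ⟨le_rfl, by linarith⟩) (hmem z hz) hz.1)
      hl.le hlr hr.le
    rw [hpl, hpr] at this
    exact lt_irrefl _ this

/-- the quotient word is decreasing to the right of an odd point -/
theorem odd_anti (h : QData f g a₀ b₀ y₁ y₂ s₁ s₂ π F G) {p q : ℕ} (hp : 1 ≤ p) (hq : 1 ≤ q)
    {c : ℝ} (hc0 : 0 < c) (hc1 : c < 1)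
    (hfix : W F G p q c = c) {ε : ℝ} (hε : 0 < ε) (hR : ∀ t ∈ Ioo c (c + ε), W F G p q t < t)
    (hL : ∀ t ∈ Ioo (c - ε) c, t < W F G p q t) :
    ∃ e > 0, AntitoneOn (W F G p q) (Icc c (c + e)) := by
  obtain ⟨l, r, hl, hlr, hr, hfib⟩ := fibre h hc0 hc1
  have P := h.pre
  have hpr : π r = c := (hfib r).2 ⟨hlr, le_rfl⟩
  have hrI : r ∈ Icc a₀ b₀ := ⟨hl.le.trans hlr, hr.le⟩
  have hgtr : ∀ x, r < x → c < π x := by
    intro x hx
    refine lt_of_le_of_ne (by rw [← hpr]; exact h.mono hx.le) fun he => ?_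
    linarith [((hfib x).1 he.symm).2]
  obtain ⟨ε₁, hε₁, hm⟩ := anti_near P.ab (contDiffW P p q) hrI
    (odd_deriv h hp hq hl hlr hr hfib hfix hε hR hL)
  set R := min (r + ε₁) b₀ with hRdef
  have hrR : r < R := lt_min (by linarith) hr
  have hR1 : R ≤ r + ε₁ := min_le_left _ _
  have hR2 : R ≤ b₀ := min_le_right _ _
  refine ⟨π R - c, by linarith [hgtr R hrR], ?_⟩
  intro t₁ ht₁ t₂ ht₂ h12
  rcases h12.lt_or_eq with h12 | h12
  · obtain ⟨x₁, hx₁, rfl⟩ := lift_btw h hrR.le (t := t₁) ⟨by rw [hpr]; exact ht₁.1,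
      by linarith [ht₁.2]⟩
    obtain ⟨x₂, hx₂, rfl⟩ := lift_btw h hrR.le (t := t₂) ⟨by rw [hpr]; exact ht₂.1,
      by linarith [ht₂.2]⟩
    have hx12 : x₁ < x₂ := lt_of_pi h h12
    rw [semiW h, semiW h]
    apply h.mono
    exact hm.antitoneOn ⟨⟨by linarith [hx₁.1, hrI.1], by linarith [hx₁.2]⟩,
      ⟨by linarith [hx₁.1], by linarith [hx₁.2]⟩⟩
      ⟨⟨by linarith [hx₂.1, hrI.1], by linarith [hx₂.2]⟩,
      ⟨by linarith [hx₂.1], by linarith [hx₂.2]⟩⟩ hx12.le
  · rw [h12]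

theorem odd_right (h : QData f g a₀ b₀ y₁ y₂ s₁ s₂ π F G) {p q : ℕ} (hp : 1 ≤ p) (hq : 1 ≤ q)
    {c : ℝ} (hc0 : 0 < c) (hc1 : c < 1)
    (hfix : W F G p q c = c) {ε : ℝ} (hε : 0 < ε) (hR : ∀ t ∈ Ioo c (c + ε), W F G p q t < t)
    (hL : ∀ t ∈ Ioo (c - ε) c, t < W F G p q t) : Side (W F G (2 * p) (2 * q)) c 1 := by
  have hVV : ∀ t, W F G (2 * p) (2 * q) t = W F G p q (W F G p q t) := by
    intro t
    rw [W_W' h.commFG, two_mul, two_mul]
  obtain ⟨e₁, he₁, hanti₁⟩ := odd_anti h hp hq hc0 hc1 hfix hε hR hL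
  obtain ⟨e₂, he₂, hanti₂⟩ := odd_anti (refl h) hp hq (c := 1 - c) (by linarith) (by linarith)
    (by rw [W_refl', sub_sub_cancel, hfix]) hε
    (by
      intro t ht
      rw [W_refl']
      have := hL (1 - t) ⟨by linarith [ht.2], by linarith [ht.1]⟩
      linarith)
    (by
      intro t ht
      rw [W_refl']
      have := hR (1 - t) ⟨by linarith [ht.2], by linarith [ht.1]⟩
      linarith)
  have hanti : ∀ s t, c - e₂ ≤ s → s ≤ t → t ≤ c + e₁ → W F G p q t ≤ W F G p q s := by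
    have hl : ∀ s t, c - e₂ ≤ s → s ≤ t → t ≤ c → W F G p q t ≤ W F G p q s := by
      intro s t h1 h2 h3
      have := hanti₂ (a := 1 - t) ⟨by linarith, by linarith⟩ (b := 1 - s)
        ⟨by linarith, by linarith⟩ (by linarith)
      rw [W_refl', W_refl', sub_sub_cancel, sub_sub_cancel] at this
      linarith
    have hr : ∀ s t, c ≤ s → s ≤ t → t ≤ c + e₁ → W F G p q t ≤ W F G p q s := by
      intro s t h1 h2 h3
      exact hanti₁ ⟨h1, by linarith⟩ ⟨by linarith, h3⟩ h2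
    intro s t h1 h2 h3
    rcases le_total t c with htc | htc
    · exact hl s t h1 h2 htc
    · rcases le_total c s with hsc | hsc
      · exact hr s t hsc h2 h3
      · exact (hr c t le_rfl htc h3).trans (hl s c h1 hsc le_rfl)
  have hgap : 0 < π y₂ - π y₁ := by
    have := h.y1s1.trans (h.s1s2.trans h.s2y2)
    linarith
  -- no fixed points of V near c
  have hfin := (h.fin (2 * p) (2 * q) (by omega) (by omega)).subset
    (sdiff_subset (t := {c}))
  have hopen : ({x | W F G (2 * p) (2 * q) x = x} \ {c})ᶜ ∈ 𝓝 c :=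
    hfin.isClosed.isOpen_compl.mem_nhds (by simp)
  obtain ⟨e₃, he₃, hball⟩ := Metric.mem_nhds_iff.1 hopen
  -- continuity at c
  have hcont := (contWFG h p q).continuousAt (x := c)
  have hμ : 0 < min e₂ (min c ((π y₂ - π y₁) / 2)) := lt_min he₂ (lt_min hc0 (by linarith))
  obtain ⟨e₄, he₄, hclose⟩ := Metric.continuousAt_iff.1 hcont _ hμ
  set μ := min e₂ (min c ((π y₂ - π y₁) / 2)) with hμdef
  have m1 : μ ≤ e₂ := min_le_left _ _
  have m2 : μ ≤ c := (min_le_right _ _).trans (min_le_left _ _)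
  have m3 : μ ≤ (π y₂ - π y₁) / 2 := (min_le_right _ _).trans (min_le_right _ _)
  refine ⟨by rw [hVV, hfix, hfix], ?_⟩
  obtain ⟨e, he, n1, n3, n4, n5, n6⟩ : ∃ e > 0, e ≤ e₁ ∧ e ≤ e₃ ∧ e ≤ e₄ ∧ e ≤ 1 - c ∧
      e ≤ (π y₂ - π y₁) / 2 := by
    refine ⟨min e₁ (min e₃ (min e₄ (min (1 - c) ((π y₂ - π y₁) / 2)))), ?_, min_le_left _ _,
      ?_, ?_, ?_, ?_⟩
    · refine lt_min he₁ (lt_min he₃ (lt_min he₄ (lt_min ?_ ?_))) <;> linarith
    · exact (min_le_right _ _).trans (min_le_left _ _)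
    · exact (min_le_right _ _).trans ((min_le_right _ _).trans (min_le_left _ _))
    · exact (min_le_right _ _).trans ((min_le_right _ _).trans ((min_le_right _ _).trans
        (min_le_left _ _)))
    · exact (min_le_right _ _).trans ((min_le_right _ _).trans ((min_le_right _ _).trans
        (min_le_right _ _)))
  refine ⟨e, he, ?_⟩
  intro ρ hρ
  have h1 : c + 1 * ρ = c + ρ := by ring
  rw [h1]
  refine ⟨⟨by linarith [hρ.1], by linarith [hρ.2]⟩, ?_⟩
  set t := c + ρ with ht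
  have htc : c < t := by linarith [hρ.1]
  have hte : t < c + e := by linarith [hρ.2]
  have hVne : W F G (2 * p) (2 * q) t ≠ t := by
    intro hVt
    have := hball (show t ∈ Metric.ball c e₃ by
      rw [Metric.mem_ball, Real.dist_eq, abs_lt]; exact ⟨by linarith, by linarith⟩)
    exact this ⟨hVt, htc.ne'⟩
  have hωt := hclose (x := t) (by
    rw [Real.dist_eq, abs_lt]; exact ⟨by linarith, by linarith⟩)
  rw [hfix, Real.dist_eq, abs_lt] at hωt
  have hωc : W F G p q t ≤ c := by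
    have := hanti c t (by linarith) htc.le (by linarith)
    rwa [hfix] at this
  have hVge : t ≤ W F G (2 * p) (2 * q) t := by
    by_contra hcon
    rw [not_le, hVV] at hcon
    refine no_inv' h (a := W F G p q t) (b := t) (by linarith [hωt.1]) (by linarith)
      (by linarith) (by linarith [hωt.1]) hp hq ?_
    intro s hs
    constructor
    · exact hanti s t (by linarith [hs.1, hωt.1]) hs.2 (by linarith)
    · exact (hanti _ s (by linarith [hωt.1]) hs.1 (by linarith [hs.2])).trans hcon.le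
  have := lt_of_le_of_ne hVge (Ne.symm hVne)
  linarith

end PreA4

open PreA4

variable {f g π F G : ℝ → ℝ} {a₀ b₀ y₁ y₂ s₁ s₂ : ℝ}

theorem side_refl {p q : ℕ} {c : ℝ} (hs : Side (W F G p q) c (-1)) :
    Side (W (fun x => 1 - F (1 - x)) (fun x => 1 - G (1 - x)) p q) (1 - c) 1 := by
  obtain ⟨h1, ε, hε, h2⟩ := hs
  refine ⟨by rw [W_refl', sub_sub_cancel, h1], ε, hε, ?_⟩
  intro r hr
  obtain ⟨k1, k2⟩ := h2 r hr
  refine ⟨⟨by linarith [k1.2], by linarith [k1.1]⟩, ?_⟩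
  rw [W_refl']
  have e1 : 1 - (1 - c + 1 * r) = c + -1 * r := by ring
  rw [e1]
  linarith

theorem side_refl' {p q : ℕ} {c : ℝ}
    (hs : Side (W (fun x => 1 - F (1 - x)) (fun x => 1 - G (1 - x)) p q) (1 - c) 1) :
    Side (W F G p q) c (-1) := by
  obtain ⟨h1, ε, hε, h2⟩ := hs
  rw [W_refl', sub_sub_cancel] at h1
  refine ⟨by linarith, ε, hε, ?_⟩
  intro r hr
  obtain ⟨k1, k2⟩ := h2 r hr
  refine ⟨⟨by linarith [k1.2], by linarith [k1.1]⟩, ?_⟩
  rw [W_refl'] at k2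
  have e1 : 1 - (1 - c + 1 * r) = c + -1 * r := by ring
  rw [e1] at k2
  linarith

theorem QData.hon (h : QData f g a₀ b₀ y₁ y₂ s₁ s₂ π F G) :
    ∀ p q, 1 ≤ p → 1 ≤ q → ∀ c s : ℝ, (s = 1 ∨ s = -1) → Side (W F G p q) c s →
      ∃ ε > 0, InjOn F ((fun r => c + s * r) '' Icc (0 : ℝ) ε) ∧
        InjOn G ((fun r => c + s * r) '' Icc (0 : ℝ) ε) := by
  rintro p q hp hq c s (rfl | rfl) hside
  · obtain ⟨ε, hε, h1, h2⟩ := hon_right h hp hq hside
    have hsub : (fun r => c + 1 * r) '' Icc (0 : ℝ) ε ⊆ Icc c (c + ε) := by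
      rintro _ ⟨r, hr, rfl⟩
      exact ⟨by simp only; linarith [hr.1], by simp only; linarith [hr.2]⟩
    exact ⟨ε, hε, h1.mono hsub, h2.mono hsub⟩
  · obtain ⟨ε, hε, h1, h2⟩ := hon_right (refl h) hp hq (side_refl hside)
    refine ⟨ε, hε, ?_, ?_⟩
    · rintro _ ⟨r, hr, rfl⟩ _ ⟨r', hr', rfl⟩ heq
      simp only at heq ⊢
      have := h1 (x₁ := 1 - (c + -1 * r)) ⟨by linarith [hr.1], by linarith [hr.2]⟩
        (x₂ := 1 - (c + -1 * r')) ⟨by linarith [hr'.1], by linarith [hr'.2]⟩ (by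
          simp only [sub_sub_cancel]; rw [heq])
      linarith
    · rintro _ ⟨r, hr, rfl⟩ _ ⟨r', hr', rfl⟩ heq
      simp only at heq ⊢
      have := h2 (x₁ := 1 - (c + -1 * r)) ⟨by linarith [hr.1], by linarith [hr.2]⟩
        (x₂ := 1 - (c + -1 * r')) ⟨by linarith [hr'.1], by linarith [hr'.2]⟩ (by
          simp only [sub_sub_cancel]; rw [heq])
      linarith

theorem QData.odd (h : QData f g a₀ b₀ y₁ y₂ s₁ s₂ π F G) :
    ∀ p q, 1 ≤ p → 1 ≤ q → ∀ c ∈ Ioo (0 : ℝ) 1, W F G p q c = c →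
      (∃ ε > 0, (∀ t ∈ Ioo c (c + ε), W F G p q t < t) ∧ ∀ t ∈ Ioo (c - ε) c, t < W F G p q t) →
      Side (W F G (2 * p) (2 * q)) c 1 ∧ Side (W F G (2 * p) (2 * q)) c (-1) := by
  rintro p q hp hq c hc hfix ⟨ε, hε, hR, hL⟩
  refine ⟨odd_right h hp hq hc.1 hc.2 hfix hε hR hL, side_refl' ?_⟩
  refine odd_right (refl h) hp hq (by linarith [hc.2]) (by linarith [hc.1])
    (by rw [W_refl', sub_sub_cancel, hfix]) hε ?_ ?_
  · intro t ht
    rw [W_refl']
    have := hL (1 - t) ⟨by linarith [ht.2], by linarith [ht.1]⟩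
    linarith
  · intro t ht
    rw [W_refl']
    have := hR (1 - t) ⟨by linarith [ht.2], by linarith [ht.1]⟩
    linarith

end Pool.Agent.CFP
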